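import Pool.Agent.TH216.G3.HDG
import Pool.Agent.TH216.MF.H4

set_option autoImplicit false

/-! At most three variables, generic coefficients: the Igusa zeta functions and the Poincare
series. -/

namespace Pool.Agent.TH216.HD

open MvPolynomial MeasureTheory Filter Topology Pool.Agent.H628R4.TP
open Pool.Agent.W425.PZ Pool.Agent.W206.CU
open Pool.Agent.W427.SMC (igusaZeta)
open Pool.Agent.W425.MM Pool.Agent.W425.GN
open Pool.Agent.W425.ND (spa)
open Pool.Agent.TH216.MF (pole_of_poincare_ord)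

variable {r n : ℕ}

/-- rational coefficients -/
theorem genQ3 (hn : n ≤ 3)
    (v : Fin r → Fin n → ℕ) (hv : Function.Injective v) (hv1 : ∃ j, v j ≠ 0)
    (h : MvPolynomial (Fin n) ℚ) (hh : ∀ w ∈ h.support, InHull v w) :
    ∃ g : MvPolynomial (Fin r) ℚ, g ≠ 0 ∧ ∀ c : Fin r → ℚ, eval c g ≠ 0 →
      ∃ S : Finset ℕ, ∀ (p : ℕ) [Fact p.Prime], p ∉ S →
      ∀ [MeasurableSpace (Fin n → PadicInt p)] [BorelSpace (Fin n → PadicInt p)],
      ∀ F : ℂ → ℂ, MeromorphicOn F Set.univ →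
        (∀ s : ℂ, 0 < s.re →
          F s = ∫ x, ((‖MvPolynomial.eval₂ (algebraMap ℚ (Padic p))
                    (fun i => ((x i : PadicInt p) : Padic p)) (spa v c + h)‖ : ℝ) : ℂ) ^ s
                  ∂(MeasureTheory.Measure.addHaar : MeasureTheory.Measure (Fin n → PadicInt p))) →
        ∀ s₀ : ℂ, meromorphicOrderAt F s₀ < 0 → ∀ b : Polynomial ℂ,
          IsBFunction (MvPolynomial.map (algebraMap ℚ ℂ) (spa v c + h)) b →
          b.eval (s₀.re : ℂ) = 0 := by
  obtain ⟨g, hg, hgc⟩ := Pool.Agent.TH216.G3.gen_padicA hn v hv hv1 h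
    (fun w hw => (inC_iff v w).2 (hh w hw))
  exact ⟨g, hg, fun c hc => hgc c hc⟩

/-- integral coefficients, the normalised zeta function -/
theorem genZ3 (hn : n ≤ 3)
    (v : Fin r → Fin n → ℕ) (hv : Function.Injective v) (hv1 : ∃ j, v j ≠ 0)
    (h : MvPolynomial (Fin n) ℤ) (hh : ∀ w ∈ h.support, InHull v w) :
    ∃ g : MvPolynomial (Fin r) ℚ, g ≠ 0 ∧ ∀ c : Fin r → ℤ, eval (fun j => (c j : ℚ)) g ≠ 0 →
      ∃ S : Finset ℕ, ∀ (p : ℕ) [Fact p.Prime], p ∉ S → ∀ Z : ℂ → ℂ, MeromorphicOn Z Set.univ →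
        (∀ s : ℂ, 0 < s.re → Z s = igusaZeta p (spa v c + h) s) →
        ∀ s₀ : ℂ, meromorphicOrderAt Z s₀ < 0 → ∀ b : Polynomial ℂ,
          IsBFunction (MvPolynomial.map (Int.castRingHom ℂ) (spa v c + h)) b →
          b.eval (s₀.re : ℂ) = 0 := by
  obtain ⟨g1, hg1, h1⟩ := genQ3 hn v hv hv1
    (MvPolynomial.map (Int.castRingHom ℚ) h)
    (fun w hw => hh w (MvPolynomial.support_map_subset _ _ hw))
  refine ⟨g1, hg1, fun c hc => ?_⟩
  obtain ⟨S, hS⟩ := h1 (fun j => (c j : ℚ)) hc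
  have hmap : MvPolynomial.map (Int.castRingHom ℚ) (spa v c + h) =
      spa v (fun j => (c j : ℚ)) + MvPolynomial.map (Int.castRingHom ℚ) h := by
    rw [map_add]
    congr 1
    unfold spa
    simp
  have hmapC : MvPolynomial.map (algebraMap ℚ ℂ)
      (spa v (fun j => (c j : ℚ)) + MvPolynomial.map (Int.castRingHom ℚ) h) =
      MvPolynomial.map (Int.castRingHom ℂ) (spa v c + h) := by
    rw [← hmap, MvPolynomial.map_map]
    congr 1
  refine ⟨S, fun p hpf hpS Z hZ hZi s₀ hs₀ b hb => ?_⟩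
  let _ : MeasurableSpace (Fin n → PadicInt p) := borel _
  have _ : BorelSpace (Fin n → PadicInt p) := ⟨rfl⟩
  set V : ℂ := (((Measure.addHaar : Measure (Fin n → PadicInt p)) Set.univ).toReal : ℂ) with hV
  have hV0 : V ≠ 0 := by
    have : (0 : ℝ) < ((Measure.addHaar : Measure (Fin n → PadicInt p)) Set.univ).toReal :=
      ENNReal.toReal_pos ((isOpen_univ.measure_pos _ Set.univ_nonempty).ne') (measure_ne_top _ _)
    rw [hV]
    exact_mod_cast this.ne'
  have hord : meromorphicOrderAt (fun s => V * Z s) s₀ = meromorphicOrderAt Z s₀ := by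
    have h5 := meromorphicOrderAt_mul_of_ne_zero (f := Z) (g := fun _ : ℂ => V)
      (analyticAt_const (x := s₀)) hV0
    exact h5
  exact hS p hpS (fun s => V * Z s)
    (fun s hs => (MeromorphicAt.const V s).mul (hZ s hs))
    (fun s hs => by
      rw [hZi s hs, ← integral_haar p (spa v c + h) s, hmap]) s₀ (by rw [hord]; exact hs₀) b
    (by rw [hmapC]; exact hb)

/-- poles of the Poincare series -/
theorem genP3 (hn : n ≤ 3)
    (v : Fin r → Fin n → ℕ) (hv : Function.Injective v) (hv1 : ∃ j, v j ≠ 0)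
    (h : MvPolynomial (Fin n) ℤ) (hh : ∀ w ∈ h.support, InHull v w) :
    ∃ g : MvPolynomial (Fin r) ℚ, g ≠ 0 ∧
      ∀ c : Fin r → ℤ, MvPolynomial.eval (fun j => (c j : ℚ)) g ≠ 0 →
      ∃ S : Finset ℕ, ∀ p : ℕ, p.Prime → p ∉ S →
        ∀ (T₀ : ℂ) (m : ℕ), 0 < m → IsPoleOfOrder (poincare p (spa v c + h)) T₀ m →
        ∀ b : Polynomial ℂ,
          IsBFunction (MvPolynomial.map (Int.castRingHom ℂ) (spa v c + h)) b →
          b.eval ((-Real.log ‖T₀‖ / Real.log p : ℝ) : ℂ) = 0 := by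
  have hr : 0 < r := by
    obtain ⟨j1, -⟩ := hv1
    exact Fin.pos j1
  obtain ⟨g1, hg1, h1⟩ := genZ3 hn v hv hv1 h hh
  obtain ⟨g2, hg2, h2⟩ := Pool.Agent.W425.GN.gen_ne (F := ℚ) hr v hv
    (MvPolynomial.map (Int.castRingHom ℚ) h)
  refine ⟨g1 * g2, mul_ne_zero hg1 hg2, fun c hc => ?_⟩
  rw [map_mul] at hc
  obtain ⟨S, hS⟩ := h1 c (left_ne_zero_of_mul hc)
  have hmap : MvPolynomial.map (Int.castRingHom ℚ) (spa v c + h) =
      spa v (fun j => (c j : ℚ)) + MvPolynomial.map (Int.castRingHom ℚ) h := by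
    rw [map_add]
    congr 1
    unfold spa
    simp
  have hmapC : MvPolynomial.map (algebraMap ℚ ℂ)
      (spa v (fun j => (c j : ℚ)) + MvPolynomial.map (Int.castRingHom ℚ) h) =
      MvPolynomial.map (Int.castRingHom ℂ) (spa v c + h) := by
    rw [← hmap, MvPolynomial.map_map]
    congr 1
  have hne : spa v c + h ≠ 0 := by
    intro h0
    refine h2 (fun j => ((c j : ℚ) : ℂ)) ?_ ?_
    · have h5 := MvPolynomial.aeval_algebraMap_apply ℂ (fun j => (c j : ℚ)) g2
      intro h6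
      apply right_ne_zero_of_mul hc
      have h7 : ((MvPolynomial.eval (fun j => (c j : ℚ)) g2 : ℚ) : ℂ) = 0 := by
        rw [← h6]
        exact h5.symm
      exact_mod_cast h7
    · have h8 := congrArg (MvPolynomial.map (Int.castRingHom ℂ)) h0
      rw [← hmapC, map_zero, map_add] at h8
      rw [← h8]
      congr 1
      unfold spa
      simp
  refine ⟨S, fun p hp hpS T₀ m hm hP b hb => ?_⟩
  have : Fact p.Prime := ⟨hp⟩
  obtain ⟨Z, s₀, hZ, hZi, hZo, hre⟩ := pole_of_poincare_ord p (spa v c + h)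
    (Pool.Agent.W195.PZ.null hne) hm hP
  have hneg : meromorphicOrderAt Z s₀ < 0 := lt_of_le_of_lt hZo (by
    have : (-(m : ℤ) : ℤ) < 0 := by omega
    exact_mod_cast this)
  have h3 := hS p hpS Z hZ hZi s₀ hneg b hb
  rw [hre] at h3
  exact h3

end Pool.Agent.TH216.HD
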