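import Pool.Agent.TH216.G3.E1

set_option autoImplicit false

/-! Generic coefficients, at most three variables, also with a constant term. -/

namespace Pool.Agent.TH216.G3

open MvPolynomial Pool.Agent.H628R4.TP Pool.Agent.W425.MM Pool.Agent.W425.GN
open Pool.Agent.W425.ND (spa)
open Pool.Agent.W426.SM (gord IsRay face)
open Pool.Agent.W803.SM (gord_le exists_gord)
open Pool.Agent.W425.BF (shf shf_eval shf_ne hz hz_support hz_eq cof)
open Pool.Agent.W425.SV (NP)
open Pool.Agent.W425.PN (qpoly idn_of)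
open Pool.Agent.TH216.MF (KRelJ RecJ InC inC_self)
open Pool.Agent.W428.MOT (Pt Constr ratRing sp LuMu InRat zetaE)
open Pool.Agent.W375.MG (zetaG Good)
open Pool.Agent.TH216.MC

variable {r N : ℕ}

lemma gord_zero {R : ℕ} (m : Fin R → Fin N → ℕ) (x0 : Fin R) (h0 : m x0 = 0) (a : Fin N → ℕ) :
    gord m a = 0 := by
  have := gord_le m a x0
  rw [h0] at this
  simpa using this

theorem both_const {R : ℕ} (m : Fin R → Fin N → ℕ) (hR : 0 < R) (x0 : Fin R) (h0 : m x0 = 0)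
    (Bad : ℚ → Prop) : Both m Bad := by
  have hHB : HB m fun _ => False := fun J q hq e he T0 hT0 σ hσ => hσ.elim
  obtain ⟨S, hS, hz1, hz2⟩ := both m hR _ hHB
  refine ⟨S, fun p hp => ?_, hz1, hz2⟩
  rcases hS p hp with h1 | ⟨a, ha, hg, -⟩
  · exact Or.inl h1
  · exfalso
    rw [gord_zero m x0 h0] at hg
    exact lt_irrefl _ hg

lemma deg_ne {F : Type} [Field F] (φ : F →+* ℂ) (v : Fin r → Fin N → ℕ)
    (hv : Function.Injective v) (h : MvPolynomial (Fin N) F)
    (hvh : ∀ w ∈ h.support, ∀ j, ¬ ∀ x, w x = v j x) (c : Fin r → ℂ) (j1 : Fin r)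
    (h1 : v j1 ≠ 0) (hc : c j1 ≠ 0) :
    (spa v c + MvPolynomial.map φ h).totalDegree ≠ 0 := by
  classical
  intro hd
  rw [totalDegree_eq_zero_iff] at hd
  have hco : coeff (Finsupp.equivFunOnFinite.symm (v j1)) (spa v c + MvPolynomial.map φ h) =
      c j1 := by
    rw [coeff_add, coef_spa v hv, coeff_map]
    have h2 : coeff (Finsupp.equivFunOnFinite.symm (v j1)) h = 0 := by
      by_contra hne
      exact hvh _ (mem_support_iff.2 hne) j1 fun x => rfl
    rw [h2, map_zero, add_zero]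
  apply h1
  funext x
  exact hd _ (mem_support_iff.2 (by rw [hco]; exact hc)) x

theorem gen30c {F : Type} [Field F] [Algebra F ℂ] (hr : 0 < r)
    (v : Fin r → Fin N → ℕ) (hv : Function.Injective v) (j0 : Fin r) (h0 : v j0 = 0) (j1 : Fin r)
    (h1 : v j1 ≠ 0) (h : MvPolynomial (Fin N) F) (hh : ∀ w ∈ h.support, NP v w)
    (hvh : ∀ w ∈ h.support, ∀ j, ¬ ∀ x, w x = v j x) :
    ∃ g : MvPolynomial (Fin r) F, g ≠ 0 ∧ ConM IsBFunction v h g := by
  classical
  obtain ⟨g2, hg2, h2⟩ := gen_nonDF pF4 hr v (we h) (we_np v h hh) (wc h)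
  have hg3 : (∏ j : Fin r, (X j : MvPolynomial (Fin r) F)) ≠ 0 :=
    Finset.prod_ne_zero_iff.2 fun j _ => X_ne_zero j
  refine ⟨g2 * ∏ j : Fin r, (X j : MvPolynomial (Fin r) F),
    mul_ne_zero hg2 hg3, fun k _ _ _ _ c hc => ?_⟩
  rw [map_mul, map_prod] at hc
  have hcne : ∀ j, c j ≠ 0 := by
    intro j hj
    have h5 := Finset.prod_ne_zero_iff.1 (right_ne_zero_of_mul hc) j (Finset.mem_univ j)
    rw [aeval_X, hj, map_zero] at h5
    exact h5 rfl
  have hnd := h2 _ (left_ne_zero_of_mul hc)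
  have hnk : NonD (Fin.append v (we h)) (fun j => algebraMap k ℂ
      (Fin.append c (fun l => algebraMap F k (wc h l)) j)) := by
    rw [append_map]
    simp only [← IsScalarTower.algebraMap_apply F k ℂ]
    exact hnd
  obtain ⟨S, hS, hz⟩ := gen_S3 hr v h hh (both_const (Fin.append v (we h)) (by omega)
    (Fin.castAdd _ j0) (by rw [Fin.append_left, h0]) _)
  obtain ⟨hz1, hz2⟩ := hz k c hcne hnk
  refine ⟨S, fun p hp => ?_, hz1, hz2⟩
  rcases hS p hp with rfl | ⟨a, ha, hg, hLP, rfl⟩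
  · refine ⟨by norm_num, by norm_num, fun b hb' => ?_⟩
    have e : (((-1 : ℤ) : ℂ) / ((1 : ℤ) : ℂ)) = -1 := by
      push_cast
      ring
    rw [e]
    exact bneg1 _ (deg_ne (algebraMap F ℂ) v hv h hvh _ j1 h1
      ((map_ne_zero (algebraMap k ℂ)).2 (hcne j1))) b hb'
  · exfalso
    rw [gord_zero v j0 h0] at hg
    exact lt_irrefl _ hg

/-- **Generic coefficients, global `b`-functions, at most three variables, all the Newton
polytopes.** -/
theorem gen_motA {F : Type} [Field F] [Algebra F ℂ] (hN3 : N ≤ 3)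
    (v : Fin r → Fin N → ℕ) (hv : Function.Injective v) (hv1 : ∃ j, v j ≠ 0)
    (h : MvPolynomial (Fin N) F) (hull : ∀ w ∈ h.support, InC v Finset.univ (fun i => w i)) :
    ∃ g : MvPolynomial (Fin r) F, g ≠ 0 ∧ ConM IsBFunction v h g := by
  obtain ⟨j1, hj1⟩ := hv1
  have hr : 0 < r := Fin.pos j1
  by_cases hv0 : ∀ j, v j ≠ 0
  · exact gen_mot3 hr hN3 v hv hv0 h hull
  · push Not at hv0
    obtain ⟨j0, hj0⟩ := hv0
    have hh := inC_np v h hull
    have hh' : ∀ w ∈ (hz v h).support, NP v w := fun w hw => hh w ((hz_support v hv h).1 w hw)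
    obtain ⟨g, hg, hgc⟩ := gen30c hr v hv j0 hj0 j1 hj1 (hz v h) hh' (hz_support v hv h).2
    exact ⟨shf (cof v h) g, shf_ne _ _ hg, conM_shift _ v h g hgc⟩

theorem gen_p30c (hr : 0 < r)
    (v : Fin r → Fin N → ℕ) (hv : Function.Injective v) (j0 : Fin r) (h0 : v j0 = 0) (j1 : Fin r)
    (h1 : v j1 ≠ 0) (h : MvPolynomial (Fin N) ℚ) (hh : ∀ w ∈ h.support, NP v w)
    (hvh : ∀ w ∈ h.support, ∀ j, ¬ ∀ x, w x = v j x) :
    ∃ g : MvPolynomial (Fin r) ℚ, g ≠ 0 ∧ ∀ c : Fin r → ℚ, eval c g ≠ 0 → ConclR v h c := by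
  classical
  obtain ⟨g2, hg2, h2⟩ := gen_nonDF pF4 hr v (we h) (we_np v h hh) (wc h)
  have hg3 : (∏ j : Fin r, (X j : MvPolynomial (Fin r) ℚ)) ≠ 0 :=
    Finset.prod_ne_zero_iff.2 fun j _ => X_ne_zero j
  refine ⟨g2 * ∏ j : Fin r, (X j : MvPolynomial (Fin r) ℚ),
    mul_ne_zero hg2 hg3, fun c hc'' => ?_⟩
  rw [map_mul] at hc''
  have hc' := left_ne_zero_of_mul hc''
  have hcne : ∀ j, c j ≠ 0 := by
    have h5 := right_ne_zero_of_mul hc''
    rw [map_prod] at h5
    intro j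
    have h6 := Finset.prod_ne_zero_iff.1 h5 j (Finset.mem_univ j)
    rwa [eval_X] at h6
  have hc : aeval (fun j => ((c j : ℚ) : ℂ)) g2 ≠ 0 := by
    have h0 : aeval (fun j => ((c j : ℚ) : ℂ)) g2 = ((eval c g2 : ℚ) : ℂ) := by
      have h5 := aeval_algebraMap_apply ℂ c g2
      exact h5
    rw [h0]
    exact_mod_cast hc'
  have hnd := h2 _ hc
  have hq : qpoly (Fin.append v (we h)) (Fin.append c (wc h)) = spa v c + h := by
    unfold qpoly
    rw [Fin.sum_univ_add]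
    simp only [Fin.append_left, Fin.append_right]
    congr 1
    have h3 := h_eq (RingHom.id ℚ) h
    rw [MvPolynomial.map_id] at h3
    exact h3.symm
  have hnq : NonD (Fin.append v (we h)) (fun j => ((Fin.append c (wc h) j : ℚ) : ℂ)) := by
    have h3 := append_map (fun q : ℚ => (q : ℂ)) c (wc h)
    rw [h3]
    exact hnd
  obtain ⟨S1, hS1⟩ := Pool.Agent.W425.PN.poles (Fin.append v (we h)) (Fin.append c (wc h))
    (by omega) hnq
  rw [hq] at hS1
  refine ⟨S1, fun p _ hp _ _ F hF hFI s₀ hs₀ b hbf => ?_⟩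
  rw [map_add, map_spa] at hbf
  have hb1 : b.eval (-1) = 0 := bneg1 _ (deg_ne (algebraMap ℚ ℂ) v hv h hvh _ j1 h1
    ((map_ne_zero (algebraMap ℚ ℂ)).2 (hcne j1))) b hbf
  rcases hS1 p hp F hF hFI s₀ hs₀ with h6 | ⟨a, ha, hg, h6⟩
  · rw [h6]
    push_cast
    exact hb1
  · exfalso
    rw [gord_zero (Fin.append v (we h)) (Fin.castAdd _ j0) (by rw [Fin.append_left, h0])] at hg
    exact lt_irrefl _ hg

/-- **Poles of the p-adic zeta functions, generic coefficients, at most three variables, all the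
Newton polytopes.** -/
theorem gen_padicA (hN3 : N ≤ 3)
    (v : Fin r → Fin N → ℕ) (hv : Function.Injective v) (hv1 : ∃ j, v j ≠ 0)
    (h : MvPolynomial (Fin N) ℚ) (hull : ∀ w ∈ h.support, InC v Finset.univ (fun i => w i)) :
    ∃ g : MvPolynomial (Fin r) ℚ, g ≠ 0 ∧ ∀ c : Fin r → ℚ, eval c g ≠ 0 → ConclR v h c := by
  obtain ⟨j1, hj1⟩ := hv1
  have hr : 0 < r := Fin.pos j1
  by_cases hv0 : ∀ j, v j ≠ 0
  · exact gen_padic3 hr hN3 v hv hv0 h hull
  · push Not at hv0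
    obtain ⟨j0, hj0⟩ := hv0
    have hh := inC_np v h hull
    obtain ⟨g, hg, hgc⟩ := gen_p30c hr v hv j0 hj0 j1 hj1 (hz v h)
      (fun w hw => hh w ((hz_support v hv h).1 w hw)) (hz_support v hv h).2
    refine ⟨shf (cof v h) g, shf_ne _ _ hg, fun c hc => ?_⟩
    have h1 := hgc (fun j => c j + cof v h j) (by
      intro h2
      apply hc
      have h3 := shf_eval (K := ℚ) (cof v h) g c
      rw [← coe_aeval_eq_eval] at h2 ⊢
      rw [← h2]
      exact h3)
    unfold ConclR at h1 ⊢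
    rw [hz_eq v h c]
    exact h1

end Pool.Agent.TH216.G3
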