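import Pool.Agent.TH216.G3.HDP

set_option autoImplicit false

/-! At most three variables, generic coefficients: the Igusa zeta functions and the Poincare
series, with orders. -/

namespace Pool.Agent.TH216.HD

open MvPolynomial MeasureTheory Filter Topology Pool.Agent.H628R4.TP
open Pool.Agent.W425.PZ Pool.Agent.W206.CU
open Pool.Agent.W427.SMC (igusaZeta)
open Pool.Agent.W425.MM Pool.Agent.W425.GN
open Pool.Agent.W425.ND (spa)
open Pool.Agent.W425.SV (NP)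
open Pool.Agent.TH216.MF (pole_of_poincare_ord ConclM gen_ord)

variable {r n : ℕ}

/-- the orders, for the normalised zeta function of an integral polynomial -/
theorem ordZ (hr : 0 < r)
    (v : Fin r → Fin n → ℕ) (hv : Function.Injective v) (hv0 : ∀ j, v j ≠ 0)
    (h : MvPolynomial (Fin n) ℤ) (hh : ∀ w ∈ h.support, NP v w) :
    ∃ g : MvPolynomial (Fin r) ℚ, g ≠ 0 ∧ ∀ c : Fin r → ℤ, eval (fun j => (c j : ℚ)) g ≠ 0 →
      ∃ S : Finset ℕ, ∀ (p : ℕ) [Fact p.Prime], p ∉ S → ∀ Z : ℂ → ℂ, MeromorphicOn Z Set.univ →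
        (∀ s : ℂ, 0 < s.re → Z s = igusaZeta p (spa v c + h) s) →
        ∀ s₀ : ℂ, meromorphicOrderAt Z s₀ < 0 → ∀ b : Polynomial ℂ, b ≠ 0 →
          IsBFunction (MvPolynomial.map (Int.castRingHom ℂ) (spa v c + h)) b →
          ∀ σ : ℚ, s₀.re = -(σ : ℝ) → LocS v h σ →
            ((-(b.rootMultiplicity ((s₀.re : ℝ) : ℂ) : ℤ) : ℤ) : WithTop ℤ) ≤
              meromorphicOrderAt Z s₀ := by
  obtain ⟨g1, hg1, h1⟩ := gen_ord hr v hv hv0
    (MvPolynomial.map (Int.castRingHom ℚ) h)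
    (fun w hw => hh w (MvPolynomial.support_map_subset _ _ hw))
  refine ⟨g1, hg1, fun c hc => ?_⟩
  obtain ⟨S, hS⟩ := h1 (fun j => (c j : ℚ)) hc
  have hmap : MvPolynomial.map (Int.castRingHom ℚ) (spa v c + h) =
      spa v (fun j => (c j : ℚ)) + MvPolynomial.map (Int.castRingHom ℚ) h := by
    rw [map_add]
    congr 1
    unfold spa
    simp
  have hmapC : MvPolynomial.map (algebraMap ℚ ℂ)
      (spa v (fun j => (c j : ℚ)) + MvPolynomial.map (Int.castRingHom ℚ) h) =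
      MvPolynomial.map (Int.castRingHom ℂ) (spa v c + h) := by
    rw [← hmap, MvPolynomial.map_map]
    congr 1
  refine ⟨S, fun p hpf hpS Z hZ hZi s₀ hs₀ b hb0 hb σ hσ hloc => ?_⟩
  let _ : MeasurableSpace (Fin n → PadicInt p) := borel _
  have _ : BorelSpace (Fin n → PadicInt p) := ⟨rfl⟩
  set V : ℂ := (((Measure.addHaar : Measure (Fin n → PadicInt p)) Set.univ).toReal : ℂ) with hV
  have hV0 : V ≠ 0 := by
    have : (0 : ℝ) < ((Measure.addHaar : Measure (Fin n → PadicInt p)) Set.univ).toReal :=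
      ENNReal.toReal_pos ((isOpen_univ.measure_pos _ Set.univ_nonempty).ne') (measure_ne_top _ _)
    rw [hV]
    exact_mod_cast this.ne'
  have hord : meromorphicOrderAt (fun s => V * Z s) s₀ = meromorphicOrderAt Z s₀ := by
    have h5 := meromorphicOrderAt_mul_of_ne_zero (f := Z) (g := fun _ : ℂ => V)
      (analyticAt_const (x := s₀)) hV0
    exact h5
  obtain ⟨-, -, α, hα, -, h4⟩ := hS p hpS (fun s => V * Z s)
    (fun s hs => (MeromorphicAt.const V s).mul (hZ s hs))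
    (fun s hs => by
      rw [hZi s hs, ← integral_haar p (spa v c + h) s, hmap]) s₀ (by rw [hord]; exact hs₀) b hb0
    (by rw [hmapC]; exact hb)
  have hασ : -α = σ := by
    have h6 : (α : ℝ) = -(σ : ℝ) := by rw [← hα, hσ]
    have h7 : α = -σ := by exact_mod_cast h6
    rw [h7, neg_neg]
  rw [← hord]
  apply h4
  rw [hασ]
  exact ((locS_iff v h σ).2 hloc).map _

/-- both conclusions, for the normalised zeta function of an integral polynomial -/
theorem genZ3O (hn : n ≤ 3)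
    (v : Fin r → Fin n → ℕ) (hv : Function.Injective v) (hv1 : ∃ j, v j ≠ 0)
    (h : MvPolynomial (Fin n) ℤ) (hh : ∀ w ∈ h.support, InHull v w) :
    ∃ g : MvPolynomial (Fin r) ℚ, g ≠ 0 ∧ ∀ c : Fin r → ℤ, eval (fun j => (c j : ℚ)) g ≠ 0 →
      ∃ S : Finset ℕ, ∀ (p : ℕ) [Fact p.Prime], p ∉ S → ∀ Z : ℂ → ℂ, MeromorphicOn Z Set.univ →
        (∀ s : ℂ, 0 < s.re → Z s = igusaZeta p (spa v c + h) s) →
        ∀ s₀ : ℂ, meromorphicOrderAt Z s₀ < 0 → ∀ b : Polynomial ℂ, b ≠ 0 →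
          IsBFunction (MvPolynomial.map (Int.castRingHom ℂ) (spa v c + h)) b →
          b.eval (s₀.re : ℂ) = 0 ∧
          ∀ σ : ℚ, s₀.re = -(σ : ℝ) → (∀ j, v j ≠ 0) → LocS v h σ →
            ((-(b.rootMultiplicity ((s₀.re : ℝ) : ℂ) : ℤ) : ℤ) : WithTop ℤ) ≤
              meromorphicOrderAt Z s₀ := by
  obtain ⟨g1, hg1, h1⟩ := genZ3 hn v hv hv1 h hh
  have hr : 0 < r := by
    obtain ⟨j1, -⟩ := hv1
    exact Fin.pos j1
  by_cases hv0 : ∀ j, v j ≠ 0
  · obtain ⟨g2, hg2, h2⟩ := ordZ hr v hv hv0 h fun w hw => by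
      obtain ⟨l, h3, h4, h5⟩ := hh w hw
      exact ⟨l, h3, h4, fun i => (h5 i).le⟩
    refine ⟨g1 * g2, mul_ne_zero hg1 hg2, fun c hc => ?_⟩
    rw [map_mul] at hc
    obtain ⟨S1, hS1⟩ := h1 c (left_ne_zero_of_mul hc)
    obtain ⟨S2, hS2⟩ := h2 c (right_ne_zero_of_mul hc)
    refine ⟨S1 ∪ S2, fun p hpf hpS Z hZ hZi s₀ hs₀ b hb0 hb => ?_⟩
    rw [Finset.mem_union, not_or] at hpS
    exact ⟨hS1 p hpS.1 Z hZ hZi s₀ hs₀ b hb, fun σ hσ _ hloc =>
      hS2 p hpS.2 Z hZ hZi s₀ hs₀ b hb0 hb σ hσ hloc⟩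
  · refine ⟨g1, hg1, fun c hc => ?_⟩
    obtain ⟨S1, hS1⟩ := h1 c hc
    exact ⟨S1, fun p hpf hpS Z hZ hZi s₀ hs₀ b hb0 hb =>
      ⟨hS1 p hpS Z hZ hZi s₀ hs₀ b hb, fun σ _ h3 => absurd h3 hv0⟩⟩

/-- poles of the Poincare series, with orders -/
theorem genP3O (hn : n ≤ 3)
    (v : Fin r → Fin n → ℕ) (hv : Function.Injective v) (hv1 : ∃ j, v j ≠ 0)
    (h : MvPolynomial (Fin n) ℤ) (hh : ∀ w ∈ h.support, InHull v w) :
    ∃ g : MvPolynomial (Fin r) ℚ, g ≠ 0 ∧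
      ∀ c : Fin r → ℤ, MvPolynomial.eval (fun j => (c j : ℚ)) g ≠ 0 →
      ∃ S : Finset ℕ, ∀ p : ℕ, p.Prime → p ∉ S →
        ∀ (T₀ : ℂ) (m : ℕ), 0 < m → IsPoleOfOrder (poincare p (spa v c + h)) T₀ m →
        ∀ b : Polynomial ℂ, b ≠ 0 →
          IsBFunction (MvPolynomial.map (Int.castRingHom ℂ) (spa v c + h)) b →
          b.eval ((-Real.log ‖T₀‖ / Real.log p : ℝ) : ℂ) = 0 ∧
          ∀ σ : ℚ, -Real.log ‖T₀‖ / Real.log p = -(σ : ℝ) → (∀ j, v j ≠ 0) → LocS v h σ →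
            m ≤ b.rootMultiplicity ((-Real.log ‖T₀‖ / Real.log p : ℝ) : ℂ) := by
  have hr : 0 < r := by
    obtain ⟨j1, -⟩ := hv1
    exact Fin.pos j1
  obtain ⟨g1, hg1, h1⟩ := genZ3O hn v hv hv1 h hh
  obtain ⟨g2, hg2, h2⟩ := Pool.Agent.W425.GN.gen_ne (F := ℚ) hr v hv
    (MvPolynomial.map (Int.castRingHom ℚ) h)
  refine ⟨g1 * g2, mul_ne_zero hg1 hg2, fun c hc => ?_⟩
  rw [map_mul] at hc
  obtain ⟨S, hS⟩ := h1 c (left_ne_zero_of_mul hc)
  have hmap : MvPolynomial.map (Int.castRingHom ℚ) (spa v c + h) =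
      spa v (fun j => (c j : ℚ)) + MvPolynomial.map (Int.castRingHom ℚ) h := by
    rw [map_add]
    congr 1
    unfold spa
    simp
  have hmapC : MvPolynomial.map (algebraMap ℚ ℂ)
      (spa v (fun j => (c j : ℚ)) + MvPolynomial.map (Int.castRingHom ℚ) h) =
      MvPolynomial.map (Int.castRingHom ℂ) (spa v c + h) := by
    rw [← hmap, MvPolynomial.map_map]
    congr 1
  have hne : spa v c + h ≠ 0 := by
    intro h0
    refine h2 (fun j => ((c j : ℚ) : ℂ)) ?_ ?_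
    · have h5 := MvPolynomial.aeval_algebraMap_apply ℂ (fun j => (c j : ℚ)) g2
      intro h6
      apply right_ne_zero_of_mul hc
      have h7 : ((MvPolynomial.eval (fun j => (c j : ℚ)) g2 : ℚ) : ℂ) = 0 := by
        rw [← h6]
        exact h5.symm
      exact_mod_cast h7
    · have h8 := congrArg (MvPolynomial.map (Int.castRingHom ℂ)) h0
      rw [← hmapC, map_zero, map_add] at h8
      rw [← h8]
      congr 1
      unfold spa
      simp
  refine ⟨S, fun p hp hpS T₀ m hm hP b hb0 hb => ?_⟩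
  have : Fact p.Prime := ⟨hp⟩
  obtain ⟨Z, s₀, hZ, hZi, hZo, hre⟩ := pole_of_poincare_ord p (spa v c + h)
    (Pool.Agent.W195.PZ.null hne) hm hP
  have hneg : meromorphicOrderAt Z s₀ < 0 := lt_of_le_of_lt hZo (by
    have : (-(m : ℤ) : ℤ) < 0 := by omega
    exact_mod_cast this)
  obtain ⟨h3, h4⟩ := hS p hpS Z hZ hZi s₀ hneg b hb0 hb
  rw [hre] at h3 h4
  refine ⟨h3, fun σ hσ hv0 hl => ?_⟩
  have h5 := le_trans (h4 σ hσ hv0 hl) hZo
  have h6 : (-(b.rootMultiplicity ((-Real.log ‖T₀‖ / Real.log p : ℝ) : ℂ) : ℤ) : ℤ) ≤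
      -(m : ℤ) := by exact_mod_cast h5
  omega

end Pool.Agent.TH216.HD
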