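import Pool.Agent.TH216.G3.P3

set_option autoImplicit false

/-! p-adic zeta functions with special pairs: the poles. -/

namespace Pool.Agent.TH216.G3

open MeasureTheory Filter Topology Pool.Agent.W426.SM Pool.Agent.W803.SM Pool.Agent.W425.SV
open Pool.Agent.W425.PN (ford_eq qpoly spoly_eq idn_of)
open Pool.Agent.W425.BF (gam aux)
open Pool.Agent.TH216.MF

section

variable {r N : ℕ}

theorem series_gamS (p : ℕ) (hp : 2 ≤ p) (v : Fin r → Fin N → ℕ)
    (C₀ C₁ : Finset (Fin r) → ℝ) (hCR : CRS v p C₀ C₁) :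
    ∃ (e : Finset (Fin r) → ℂ) (K : ℂ), KRel p v e ∧ SRel p v e ∧ ∀ T : ℂ, ‖T‖ < 1 →
      ∑' x : Fin N → ℕ, (p : ℂ)⁻¹ ^ (∑ i, x i) * T ^ gord v x * (gam p C₀ C₁ (filt v x)).eval T =
        K - (1 - T) * ∑' x : Fin N → ℕ, (p : ℂ)⁻¹ ^ (∑ i, x i) *
          (e ∅ * ∑ t ∈ Finset.range (gord v x), T ^ t + e (filt v x) * T ^ gord v x) := by
  obtain ⟨E, U, h0, h1, hU, h2, h6⟩ := hCR
  have hp0 : (p : ℂ) ≠ 0 := by exact_mod_cast (by omega : p ≠ 0)
  set e : Finset (Fin r) → ℂ := fun J => (U J : ℂ) - (E : ℂ) * (p : ℂ)⁻¹ with he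
  refine ⟨e, ∑' x : Fin N → ℕ, (p : ℂ)⁻¹ ^ (∑ i, x i) * e ∅, ?_, ?_, ?_⟩
  · intro i j0 J hj0 hJ
    have h3 := h2 i j0 J hj0 hJ
    have h4 : ((p : ℂ) - 1) * (U (insert j0 J) : ℂ) + (U J : ℂ) = (E : ℂ) := by
      exact_mod_cast congrArg (fun x : ℝ => (x : ℂ)) h3
    rw [he]
    simp only
    have h5 : (U J : ℂ) = (E : ℂ) - ((p : ℂ) - 1) * (U (insert j0 J) : ℂ) := by
      rw [← h4]; ring
    rw [h5]
    field_simp
    ring
  · intro i k hsp
    have h3 := h6 i k hsp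
    have h4 : ((p : ℂ) - 1) * (U (Sb v i k) : ℂ) + ((U (Sa v i k) : ℂ) + (U (Sa v k i) : ℂ)) =
        (E : ℂ) := by
      exact_mod_cast congrArg (fun x : ℝ => (x : ℂ)) h3
    have h5 : (U ∅ : ℂ) = (E : ℂ) := by rw [hU]
    simp only [he]
    have h7 : (p : ℂ) * (p : ℂ)⁻¹ = 1 := mul_inv_cancel₀ hp0
    linear_combination ((p : ℂ) - 1) * h4 + h5 - (E : ℂ) * (p : ℂ) * h7
  · intro T hT
    have hgam : ∀ J, (gam p C₀ C₁ J).eval T = e ∅ - e J * (1 - T) := by
      intro J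
      unfold gam
      rw [h0, h1, he]
      simp only [Polynomial.eval_add, Polynomial.eval_mul, Polynomial.eval_C, Polynomial.eval_sub,
        Polynomial.eval_one, Polynomial.eval_X]
      rw [hU]
      push_cast
      field_simp
      ring
    have hb : ∀ J, ‖e J‖ ≤ ∑ J, ‖e J‖ := fun J =>
      Finset.single_le_sum (f := fun J => ‖e J‖) (fun _ _ => norm_nonneg _) (Finset.mem_univ _)
    have hTn : ∀ n : ℕ, ‖T ^ n‖ ≤ 1 := fun n => by
      rw [norm_pow]
      exact pow_le_one₀ (norm_nonneg _) hT.le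
    have hT1 : (1 : ℂ) - T ≠ 0 := by
      intro h
      have : T = 1 := (sub_eq_zero.1 h).symm
      rw [this, norm_one] at hT
      exact lt_irrefl _ hT
    have hterm : ∀ x : Fin N → ℕ, (p : ℂ)⁻¹ ^ (∑ i, x i) * T ^ gord v x *
        (gam p C₀ C₁ (filt v x)).eval T = (p : ℂ)⁻¹ ^ (∑ i, x i) * e ∅ -
          (1 - T) * ((p : ℂ)⁻¹ ^ (∑ i, x i) *
          (e ∅ * ∑ t ∈ Finset.range (gord v x), T ^ t + e (filt v x) * T ^ gord v x)) := by
      intro x
      rw [hgam]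
      have hg : (∑ t ∈ Finset.range (gord v x), T ^ t) * (1 - T) = 1 - T ^ gord v x := by
        have := geom_sum_mul_neg T (gord v x)
        rw [this]
      have : (1 - T) * ((p : ℂ)⁻¹ ^ (∑ i, x i) *
          (e ∅ * ∑ t ∈ Finset.range (gord v x), T ^ t + e (filt v x) * T ^ gord v x)) =
          (p : ℂ)⁻¹ ^ (∑ i, x i) * (e ∅ * ((∑ t ∈ Finset.range (gord v x), T ^ t) * (1 - T)) +
            e (filt v x) * (1 - T) * T ^ gord v x) := by ring
      rw [this, hg]
      ring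
    have hs1 : Summable fun x : Fin N → ℕ => (p : ℂ)⁻¹ ^ (∑ i, x i) * e ∅ := by
      refine Summable.of_norm_bounded (g := fun x : Fin N → ℕ => (∏ i, ((1 : ℝ) / 2) ^ x i) *
        ∑ J, ‖e J‖) (summable_half.mul_right _) fun x => ?_
      rw [norm_mul]
      exact mul_le_mul (norm_pow_inv p hp x) (hb _) (norm_nonneg _)
        (Finset.prod_nonneg fun i _ => by positivity)
    have hs3 : Summable fun x : Fin N → ℕ => (p : ℂ)⁻¹ ^ (∑ i, x i) * T ^ gord v x *
        (gam p C₀ C₁ (filt v x)).eval T := by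
      refine Summable.of_norm_bounded (g := fun x : Fin N → ℕ => (∏ i, ((1 : ℝ) / 2) ^ x i) *
        (∑ J, ‖e J‖ + (∑ J, ‖e J‖) * ‖1 - T‖)) (summable_half.mul_right _) fun x => ?_
      rw [norm_mul, norm_mul, hgam, mul_assoc]
      have h3 : ‖T ^ gord v x‖ * ‖e ∅ - e (filt v x) * (1 - T)‖ ≤
          ∑ J, ‖e J‖ + (∑ J, ‖e J‖) * ‖1 - T‖ := by
        have h4 : ‖e ∅ - e (filt v x) * (1 - T)‖ ≤ ∑ J, ‖e J‖ + (∑ J, ‖e J‖) * ‖1 - T‖ := by
          refine (norm_sub_le _ _).trans (add_le_add (hb _) ?_)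
          rw [norm_mul]
          exact mul_le_mul_of_nonneg_right (hb _) (norm_nonneg _)
        calc _ ≤ 1 * ‖e ∅ - e (filt v x) * (1 - T)‖ :=
              mul_le_mul_of_nonneg_right (hTn _) (norm_nonneg _)
          _ ≤ _ := by rw [one_mul]; exact h4
      exact mul_le_mul (norm_pow_inv p hp x) h3 (by positivity)
        (Finset.prod_nonneg fun i _ => by positivity)
    have hs2 : Summable fun x : Fin N → ℕ => (1 - T) * ((p : ℂ)⁻¹ ^ (∑ i, x i) *
          (e ∅ * ∑ t ∈ Finset.range (gord v x), T ^ t + e (filt v x) * T ^ gord v x)) := by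
      have := hs1.sub hs3
      refine this.congr fun x => ?_
      rw [hterm]
      ring
    rw [tsum_congr hterm, hs1.tsum_sub hs2, tsum_mul_left]


/-- **No pole.** -/
theorem padic_regS {R : ℕ} (hR : 0 < R) (v : Fin R → Fin N → ℕ) (c : Fin R → ℚ)
    (h2 : ZMS 0 v c 1) :
    ∃ S : Finset ℕ, ∀ (p : ℕ) [Fact p.Prime], p ∉ S →
      ∀ [MeasurableSpace (Fin N → PadicInt p)] [BorelSpace (Fin N → PadicInt p)],
      ∀ F : ℂ → ℂ, MeromorphicOn F Set.univ →
        (∀ s : ℂ, 0 < s.re →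
          F s = ∫ x, ((‖MvPolynomial.eval₂ (algebraMap ℚ (Padic p))
                    (fun i => ((x i : PadicInt p) : Padic p)) (qpoly v c)‖ : ℝ) : ℂ) ^ s
                  ∂(MeasureTheory.Measure.addHaar : MeasureTheory.Measure (Fin N → PadicInt p))) →
        ∀ s₀ : ℂ, s₀.re ≠ -1 →
          (∀ (J : Finset (Fin N)) (e : Finset (Fin R) → ℂ), KRelJ p v J e → SRel p v e →
            RecJ p v e J ((p : ℂ) ^ (-s₀))) →
          0 ≤ meromorphicOrderAt F s₀ := by
  obtain ⟨S, hS⟩ := h2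
  refine ⟨S, ?_⟩
  intro p hpf hpS hmeas hborel F hF hFI s₀ hs1 hrec
  obtain ⟨V, C₀, C₁, hV, hCR, hint⟩ := hS p hpS
  have hp : 2 ≤ p := hpf.out.two_le
  have hp0 : (p : ℂ) ≠ 0 := by exact_mod_cast (by omega : p ≠ 0)
  have hlog : Real.log p ≠ 0 := (Real.log_pos (by exact_mod_cast (by omega : 1 < p))).ne'
  obtain ⟨e, K, he, hes, heq⟩ := series_gamS p hp v C₀ C₁ hCR
  set T0 : ℂ := (p : ℂ) ^ (-s₀) with hT0
  obtain ⟨Q, A, hQ, hQA⟩ := rs_aT p hp v e T0 fun J => hrec J e (fun i _ j0 τ h3 h4 =>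
    he i j0 τ h3 h4) hes
  have hA := series_reg2 hR p hp v e Q A hQA
  have hpow : ∀ (a N : ℕ) (s : ℂ), (p : ℂ) ^ (-((a : ℂ) + s * N)) =
      (p : ℂ)⁻¹ ^ a * ((p : ℂ) ^ (-s)) ^ N := by
    intro a N s
    rw [neg_add, Complex.cpow_add _ _ hp0, Complex.cpow_neg, Complex.cpow_natCast, inv_pow,
      ← Complex.cpow_nat_mul]
    congr 2
    ring
  have hdt : Differentiable ℂ fun s : ℂ => (p : ℂ) ^ (-s) := diff_pow hp differentiable_id.neg
  have hfin : ((-((0 : ℕ) : ℤ) : ℤ) : WithTop ℤ) ≤ meromorphicOrderAt F s₀ →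
      (0 : WithTop ℤ) ≤ meromorphicOrderAt F s₀ := fun h => by simpa using h
  refine hfin (ord_bound F
    (fun s => Q.eval ((p : ℂ) ^ (-s)) * (1 - (p : ℂ) ^ (-(1 + s))))
    (fun s => V * (Q.eval ((p : ℂ) ^ (-s)) * K - (1 - (p : ℂ) ^ (-s)) * A.eval ((p : ℂ) ^ (-s))))
    ?_ ?_ hF ?_ s₀ 0 ?_)
  · refine ((Polynomial.differentiable Q).comp hdt).mul ?_
    exact (differentiable_const _).sub (diff_pow hp (by fun_prop))
  · refine (differentiable_const _).mul ?_
    refine (((Polynomial.differentiable Q).comp hdt).mul (differentiable_const _)).sub ?_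
    exact ((differentiable_const _).sub hdt).mul ((Polynomial.differentiable A).comp hdt)
  · intro s hs
    set t : ℂ := (p : ℂ) ^ (-s) with ht
    have ht1 : ‖t‖ < 1 := by
      rw [ht, Complex.norm_natCast_cpow_of_pos (by omega)]
      refine Real.rpow_lt_one_of_one_lt_of_neg (by exact_mod_cast (by omega : 1 < p)) ?_
      rw [Complex.neg_re]
      linarith
    have hX : (p : ℂ) ^ (-(1 + s)) = (p : ℂ)⁻¹ * t := by
      have := hpow 1 1 s
      simpa using this
    have hX1 : 1 - (p : ℂ)⁻¹ * t ≠ 0 := by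
      intro h
      have h3 : (p : ℂ)⁻¹ * t = 1 := (sub_eq_zero.1 h).symm
      have h4 : ‖(p : ℂ)⁻¹ * t‖ < 1 := by
        rw [norm_mul, norm_inv, Complex.norm_natCast]
        have h5 : ((p : ℝ))⁻¹ ≤ 1 := inv_le_one_of_one_le₀ (by exact_mod_cast (by omega : 1 ≤ p))
        calc (p : ℝ)⁻¹ * ‖t‖ ≤ 1 * ‖t‖ := by gcongr
          _ < 1 := by rw [one_mul]; exact ht1
      rw [h3, norm_one] at h4
      exact lt_irrefl _ h4
    have hsum : ∀ u : Fin N → ℕ,
        (1 - (p : ℂ) ^ (-(1 + s))) * (((p : ℂ) ^ (-(((∑ i, u i : ℕ) : ℂ) + s * ford 0 v 1 u))) *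
                ((C₀ (Finset.univ.filter fun j => ∑ i, u i * v j i = gord v u) : ℂ) +
                  (C₁ (Finset.univ.filter fun j => ∑ i, u i * v j i = gord v u) : ℂ) *
                    ((p : ℂ) ^ (-(((1 : ℕ) : ℂ) * s)) /
                      (1 - (p : ℂ) ^ (-(1 + ((1 : ℕ) : ℂ) * s)))))) =
        (p : ℂ)⁻¹ ^ (∑ x, u x) * t ^ gord v u * (gam p C₀ C₁ (filt v u)).eval t := by
      intro u
      rw [ford_eq, hpow, Nat.cast_one, one_mul, hX, ← ht]
      unfold gam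
      simp only [Polynomial.eval_add, Polynomial.eval_mul, Polynomial.eval_C,
        Polynomial.eval_sub, Polynomial.eval_one, Polynomial.eval_X]
      show _ = (p : ℂ)⁻¹ ^ (∑ x, u x) * t ^ gord v u *
        ((C₀ (Finset.univ.filter fun j => ∑ i, u i * v j i = gord v u) : ℂ) *
          (1 - (p : ℂ)⁻¹ * t) +
          (C₁ (Finset.univ.filter fun j => ∑ i, u i * v j i = gord v u) : ℂ) * t)
      exact aux _ _ _ _ _ hX1
    have hI : (1 - (p : ℂ) ^ (-(1 + s))) * F s = V * (K - (1 - t) * ∑' x : Fin N → ℕ,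
        (p : ℂ)⁻¹ ^ (∑ i, x i) * (e ∅ * ∑ t' ∈ Finset.range (gord v x), t ^ t' +
          e (filt v x) * t ^ gord v x)) := by
      rw [hFI s hs, ← heq t ht1, ← tsum_congr hsum, tsum_mul_left]
      have h6 := hint s hs
      have h7 : ∫ x, ((‖MvPolynomial.eval₂ (algebraMap ℚ (Padic p))
                    (fun i => ((x i : PadicInt p) : Padic p)) (qpoly v c)‖ : ℝ) : ℂ) ^ s
                  ∂(MeasureTheory.Measure.addHaar : MeasureTheory.Measure (Fin N → PadicInt p)) =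
          ∫ x, ((pval p (spoly 0 v c 1) x : ℝ) : ℂ) ^ s
              ∂(Measure.addHaar : Measure (Fin N → PadicInt p)) := by
        rw [spoly_eq]
        rfl
      rw [h7, h6]
      ring
    show Q.eval t * (1 - (p : ℂ) ^ (-(1 + s))) * F s =
      V * (Q.eval t * K - (1 - t) * A.eval t)
    rw [mul_assoc, hI, ← hA t ht1]
    ring
  · -- the order of `D`
    have ha1 : AnalyticAt ℂ (fun s : ℂ => Q.eval ((p : ℂ) ^ (-s)) * (1 - (p : ℂ) ^ (-(1 + s))))
        s₀ := by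
      refine Differentiable.analyticAt ?_ s₀
      refine ((Polynomial.differentiable Q).comp hdt).mul ?_
      exact (differentiable_const _).sub (diff_pow hp (by fun_prop))
    have hne : Q.eval ((p : ℂ) ^ (-s₀)) * (1 - (p : ℂ) ^ (-(1 + s₀))) ≠ 0 := by
      refine mul_ne_zero hQ fun h0 => ?_
      have h3 : (p : ℂ) ^ (-(1 + s₀)) = 1 := (sub_eq_zero.1 h0).symm
      have h4 := congrArg norm h3
      rw [Complex.norm_natCast_cpow_of_pos (by omega), norm_one] at h4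
      have h5 := congrArg Real.log h4
      rw [Real.log_rpow (by positivity), Real.log_one] at h5
      rcases mul_eq_zero.1 h5 with h6 | h6
      · apply hs1
        have h7 : (-(1 + s₀)).re = -1 - s₀.re := by
          simp
          ring
        rw [h7] at h6
        linarith
      · exact hlog h6
    rw [ha1.meromorphicOrderAt_eq, ha1.analyticOrderAt_eq_zero.2 hne]
    exact le_refl _


end

section

open MvPolynomial Pool.Agent.H628R4.TP Pool.Agent.W425.MM Pool.Agent.W425.GN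
open Pool.Agent.W425.BF (hz hz_support)

variable {r N : ℕ}

theorem preg_all [NeZero r] (hN3 : N ≤ 3) {F : Type} [Field F] (v : Fin r → Fin N → ℕ)
    (hv : Function.Injective v) (hv0 : ∀ j, v j ≠ 0) (h : MvPolynomial (Fin N) F)
    (hull : ∀ w ∈ h.support, InC v Finset.univ (fun i => w i))
    (hvh : ∀ w ∈ h.support, ∀ j, ¬ ∀ x, w x = v j x)
    (c : Fin (r + h.support.card) → ℚ) (hc : ∀ j, c j ≠ 0)
    (hnd : NonD (Fin.append v (we h)) (fun j => ((c j : ℚ) : ℂ))) :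
    PReg (Fin.append v (we h)) c fun σ => σ ≠ 1 ∧ ¬ HP v h (-σ) 0 := by
  have hr : 0 < r := Nat.pos_of_ne_zero (NeZero.ne r)
  have hZ := zmS 0 _ _ 1 one_pos (zmaS hN3 Pool.Agent.W318.BF.main Pool.Agent.W386.BF.main
    (Fin.append v (we h)) c hc (by omega) fun u => idn_of _ _ hnd u)
  obtain ⟨S, hS⟩ := padic_regS (by omega) (Fin.append v (we h)) c hZ
  refine ⟨S, fun p hp hpS _ _ F' hF hFI s₀ σ hσ hbad => hS p hpS F' hF hFI s₀ ?_ ?_⟩
  · rw [hσ]
    intro h1
    apply hbad.1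
    have h2 : (σ : ℝ) = 1 := by linarith
    exact_mod_cast h2
  · intro J e he hes
    have hp2 : 2 ≤ p := hp.out.two_le
    refine hb_three3 hN3 v hv hv0 h (inC_np v h hull) _ (app_inj v hv h hvh) (app_mem v h)
      (app_hull v h hull) J p hp2 e he hes _ ?_ σ hbad.1 hbad.2 (log_cpow p s₀ σ hσ)
    have hp0 : (p : ℂ) ≠ 0 := by exact_mod_cast (by omega : p ≠ 0)
    rw [Complex.cpow_def_of_ne_zero hp0]
    exact Complex.exp_ne_zero _

/-- **Poles of the p-adic zeta functions, generic coefficients, at most three variables, all the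
Newton polytopes.** -/
theorem gen_padic3 (hr : 0 < r) (hN3 : N ≤ 3)
    (v : Fin r → Fin N → ℕ) (hv : Function.Injective v) (hv0 : ∀ j, v j ≠ 0)
    (h : MvPolynomial (Fin N) ℚ) (hull : ∀ w ∈ h.support, InC v Finset.univ (fun i => w i)) :
    ∃ g : MvPolynomial (Fin r) ℚ, g ≠ 0 ∧ ∀ c : Fin r → ℚ, eval c g ≠ 0 → ConclR v h c := by
  have hne : NeZero r := ⟨by omega⟩
  exact gen_p3 hr v hv hv0 h (inC_np v h hull) fun c hc hnd _ => preg_all hN3 v hv hv0 (hz v h)
    (fun w hw => hull w ((hz_support v hv h).1 w hw)) (hz_support v hv h).2 c hc hnd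

end

end Pool.Agent.TH216.G3
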