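import Pool.Agent.TH216.G3.E2
import Pool.Agent.TH216.MF.HDM

set_option autoImplicit false

/-! At most three variables, generic coefficients: the motivic zeta functions, with `poly` and
`InHull`. -/

namespace Pool.Agent.TH216.HD

open MvPolynomial Pool.Agent.H628R4.TP
open Pool.Agent.W428.MOT (Pt Constr ratRing LuMu InRat zetaE)
open Pool.Agent.W375.MG (zetaG Good)

variable {r n : ℕ}

/-- generic coefficients, at most three variables, all the Newton polytopes, global
`b`-functions -/
theorem genM3 {F : Type} [Field F] [Algebra F ℂ] (hn : n ≤ 3)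
    (v : Fin r → Fin n → ℕ) (hv : Function.Injective v) (hv1 : ∃ j, v j ≠ 0)
    (h : MvPolynomial (Fin n) F) (hh : ∀ w ∈ h.support, InHull v w) :
    ∃ g : MvPolynomial (Fin r) F, g ≠ 0 ∧ ∀ (k : Type) [Field k] [Algebra F k] [Algebra k ℂ]
      [IsScalarTower F k ℂ] (c : Fin r → k), aeval c g ≠ 0 →
      ∃ S : Finset (ℤ × ℤ),
        (∀ p ∈ S, p.1 < 0 ∧ 0 < p.2 ∧ ∀ b : Polynomial ℂ,
          IsBFunction (poly v (fun j => algebraMap k ℂ (c j)) h) b →
            b.eval ((p.1 : ℂ) / p.2) = 0) ∧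
        (∀ (K : Type) [Field K] [Algebra k K] (W : Set (Pt K (Fin n)))
          (E : Set (AlgebraicClosure K)), Constr W → Good E →
          zetaG (MvPolynomial.map (algebraMap k K) (poly v c h)) W E ∈ ratRing K S) ∧
        InRat (LuMu (poly v c h)) S (zetaE (poly v c h)) := by
  obtain ⟨g, hg, hgz⟩ := Pool.Agent.TH216.G3.gen_motA (F := F) hn v hv hv1 h
    (fun w hw => (inC_iff v w).2 (hh w hw))
  exact ⟨g, hg, fun k _ _ _ _ c hc => con_poly _ v h g hgz k c hc⟩

end Pool.Agent.TH216.HD
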