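import Pool.Agent.W29.MTRat
import Pool.Agent.W230.MTZCF
import Pool.Agent.TH216.MF.MotD

set_option autoImplicit false

/-! The series of a cone: only the rays of the cone. -/

namespace Pool.Agent.TH216.G3

open Pool.Agent.W428.MOT Pool.Agent.W29.MTRat
open Pool.Agent.W426.SM (gord ford IsRay face)

variable {n r : ℕ}

theorem rat_cone (A : Fin n → ℕ) (m : Fin r → Fin n → ℕ) (e : ℕ) (J : Finset (Fin n))
    (τ : Finset (Fin r)) (hr : 0 < r) (he : 0 < e) :
    ∃ (l : List (Fin n → ℕ)) (P : Polynomial (Polynomial ℤ)),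
      (∀ a ∈ l, IsRay m a ∧ 0 < ford A m e a ∧ (∀ j ∈ τ, face m a j) ∧ ∀ i, i ∉ J → a i = 0) ∧
      (PowerSeries.mk fun M => cp A m e J τ M M) *
          (l.map fun a => 1 - PowerSeries.C (Polynomial.X ^ (∑ i, a i)) *
            PowerSeries.X ^ ford A m e a).prod =
        ((P : Polynomial (Polynomial ℤ)) : PowerSeries (Polynomial ℤ)) := by
  classical
  have h1 : S_CP2 := Pool.Agent.W346.MTCp2.main
  have h2 : S_ZCF := Pool.Agent.W230.MTZCF.main
  rcases τ.eq_empty_or_nonempty with rfl | ⟨j0, hj0⟩
  · refine ⟨[], 0, by simp, ?_⟩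
    have : ∀ M, cp A m e J ∅ M M = 0 := by
      intro M
      unfold cp
      rw [Finset.filter_false_of_mem, Finset.sum_empty]
      intro u _ h
      have := amin_nonempty hr m u
      rw [h.2.1] at this
      exact Finset.not_nonempty_empty this
    ext1 M
    simp [this]
  obtain ⟨l, P, hl, hP⟩ := h2 (hh m j0) (dd J τ) (EE J τ) (fun i => A i + e * m j0 i)
  rw [← set_eq m J τ j0 hj0] at hP
  have hmin : ∀ a ∈ l, ∑ i, a i * m j0 i = gord m a := by
    intro a ha
    obtain ⟨j, hj⟩ := exists_gord (Fin.pos j0) m a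
    have h3 := (hl a ha).2.1 (Fin.castAdd n j)
    have h4 := gord_le m a j0
    rw [hsum] at h3
    omega
  have hford : ∀ u : Fin n → ℕ, ∑ i, u i * m j0 i = gord m u →
      ∑ i, (A i + e * m j0 i) * u i = ford A m e u := by
    intro u hu
    unfold ford
    rw [← hu, Finset.mul_sum, ← Finset.sum_add_distrib]
    refine Finset.sum_congr rfl fun i _ => ?_
    ring
  have hface : ∀ a ∈ l, ∀ j ∈ τ, face m a j := by
    intro a ha j hj
    have h3 := (hl a ha).2.2.1 (Fin.castAdd n j) (by
      unfold EE
      rw [Finset.mem_filter, dd_left, if_pos hj]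
      exact ⟨Finset.mem_univ _, rfl⟩)
    rw [hsum] at h3
    have := hmin a ha
    show ∑ i, a i * m j i = gord m a
    omega
  have hsupp : ∀ a ∈ l, ∀ i, i ∉ J → a i = 0 := by
    intro a ha i hi
    have h3 := (hl a ha).2.2.1 (Fin.natAdd r i) (by
      unfold EE
      rw [Finset.mem_filter, dd_right, if_neg hi]
      exact ⟨Finset.mem_univ _, rfl⟩)
    rw [hsum2] at h3
    exact_mod_cast h3
  have hray : ∀ a ∈ l, IsRay m a := by
    intro a ha
    refine ⟨(hl a ha).1, fun u hu hu2 => ?_⟩
    refine (hl a ha).2.2.2 u hu fun j => ?_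
    refine Fin.addCases (fun j' => ?_) (fun j' => ?_) j
    · intro hj
      rw [hsum] at hj
      have hfj : face m a j' := by
        have := hmin a ha
        show ∑ i, a i * m j' i = gord m a
        omega
      have h3 := hu2 j' j0 hfj (hmin a ha)
      have h4 : ∑ i, ((hh m j0 (Fin.castAdd n j') i : ℤ) : ℚ) * u i =
          ∑ i, u i * m j' i - ∑ i, u i * m j0 i := by
        rw [← Finset.sum_sub_distrib]
        refine Finset.sum_congr rfl fun i _ => ?_
        rw [hh_left]
        push_cast
        ring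
      rw [h4, h3, sub_self]
    · intro hj
      rw [hsum2] at hj
      have h3 : u j' = 0 := hu j' (by exact_mod_cast hj)
      have h4 : ∑ i, ((hh m j0 (Fin.natAdd r j') i : ℤ) : ℚ) * u i = u j' := by
        simp only [hh_right]
        push_cast
        simp only [ite_mul, one_mul, zero_mul, Finset.sum_ite_eq', Finset.mem_univ, if_true]
      rw [h4, h3]
  -- the product over the rays
  obtain ⟨E0, hE0, hsplit⟩ := split_prod A m e l fun a ha => (hl a ha).1
  have hprod : (l.map fun a => 1 - PowerSeries.C (PowerSeries.X ^ (∑ i, a i)) *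
      PowerSeries.X ^ (∑ i, (A i + e * m j0 i) * a i)).prod =
      PowerSeries.map (Polynomial.coeToPowerSeries.ringHom (R := ℤ))
        (l.map fun a => 1 - PowerSeries.C (Polynomial.X ^ (∑ i, a i)) *
        PowerSeries.X ^ ford A m e a).prod := by
    rw [map_list_prod, List.map_map]
    congr 1
    refine List.map_congr_left fun a ha => ?_
    simp only [Function.comp_apply]
    rw [hford a (hmin a ha)]
    have e0 : (Polynomial.coeToPowerSeries.ringHom (R := ℤ)) (Polynomial.X ^ ∑ i, a i) =
        PowerSeries.X ^ ∑ i, a i := by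
      rw [map_pow]
      simp
    rw [map_sub, map_one, map_mul, PowerSeries.map_C, e0, map_pow (PowerSeries.map _),
      PowerSeries.map_X]
  have hPhi : Phi (fun u => ∑ i, (A i + e * m j0 i) * u i) {u | Adm J u ∧ amin m u = τ} =
      Phi (ford A m e) {u | Adm J u ∧ amin m u = τ} := by
    refine Phi_congr _ _ _ fun u hu => hford u (mem_amin.1 ?_)
    rw [hu.2]
    exact hj0
  set C := PowerSeries.mk fun M => cp A m e J τ M M with hC
  have hCmap : PowerSeries.map (Polynomial.coeToPowerSeries.ringHom (R := ℤ)) C =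
      PowerSeries.C ((1 - PowerSeries.X) ^ (free A m J τ).card) *
        Phi (ford A m e) {u | Adm J u ∧ amin m u = τ} := by
    ext1 M
    rw [PowerSeries.coeff_map, hC, PowerSeries.coeff_mk, PowerSeries.coeff_C_mul]
    exact (h1 A m e J τ hr he M).symm
  set D := (l.filter fun a => 0 < ford A m e a).map fun a =>
        1 - PowerSeries.C (Polynomial.X ^ (∑ i, a i)) *
          PowerSeries.X (R := Polynomial ℤ) ^ ford A m e a with hD
  have hmain : C * D.prod * PowerSeries.C E0 =
      PowerSeries.C ((1 - Polynomial.X) ^ (free A m J τ).card) *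
        ((P : Polynomial (Polynomial ℤ)) : PowerSeries (Polynomial ℤ)) := by
    apply map_inj
    rw [mul_assoc, ← hsplit, map_mul, map_mul, ← hprod, hCmap, ← hP, hPhi, PowerSeries.map_C]
    have e1 : (Polynomial.coeToPowerSeries.ringHom (R := ℤ))
        ((1 - Polynomial.X) ^ (free A m J τ).card) =
        (1 - PowerSeries.X) ^ (free A m J τ).card := by
      rw [map_pow, map_sub, map_one]
      simp
    rw [e1]
    ring
  have hcoeff : ∀ M, P.natDegree < M → PowerSeries.coeff M (C * D.prod) = 0 := by
    intro M hM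
    have h3 := congrArg (PowerSeries.coeff M) hmain
    rw [PowerSeries.coeff_mul_C, PowerSeries.coeff_C_mul, Polynomial.coeff_coe,
      Polynomial.coeff_eq_zero_of_natDegree_lt hM, mul_zero] at h3
    exact (mul_eq_zero.1 h3).resolve_right hE0
  refine ⟨l.filter fun a => 0 < ford A m e a,
    PowerSeries.trunc (P.natDegree + 1) (C * D.prod), ?_, ?_⟩
  · intro a ha
    rw [List.mem_filter] at ha
    exact ⟨hray a ha.1, by simpa using ha.2, hface a ha.1, hsupp a ha.1⟩
  · change C * D.prod = _
    ext1 M
    rw [Polynomial.coeff_coe, PowerSeries.coeff_trunc]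
    split_ifs with h
    · rfl
    · exact hcoeff M (by omega)

end Pool.Agent.TH216.G3
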