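import Pool.Agent.TH216.G3.S9
import Pool.Agent.TH216.G3.P4

set_option autoImplicit false

/-! Polynomials with a constant term. -/

namespace Pool.Agent.TH216.G3

open MvPolynomial Pool.Agent.H628R4.TP

/-- `-1` is a root of the `b`-functions of a polynomial which is not constant -/
theorem bneg1 {N : ℕ} (f : MvPolynomial (Fin N) ℂ) (hf : f.totalDegree ≠ 0) (b : Polynomial ℂ)
    (hb : IsBFunction f b) : b.eval (-1) = 0 := by
  classical
  obtain ⟨P, hP⟩ := hb
  have hf0 : f ≠ 0 := by
    rintro rfl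
    exact hf totalDegree_zero
  choose d G hG using fun m => Pool.Agent.W368.SL.weyl_family f (P m)
  set D := ∑ m ∈ P.support, d m with hD
  have hdD : ∀ m ∈ P.support, d m ≤ D := fun m hm =>
    Finset.single_le_sum (f := d) (fun _ _ => Nat.zero_le _) hm
  set G' : ℕ → Polynomial (MvPolynomial (Fin N) ℂ) :=
    fun m => Polynomial.C (f ^ (D - d m)) * G m with hG'
  have hG'e : ∀ m ∈ P.support, ∀ n : ℕ, f ^ D *
      (P m : Module.End ℂ (MvPolynomial (Fin N) ℂ)) (f ^ n) =
      f ^ n * (G' m).eval (n : MvPolynomial (Fin N) ℂ) := by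
    intro m hm n
    rw [hG', Polynomial.eval_mul, Polynomial.eval_C]
    calc f ^ D * (P m : Module.End ℂ (MvPolynomial (Fin N) ℂ)) (f ^ n)
        = f ^ (D - d m) * (f ^ (d m) *
          (P m : Module.End ℂ (MvPolynomial (Fin N) ℂ)) (f ^ n)) := by
          rw [← mul_assoc, ← pow_add, Nat.sub_add_cancel (hdD m hm)]
      _ = _ := by rw [hG]; ring
  set A : Polynomial (MvPolynomial (Fin N) ℂ) := b.map C * Polynomial.C (f ^ D) with hA
  set B : Polynomial (MvPolynomial (Fin N) ℂ) := Polynomial.C f * ∑ m ∈ P.support,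
    Polynomial.X ^ m * (G' m).comp (Polynomial.X + 1) with hB
  have hAe : ∀ z : ℂ, A.eval (C z) = C (b.eval z) * f ^ D := by
    intro z
    rw [hA, Polynomial.eval_mul, Polynomial.eval_C, Polynomial.eval_map,
      Polynomial.eval₂_at_apply]
  have hBe : ∀ z : MvPolynomial (Fin N) ℂ, B.eval z =
      f * ∑ m ∈ P.support, z ^ m * (G' m).eval (z + 1) := by
    intro z
    rw [hB, Polynomial.eval_mul, Polynomial.eval_C, Polynomial.eval_finset_sum]
    congr 1
    refine Finset.sum_congr rfl fun m _ => ?_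
    simp
  have h1 : ∀ s : ℕ, A.eval (s : MvPolynomial (Fin N) ℂ) = B.eval (s : MvPolynomial (Fin N) ℂ) := by
    intro s
    apply mul_left_cancel₀ (pow_ne_zero s hf0)
    have h3 : (s : MvPolynomial (Fin N) ℂ) = C (s : ℂ) := (map_natCast C s).symm
    have h4 := hP s
    rw [hBe, h3, hAe]
    have h5 : f ^ s * (C (b.eval (s : ℂ)) * f ^ D) = f ^ D * (C (b.eval (s : ℂ)) * f ^ s) := by
      ring
    rw [h5, h4, Finsupp.sum, Finset.mul_sum, Finset.mul_sum, Finset.mul_sum]
    refine Finset.sum_congr rfl fun m hm => ?_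
    have h6 := hG'e m hm (s + 1)
    rw [MvPolynomial.smul_eq_C_mul]
    have h7 : ((s + 1 : ℕ) : MvPolynomial (Fin N) ℂ) = C (s : ℂ) + 1 := by
      push_cast
      rw [h3]
    rw [h7] at h6
    calc f ^ D * (C ((s : ℂ) ^ m) * (P m : Module.End ℂ (MvPolynomial (Fin N) ℂ)) (f ^ (s + 1)))
        = C ((s : ℂ) ^ m) * (f ^ D * (P m : Module.End ℂ (MvPolynomial (Fin N) ℂ))
          (f ^ (s + 1))) := by ring
      _ = _ := by
        rw [h6, map_pow]
        ring
  have h2 : A = B := by
    refine Polynomial.eq_of_infinite_eval_eq A B ?_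
    refine Set.Infinite.mono (s := Set.range fun s : ℕ => (s : MvPolynomial (Fin N) ℂ)) ?_
      (Set.infinite_range_of_injective Nat.cast_injective)
    rintro _ ⟨s, rfl⟩
    exact h1 s
  have h3 : C (b.eval (-1)) * f ^ D = f * ∑ m ∈ P.support, (C (-1)) ^ m *
      (G' m).eval (C (-1) + 1) := by
    rw [← hBe, ← h2, hAe]
  have h4 : ∀ m ∈ P.support, (G' m).eval (C (-1) + 1) =
      f ^ D * (P m : Module.End ℂ (MvPolynomial (Fin N) ℂ)) 1 := by
    intro m hm
    have h5 := hG'e m hm 0
    rw [pow_zero, one_mul, Nat.cast_zero] at h5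
    rw [h5]
    congr 1
    rw [map_neg, map_one, neg_add_cancel]
  by_contra hne
  set Q : MvPolynomial (Fin N) ℂ := ∑ m ∈ P.support, (C (-1)) ^ m *
    (P m : Module.End ℂ (MvPolynomial (Fin N) ℂ)) 1 with hQ
  have h5 : C (b.eval (-1)) = f * Q := by
    apply mul_right_cancel₀ (pow_ne_zero D hf0)
    rw [h3, hQ, mul_assoc, Finset.sum_mul]
    congr 1
    refine Finset.sum_congr rfl fun m hm => ?_
    rw [h4 m hm]
    ring
  have hQ0 : Q ≠ 0 := by
    rintro h6
    rw [h6, mul_zero] at h5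
    exact hne (by
      have := C_injective (Fin N) ℂ (h5.trans C_0.symm)
      exact this)
  have h6 := congrArg totalDegree h5
  rw [totalDegree_C, totalDegree_mul_of_isDomain hf0 hQ0] at h6
  omega

end Pool.Agent.TH216.G3
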