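import Pool.Agent.TH216.G3.S7
import Pool.Agent.TH216.MF.PFinU

set_option autoImplicit false

/-! p-adic zeta functions, from the recurrences for the points with a given support. -/

namespace Pool.Agent.TH216.G3

open MeasureTheory Filter Topology Pool.Agent.W426.SM Pool.Agent.W803.SM Pool.Agent.W425.SV
open Pool.Agent.W425.PN (ford_eq qpoly spoly_eq idn_of)
open Pool.Agent.W425.BF (ZMd CRel gam aux)
open Pool.Agent.TH216.MF

variable {r N : ℕ}

/-- the coefficients, by the supports -/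
lemma aT_sum (q : ℕ) (hq : 2 ≤ q) (v : Fin r → Fin N → ℕ) (e : Finset (Fin r) → ℂ) (t : ℤ) :
    aT q v e t = ∑ J : Finset (Fin N), aJ q v e J t := by
  classical
  unfold aT aJ
  rw [← Summable.tsum_finsetSum fun J _ => summable_aJ q hq v e J t]
  refine tsum_congr fun x => ?_
  rw [Finset.sum_eq_single (Finset.univ.filter fun i => x i ≠ 0)]
  · rw [if_pos fun i => by simp]
  · intro J _ hJ
    rw [if_neg]
    intro h
    apply hJ
    ext i
    rw [Finset.mem_filter]
    exact ⟨fun hi => ⟨Finset.mem_univ _, (h i).2 hi⟩, fun hi => (h i).1 hi.2⟩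
  · intro h
    exact absurd (Finset.mem_univ _) h

lemma rs_aT (q : ℕ) (hq : 2 ≤ q) (v : Fin r → Fin N → ℕ) (e : Finset (Fin r) → ℂ) (T0 : ℂ)
    (h : ∀ J, RecJ q v e J T0) : RS T0 (PowerSeries.mk fun t : ℕ => aT q v e t) := by
  have h1 : (PowerSeries.mk fun t : ℕ => aT q v e t) =
      ∑ J : Finset (Fin N), PowerSeries.mk fun t : ℕ => aJ q v e J t := by
    ext t
    rw [map_sum, PowerSeries.coeff_mk]
    simp only [PowerSeries.coeff_mk]
    exact aT_sum q hq v e t
  rw [h1]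
  exact RS.sum _ _ fun J _ => (recJ_iff q v e J T0).1 (h J)

/-- the values of the series -/
theorem series_reg2 (hr : 0 < r) (q : ℕ) (hq : 2 ≤ q) (v : Fin r → Fin N → ℕ)
    (e : Finset (Fin r) → ℂ) (Q A : Polynomial ℂ)
    (hA : (Q : PowerSeries ℂ) * PowerSeries.mk (fun t : ℕ => aT q v e t) =
      (A : PowerSeries ℂ)) : ∀ T : ℂ, ‖T‖ < 1 →
      Q.eval T * ∑' x : Fin N → ℕ, (q : ℂ)⁻¹ ^ (∑ i, x i) *
        (e ∅ * ∑ t ∈ Finset.range (gord v x), T ^ t + e (filt v x) * T ^ gord v x) =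
        A.eval T := by
  classical
  set a : ℕ → ℂ := fun t => aT q v e t with ha
  intro T hT
  obtain ⟨hs1, hs2⟩ := tsum_aT hr q hq v e T hT
  rw [← hs2]
  obtain ⟨K, hK⟩ := norm_aT q hq v e
  have hsn : Summable fun t : ℕ => ‖a t * T ^ t‖ := hs1.norm
  have hev : ∀ E : Polynomial ℂ, E.eval T = ∑' i, E.coeff i * T ^ i := by
    intro E
    rw [Polynomial.eval_eq_sum_range, tsum_eq_sum]
    intro i hi
    rw [Polynomial.coeff_eq_zero_of_natDegree_lt, zero_mul]
    rw [Finset.mem_range] at hi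
    omega
  have hs : Summable fun i => ‖Q.coeff i * T ^ i‖ := by
    refine summable_of_ne_finset_zero (s := Finset.range (Q.natDegree + 1)) fun i hi => ?_
    rw [Polynomial.coeff_eq_zero_of_natDegree_lt, zero_mul, norm_zero]
    rw [Finset.mem_range] at hi
    omega
  rw [hev Q, hev A, tsum_mul_tsum_eq_tsum_sum_antidiagonal_of_summable_norm hs hsn]
  refine tsum_congr fun n => ?_
  have h3 := congrArg (PowerSeries.coeff n) hA
  rw [PowerSeries.coeff_mul, Polynomial.coeff_coe] at h3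
  rw [← h3, Finset.sum_mul]
  refine Finset.sum_congr rfl fun kl hkl => ?_
  rw [Finset.HasAntidiagonal.mem_antidiagonal] at hkl
  rw [Polynomial.coeff_coe, PowerSeries.coeff_mk, ← hkl, pow_add]
  ring


/-- **No pole.** -/
theorem padic_reg {R : ℕ} (hR : 0 < R) (v : Fin R → Fin N → ℕ) (c : Fin R → ℚ)
    (h2 : ZMd 0 v c 1) :
    ∃ S : Finset ℕ, ∀ (p : ℕ) [Fact p.Prime], p ∉ S →
      ∀ [MeasurableSpace (Fin N → PadicInt p)] [BorelSpace (Fin N → PadicInt p)],
      ∀ F : ℂ → ℂ, MeromorphicOn F Set.univ →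
        (∀ s : ℂ, 0 < s.re →
          F s = ∫ x, ((‖MvPolynomial.eval₂ (algebraMap ℚ (Padic p))
                    (fun i => ((x i : PadicInt p) : Padic p)) (qpoly v c)‖ : ℝ) : ℂ) ^ s
                  ∂(MeasureTheory.Measure.addHaar : MeasureTheory.Measure (Fin N → PadicInt p))) →
        ∀ s₀ : ℂ, s₀.re ≠ -1 →
          (∀ (J : Finset (Fin N)) (e : Finset (Fin R) → ℂ), KRelJ p v J e →
            RecJ p v e J ((p : ℂ) ^ (-s₀))) →
          0 ≤ meromorphicOrderAt F s₀ := by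
  obtain ⟨S, hS⟩ := h2
  refine ⟨S, ?_⟩
  intro p hpf hpS hmeas hborel F hF hFI s₀ hs1 hrec
  obtain ⟨V, C₀, C₁, hV, hCR, hint⟩ := hS p hpS
  have hp : 2 ≤ p := hpf.out.two_le
  have hp0 : (p : ℂ) ≠ 0 := by exact_mod_cast (by omega : p ≠ 0)
  have hlog : Real.log p ≠ 0 := (Real.log_pos (by exact_mod_cast (by omega : 1 < p))).ne'
  obtain ⟨e, K, he, heq⟩ := series_gam p hp v C₀ C₁ hCR
  set T0 : ℂ := (p : ℂ) ^ (-s₀) with hT0
  obtain ⟨Q, A, hQ, hQA⟩ := rs_aT p hp v e T0 fun J => hrec J e fun i _ j0 τ h3 h4 =>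
    he i j0 τ h3 h4
  have hA := series_reg2 hR p hp v e Q A hQA
  have hpow : ∀ (a N : ℕ) (s : ℂ), (p : ℂ) ^ (-((a : ℂ) + s * N)) =
      (p : ℂ)⁻¹ ^ a * ((p : ℂ) ^ (-s)) ^ N := by
    intro a N s
    rw [neg_add, Complex.cpow_add _ _ hp0, Complex.cpow_neg, Complex.cpow_natCast, inv_pow,
      ← Complex.cpow_nat_mul]
    congr 2
    ring
  have hdt : Differentiable ℂ fun s : ℂ => (p : ℂ) ^ (-s) := diff_pow hp differentiable_id.neg
  have hfin : ((-((0 : ℕ) : ℤ) : ℤ) : WithTop ℤ) ≤ meromorphicOrderAt F s₀ →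
      (0 : WithTop ℤ) ≤ meromorphicOrderAt F s₀ := fun h => by simpa using h
  refine hfin (ord_bound F
    (fun s => Q.eval ((p : ℂ) ^ (-s)) * (1 - (p : ℂ) ^ (-(1 + s))))
    (fun s => V * (Q.eval ((p : ℂ) ^ (-s)) * K - (1 - (p : ℂ) ^ (-s)) * A.eval ((p : ℂ) ^ (-s))))
    ?_ ?_ hF ?_ s₀ 0 ?_)
  · refine ((Polynomial.differentiable Q).comp hdt).mul ?_
    exact (differentiable_const _).sub (diff_pow hp (by fun_prop))
  · refine (differentiable_const _).mul ?_
    refine (((Polynomial.differentiable Q).comp hdt).mul (differentiable_const _)).sub ?_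
    exact ((differentiable_const _).sub hdt).mul ((Polynomial.differentiable A).comp hdt)
  · intro s hs
    set t : ℂ := (p : ℂ) ^ (-s) with ht
    have ht1 : ‖t‖ < 1 := by
      rw [ht, Complex.norm_natCast_cpow_of_pos (by omega)]
      refine Real.rpow_lt_one_of_one_lt_of_neg (by exact_mod_cast (by omega : 1 < p)) ?_
      rw [Complex.neg_re]
      linarith
    have hX : (p : ℂ) ^ (-(1 + s)) = (p : ℂ)⁻¹ * t := by
      have := hpow 1 1 s
      simpa using this
    have hX1 : 1 - (p : ℂ)⁻¹ * t ≠ 0 := by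
      intro h
      have h3 : (p : ℂ)⁻¹ * t = 1 := (sub_eq_zero.1 h).symm
      have h4 : ‖(p : ℂ)⁻¹ * t‖ < 1 := by
        rw [norm_mul, norm_inv, Complex.norm_natCast]
        have h5 : ((p : ℝ))⁻¹ ≤ 1 := inv_le_one_of_one_le₀ (by exact_mod_cast (by omega : 1 ≤ p))
        calc (p : ℝ)⁻¹ * ‖t‖ ≤ 1 * ‖t‖ := by gcongr
          _ < 1 := by rw [one_mul]; exact ht1
      rw [h3, norm_one] at h4
      exact lt_irrefl _ h4
    have hsum : ∀ u : Fin N → ℕ,
        (1 - (p : ℂ) ^ (-(1 + s))) * (((p : ℂ) ^ (-(((∑ i, u i : ℕ) : ℂ) + s * ford 0 v 1 u))) *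
                ((C₀ (Finset.univ.filter fun j => ∑ i, u i * v j i = gord v u) : ℂ) +
                  (C₁ (Finset.univ.filter fun j => ∑ i, u i * v j i = gord v u) : ℂ) *
                    ((p : ℂ) ^ (-(((1 : ℕ) : ℂ) * s)) /
                      (1 - (p : ℂ) ^ (-(1 + ((1 : ℕ) : ℂ) * s)))))) =
        (p : ℂ)⁻¹ ^ (∑ x, u x) * t ^ gord v u * (gam p C₀ C₁ (filt v u)).eval t := by
      intro u
      rw [ford_eq, hpow, Nat.cast_one, one_mul, hX, ← ht]
      unfold gam
      simp only [Polynomial.eval_add, Polynomial.eval_mul, Polynomial.eval_C,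
        Polynomial.eval_sub, Polynomial.eval_one, Polynomial.eval_X]
      show _ = (p : ℂ)⁻¹ ^ (∑ x, u x) * t ^ gord v u *
        ((C₀ (Finset.univ.filter fun j => ∑ i, u i * v j i = gord v u) : ℂ) *
          (1 - (p : ℂ)⁻¹ * t) +
          (C₁ (Finset.univ.filter fun j => ∑ i, u i * v j i = gord v u) : ℂ) * t)
      exact aux _ _ _ _ _ hX1
    have hI : (1 - (p : ℂ) ^ (-(1 + s))) * F s = V * (K - (1 - t) * ∑' x : Fin N → ℕ,
        (p : ℂ)⁻¹ ^ (∑ i, x i) * (e ∅ * ∑ t' ∈ Finset.range (gord v x), t ^ t' +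
          e (filt v x) * t ^ gord v x)) := by
      rw [hFI s hs, ← heq t ht1, ← tsum_congr hsum, tsum_mul_left]
      have h6 := hint s hs
      have h7 : ∫ x, ((‖MvPolynomial.eval₂ (algebraMap ℚ (Padic p))
                    (fun i => ((x i : PadicInt p) : Padic p)) (qpoly v c)‖ : ℝ) : ℂ) ^ s
                  ∂(MeasureTheory.Measure.addHaar : MeasureTheory.Measure (Fin N → PadicInt p)) =
          ∫ x, ((pval p (spoly 0 v c 1) x : ℝ) : ℂ) ^ s
              ∂(Measure.addHaar : Measure (Fin N → PadicInt p)) := by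
        rw [spoly_eq]
        rfl
      rw [h7, h6]
      ring
    show Q.eval t * (1 - (p : ℂ) ^ (-(1 + s))) * F s =
      V * (Q.eval t * K - (1 - t) * A.eval t)
    rw [mul_assoc, hI, ← hA t ht1]
    ring
  · -- the order of `D`
    have ha1 : AnalyticAt ℂ (fun s : ℂ => Q.eval ((p : ℂ) ^ (-s)) * (1 - (p : ℂ) ^ (-(1 + s))))
        s₀ := by
      refine Differentiable.analyticAt ?_ s₀
      refine ((Polynomial.differentiable Q).comp hdt).mul ?_
      exact (differentiable_const _).sub (diff_pow hp (by fun_prop))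
    have hne : Q.eval ((p : ℂ) ^ (-s₀)) * (1 - (p : ℂ) ^ (-(1 + s₀))) ≠ 0 := by
      refine mul_ne_zero hQ fun h0 => ?_
      have h3 : (p : ℂ) ^ (-(1 + s₀)) = 1 := (sub_eq_zero.1 h0).symm
      have h4 := congrArg norm h3
      rw [Complex.norm_natCast_cpow_of_pos (by omega), norm_one] at h4
      have h5 := congrArg Real.log h4
      rw [Real.log_rpow (by positivity), Real.log_one] at h5
      rcases mul_eq_zero.1 h5 with h6 | h6
      · apply hs1
        have h7 : (-(1 + s₀)).re = -1 - s₀.re := by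
          simp
          ring
        rw [h7] at h6
        linarith
      · exact hlog h6
    rw [ha1.meromorphicOrderAt_eq, ha1.analyticOrderAt_eq_zero.2 hne]
    exact le_refl _

end Pool.Agent.TH216.G3
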