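import Pool.Agent.TH216.G3.S7
import Pool.Agent.TH216.MF.MotM

set_option autoImplicit false

/-! The motivic zeta functions, at most three variables: the assembly. -/

namespace Pool.Agent.TH216.G3

open MvPolynomial Pool.Agent.H628R4.TP Pool.Agent.W425.MM Pool.Agent.W425.GN
open Pool.Agent.W425.ND (spa)
open Pool.Agent.W426.SM (gord IsRay face)
open Pool.Agent.W803.SM (gord_le exists_gord)
open Pool.Agent.W425.BF (shf shf_eval shf_ne hz hz_support hz_eq cof)
open Pool.Agent.W425.SV (NP)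
open Pool.Agent.TH216.MF (KRelJ RecJ InC inC_self)
open Pool.Agent.W428.MOT (Pt Constr ratRing sp LuMu InRat zetaE)
open Pool.Agent.W375.MG (zetaG Good)
open Pool.Agent.TH216.MC

variable {r N : ℕ}

/-- the conclusion of `both` -/
def Both {n r : ℕ} (m : Fin r → Fin n → ℕ) (Bad : ℚ → Prop) : Prop :=
    ∃ S : Finset (ℤ × ℤ),
      (∀ p ∈ S, p = (-1, 1) ∨ ∃ a : Fin n → ℕ, IsRay m a ∧ 0 < gord m a ∧
        ¬ Bad (((∑ i, a i : ℕ) : ℚ) / gord m a) ∧
        p = (-((∑ i, a i : ℕ) : ℤ), (gord m a : ℤ))) ∧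
      (∀ (K : Type) [Field K] [CharZero K] (c : Fin r → K), Mot.NonG m c → (∀ j, c j ≠ 0) →
      ∀ (W : Set (Pt K (Fin n))) (E : Set (AlgebraicClosure K)), Constr W → Good E →
        zetaG (sp 0 m c 1) W E ∈ ratRing K S) ∧
      ∀ (k : Type) [Field k] [CharZero k] (c : Fin r → k), Mot.NonG m c → (∀ j, c j ≠ 0) →
        InRat (LuMu (sp 0 m c 1)) S (zetaE (sp 0 m c 1))

/-- the exponents of `v` and `h` are distinct -/
lemma app_inj {F : Type} [Field F] (v : Fin r → Fin N → ℕ) (hv : Function.Injective v)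
    (h : MvPolynomial (Fin N) F) (hvh : ∀ w ∈ h.support, ∀ j, ¬ ∀ x, w x = v j x) :
    Function.Injective (Fin.append v (we h)) := by
  intro j j'
  refine Fin.addCases (fun j => ?_) (fun l => ?_) j <;>
    refine Fin.addCases (fun j' => ?_) (fun l' => ?_) j'
  · rw [Fin.append_left, Fin.append_left]
    intro h3
    rw [hv h3]
  · rw [Fin.append_left, Fin.append_right]
    intro h3
    exact absurd (fun x => (congrFun h3 x).symm)
      (hvh _ (h.support.equivFin.symm l').2 j)
  · rw [Fin.append_left, Fin.append_right]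
    intro h3
    exact absurd (fun x => congrFun h3 x) (hvh _ (h.support.equivFin.symm l).2 j')
  · rw [Fin.append_right, Fin.append_right]
    intro h3
    have h4 : (h.support.equivFin.symm l) = (h.support.equivFin.symm l') :=
      Subtype.ext (Finsupp.ext fun x => congrFun h3 x)
    rw [h.support.equivFin.symm.injective h4]

lemma app_hull {F : Type} [Field F] (v : Fin r → Fin N → ℕ)
    (h : MvPolynomial (Fin N) F) (hull : ∀ w ∈ h.support, InC v Finset.univ (fun i => w i)) :
    ∀ x, InC v Finset.univ (Fin.append v (we h) x) := by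
  intro x
  refine Fin.addCases (fun j => ?_) (fun l => ?_) x
  · rw [Fin.append_left]
    exact inC_self v _ j (Finset.mem_univ _)
  · rw [Fin.append_right]
    exact hull _ (h.support.equivFin.symm l).2

lemma app_mem {F : Type} [Field F] (v : Fin r → Fin N → ℕ)
    (h : MvPolynomial (Fin N) F) (j : Fin r) : ∃ x, Fin.append v (we h) x = v j :=
  ⟨Fin.castAdd _ j, Fin.append_left _ _ _⟩

lemma inC_np {F : Type} [Field F] (v : Fin r → Fin N → ℕ) (h : MvPolynomial (Fin N) F)
    (hull : ∀ w ∈ h.support, InC v Finset.univ (fun i => w i)) :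
    ∀ w ∈ h.support, NP v w := by
  intro w hw
  obtain ⟨l, h1, -, h3, h4⟩ := hull w hw
  exact ⟨l, h1, h3, fun i => (h4 i).le⟩

theorem both_nosp [NeZero r] (hN3 : N ≤ 3) {F : Type} [Field F] (v : Fin r → Fin N → ℕ)
    (hv : Function.Injective v) (hv0 : ∀ j, v j ≠ 0) (h : MvPolynomial (Fin N) F)
    (hull : ∀ w ∈ h.support, InC v Finset.univ (fun i => w i))
    (hvh : ∀ w ∈ h.support, ∀ j, ¬ ∀ x, w x = v j x) (hns : NoSp v) :
    Both (Fin.append v (we h)) fun σ => σ ≠ 1 ∧ ¬ HP v h (-σ) 0 := by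
  have hr : 0 < r := Nat.pos_of_ne_zero (NeZero.ne r)
  suffices hHB : HB (Fin.append v (we h)) (fun σ => σ ≠ 1 ∧ ¬ HP v h (-σ) 0) from
    both (Fin.append v (we h)) (by omega) _ hHB
  rintro J q hq e he T0 hT0 σ ⟨h1, h2⟩ hlog
  exact hb_three hN3 v hv hv0 h (inC_np v h hull) _ (app_inj v hv h hvh) (app_mem v h)
    (app_hull v h hull) hns J q hq e he T0 hT0 σ h1 h2 hlog

/-- the rings, for all the coefficients -/
theorem gen_S3 (hr : 0 < r) {F : Type} [Field F] (v : Fin r → Fin N → ℕ)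
    (h : MvPolynomial (Fin N) F) (hh : ∀ w ∈ h.support, NP v w)
    (hB : Both (Fin.append v (we h)) fun σ => σ ≠ 1 ∧ ¬ HP v h (-σ) 0) :
    ∃ S : Finset (ℤ × ℤ),
      (∀ p ∈ S, p = (-1, 1) ∨ ∃ a : Fin N → ℕ, IsRay v a ∧ 0 < gord v a ∧
        (((∑ i, a i : ℕ) : ℚ) / gord v a = 1 ∨
          HP v h (-(((∑ i, a i : ℕ) : ℚ) / gord v a)) 0) ∧
        p = (-((∑ i, a i : ℕ) : ℤ), (gord v a : ℤ))) ∧
      ∀ (k : Type) [Field k] [Algebra F k] [Algebra k ℂ] (c : Fin r → k), (∀ j, c j ≠ 0) →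
        NonD (Fin.append v (we h)) (fun j => algebraMap k ℂ
          (Fin.append c (fun l => algebraMap F k (wc h l)) j)) →
        (∀ (K : Type) [Field K] [Algebra k K] (W : Set (Pt K (Fin N)))
          (E : Set (AlgebraicClosure K)), Constr W → Good E →
          zetaG (spa v (fun j => algebraMap k K (c j)) +
            MvPolynomial.map ((algebraMap k K).comp (algebraMap F k)) h) W E ∈ ratRing K S) ∧
        InRat (LuMu (spa v c + MvPolynomial.map (algebraMap F k) h)) S
          (zetaE (spa v c + MvPolynomial.map (algebraMap F k) h)) := by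
  classical
  have hray := pRAY v (we h) hr (we_np v h hh)
  obtain ⟨S, hS, hz1, hz2⟩ := hB
  refine ⟨S, fun p hp => ?_, fun k _ _ _ c hc hnk => ⟨fun K _ _ W E hW hE => ?_, ?_⟩⟩
  · rcases hS p hp with h1 | ⟨a, ha, hg, hn, h1⟩
    · exact Or.inl h1
    · right
      obtain ⟨hga, hra⟩ := hray a
      rw [hga] at hg hn h1
      refine ⟨a, hra ha, hg, ?_, h1⟩
      by_contra hcon
      push Not at hcon
      exact hn hcon
  · have hK : CharZero K := by
      have hkc : CharZero k := RingHom.charZero (algebraMap k ℂ)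
      exact charZero_of_injective_algebraMap (algebraMap k K).injective
    rw [sp_eq]
    refine hz1 K _ (nonG_of_nonD _ _ ?_) (fun j => ?_) W E hW hE
    · have h4 := nonD_ext (k := k) (L := AlgebraicClosure K) _ _ hnk
      have h5 : (fun j => algebraMap K (AlgebraicClosure K)
          (Fin.append (fun j => algebraMap k K (c j))
            (fun l => (algebraMap k K).comp (algebraMap F k) (wc h l)) j)) =
          fun j => algebraMap k (AlgebraicClosure K)
            (Fin.append c (fun l => algebraMap F k (wc h l)) j) := by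
        rw [append_map, append_map]
        congr 1
      rw [h5]
      exact h4
    · refine Fin.addCases (fun j => ?_) (fun l => ?_) j
      · rw [Fin.append_left]
        exact (map_ne_zero _).2 (hc j)
      · rw [Fin.append_right]
        exact (map_ne_zero _).2 (mem_support_iff.1 (h.support.equivFin.symm l).2)
  · have hkc : CharZero k := RingHom.charZero (algebraMap k ℂ)
    rw [sp_eq]
    refine hz2 k _ (nonG_of_nonD _ _
      (nonD_ext (k := k) (L := AlgebraicClosure k) _ _ hnk)) (fun j => ?_)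
    refine Fin.addCases (fun j => ?_) (fun l => ?_) j
    · rw [Fin.append_left]
      exact hc j
    · rw [Fin.append_right]
      exact (map_ne_zero _).2 (mem_support_iff.1 (h.support.equivFin.symm l).2)

theorem gen30 {F : Type} [Field F] [Algebra F ℂ] (hr : 0 < r)
    (v : Fin r → Fin N → ℕ) (hv : Function.Injective v) (hv0 : ∀ j, v j ≠ 0)
    (h : MvPolynomial (Fin N) F) (hh : ∀ w ∈ h.support, NP v w)
    (hB : Both (Fin.append v (we h)) fun σ => σ ≠ 1 ∧ ¬ HP v h (-σ) 0) :
    ∃ g : MvPolynomial (Fin r) F, g ≠ 0 ∧ ConM IsBFunction v h g := by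
  classical
  obtain ⟨g1, hg1, h1⟩ := rootsF hr v hv hv0 h hh
  obtain ⟨g2, hg2, h2⟩ := gen_nonDF pF4 hr v (we h) (we_np v h hh) (wc h)
  have hg3 : (∏ j : Fin r, (X j : MvPolynomial (Fin r) F)) ≠ 0 :=
    Finset.prod_ne_zero_iff.2 fun j _ => X_ne_zero j
  refine ⟨g1 * g2 * ∏ j : Fin r, (X j : MvPolynomial (Fin r) F),
    mul_ne_zero (mul_ne_zero hg1 hg2) hg3, fun k _ _ _ _ c hc => ?_⟩
  rw [map_mul, map_mul, map_prod] at hc
  have hcne : ∀ j, c j ≠ 0 := by
    intro j hj
    have h5 := Finset.prod_ne_zero_iff.1 (right_ne_zero_of_mul hc) j (Finset.mem_univ j)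
    rw [aeval_X, hj, map_zero] at h5
    exact h5 rfl
  have hb := h1 _ (left_ne_zero_of_mul (left_ne_zero_of_mul hc))
  have hnd := h2 _ (right_ne_zero_of_mul (left_ne_zero_of_mul hc))
  have hnk : NonD (Fin.append v (we h)) (fun j => algebraMap k ℂ
      (Fin.append c (fun l => algebraMap F k (wc h l)) j)) := by
    rw [append_map]
    simp only [← IsScalarTower.algebraMap_apply F k ℂ]
    exact hnd
  obtain ⟨S, hS, hz⟩ := gen_S3 hr v h hh hB
  obtain ⟨hz1, hz2⟩ := hz k c hcne hnk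
  refine ⟨S, fun p hp => ?_, hz1, hz2⟩
  rcases hS p hp with rfl | ⟨a, ha, hg, hLP, rfl⟩
  · refine ⟨by norm_num, by norm_num, fun b hb' => ?_⟩
    have e : (((-1 : ℤ) : ℂ) / ((1 : ℤ) : ℂ)) = -1 := by
      push_cast
      ring
    rw [e]
    exact (hb b hb').1
  · refine ⟨pos_of_ray ha, Int.natCast_pos.2 hg, fun b hb' => ?_⟩
    have e1 : (((-((∑ i, a i : ℕ) : ℤ) : ℤ) : ℂ) / ((gord v a : ℤ) : ℂ)) =
        ((-(((∑ i, a i : ℕ) : ℚ) / gord v a) : ℚ) : ℂ) := by
      push_cast
      ring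
    rcases hLP with h6 | h6
    · rw [e1, h6]
      push_cast
      exact (hb b hb').1
    · rw [e1]
      exact (hb b hb').2 _ h6

/-- **Generic coefficients, global `b`-functions.** -/
theorem gen3z {F : Type} [Field F] [Algebra F ℂ] (hr : 0 < r)
    (v : Fin r → Fin N → ℕ) (hv : Function.Injective v) (hv0 : ∀ j, v j ≠ 0)
    (h : MvPolynomial (Fin N) F) (hh : ∀ w ∈ h.support, NP v w)
    (hB : Both (Fin.append v (we (hz v h))) fun σ => σ ≠ 1 ∧ ¬ HP v (hz v h) (-σ) 0) :
    ∃ g : MvPolynomial (Fin r) F, g ≠ 0 ∧ ConM IsBFunction v h g := by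
  have hh' : ∀ w ∈ (hz v h).support, NP v w := fun w hw => hh w ((hz_support v hv h).1 w hw)
  obtain ⟨g, hg, hgc⟩ := gen30 hr v hv hv0 (hz v h) hh' hB
  exact ⟨shf (cof v h) g, shf_ne _ _ hg, conM_shift _ v h g hgc⟩

theorem gen_mot3ns {F : Type} [Field F] [Algebra F ℂ] (hr : 0 < r) (hN3 : N ≤ 3)
    (v : Fin r → Fin N → ℕ) (hv : Function.Injective v) (hv0 : ∀ j, v j ≠ 0)
    (h : MvPolynomial (Fin N) F) (hull : ∀ w ∈ h.support, InC v Finset.univ (fun i => w i))
    (hns : NoSp v) :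
    ∃ g : MvPolynomial (Fin r) F, g ≠ 0 ∧ ConM IsBFunction v h g := by
  have hne : NeZero r := ⟨by omega⟩
  exact gen3z hr v hv hv0 h (inC_np v h hull) (both_nosp hN3 v hv hv0 (hz v h)
    (fun w hw => hull w ((hz_support v hv h).1 w hw)) (hz_support v hv h).2 hns)

end Pool.Agent.TH216.G3
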