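import Pool.Agent.TH216.G3.P1
import Pool.Agent.TH216.G3.S8
import Pool.Agent.TH216.MF.H4

set_option autoImplicit false

/-! The p-adic zeta functions, at most three variables: the assembly. -/

namespace Pool.Agent.TH216.G3

open MvPolynomial MeasureTheory Pool.Agent.H628R4.TP Pool.Agent.W425.MM Pool.Agent.W425.GN
open Pool.Agent.W425.ND (spa)
open Pool.Agent.W426.SM (gord IsRay face)
open Pool.Agent.W803.SM (gord_le exists_gord)
open Pool.Agent.W425.BF (zm zma shf shf_eval shf_ne hz hz_support hz_eq cof ZMd)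
open Pool.Agent.W425.SV (NP)
open Pool.Agent.W425.PN (qpoly idn_of)
open Pool.Agent.TH216.MF
open Pool.Agent.TH216.MC (rootsF)

variable {r N : ℕ}

/-- no pole at the bad levels -/
def PReg {R : ℕ} (m : Fin R → Fin N → ℕ) (c : Fin R → ℚ) (Bad : ℚ → Prop) : Prop :=
    ∃ S : Finset ℕ, ∀ (p : ℕ) [Fact p.Prime], p ∉ S →
      ∀ [MeasurableSpace (Fin N → PadicInt p)] [BorelSpace (Fin N → PadicInt p)],
      ∀ F : ℂ → ℂ, MeromorphicOn F Set.univ →
        (∀ s : ℂ, 0 < s.re →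
          F s = ∫ x, ((‖MvPolynomial.eval₂ (algebraMap ℚ (Padic p))
                    (fun i => ((x i : PadicInt p) : Padic p)) (qpoly m c)‖ : ℝ) : ℂ) ^ s
                  ∂(MeasureTheory.Measure.addHaar : MeasureTheory.Measure (Fin N → PadicInt p))) →
        ∀ (s₀ : ℂ) (σ : ℚ), s₀.re = -(σ : ℝ) → Bad σ → 0 ≤ meromorphicOrderAt F s₀

/-- the conclusion for the coefficient vector `c` -/
def ConclR (v : Fin r → Fin N → ℕ) (h : MvPolynomial (Fin N) ℚ) (c : Fin r → ℚ) : Prop :=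
      ∃ S : Finset ℕ, ∀ (p : ℕ) [Fact p.Prime], p ∉ S →
      ∀ [MeasurableSpace (Fin N → PadicInt p)] [BorelSpace (Fin N → PadicInt p)],
      ∀ F : ℂ → ℂ, MeromorphicOn F Set.univ →
        (∀ s : ℂ, 0 < s.re →
          F s = ∫ x, ((‖MvPolynomial.eval₂ (algebraMap ℚ (Padic p))
                    (fun i => ((x i : PadicInt p) : Padic p)) (spa v c + h)‖ : ℝ) : ℂ) ^ s
                  ∂(MeasureTheory.Measure.addHaar : MeasureTheory.Measure (Fin N → PadicInt p))) →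
        ∀ s₀ : ℂ, meromorphicOrderAt F s₀ < 0 → ∀ b : Polynomial ℂ,
          IsBFunction (MvPolynomial.map (algebraMap ℚ ℂ) (spa v c + h)) b →
          b.eval (s₀.re : ℂ) = 0

lemma log_cpow (p : ℕ) [hp : Fact p.Prime] (s₀ : ℂ) (σ : ℚ) (h : s₀.re = -(σ : ℝ)) :
    Real.log ‖(p : ℂ) ^ (-s₀)‖ / Real.log p = (σ : ℝ) := by
  have h2 : 1 < p := hp.out.one_lt
  have hlog : Real.log p ≠ 0 := (Real.log_pos (by exact_mod_cast h2)).ne'
  rw [Complex.norm_natCast_cpow_of_pos (by omega), Real.log_rpow (by positivity),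
    Complex.neg_re, h, neg_neg]
  field_simp

theorem preg_nosp [NeZero r] (hN3 : N ≤ 3) {F : Type} [Field F] (v : Fin r → Fin N → ℕ)
    (hv : Function.Injective v) (hv0 : ∀ j, v j ≠ 0) (h : MvPolynomial (Fin N) F)
    (hull : ∀ w ∈ h.support, InC v Finset.univ (fun i => w i))
    (hvh : ∀ w ∈ h.support, ∀ j, ¬ ∀ x, w x = v j x) (hns : NoSp v)
    (c : Fin (r + h.support.card) → ℚ) (hZ : ZMd 0 (Fin.append v (we h)) c 1) :
    PReg (Fin.append v (we h)) c fun σ => σ ≠ 1 ∧ ¬ HP v h (-σ) 0 := by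
  have hr : 0 < r := Nat.pos_of_ne_zero (NeZero.ne r)
  obtain ⟨S, hS⟩ := padic_reg (by omega) (Fin.append v (we h)) c hZ
  refine ⟨S, fun p hp hpS _ _ F' hF hFI s₀ σ hσ hbad => hS p hpS F' hF hFI s₀ ?_ ?_⟩
  · rw [hσ]
    intro h1
    apply hbad.1
    have h2 : (σ : ℝ) = 1 := by linarith
    exact_mod_cast h2
  · intro J e he
    have hp2 : 2 ≤ p := hp.out.two_le
    refine hb_three hN3 v hv hv0 h (inC_np v h hull) _ (app_inj v hv h hvh) (app_mem v h)
      (app_hull v h hull) hns J p hp2 e he _ ?_ σ hbad.1 hbad.2 (log_cpow p s₀ σ hσ)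
    have hp0 : (p : ℂ) ≠ 0 := by exact_mod_cast (by omega : p ≠ 0)
    rw [Complex.cpow_def_of_ne_zero hp0]
    exact Complex.exp_ne_zero _

/-- if the monomials `x ^ v_j` do not occur in `h` -/
theorem gen_p30 (hr : 0 < r)
    (v : Fin r → Fin N → ℕ) (hv : Function.Injective v) (hv0 : ∀ j, v j ≠ 0)
    (h : MvPolynomial (Fin N) ℚ) (hh : ∀ w ∈ h.support, NP v w)
    (hB : ∀ c : Fin (r + h.support.card) → ℚ, (∀ j, c j ≠ 0) →
      NonD (Fin.append v (we h)) (fun j => ((c j : ℚ) : ℂ)) → ZMd 0 (Fin.append v (we h)) c 1 →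
      PReg (Fin.append v (we h)) c fun σ => σ ≠ 1 ∧ ¬ HP v h (-σ) 0) :
    ∃ g : MvPolynomial (Fin r) ℚ, g ≠ 0 ∧ ∀ c : Fin r → ℚ, eval c g ≠ 0 → ConclR v h c := by
  classical
  obtain ⟨g1, hg1, h1⟩ := rootsF (F := ℚ) hr v hv hv0 h hh
  obtain ⟨g2, hg2, h2⟩ := gen_nonDF pF4 hr v (we h) (we_np v h hh) (wc h)
  have hg3 : (∏ j : Fin r, (X j : MvPolynomial (Fin r) ℚ)) ≠ 0 :=
    Finset.prod_ne_zero_iff.2 fun j _ => X_ne_zero j
  refine ⟨g1 * g2 * ∏ j : Fin r, (X j : MvPolynomial (Fin r) ℚ),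
    mul_ne_zero (mul_ne_zero hg1 hg2) hg3, fun c hc'' => ?_⟩
  rw [map_mul] at hc''
  have hc' := left_ne_zero_of_mul hc''
  have hcne : ∀ j, c j ≠ 0 := by
    have h5 := right_ne_zero_of_mul hc''
    rw [map_prod] at h5
    intro j
    have h6 := Finset.prod_ne_zero_iff.1 h5 j (Finset.mem_univ j)
    rwa [eval_X] at h6
  have hc : aeval (fun j => ((c j : ℚ) : ℂ)) (g1 * g2) ≠ 0 := by
    have h0 : aeval (fun j => ((c j : ℚ) : ℂ)) (g1 * g2) =
        ((eval c (g1 * g2) : ℚ) : ℂ) := by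
      have h5 := aeval_algebraMap_apply ℂ c (g1 * g2)
      exact h5
    rw [h0]
    exact_mod_cast hc'
  rw [map_mul] at hc
  have hb := h1 _ (left_ne_zero_of_mul hc)
  have hnd := h2 _ (right_ne_zero_of_mul hc)
  have hray := pRAY v (we h) hr (we_np v h hh)
  have hq : qpoly (Fin.append v (we h)) (Fin.append c (wc h)) = spa v c + h := by
    unfold qpoly
    rw [Fin.sum_univ_add]
    simp only [Fin.append_left, Fin.append_right]
    congr 1
    have h3 := h_eq (RingHom.id ℚ) h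
    rw [MvPolynomial.map_id] at h3
    exact h3.symm
  have hnq : NonD (Fin.append v (we h)) (fun j => ((Fin.append c (wc h) j : ℚ) : ℂ)) := by
    have h3 := append_map (fun q : ℚ => (q : ℂ)) c (wc h)
    rw [h3]
    exact hnd
  have hcall : ∀ j, Fin.append c (wc h) j ≠ 0 := by
    intro j
    refine Fin.addCases (fun j => ?_) (fun l => ?_) j
    · rw [Fin.append_left]; exact hcne j
    · rw [Fin.append_right]
      exact mem_support_iff.1 (h.support.equivFin.symm l).2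
  have hZ := zm 0 _ _ 1 one_pos (zma Pool.Agent.W318.BF.main Pool.Agent.W386.BF.main
    (Fin.append v (we h)) (Fin.append c (wc h)) hcall (by omega) fun u => idn_of _ _ hnq u)
  obtain ⟨S1, hS1⟩ := Pool.Agent.W425.PN.poles (Fin.append v (we h)) (Fin.append c (wc h))
    (by omega) hnq
  obtain ⟨S2, hS2⟩ := hB _ hcall hnq hZ
  rw [hq] at hS1 hS2
  refine ⟨S1 ∪ S2, fun p _ hp _ _ F hF hFI s₀ hs₀ b hbf => ?_⟩
  rw [Finset.mem_union, not_or] at hp
  rw [map_add, map_spa] at hbf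
  obtain ⟨h3, h4⟩ := hb b hbf
  obtain ⟨σ, hσ⟩ : ∃ σ : ℚ, s₀.re = -(σ : ℝ) := by
    rcases hS1 p hp.1 F hF hFI s₀ hs₀ with h6 | ⟨a, ha, hg, h6⟩
    · exact ⟨1, by rw [h6]; push_cast; rfl⟩
    · exact ⟨((∑ i, a i : ℕ) : ℚ) / gord (Fin.append v (we h)) a, by rw [h6]; push_cast; rfl⟩
  have hcast : ((s₀.re : ℝ) : ℂ) = ((-σ : ℚ) : ℂ) := by
    rw [hσ]
    push_cast
    rfl
  rw [hcast]
  by_cases hs1 : σ = 1
  · rw [hs1]
    push_cast
    exact h3
  by_cases hHP : HP v h (-σ) 0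
  · exact h4 _ hHP
  · exact absurd (hS2 p hp.2 F hF hFI s₀ σ hσ ⟨hs1, hHP⟩) (not_le.2 hs₀)

/-- **Poles of the p-adic zeta functions, generic coefficients.** -/
theorem gen_p3 (hr : 0 < r)
    (v : Fin r → Fin N → ℕ) (hv : Function.Injective v) (hv0 : ∀ j, v j ≠ 0)
    (h : MvPolynomial (Fin N) ℚ) (hh : ∀ w ∈ h.support, NP v w)
    (hB : ∀ c : Fin (r + (hz v h).support.card) → ℚ, (∀ j, c j ≠ 0) →
      NonD (Fin.append v (we (hz v h))) (fun j => ((c j : ℚ) : ℂ)) →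
      ZMd 0 (Fin.append v (we (hz v h))) c 1 →
      PReg (Fin.append v (we (hz v h))) c fun σ => σ ≠ 1 ∧ ¬ HP v (hz v h) (-σ) 0) :
    ∃ g : MvPolynomial (Fin r) ℚ, g ≠ 0 ∧ ∀ c : Fin r → ℚ, eval c g ≠ 0 → ConclR v h c := by
  obtain ⟨g, hg, hgc⟩ := gen_p30 hr v hv hv0 (hz v h)
    (fun w hw => hh w ((hz_support v hv h).1 w hw)) hB
  refine ⟨shf (cof v h) g, shf_ne _ _ hg, fun c hc => ?_⟩
  have h1 := hgc (fun j => c j + cof v h j) (by
    intro h2
    apply hc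
    have h3 := shf_eval (K := ℚ) (cof v h) g c
    rw [← coe_aeval_eq_eval] at h2 ⊢
    rw [← h2]
    exact h3)
  unfold ConclR at h1 ⊢
  rw [hz_eq v h c]
  exact h1

theorem gen_p3ns (hr : 0 < r) (hN3 : N ≤ 3)
    (v : Fin r → Fin N → ℕ) (hv : Function.Injective v) (hv0 : ∀ j, v j ≠ 0)
    (h : MvPolynomial (Fin N) ℚ) (hull : ∀ w ∈ h.support, InC v Finset.univ (fun i => w i))
    (hns : NoSp v) :
    ∃ g : MvPolynomial (Fin r) ℚ, g ≠ 0 ∧ ∀ c : Fin r → ℚ, eval c g ≠ 0 → ConclR v h c := by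
  have hne : NeZero r := ⟨by omega⟩
  exact gen_p3 hr v hv hv0 h (inC_np v h hull) fun c _ _ hZ => preg_nosp hN3 v hv hv0 (hz v h)
    (fun w hw => hull w ((hz_support v hv h).1 w hw)) (hz_support v hv h).2 hns c hZ

end Pool.Agent.TH216.G3
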