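import Pool.Agent.TH216.G3.S10
import Pool.Agent.TH216.G3.P2

set_option autoImplicit false

/-! p-adic zeta functions: the relations of the special pairs (adapted from `W425.BF.Zma` and
`W425.BF.Zm`). -/

namespace Pool.Agent.TH216.G3

open MeasureTheory Pool.Agent.W426.SM Pool.Agent.W424.SM.ZMU Pool.Agent.W22.SM.ZMA
open Pool.Agent.W880.SM
open Pool.Agent.W425.PN (Idn eval_le_one coe_GG coe_DD nondeg_mod)
open Pool.Agent.W425.BF hiding crel zma zm
open Pool.Agent.W428.MOT (amin gbar dgbar)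

/-- the relations between the constants -/
def CRS {n k : ℕ} (m : Fin k → Fin n → ℕ) (p : ℕ) (C₀ C₁ : Finset (Fin k) → ℝ) : Prop :=
  ∃ (E : ℝ) (U : Finset (Fin k) → ℝ), (∀ τ, C₀ τ = E - U τ) ∧
    (∀ τ, C₁ τ = U τ * (1 - (p : ℝ)⁻¹)) ∧ U ∅ = E ∧
    (∀ (i : Fin n) (j0 : Fin k) (τ0 : Finset (Fin k)), m j0 i = 1 → (∀ l ∈ τ0, m l i = 0) →
      ((p : ℝ) - 1) * U (insert j0 τ0) + U τ0 = E) ∧
    ∀ i k', SpJ m i k' → ((p : ℝ) - 1) * U (Sb m i k') + (U (Sa m i k') + U (Sa m k' i)) = E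

/-- the conclusion of (ZMA) -/
def ZMAS {n k : ℕ} (m : Fin k → Fin n → ℕ) (c : Fin k → ℚ) : Prop :=
    ∃ S : Finset ℕ, ∀ (p : ℕ) [Fact p.Prime], p ∉ S →
      ∀ [MeasurableSpace (Fin n → PadicInt p)] [BorelSpace (Fin n → PadicInt p)],
      ∃ C₀ C₁ : Finset (Fin k) → ℝ, CRS m p C₀ C₁ ∧ ∀ u : Fin n → ℕ,
        ((Measure.addHaar : Measure (Fin n → PadicInt p))
            {x | (∀ i, ‖x i‖ = (p : ℝ) ^ (-(u i : ℤ))) ∧
              ‖gp p m c 0 x‖ = (p : ℝ) ^ (-(gord m u : ℤ))}).toReal =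
          ((Measure.addHaar : Measure (Fin n → PadicInt p)) Set.univ).toReal *
            (p : ℝ) ^ (-((∑ i, u i : ℕ) : ℤ)) *
            C₀ (Finset.univ.filter fun j => ∑ i, u i * m j i = gord m u) ∧
        ∀ l : ℕ, ((Measure.addHaar : Measure (Fin n → PadicInt p))
            {x | (∀ i, ‖x i‖ = (p : ℝ) ^ (-(u i : ℤ))) ∧
              ‖gp p m c 0 x‖ = (p : ℝ) ^ (-((gord m u : ℤ) + (l + 1)))}).toReal =
          ((Measure.addHaar : Measure (Fin n → PadicInt p)) Set.univ).toReal *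
            (p : ℝ) ^ (-((∑ i, u i : ℕ) : ℤ)) *
            C₁ (Finset.univ.filter fun j => ∑ i, u i * m j i = gord m u) * (p : ℝ) ^ (-(l : ℤ))

/-- the conclusion of (ZM) -/
def ZMS {n k : ℕ} (A : Fin n → ℕ) (m : Fin k → Fin n → ℕ) (c : Fin k → ℚ) (e : ℕ) : Prop :=
    ∃ S : Finset ℕ, ∀ (p : ℕ) [Fact p.Prime], p ∉ S →
      ∀ [MeasurableSpace (Fin n → PadicInt p)] [BorelSpace (Fin n → PadicInt p)],
      ∃ (V : ℝ) (C₀ C₁ : Finset (Fin k) → ℝ), 0 < V ∧ CRS m p C₀ C₁ ∧
        ∀ s : ℂ, 0 < s.re →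
          ∫ x, ((pval p (spoly A m c e) x : ℝ) : ℂ) ^ s
              ∂(Measure.addHaar : Measure (Fin n → PadicInt p)) =
            V * ∑' u : Fin n → ℕ,
              ((p : ℂ) ^ (-(((∑ i, u i : ℕ) : ℂ) + s * ford A m e u))) *
                ((C₀ (Finset.univ.filter fun j => ∑ i, u i * m j i = gord m u) : ℂ) +
                  (C₁ (Finset.univ.filter fun j => ∑ i, u i * m j i = gord m u) : ℂ) *
                    ((p : ℂ) ^ (-(e * s)) / (1 - (p : ℂ) ^ (-(1 + e * s)))))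


section
variable {n k : ℕ} {p : ℕ} [hp : Fact p.Prime]

lemma zr_gbar (m : Fin k → Fin n → ℕ) (b : Fin k → ZMod p) (τ : Finset (Fin k)) :
    Zr p m b τ = {y | (∀ x, y x ≠ 0) ∧ gbar m b τ y = 0} := rfl

/-- **The count.** -/
theorem spec_count (m : Fin k → Fin n → ℕ) (b : Fin k → ZMod p) {i k' : Fin n}
    (h : SpJ m i k') (hnc : ∀ z : Fin n → ZMod p, (∀ l, z l ≠ 0) →
      gg m b i k' z ≠ 0 ∨ gg m b k' i z ≠ 0) :
    (p - 1) * (Zr p m b (Sb m i k')).ncard + ((Zr p m b (Sa m i k')).ncard +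
      (Zr p m b (Sa m k' i)).ncard) = (p - 1) ^ n := by
  classical
  have hik := h.1
  have hfin : ∀ S : Set (Fin n → ZMod p), S.Finite := fun S => Set.toFinite S
  set g : (Fin n → ZMod p) → ZMod p := gg m b i k' with hg
  set g' : (Fin n → ZMod p) → ZMod p := gg m b k' i with hg'
  have hZa : Zr p m b (Sa m i k') = {y | (∀ x, y x ≠ 0) ∧ g y = 0} := by
    rw [zr_gbar]
    ext y
    simp only [Set.mem_ofPred_eq, gbar_Sa]
    refine and_congr_right fun hy => ?_
    rw [mul_eq_zero]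
    exact ⟨fun h => h.resolve_left (hy i), Or.inr⟩
  have hZb : Zr p m b (Sa m k' i) = {y | (∀ x, y x ≠ 0) ∧ g' y = 0} := by
    rw [zr_gbar]
    ext y
    simp only [Set.mem_ofPred_eq, gbar_Sa]
    refine and_congr_right fun hy => ?_
    rw [mul_eq_zero]
    exact ⟨fun h => h.resolve_left (hy k'), Or.inr⟩
  have hZ : Zr p m b (Sb m i k') = {y | (∀ x, y x ≠ 0) ∧ y i * g y + y k' * g' y = 0} := by
    rw [zr_gbar]
    ext y
    simp only [Set.mem_ofPred_eq, gbar_Sb]
    rfl
  have hgu : ∀ (y : Fin n → ZMod p) x, g (Function.update y i x) = g y := fun y x =>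
    gg_inv m b i k' _ _ fun l h1 _ => Function.update_of_ne h1 _ _
  have hgu' : ∀ (y : Fin n → ZMod p) x, g' (Function.update y i x) = g' y := fun y x =>
    gg_inv m b k' i _ _ fun l _ h1 => Function.update_of_ne h1 _ _
  have hne : ∀ y : Fin n → ZMod p, (∀ x, y x ≠ 0) → y i * g y + y k' * g' y = 0 →
      g y ≠ 0 ∧ g' y ≠ 0 := by
    intro y hy h0
    rcases hnc y hy with h1 | h1
    · refine ⟨h1, fun h2 => ?_⟩
      rw [h2, mul_zero, add_zero] at h0
      exact (mul_ne_zero (hy i) h1) h0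
    · refine ⟨fun h2 => ?_, h1⟩
      rw [show g y = 0 from h2, mul_zero, zero_add] at h0
      exact (mul_ne_zero (hy k') h1) h0
  -- the middle part
  set U' : Set (Fin n → ZMod p) := {y | (∀ x, y x ≠ 0) ∧ g y ≠ 0 ∧ g' y ≠ 0} with hU'
  have hmid : (p - 1) * (Zr p m b (Sb m i k')).ncard = U'.ncard := by
    set L : Set (ZMod p) := {x | x ≠ 0} with hL
    have hLc : L.ncard = p - 1 := by
      have e1 : L = ↑(Finset.univ.erase (0 : ZMod p)) := by
        ext x
        simp [hL]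
      rw [e1, Set.ncard_coe_finset, Finset.card_erase_of_mem (Finset.mem_univ _),
        Finset.card_univ, ZMod.card]
    have himg : (fun q : (Fin n → ZMod p) × ZMod p =>
        Function.update q.1 i (q.2 * q.1 i)) '' (Zr p m b (Sb m i k') ×ˢ L) = U' := by
      rw [hZ]
      ext z
      constructor
      · rintro ⟨⟨y, x⟩, ⟨⟨h1, h2⟩, h3⟩, rfl⟩
        obtain ⟨h4, h5⟩ := hne y h1 h2
        refine ⟨fun l => ?_, ?_, ?_⟩
        · show Function.update y i (x * y i) l ≠ 0
          by_cases hl : l = i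
          · rw [hl, Function.update_self]
            exact mul_ne_zero h3 (h1 i)
          · rw [Function.update_of_ne hl]
            exact h1 l
        · show g (Function.update y i (x * y i)) ≠ 0
          rw [hgu]
          exact h4
        · show g' (Function.update y i (x * y i)) ≠ 0
          rw [hgu']
          exact h5
      · rintro ⟨h1, h2, h3⟩
        set x0 : ZMod p := -(z k' * g' z) / g z with hx0
        have hx00 : x0 ≠ 0 := div_ne_zero (neg_ne_zero.2 (mul_ne_zero (h1 k') h3)) h2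
        refine ⟨(Function.update z i x0, z i / x0), ⟨⟨fun l => ?_, ?_⟩,
          div_ne_zero (h1 i) hx00⟩, ?_⟩
        · show Function.update z i x0 l ≠ 0
          by_cases hl : l = i
          · rw [hl, Function.update_self]
            exact hx00
          · rw [Function.update_of_ne hl]
            exact h1 l
        · show Function.update z i x0 i * g (Function.update z i x0) +
            Function.update z i x0 k' * g' (Function.update z i x0) = 0
          rw [Function.update_self, Function.update_of_ne hik.symm, hgu, hgu', hx0,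
            div_mul_cancel₀ _ h2]
          ring
        · show Function.update (Function.update z i x0) i
            (z i / x0 * Function.update z i x0 i) = z
          rw [Function.update_self, Function.update_idem, div_mul_cancel₀ _ hx00,
            Function.update_eq_self]
    have hinj : Set.InjOn (fun q : (Fin n → ZMod p) × ZMod p =>
        Function.update q.1 i (q.2 * q.1 i)) (Zr p m b (Sb m i k') ×ˢ L) := by
      rw [hZ]
      rintro ⟨y, x⟩ ⟨⟨h1, h2⟩, h3⟩ ⟨y', x'⟩ ⟨⟨h1', h2'⟩, h3'⟩ heq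
      have heq' : Function.update y i (x * y i) = Function.update y' i (x' * y' i) := heq
      have hl : ∀ l, l ≠ i → y l = y' l := by
        intro l hl
        have := congrFun heq' l
        rwa [Function.update_of_ne hl, Function.update_of_ne hl] at this
      have hgg : g y = g y' := gg_inv m b i k' _ _ fun l h1 _ => hl l h1
      have hgg' : g' y = g' y' := gg_inv m b k' i _ _ fun l _ h1 => hl l h1
      obtain ⟨h4, -⟩ := hne y h1 h2
      have hyi : y i = y' i := by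
        have h5 : y i * g y = y' i * g y := by
          have h2a : y i * g y + y k' * g' y = 0 := h2
          have h2b : y' i * g y' + y' k' * g' y' = 0 := h2'
          rw [← hgg, ← hgg', ← hl k' hik.symm] at h2b
          linear_combination h2a - h2b
        exact mul_right_cancel₀ h4 h5
      have hyy : y = y' := by
        funext l
        by_cases h5 : l = i
        · rw [h5, hyi]
        · exact hl l h5
      subst hyy
      have hxx : x * y i = x' * y i := by
        have := congrFun heq' i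
        rwa [Function.update_self, Function.update_self] at this
      rw [mul_right_cancel₀ (h1 i) hxx]
    rw [← himg, Set.InjOn.ncard_image hinj, Set.ncard_prod, hLc, mul_comm]
  rw [hmid, hZa, hZb]
  have hdisj1 : Disjoint {y : Fin n → ZMod p | (∀ x, y x ≠ 0) ∧ g y = 0}
      {y | (∀ x, y x ≠ 0) ∧ g' y = 0} := by
    rw [Set.disjoint_left]
    rintro y ⟨h1, h2⟩ ⟨-, h3⟩
    rcases hnc y h1 with h4 | h4
    · exact h4 h2
    · exact h4 h3
  have hdisj2 : Disjoint U' ({y : Fin n → ZMod p | (∀ x, y x ≠ 0) ∧ g y = 0} ∪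
      {y | (∀ x, y x ≠ 0) ∧ g' y = 0}) := by
    rw [Set.disjoint_left]
    rintro y ⟨h1, h2, h3⟩ (⟨-, h4⟩ | ⟨-, h4⟩)
    · exact h2 h4
    · exact h3 h4
  rw [← Set.ncard_union_eq hdisj1 (hfin _) (hfin _), ← Set.ncard_union_eq hdisj2 (hfin _) (hfin _),
    ← ncard_un (p := p) (n := n)]
  congr 1
  ext y
  simp only [hU', Un, Set.mem_union, Set.mem_ofPred_eq]
  tauto

theorem crelS (hFCT : TaskFCT) (hCNT : TaskCNT) (m : Fin k → Fin n → ℕ)
    [MeasurableSpace (Fin n → PadicInt p)] [BorelSpace (Fin n → PadicInt p)]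
    (μ : Measure (Fin n → PadicInt p))
    (hμ : μ = (Measure.addHaar : Measure (Fin n → PadicInt p))) (cz : Fin k → ℤ_[p])
    (hcz : ∀ j, ‖cz j‖ = 1)
    (hnc : ∀ i k', SpJ m i k' → ∀ z : Fin n → ZMod p, (∀ l, z l ≠ 0) →
      gg m (fun j => PadicInt.toZMod (cz j)) i k' z ≠ 0 ∨
        gg m (fun j => PadicInt.toZMod (cz j)) k' i z ≠ 0) :
    CRS m p (fun τ => (μ {y | (∀ i, ‖y i‖ = 1) ∧
        ‖GG m (fun j => if j ∈ τ then cz j else 0) y‖ = 1}).toReal / (μ Set.univ).toReal)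
      (fun τ => (μ (UU m (fun j => if j ∈ τ then cz j else 0) 0)).toReal /
        (μ Set.univ).toReal * (1 - (p : ℝ)⁻¹)) := by
  subst hμ
  set μ : Measure (Fin n → PadicInt p) := Measure.addHaar with hμ
  have hV : 0 < (μ Set.univ).toReal := by
    refine ENNReal.toReal_pos ?_ (measure_ne_top μ _)
    exact (isOpen_univ.measure_pos μ Set.univ_nonempty).ne'
  have hp0 : (p : ℝ) ≠ 0 := by exact_mod_cast hp.out.pos.ne'
  have hfin : ∀ S : Set (Fin n → ZMod p), S.Finite := fun S => Set.toFinite S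
  set b : Fin k → ZMod p := fun j => PadicInt.toZMod (cz j) with hb
  refine ⟨((Un p n).ncard : ℝ) / (p : ℝ) ^ n, fun τ => ((Zr p m b τ).ncard : ℝ) / (p : ℝ) ^ n,
    fun τ => ?_, fun τ => ?_, ?_, fun i j0 τ0 h1 h2 => ?_, fun i k' hsp => ?_⟩
  · simp only
    rw [nz_eq, hCNT p]
    rw [← hμ]
    have h3 : ((Un p n \ Zr p m b τ).ncard : ℝ) = (Un p n).ncard - (Zr p m b τ).ncard := by
      have h4 : Zr p m b τ ⊆ Un p n := fun y hy => hy.1
      have h5 := Set.ncard_sdiff_add_ncard_of_subset h4 (hfin _)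
      have h6 : ((Un p n \ Zr p m b τ).ncard : ℝ) + (Zr p m b τ).ncard = (Un p n).ncard := by
        exact_mod_cast h5
      linarith
    rw [h3]
    field_simp
  · simp only
    rw [uu_eq, hCNT p, ← hμ]
    field_simp
    rw [hb]
    ring
  · simp only
    congr 3
    ext y
    simp [Un, Zr]
  · have h3 := hFCT p m i j0 τ0 b h1 h2 (toZMod_ne_zero.2 (hcz j0))
    have h4 : ((p - 1 : ℕ) : ℝ) = (p : ℝ) - 1 := by
      rw [Nat.cast_sub hp.out.one_lt.le]
      norm_num
    have h5 : ((p : ℝ) - 1) * (Zr p m b (insert j0 τ0)).ncard + (Zr p m b τ0).ncard =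
        (Un p n).ncard := by
      rw [ncard_un, Nat.cast_pow, ← h4]
      exact_mod_cast h3
    rw [← h5]
    ring
  · have h3 := spec_count m b hsp (hnc i k' hsp)
    have h4 : ((p - 1 : ℕ) : ℝ) = (p : ℝ) - 1 := by
      rw [Nat.cast_sub hp.out.one_lt.le]
      norm_num
    have h5 : ((p : ℝ) - 1) * (Zr p m b (Sb m i k')).ncard + ((Zr p m b (Sa m i k')).ncard +
        (Zr p m b (Sa m k' i)).ncard) = (Un p n).ncard := by
      rw [ncard_un, Nat.cast_pow, ← h4]
      exact_mod_cast h3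
    rw [← h5]
    ring

theorem zmaS (hn : n ≤ 3) (hFCT : TaskFCT) (hCNT : TaskCNT) (m : Fin k → Fin n → ℕ)
    (c : Fin k → ℚ) (hc : ∀ j, c j ≠ 0) (hk : 0 < k)
    (hid : ∀ u : Fin n → ℕ, Idn m c (Finset.univ.filter fun j => ∑ i, u i * m j i = gord m u)) :
    ZMAS m c := by
  classical
  -- the identities
  have hid' : ∀ τ : Finset (Fin k), ∃ (M : ℕ) (B0 : MvPolynomial (Fin n) ℚ)
      (B : Fin n → MvPolynomial (Fin n) ℚ),
      (∃ u : Fin n → ℕ, τ = Finset.univ.filter fun j => ∑ i, u i * m j i = gord m u) →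
      (∏ i, MvPolynomial.X i : MvPolynomial (Fin n) ℚ) ^ M =
      B0 * (∑ j ∈ τ, MvPolynomial.C (c j) * ∏ i, MvPolynomial.X i ^ m j i) +
        ∑ i, B i * ∑ j ∈ τ, MvPolynomial.C (c j * (m j i : ℚ)) *
          ∏ i', MvPolynomial.X i' ^ m j i' := by
    intro τ
    by_cases h : ∃ u : Fin n → ℕ, τ = Finset.univ.filter fun j => ∑ i, u i * m j i = gord m u
    · obtain ⟨u, hu⟩ := h
      obtain ⟨M, B0, B, hB⟩ := hid u
      exact ⟨M, B0, B, fun _ => by rw [hu]; exact hB⟩
    · exact ⟨0, 0, fun _ => 0, fun h' => absurd h' h⟩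
  choose M B0 B hB using hid'
  refine ⟨(Finset.univ.biUnion fun j => (c j).num.natAbs.primeFactors) ∪
    ((Finset.univ.biUnion fun j => (c j).den.primeFactors) ∪
    Finset.univ.biUnion fun τ : Finset (Fin k) =>
      ((B0 τ).support.biUnion fun w => ((B0 τ).coeff w).den.primeFactors) ∪
      Finset.univ.biUnion fun i => (B τ i).support.biUnion fun w =>
        ((B τ i).coeff w).den.primeFactors), ?_⟩
  intro p hp hpS' _ _
  rw [Finset.mem_union, not_or] at hpS'
  have hpS := hpS'.2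
  rw [Finset.mem_union, not_or] at hpS
  have hrat : ∀ q : ℚ, p ∉ q.den.primeFactors → ‖((q : ℚ) : ℚ_[p])‖ ≤ 1 := fun q hq =>
    Padic.norm_rat_le_one fun hd => hq (Nat.mem_primeFactors.2 ⟨hp.out, hd, q.den_ne_zero⟩)
  have hcn : ∀ j, ‖((c j : ℚ) : ℚ_[p])‖ ≤ 1 := fun j =>
    hrat _ fun h => hpS.1 (Finset.mem_biUnion.2 ⟨j, Finset.mem_univ j, h⟩)
  have hB0n : ∀ τ, ∀ w ∈ (B0 τ).support, ‖(((B0 τ).coeff w : ℚ) : ℚ_[p])‖ ≤ 1 := fun τ w hw =>
    hrat _ fun h => hpS.2 (Finset.mem_biUnion.2 ⟨τ, Finset.mem_univ τ,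
      Finset.mem_union_left _ (Finset.mem_biUnion.2 ⟨w, hw, h⟩)⟩)
  have hBn : ∀ τ i, ∀ w ∈ (B τ i).support, ‖(((B τ i).coeff w : ℚ) : ℚ_[p])‖ ≤ 1 :=
    fun τ i w hw => hrat _ fun h => hpS.2 (Finset.mem_biUnion.2 ⟨τ, Finset.mem_univ τ,
      Finset.mem_union_right _ (Finset.mem_biUnion.2 ⟨i, Finset.mem_univ i,
        Finset.mem_biUnion.2 ⟨w, hw, h⟩⟩)⟩)
  have hp0 : (0 : ℝ) < p := by exact_mod_cast hp.out.pos
  let cz : Fin k → ℤ_[p] := fun j => ⟨((c j : ℚ) : ℚ_[p]), hcn j⟩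
  let bt : Finset (Fin k) → Fin k → ℤ_[p] := fun τ j => if j ∈ τ then cz j else 0
  let μ : Measure (Fin n → PadicInt p) := Measure.addHaar
  have hμ : (Measure.addHaar : Measure (Fin n → PadicInt p)) = μ := rfl
  rw [hμ]
  have hV : 0 < (μ Set.univ).toReal := by
    refine ENNReal.toReal_pos ?_ (measure_ne_top μ _)
    exact (isOpen_univ.measure_pos μ Set.univ_nonempty).ne'
  refine ⟨fun τ => (μ {y | (∀ i, ‖y i‖ = 1) ∧ ‖GG m (bt τ) y‖ = 1}).toReal / (μ Set.univ).toReal,
    fun τ => (μ (UU m (bt τ) 0)).toReal / (μ Set.univ).toReal * (1 - (p : ℝ)⁻¹),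
    crelS hFCT hCNT m μ rfl cz (fun j => ?_) (fun i k' hsp z' hz' => ?_), ?_⟩
  · have h1 : ‖cz j‖ = ‖((c j : ℚ) : ℚ_[p])‖ := rfl
    rw [h1]
    refine le_antisymm (hcn j) ?_
    have h2 : ‖(((c j)⁻¹ : ℚ) : ℚ_[p])‖ ≤ 1 := hrat _ fun h => hpS'.1 (Finset.mem_biUnion.2
      ⟨j, Finset.mem_univ j, by
        rw [← Rat.den_inv_of_ne_zero (hc j)]
        exact h⟩)
    rw [Rat.cast_inv, norm_inv] at h2
    have h3 : 0 < ‖((c j : ℚ) : ℚ_[p])‖ := norm_pos_iff.2 (by exact_mod_cast hc j)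
    rwa [inv_le_one₀ h3] at h2
  · refine no_common hn hsp (fun u z'' hz'' h0 => ?_) z' fun l _ _ => hz' l
    have hsur : ∀ x : ZMod p, ∃ y : ℤ_[p], PadicInt.toZMod y = x := fun x =>
      ZMod.ringHom_surjective _ x
    choose y hy using fun l => hsur (z'' l)
    have hy1 : ∀ l, ‖y l‖ = 1 := fun l => by
      rw [← toZMod_ne_zero, hy]
      exact hz'' l
    have hτu : amin m u = Finset.univ.filter fun j => ∑ i, u i * m j i = gord m u := rfl
    have hGG : ∀ τ, PadicInt.toZMod (GG m (bt τ) y) =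
        gbar m (fun j => PadicInt.toZMod (cz j)) τ z'' := by
      intro τ
      rw [toZMod_GG]
      unfold gbar
      simp only [hy]
    obtain ⟨l, hl⟩ := nondeg_mod m c (amin m u) (M _) (B0 _) (B _) (hB _ ⟨u, hτu⟩) (hB0n _)
      (hBn _) (bt (amin m u)) (fun j => by
        show ((if j ∈ amin m u then cz j else 0 : ℤ_[p]) : ℚ_[p]) = _
        split_ifs
        · rfl
        · rfl) y hy1 (by
        rw [← toZMod_eq_zero, hGG]
        exact h0)
    refine ⟨l, fun hd => ?_⟩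
    rw [← toZMod_ne_zero] at hl
    apply hl
    have h5 : PadicInt.toZMod (DD m (bt (amin m u)) l y) =
        z'' l * dgbar m (fun j => PadicInt.toZMod (cz j)) (amin m u) l z'' := by
      unfold DD XX dgbar
      rw [map_sum, Finset.mul_sum, ← Finset.sum_filter_add_sum_filter_not Finset.univ
        (fun j => j ∈ amin m u)]
      rw [Finset.sum_eq_zero (s := Finset.univ.filter fun j => j ∉ amin m u) (fun j hj => by
        simp only [bt]
        rw [if_neg (Finset.mem_filter.1 hj).2, zero_mul, mul_zero, map_zero]), add_zero]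
      refine Finset.sum_congr (by ext j; simp) fun j hj => ?_
      have hj' : j ∈ amin m u := hj
      simp only [bt]
      rw [if_pos hj', map_mul, map_mul, map_natCast, map_prod]
      simp only [map_pow, hy]
      rw [← Finset.mul_prod_erase Finset.univ (fun x => z'' x ^ m j x) (Finset.mem_univ l),
        ← Finset.mul_prod_erase Finset.univ (fun x => z'' x ^ (m j x - if x = l then 1 else 0))
          (Finset.mem_univ l), if_pos rfl]
      have h6 : ∏ x ∈ Finset.univ.erase l, z'' x ^ (m j x - if x = l then 1 else 0) =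
          ∏ x ∈ Finset.univ.erase l, z'' x ^ m j x :=
        Finset.prod_congr rfl fun x hx => by rw [if_neg (Finset.ne_of_mem_erase hx), Nat.sub_zero]
      rw [h6]
      rcases Nat.eq_zero_or_pos (m j l) with h7 | h7
      · rw [h7]
        simp
      · obtain ⟨d, hd⟩ : ∃ d, m j l = d + 1 := ⟨m j l - 1, by omega⟩
        rw [hd, Nat.add_sub_cancel]
        push_cast
        ring
    rw [h5, hd, mul_zero]
  intro u
  set δ : Fin k → ℕ := fun j => ∑ i, u i * m j i - gord m u with hδ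
  have hδ0 : ∀ j, δ j = 0 ↔ ∑ i, u i * m j i = gord m u := by
    intro j
    have := Pool.Agent.W880.SM.gord_le m u j
    simp only [hδ]
    omega
  set τ := Finset.univ.filter fun j => ∑ i, u i * m j i = gord m u with hτ
  have hmem : ∀ j, j ∈ τ ↔ δ j = 0 := fun j => by rw [hδ0, hτ]; simp
  let b : Fin k → ℤ_[p] := fun j => cz j * (p : ℤ_[p]) ^ δ j
  have hgp : ∀ y : Fin n → PadicInt p, ‖gp p m c δ y‖ = ‖GG m b y‖ := by
    intro y
    rw [PadicInt.norm_def, coe_GG]
    congr 1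
  have hmodX : ∀ (y : Fin n → PadicInt p) (j : Fin k),
      PadicInt.toZMod (XX m b y j) = PadicInt.toZMod (XX m (bt τ) y j) := by
    intro y j
    unfold XX
    rw [map_mul PadicInt.toZMod (b j), map_mul PadicInt.toZMod (bt τ j)]
    congr 1
    show PadicInt.toZMod (cz j * (p : ℤ_[p]) ^ δ j) =
      PadicInt.toZMod (if j ∈ τ then cz j else 0)
    by_cases h : δ j = 0
    · rw [if_pos ((hmem j).2 h), h, pow_zero, mul_one]
    · rw [if_neg (fun h' => h ((hmem j).1 h')), map_zero, map_mul, map_pow, toZMod_p, zero_pow h,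
        mul_zero]
  have hmod : ∀ y : Fin n → PadicInt p,
      PadicInt.toZMod (GG m b y) = PadicInt.toZMod (GG m (bt τ) y) := by
    intro y
    unfold GG
    rw [map_sum, map_sum]
    exact Finset.sum_congr rfl fun j _ => hmodX y j
  have hmodD : ∀ (y : Fin n → PadicInt p) (i : Fin n),
      PadicInt.toZMod (DD m b i y) = PadicInt.toZMod (DD m (bt τ) i y) := by
    intro y i
    unfold DD
    rw [map_sum, map_sum]
    refine Finset.sum_congr rfl fun j _ => ?_
    rw [map_mul, map_mul, hmodX y j]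
  have hnd : ∀ y : Fin n → ℤ_[p], (∀ i, ‖y i‖ = 1) → ‖GG m b y‖ < 1 →
      ∃ i, ‖DD m b i y‖ = 1 := by
    intro y h1 h2
    rw [← toZMod_eq_zero, hmod y, toZMod_eq_zero] at h2
    obtain ⟨i, hi⟩ := nondeg_mod m c τ (M τ) (B0 τ) (B τ) (hB τ ⟨u, hτ⟩) (hB0n τ) (hBn τ)
      (bt τ) (fun j => by
        show ((if j ∈ τ then cz j else 0 : ℤ_[p]) : ℚ_[p]) = _
        split_ifs
        · rfl
        · rfl) y h1 h2
    refine ⟨i, ?_⟩
    rw [← toZMod_ne_zero, hmodD y i, toZMod_ne_zero]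
    exact hi
  have hUU0 : UU m b 0 = UU m (bt τ) 0 := by
    ext y
    show (∀ i, ‖y i‖ = 1) ∧ (p : ℤ_[p]) ^ (0 + 1) ∣ GG m b y ↔
      (∀ i, ‖y i‖ = 1) ∧ (p : ℤ_[p]) ^ (0 + 1) ∣ GG m (bt τ) y
    rw [zero_add, pow_one, ← toZMod_eq_zero', ← toZMod_eq_zero', hmod y]
  have hpne : (p : ℝ) ≠ 0 := hp0.ne'
  have h1 : (μ {y | (∀ i, ‖y i‖ = 1) ∧ ‖gp p m c δ y‖ = 1}).toReal =
      (μ Set.univ).toReal * ((μ {y | (∀ i, ‖y i‖ = 1) ∧ ‖GG m (bt τ) y‖ = 1}).toReal /
      (μ Set.univ).toReal) := by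
    have hset : {y : Fin n → PadicInt p | (∀ i, ‖y i‖ = 1) ∧ ‖gp p m c δ y‖ = 1} =
        {y | (∀ i, ‖y i‖ = 1) ∧ ‖GG m (bt τ) y‖ = 1} := by
      ext y
      simp only [Set.mem_ofPred_eq, hgp y]
      rw [← toZMod_ne_zero, ← toZMod_ne_zero, hmod y]
    rw [hset]
    field_simp
  have h2 : ∀ l : ℕ, (μ {y | (∀ i, ‖y i‖ = 1) ∧
      ‖gp p m c δ y‖ = (p : ℝ) ^ (-((l : ℤ) + 1))}).toReal =
      (μ Set.univ).toReal * ((μ (UU m (bt τ) 0)).toReal / (μ Set.univ).toReal *
      (1 - (p : ℝ)⁻¹)) * (p : ℝ) ^ (-(l : ℤ)) := by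
    intro l
    have hset : {y : Fin n → PadicInt p | (∀ i, ‖y i‖ = 1) ∧
        ‖gp p m c δ y‖ = (p : ℝ) ^ (-((l : ℤ) + 1))} = UU m b l \ UU m b (l + 1) := by
      rw [← diff_eq]
      ext y
      simp only [Set.mem_ofPred_eq, hgp y]
    rw [hset]
    have hsub : UU m b (l + 1) ⊆ UU m b l := fun y hy =>
      ⟨hy.1, (pow_dvd_pow _ (by omega)).trans hy.2⟩
    rw [measure_sdiff hsub (meas_UU m b (l + 1)).nullMeasurableSet (measure_ne_top μ _),
      ENNReal.toReal_sub_of_le (measure_mono hsub) (measure_ne_top μ _),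
      UU_real m b hnd l μ, UU_real m b hnd (l + 1) μ, hUU0]
    have e : (p : ℝ) ^ (-((l + 1 : ℕ) : ℤ)) = (p : ℝ) ^ (-(l : ℤ)) * (p : ℝ)⁻¹ := by
      rw [← zpow_sub_one₀ hpne]
      congr 1
      push_cast
      ring
    rw [e]
    field_simp
  constructor
  · have h3 := set_eq (p := p) m c u 1
    rw [mul_one] at h3
    rw [h3, ← hμ, measure_image, hμ, h1]
    ring
  · intro l
    have h3 := set_eq (p := p) m c u ((p : ℝ) ^ (-((l : ℤ) + 1)))
    rw [← zpow_add₀ hp0.ne', ← neg_add] at h3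
    rw [h3, ← hμ, measure_image, hμ, h2 l]
    ring

end

theorem zmS {n k : ℕ} (A : Fin n → ℕ) (m : Fin k → Fin n → ℕ) (c : Fin k → ℚ) (e : ℕ)
    (he : 0 < e) (h : ZMAS m c) : ZMS A m c e := by
  obtain ⟨S, hS⟩ := h
  refine ⟨S ∪ Finset.univ.biUnion (fun j => (c j).den.primeFactors), ?_⟩
  intro p hp hpS _ _
  obtain ⟨C₀, C₁, hCR, hC⟩ := hS p (fun h => hpS (Finset.mem_union_left _ h))
  have hcp : ∀ j, ‖(c j : Padic p)‖ ≤ 1 := by
    intro j
    apply Padic.norm_rat_le_one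
    intro hd
    apply hpS
    apply Finset.mem_union_right
    exact Finset.mem_biUnion.2 ⟨j, Finset.mem_univ _,
      Nat.mem_primeFactors.2 ⟨hp.out, hd, (c j).den_ne_zero⟩⟩
  set μ : Measure (Fin n → PadicInt p) := Measure.addHaar with hμ
  have hfin : μ Set.univ < ⊤ := isCompact_univ.measure_lt_top
  have hVpos : 0 < (μ Set.univ).toReal :=
    ENNReal.toReal_pos (isOpen_univ.measure_ne_zero μ Set.univ_nonempty) hfin.ne
  refine ⟨(μ Set.univ).toReal, C₀, C₁, hVpos, hCR, ?_⟩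
  intro s hs
  have hs0 : s ≠ 0 := by
    rintro rfl
    simp at hs
  have hfm : IsFiniteMeasure μ := ⟨hfin⟩
  set F : (Fin n → PadicInt p) → ℂ := fun x => ((pval p (spoly A m c e) x : ℝ) : ℂ) ^ s with hF
  have hFm : Measurable F :=
    (Complex.measurable_ofReal.comp (pval_continuous p A m c e).measurable).pow_const s
  have hFb : ∀ x, ‖F x‖ ≤ 1 := by
    intro x
    rw [hF]
    simp only
    rw [Complex.norm_cpow_eq_rpow_re_of_nonneg (pval_nonneg p _ x) hs.ne']
    exact Real.rpow_le_one (pval_nonneg p _ x) (pval_le_one p A m c e hcp x) hs.le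
  have hFi : Integrable F μ :=
    Integrable.of_bound hFm.aestronglyMeasurable 1 (Filter.Eventually.of_forall hFb)
  have h1 : ∫ x in ⋃ v, W p m c v, F x ∂μ = ∫ x, F x ∂μ := by
    apply setIntegral_eq_integral_of_ae_compl_eq_zero
    have hnull : ∀ᵐ x ∂μ, ∀ i, x i ≠ 0 := by
      rw [ae_all_iff]
      intro i
      rw [ae_iff]
      simpa using null_coord p i
    filter_upwards [hnull] with x hx hxU
    have hg : gp p m c 0 x = 0 := by
      by_contra hg
      exact hxU (mem_iUnion_W p m c hcp x hx hg)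
    rw [hF]
    simp only
    rw [pval_spoly, hg, norm_zero, zero_pow he.ne', mul_zero, Complex.ofReal_zero,
      Complex.zero_cpow hs0]
  have h2 : HasSum (fun v => ∫ x in W p m c v, F x ∂μ) (∫ x in ⋃ v, W p m c v, F x ∂μ) :=
    hasSum_integral_iUnion (fun v => (W_closed p m c v).measurableSet) (W_disj p m c)
      hFi.integrableOn
  have h3 : ∀ v, ∫ x in W p m c v, F x ∂μ =
      ((μ (W p m c v)).toReal : ℂ) * (p : ℂ) ^ (-(s * ((ford A m e v.1 + e * v.2 : ℕ) : ℂ))) := by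
    intro v
    have h4 : ∫ x in W p m c v, F x ∂μ =
        ∫ x in W p m c v, (p : ℂ) ^ (-(s * ((ford A m e v.1 + e * v.2 : ℕ) : ℂ))) ∂μ := by
      apply setIntegral_congr_fun (W_closed p m c v).measurableSet
      intro x hx
      rw [hF]
      simp only
      rw [pval_W p A m c e v x hx, cpow_zpow]
    rw [h4, setIntegral_const]
    simp [Measure.real]
  rw [h1] at h2
  simp_rw [h3] at h2
  have h5 := h2.prod_fiberwise (g := fun u => (((μ Set.univ).toReal : ℝ) : ℂ) *
      (((p : ℂ) ^ (-(((∑ i, u i : ℕ) : ℂ) + s * ford A m e u))) *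
        ((C₀ (Finset.univ.filter fun j => ∑ i, u i * m j i = gord m u) : ℂ) +
          (C₁ (Finset.univ.filter fun j => ∑ i, u i * m j i = gord m u) : ℂ) *
            ((p : ℂ) ^ (-(e * s)) / (1 - (p : ℂ) ^ (-(1 + e * s))))))) ?_
  · rw [← h5.tsum_eq, tsum_mul_left]
  · intro u
    refine sum_l p (μ Set.univ).toReal
      (C₀ (Finset.univ.filter fun j => ∑ i, u i * m j i = gord m u))
      (C₁ (Finset.univ.filter fun j => ∑ i, u i * m j i = gord m u)) (∑ i, u i)
      (ford A m e u) e s hs (fun l => (μ (W p m c (u, l))).toReal) ?_ ?_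
    · have := (hC u).1
      simp only [W, Nat.cast_zero, add_zero]
      exact this
    · intro l
      have := (hC u).2 l
      simp only [W]
      push_cast at this ⊢
      exact this


end Pool.Agent.TH216.G3
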