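import Pool.Agent.TH216.MF.MotK

set_option autoImplicit false

/-! Pairs of coordinates `i`, `k` such that every monomial contains `x_i` or `x_k`: the points with
the support `{i, k}`. -/

namespace Pool.Agent.TH216.G3

open Pool.Agent.W426.SM (gord ford IsRay face)
open Pool.Agent.W803.SM (filt gord_le exists_gord mem_filt)
open Pool.Agent.W428.MOT (amin free Adm cp wt)
open Pool.Agent.TH216.MF (frc cser)

variable {r n : ℕ}

/-- the special pairs -/
def SpJ (m : Fin r → Fin n → ℕ) (i k : Fin n) : Prop :=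
  i ≠ k ∧ (∀ x, m x i ≠ 0 ∨ m x k ≠ 0) ∧ (∃ x, m x i = 1 ∧ m x k = 0) ∧
    ∃ x, m x i = 0 ∧ m x k = 1

lemma SpJ.symm {m : Fin r → Fin n → ℕ} {i k : Fin n} (h : SpJ m i k) : SpJ m k i := by
  obtain ⟨h1, h2, ⟨x, hx, hx'⟩, y, hy, hy'⟩ := h
  exact ⟨h1.symm, fun x => (h2 x).symm, ⟨y, hy', hy⟩, x, hx', hx⟩

/-- the monomials `x_i x'` -/
def Sa (m : Fin r → Fin n → ℕ) (i k : Fin n) : Finset (Fin r) :=
  Finset.univ.filter fun x => m x i = 1 ∧ m x k = 0

lemma mem_Sa (m : Fin r → Fin n → ℕ) (i k : Fin n) (x : Fin r) :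
    x ∈ Sa m i k ↔ m x i = 1 ∧ m x k = 0 := by
  unfold Sa
  rw [Finset.mem_filter]
  exact ⟨fun h => h.2, fun h => ⟨Finset.mem_univ _, h⟩⟩

/-- the linear monomials -/
def Sb (m : Fin r → Fin n → ℕ) (i k : Fin n) : Finset (Fin r) := Sa m i k ∪ Sa m k i

lemma mem_Sb (m : Fin r → Fin n → ℕ) (i k : Fin n) (x : Fin r) :
    x ∈ Sb m i k ↔ (m x i = 1 ∧ m x k = 0) ∨ (m x k = 1 ∧ m x i = 0) := by
  unfold Sb
  rw [Finset.mem_union, mem_Sa, mem_Sa]

lemma Sb_comm (m : Fin r → Fin n → ℕ) (i k : Fin n) : Sb m i k = Sb m k i := by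
  unfold Sb
  rw [Finset.union_comm]

lemma sum_pair (i k : Fin n) (hik : i ≠ k) (u w : Fin n → ℕ)
    (hu : ∀ l, l ≠ i → l ≠ k → u l = 0) : ∑ l, u l * w l = u i * w i + u k * w k := by
  classical
  rw [← Finset.add_sum_erase _ _ (Finset.mem_univ i),
    ← Finset.add_sum_erase _ _ (Finset.mem_erase.2 ⟨hik.symm, Finset.mem_univ k⟩),
    Finset.sum_eq_zero, add_zero]
  intro l hl
  obtain ⟨h1, h2⟩ := Finset.mem_erase.1 hl
  rw [hu l (Finset.mem_erase.1 h2).1 h1, zero_mul]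

lemma adm_pair {i k : Fin n} {u : Fin n → ℕ} (hA : Adm {i, k} u) :
    u i ≠ 0 ∧ u k ≠ 0 ∧ ∀ l, l ≠ i → l ≠ k → u l = 0 := by
  refine ⟨(hA i).2 (by simp), (hA k).2 (by simp), fun l h1 h2 => ?_⟩
  by_contra h
  have := (hA l).1 h
  rw [Finset.mem_insert, Finset.mem_singleton] at this
  rcases this with h' | h'
  · exact h1 h'
  · exact h2 h'

lemma gord_pair {m : Fin r → Fin n → ℕ} {i k : Fin n} (h : SpJ m i k) {u : Fin n → ℕ}
    (hA : Adm {i, k} u) : gord m u = min (u i) (u k) := by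
  obtain ⟨hik, hall, ⟨x, hx, hx'⟩, y, hy, hy'⟩ := h
  obtain ⟨hi, hk, hu⟩ := adm_pair hA
  have h1 := gord_le m u x
  have h2 := gord_le m u y
  rw [sum_pair i k hik u _ hu, hx, hx', mul_one, mul_zero, add_zero] at h1
  rw [sum_pair i k hik u _ hu, hy, hy', mul_one, mul_zero, zero_add] at h2
  obtain ⟨z, hz⟩ := exists_gord (Fin.pos x) m u
  rw [sum_pair i k hik u _ hu] at hz
  refine le_antisymm (le_min h1 h2) ?_
  rw [← hz]
  rcases hall z with h3 | h3
  · refine (min_le_left _ _).trans ?_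
    have := Nat.le_mul_of_pos_right (u i) (Nat.pos_of_ne_zero h3)
    omega
  · refine (min_le_right _ _).trans ?_
    have := Nat.le_mul_of_pos_right (u k) (Nat.pos_of_ne_zero h3)
    omega

lemma mem_amin' (m : Fin r → Fin n → ℕ) (u : Fin n → ℕ) (x : Fin r) :
    x ∈ amin m u ↔ ∑ l, u l * m x l = gord m u := by
  unfold amin
  rw [Finset.mem_filter]
  exact ⟨fun h => h.2, fun h => ⟨Finset.mem_univ _, h⟩⟩

lemma amin_lt {m : Fin r → Fin n → ℕ} {i k : Fin n} (h : SpJ m i k) {u : Fin n → ℕ}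
    (hA : Adm {i, k} u) (hlt : u i < u k) : amin m u = Sa m i k := by
  have hg := gord_pair h hA
  obtain ⟨hik, hall, -, -⟩ := h
  obtain ⟨hi, hk, hu⟩ := adm_pair hA
  ext x
  rw [mem_amin', mem_Sa, hg, sum_pair i k hik u _ hu, min_eq_left hlt.le]
  constructor
  · intro h1
    have h2 : m x k = 0 := by
      by_contra h3
      have := Nat.le_mul_of_pos_right (u k) (Nat.pos_of_ne_zero h3)
      omega
    rw [h2, mul_zero, add_zero] at h1
    exact ⟨Nat.eq_of_mul_eq_mul_left (Nat.pos_of_ne_zero hi) (by rw [h1, mul_one]), h2⟩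
  · rintro ⟨h1, h2⟩
    rw [h1, h2]
    omega

lemma amin_gt {m : Fin r → Fin n → ℕ} {i k : Fin n} (h : SpJ m i k) {u : Fin n → ℕ}
    (hA : Adm {i, k} u) (hlt : u k < u i) : amin m u = Sa m k i := by
  rw [Finset.pair_comm] at hA
  exact amin_lt h.symm hA hlt

lemma amin_eq {m : Fin r → Fin n → ℕ} {i k : Fin n} (h : SpJ m i k) {u : Fin n → ℕ}
    (hA : Adm {i, k} u) (heq : u i = u k) : amin m u = Sb m i k := by
  have hg := gord_pair h hA
  obtain ⟨hik, hall, -, -⟩ := h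
  obtain ⟨hi, hk, hu⟩ := adm_pair hA
  ext x
  rw [mem_amin', mem_Sb, hg, sum_pair i k hik u _ hu, ← heq, min_self]
  constructor
  · intro h1
    rw [← mul_add] at h1
    have h2 : m x i + m x k = 1 :=
      Nat.eq_of_mul_eq_mul_left (Nat.pos_of_ne_zero hi) (by rw [h1, mul_one])
    rcases hall x with h3 | h3
    · left; omega
    · right; omega
  · rintro (⟨h1, h2⟩ | ⟨h1, h2⟩)
    · rw [h1, h2]
      omega
    · rw [h1, h2]
      omega

/-- the vector -/
def uab (i k : Fin n) (a b : ℕ) : Fin n → ℕ := fun l => if l = i then a else if l = k then b else 0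

lemma uab_i (i k : Fin n) (a b : ℕ) : uab i k a b i = a := if_pos rfl

lemma uab_k (i k : Fin n) (hik : i ≠ k) (a b : ℕ) : uab i k a b k = b := by
  unfold uab
  rw [if_neg hik.symm, if_pos rfl]

lemma uab_o (i k l : Fin n) (h1 : l ≠ i) (h2 : l ≠ k) (a b : ℕ) : uab i k a b l = 0 := by
  unfold uab
  rw [if_neg h1, if_neg h2]

lemma adm_uab (i k : Fin n) (hik : i ≠ k) (a b : ℕ) (ha : a ≠ 0) (hb : b ≠ 0) :
    Adm {i, k} (uab i k a b) := by
  intro l
  rw [Finset.mem_insert, Finset.mem_singleton]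
  by_cases h1 : l = i
  · subst h1
    rw [uab_i]
    tauto
  · by_cases h2 : l = k
    · subst h2
      rw [uab_k i l hik]
      tauto
    · rw [uab_o i k l h1 h2]
      tauto

lemma eq_uab {i k : Fin n} {u : Fin n → ℕ} (hA : Adm {i, k} u) :
    u = uab i k (u i) (u k) := by
  obtain ⟨-, -, hu⟩ := adm_pair hA
  funext l
  by_cases h1 : l = i
  · rw [h1, uab_i]
  · by_cases h2 : l = k
    · subst h2
      rw [uab_k i l fun h => h1 h.symm]
    · rw [hu l h1 h2, uab_o i k l h1 h2]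

lemma ford_one (m : Fin r → Fin n → ℕ) (u : Fin n → ℕ) : ford 0 m 1 u = gord m u := by
  unfold ford
  simp

lemma mem_cp (m : Fin r → Fin n → ℕ) (i k : Fin n) (τ : Finset (Fin r)) (M : ℕ)
    (u : Fin n → ℕ) : u ∈ ((Fintype.piFinset fun _ : Fin n => Finset.range (M + 2)).filter
    (fun u => Adm {i, k} u ∧ amin m u = τ ∧ ford 0 m 1 u = M)) ↔
      (∀ l, u l < M + 2) ∧ Adm {i, k} u ∧ amin m u = τ ∧ gord m u = M := by
  rw [Finset.mem_filter, Fintype.mem_piFinset, ford_one]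
  simp only [Finset.mem_range]

lemma Sa_ne {m : Fin r → Fin n → ℕ} {i k : Fin n} (h : SpJ m i k) : Sa m i k ≠ Sa m k i := by
  obtain ⟨-, -, ⟨x, hx, hx'⟩, -⟩ := h
  intro he
  have h1 : x ∈ Sa m i k := (mem_Sa m i k x).2 ⟨hx, hx'⟩
  rw [he, mem_Sa] at h1
  omega

lemma Sa_ne_Sb {m : Fin r → Fin n → ℕ} {i k : Fin n} (h : SpJ m i k) :
    Sa m i k ≠ Sb m i k := by
  obtain ⟨-, -, -, x, hx, hx'⟩ := h
  intro he
  have h1 : x ∈ Sb m i k := (mem_Sb m i k x).2 (Or.inr ⟨hx', hx⟩)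
  rw [← he, mem_Sa] at h1
  omega

lemma mem_free0 (m : Fin r → Fin n → ℕ) (J : Finset (Fin n)) (τ : Finset (Fin r)) (l : Fin n) :
    l ∈ free 0 m J τ ↔ l ∈ J ∧ ∀ x ∈ τ, m x l = 0 := by
  unfold free
  rw [Finset.mem_filter]
  simp

lemma free_Sa {m : Fin r → Fin n → ℕ} {i k : Fin n} (h : SpJ m i k) :
    free 0 m {i, k} (Sa m i k) = {k} := by
  obtain ⟨hik, -, ⟨x, hx, hx'⟩, -⟩ := h
  ext l
  rw [mem_free0, Finset.mem_insert, Finset.mem_singleton]
  constructor
  · rintro ⟨rfl | h1, h2⟩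
    · have := h2 x ((mem_Sa m _ _ x).2 ⟨hx, hx'⟩)
      omega
    · exact h1
  · rintro rfl
    exact ⟨Or.inr rfl, fun x hx => ((mem_Sa m _ _ x).1 hx).2⟩

lemma free_Sb {m : Fin r → Fin n → ℕ} {i k : Fin n} (h : SpJ m i k) :
    free 0 m {i, k} (Sb m i k) = ∅ := by
  obtain ⟨hik, -, ⟨x, hx, hx'⟩, y, hy, hy'⟩ := h
  rw [Finset.eq_empty_iff_forall_notMem]
  intro l hl
  rw [mem_free0, Finset.mem_insert, Finset.mem_singleton] at hl
  obtain ⟨rfl | rfl, h2⟩ := hl
  · have := h2 x ((mem_Sb m _ _ x).2 (Or.inl ⟨hx, hx'⟩))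
    omega
  · have := h2 y ((mem_Sb m _ _ y).2 (Or.inr ⟨hy', hy⟩))
    omega

lemma free_empty (m : Fin r → Fin n → ℕ) (J : Finset (Fin n)) : free 0 m J ∅ = J := by
  ext l
  rw [mem_free0]
  simp

lemma cser_Sa {m : Fin r → Fin n → ℕ} {i k : Fin n} (h : SpJ m i k) (M : ℕ) :
    PowerSeries.coeff M (cser m {i, k} (Sa m i k)) =
      if M = 0 then 0 else Polynomial.X ^ (2 * M + 1) := by
  classical
  unfold cser
  rw [PowerSeries.coeff_mk]
  unfold cp
  have hik := h.1
  have hmem : ∀ u, u ∈ ((Fintype.piFinset fun _ : Fin n => Finset.range (M + 2)).filter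
      (fun u => Adm {i, k} u ∧ amin m u = Sa m i k ∧ ford 0 m 1 u = M)) ↔
      M ≠ 0 ∧ u = uab i k M (M + 1) := by
    intro u
    rw [mem_cp]
    constructor
    · rintro ⟨h1, h2, h3, h4⟩
      rw [gord_pair h h2] at h4
      obtain ⟨hi, hk, hu⟩ := adm_pair h2
      rcases lt_trichotomy (u i) (u k) with h5 | h5 | h5
      · rw [min_eq_left h5.le] at h4
        have h6 := h1 k
        refine ⟨by omega, ?_⟩
        rw [eq_uab h2, h4, show u k = M + 1 by omega]
      · exact absurd (h3.symm.trans (amin_eq h h2 h5)) (Sa_ne_Sb h)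
      · exact absurd (h3.symm.trans (amin_gt h h2 h5)) (Sa_ne h)
    · rintro ⟨h1, rfl⟩
      have hA := adm_uab i k hik M (M + 1) h1 (by omega)
      refine ⟨fun l => ?_, hA, amin_lt h hA ?_, ?_⟩
      · unfold uab
        split_ifs <;> omega
      · rw [uab_i, uab_k i k hik]
        omega
      · rw [gord_pair h hA, uab_i, uab_k i k hik]
        omega
  by_cases hM : M = 0
  · rw [if_pos hM]
    refine Finset.sum_eq_zero fun u hu => ?_
    exact absurd hM ((hmem u).1 hu).1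
  · rw [if_neg hM]
    have hS : ((Fintype.piFinset fun _ : Fin n => Finset.range (M + 2)).filter
        (fun u => Adm {i, k} u ∧ amin m u = Sa m i k ∧ ford 0 m 1 u = M)) =
        {uab i k M (M + 1)} := by
      ext u
      rw [hmem, Finset.mem_singleton]
      exact ⟨fun h => h.2, fun h => ⟨hM, h⟩⟩
    rw [hS, Finset.sum_singleton]
    unfold wt
    rw [free_Sa h, ← Finset.mul_prod_erase _ _ (Finset.mem_univ i),
      ← Finset.mul_prod_erase _ _ (Finset.mem_erase.2 ⟨hik.symm, Finset.mem_univ k⟩),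
      Finset.prod_eq_one, mul_one, if_neg (by rw [Finset.mem_singleton]; exact hik),
      if_pos (Finset.mem_singleton_self k), uab_i, uab_k i k hik, if_neg (by omega), ← pow_add]
    · congr 1
      ring
    · intro l hl
      obtain ⟨h1, h2⟩ := Finset.mem_erase.1 hl
      rw [if_neg (by rw [Finset.mem_singleton]; exact h1),
        uab_o i k l (Finset.mem_erase.1 h2).1 h1, pow_zero]

lemma cser_Sa' {m : Fin r → Fin n → ℕ} {i k : Fin n} (h : SpJ m i k) (M : ℕ) :
    PowerSeries.coeff M (cser m {i, k} (Sa m k i)) =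
      if M = 0 then 0 else Polynomial.X ^ (2 * M + 1) := by
  rw [Finset.pair_comm]
  exact cser_Sa h.symm M

lemma cser_Sb {m : Fin r → Fin n → ℕ} {i k : Fin n} (h : SpJ m i k) (M : ℕ) :
    PowerSeries.coeff M (cser m {i, k} (Sb m i k)) =
      if M = 0 then 0 else Polynomial.X ^ (2 * M) := by
  classical
  unfold cser
  rw [PowerSeries.coeff_mk]
  unfold cp
  have hik := h.1
  have hmem : ∀ u, u ∈ ((Fintype.piFinset fun _ : Fin n => Finset.range (M + 2)).filter
      (fun u => Adm {i, k} u ∧ amin m u = Sb m i k ∧ ford 0 m 1 u = M)) ↔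
      M ≠ 0 ∧ u = uab i k M M := by
    intro u
    rw [mem_cp]
    constructor
    · rintro ⟨h1, h2, h3, h4⟩
      rw [gord_pair h h2] at h4
      obtain ⟨hi, hk, hu⟩ := adm_pair h2
      rcases lt_trichotomy (u i) (u k) with h5 | h5 | h5
      · exact absurd ((amin_lt h h2 h5).symm.trans h3) (Sa_ne_Sb h)
      · rw [← h5, min_self] at h4
        refine ⟨by omega, ?_⟩
        rw [eq_uab h2, ← h5, h4]
      · have h6 := (amin_gt h h2 h5).symm.trans h3
        rw [Sb_comm] at h6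
        exact absurd h6 (Sa_ne_Sb h.symm)
    · rintro ⟨h1, rfl⟩
      have hA := adm_uab i k hik M M h1 h1
      refine ⟨fun l => ?_, hA, amin_eq h hA ?_, ?_⟩
      · unfold uab
        split_ifs <;> omega
      · rw [uab_i, uab_k i k hik]
      · rw [gord_pair h hA, uab_i, uab_k i k hik]
        omega
  by_cases hM : M = 0
  · rw [if_pos hM]
    refine Finset.sum_eq_zero fun u hu => ?_
    exact absurd hM ((hmem u).1 hu).1
  · rw [if_neg hM]
    have hS : ((Fintype.piFinset fun _ : Fin n => Finset.range (M + 2)).filter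
        (fun u => Adm {i, k} u ∧ amin m u = Sb m i k ∧ ford 0 m 1 u = M)) =
        {uab i k M M} := by
      ext u
      rw [hmem, Finset.mem_singleton]
      exact ⟨fun h => h.2, fun h => ⟨hM, h⟩⟩
    rw [hS, Finset.sum_singleton]
    unfold wt
    rw [free_Sb h, ← Finset.mul_prod_erase _ _ (Finset.mem_univ i),
      ← Finset.mul_prod_erase _ _ (Finset.mem_erase.2 ⟨hik.symm, Finset.mem_univ k⟩),
      Finset.prod_eq_one, mul_one, if_neg (Finset.notMem_empty _),
      if_neg (Finset.notMem_empty _), uab_i, uab_k i k hik, ← pow_add]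
    · congr 1
      ring
    · intro l hl
      obtain ⟨h1, h2⟩ := Finset.mem_erase.1 hl
      rw [if_neg (Finset.notMem_empty _), uab_o i k l (Finset.mem_erase.1 h2).1 h1, pow_zero]

lemma cser_other {m : Fin r → Fin n → ℕ} {i k : Fin n} (h : SpJ m i k) (τ : Finset (Fin r))
    (h1 : τ ≠ Sa m i k) (h2 : τ ≠ Sa m k i) (h3 : τ ≠ Sb m i k) : cser m {i, k} τ = 0 := by
  classical
  ext1 M
  unfold cser
  rw [PowerSeries.coeff_mk, map_zero]
  unfold cp
  refine Finset.sum_eq_zero fun u hu => ?_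
  exfalso
  rw [mem_cp] at hu
  obtain ⟨-, hA, hu, -⟩ := hu
  rcases lt_trichotomy (u i) (u k) with h5 | h5 | h5
  · exact h1 (hu.symm.trans (amin_lt h hA h5))
  · exact h3 (hu.symm.trans (amin_eq h hA h5))
  · exact h2 (hu.symm.trans (amin_gt h hA h5))

end Pool.Agent.TH216.G3
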