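import Pool.Agent.TH216.G3.Q1

set_option autoImplicit false

/-! The series of a special pair. -/

namespace Pool.Agent.TH216.G3

open Pool.Agent.W426.SM (gord ford IsRay face)
open Pool.Agent.W428.MOT (amin free Adm cp wt geoR)
open Pool.Agent.TH216.MF (frc cser FR evR evR_X ratR geoR_mul CR_mem XR_mem geoR_mem)

variable {r n : ℕ}

section
variable {R : Type} [CommRing R] (u : Rˣ)

lemma sum_three {A B : Type} [Fintype A] [DecidableEq A] [AddCommMonoid B] (F : A → B) (a b c : A)
    (hab : a ≠ b) (hac : a ≠ c) (hbc : b ≠ c) (h : ∀ x, x ≠ a → x ≠ b → x ≠ c → F x = 0) :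
    ∑ x, F x = F a + (F b + F c) := by
  rw [← Finset.add_sum_erase _ _ (Finset.mem_univ a),
    ← Finset.add_sum_erase _ _ (Finset.mem_erase.2 ⟨hab.symm, Finset.mem_univ b⟩),
    ← Finset.add_sum_erase _ _ (Finset.mem_erase.2 ⟨hbc.symm,
      Finset.mem_erase.2 ⟨hac.symm, Finset.mem_univ c⟩⟩),
    Finset.sum_eq_zero, add_zero]
  intro x hx
  obtain ⟨h1, h2⟩ := Finset.mem_erase.1 hx
  obtain ⟨h3, h4⟩ := Finset.mem_erase.1 h2
  exact h x (Finset.mem_erase.1 h4).1 h3 h1

/-- **The series of a special pair.** -/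
theorem FR_spec {S : Set (ℤ × ℤ)} (hS1 : ((-1 : ℤ), (1 : ℤ)) ∈ S) {m : Fin r → Fin n → ℕ}
    {i k : Fin n} (h : SpJ m i k) (w : R) (b0 b1 : Finset (Fin r) → R)
    (hb0 : b0 (Sb m i k) + (b0 (Sa m i k) + b0 (Sa m k i)) = (u : R) * w)
    (hb1 : b1 (Sb m i k) + (b1 (Sa m i k) + b1 (Sa m k i)) = (u : R) * w - w) :
    FR u m {i, k} b0 b1 ∈ ratR u S := by
  classical
  set Y : R := ((u⁻¹ : Rˣ) : R) with hY
  have huY : (u : R) * Y = 1 := Units.mul_inv u
  set G : PowerSeries R := PowerSeries.map (evR u) (cser m {i, k} (Sb m i k)) with hG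
  have hGc : ∀ M, PowerSeries.coeff M G = if M = 0 then 0 else Y ^ (2 * M) := by
    intro M
    rw [hG, PowerSeries.coeff_map, cser_Sb h]
    split_ifs
    · rw [map_zero]
    · rw [map_pow, evR_X]
  have hGa : ∀ (σ : Finset (Fin r)), (∀ M, PowerSeries.coeff M (cser m {i, k} σ) =
      if M = 0 then 0 else Polynomial.X ^ (2 * M + 1)) →
      PowerSeries.map (evR u) (cser m {i, k} σ) = PowerSeries.C Y * G := by
    intro σ hσ
    ext M
    rw [PowerSeries.coeff_map, hσ, PowerSeries.coeff_C_mul, hGc]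
    split_ifs
    · rw [map_zero, mul_zero]
    · rw [map_pow, evR_X, pow_succ]
      ring
  have hG1 := hGa _ (cser_Sa h)
  have hG2 := hGa _ (cser_Sa' h)
  have hGrec : G * (1 - PowerSeries.C (Y ^ 2) * PowerSeries.X) =
      PowerSeries.C (Y ^ 2) * PowerSeries.X := by
    have e1 : G * (1 - PowerSeries.C (Y ^ 2) * PowerSeries.X) =
        G - PowerSeries.C (Y ^ 2) * (G * PowerSeries.X) := by ring
    rw [e1]
    ext M
    rw [map_sub, PowerSeries.coeff_C_mul, PowerSeries.coeff_C_mul]
    cases M with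
    | zero =>
      rw [hGc, PowerSeries.coeff_zero_mul_X, PowerSeries.coeff_zero_X]
      simp
    | succ M =>
      rw [hGc, PowerSeries.coeff_succ_mul_X, hGc, if_neg (Nat.succ_ne_zero M),
        PowerSeries.coeff_X]
      by_cases hM : M = 0
      · subst hM
        simp
      · rw [if_neg hM, if_neg (by omega)]
        ring
  have hf1 : frc m {i, k} (Sa m i k) = 1 := by
    unfold frc
    rw [free_Sa h, Finset.card_singleton]
  have hf2 : frc m {i, k} (Sa m k i) = 1 := by
    unfold frc
    rw [Finset.pair_comm, free_Sa h.symm, Finset.card_singleton]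
  have hf3 : frc m {i, k} (Sb m i k) = 0 := by
    unfold frc
    rw [free_Sb h, Finset.card_empty]
  have hne2 : Sa m k i ≠ Sb m i k := by
    rw [Sb_comm]
    exact Sa_ne_Sb h.symm
  have hgeo : (1 - PowerSeries.C Y * PowerSeries.X) * geoR u (-1) 1 = 1 := by
    have h1 := geoR_mul u (-1) 1 one_pos
    rw [zpow_neg_one] at h1
    have h2 : (1 : ℤ).toNat = 1 := rfl
    rw [h2, pow_one] at h1
    exact h1
  have hFR : FR u m {i, k} b0 b1 = G * (PowerSeries.C ((u : R) * w) +
      PowerSeries.C ((u : R) * w - w) * (PowerSeries.C Y * PowerSeries.X * geoR u (-1) 1)) := by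
    unfold FR
    rw [sum_three _ (Sb m i k) (Sa m i k) (Sa m k i) (Sa_ne_Sb h).symm hne2.symm (Sa_ne h)]
    · rw [hf1, hf2, hf3, hG1, hG2, ← hG, pow_zero, pow_one, ← hb1, ← hb0, map_one, one_mul]
      simp only [map_add]
      have hCu : PowerSeries.C (u : R) * PowerSeries.C Y = (1 : PowerSeries R) := by
        rw [← map_mul, huY, map_one]
      change PowerSeries.C (b0 (Sb m i k)) * G + PowerSeries.C (b1 (Sb m i k)) *
        (PowerSeries.C Y * PowerSeries.X * G * geoR u (-1) 1) +
        (PowerSeries.C (u : R) * (PowerSeries.C (b0 (Sa m i k)) * (PowerSeries.C Y * G) +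
          PowerSeries.C (b1 (Sa m i k)) * (PowerSeries.C Y * PowerSeries.X *
            (PowerSeries.C Y * G) * geoR u (-1) 1)) +
        PowerSeries.C (u : R) * (PowerSeries.C (b0 (Sa m k i)) * (PowerSeries.C Y * G) +
          PowerSeries.C (b1 (Sa m k i)) * (PowerSeries.C Y * PowerSeries.X *
            (PowerSeries.C Y * G) * geoR u (-1) 1))) = _
      linear_combination ((PowerSeries.C (b0 (Sa m i k)) + PowerSeries.C (b0 (Sa m k i))) * G +
        (PowerSeries.C (b1 (Sa m i k)) + PowerSeries.C (b1 (Sa m k i))) *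
          (PowerSeries.C Y * PowerSeries.X * G * geoR u (-1) 1)) * hCu
    · intro τ h1 h2 h3
      rw [cser_other h τ h2 h3 h1, map_zero]
      ring
  have hfin : FR u m {i, k} b0 b1 = PowerSeries.C (w * Y) * PowerSeries.X * geoR u (-1) 1 := by
    have hY2 : (1 - PowerSeries.C (Y ^ 2) * PowerSeries.X) *
        PowerSeries.invOfUnit (1 - PowerSeries.C (Y ^ 2) * PowerSeries.X) 1 = 1 := by
      refine PowerSeries.mul_invOfUnit _ 1 ?_
      simp
    have hcan : ∀ A B : PowerSeries R, A * (1 - PowerSeries.C (Y ^ 2) * PowerSeries.X) =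
        B * (1 - PowerSeries.C (Y ^ 2) * PowerSeries.X) → A = B := by
      intro A B hAB
      have := congrArg (· * PowerSeries.invOfUnit
        (1 - PowerSeries.C (Y ^ 2) * PowerSeries.X) 1) hAB
      simp only [mul_assoc, hY2, mul_one] at this
      exact this
    refine hcan _ _ ?_
    rw [hFR]
    have e1 : G * (PowerSeries.C ((u : R) * w) +
        PowerSeries.C ((u : R) * w - w) * (PowerSeries.C Y * PowerSeries.X * geoR u (-1) 1)) *
        (1 - PowerSeries.C (Y ^ 2) * PowerSeries.X) =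
        (G * (1 - PowerSeries.C (Y ^ 2) * PowerSeries.X)) * (PowerSeries.C ((u : R) * w) +
        PowerSeries.C ((u : R) * w - w) * (PowerSeries.C Y * PowerSeries.X * geoR u (-1) 1)) := by
      ring
    rw [e1, hGrec]
    have hCu : PowerSeries.C (u : R) * PowerSeries.C Y = (1 : PowerSeries R) := by
      rw [← map_mul, huY, map_one]
    simp only [map_sub, map_mul, map_pow]
    set U := PowerSeries.C (u : R)
    set y := PowerSeries.C Y
    set W := PowerSeries.C w
    set T : PowerSeries R := PowerSeries.X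
    set g := geoR u (-1) 1
    linear_combination (y * T * W * (1 + y * T * g)) * hCu - (y * T * W) * hgeo
  rw [hfin]
  exact (ratR u S).mul_mem ((ratR u S).mul_mem (CR_mem u S _) (XR_mem u S))
    (geoR_mem u (p := ((-1 : ℤ), (1 : ℤ))) hS1)

end

end Pool.Agent.TH216.G3
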