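import Pool.Agent.TH216.G3.Q2

set_option autoImplicit false

/-! The relation between the classes of a special pair, for an abstract additive invariant. -/

namespace Pool.Agent.TH216.G3

open MvPolynomial
open Pool.Agent.W428.MOT Pool.Agent.W749.MT

/-- an additive invariant of the constructible sets; the coordinates outside `D` are fixed -/
structure AbM {K : Type} [Field K] {ι : Type} [Fintype ι] [DecidableEq ι] (D : Finset ι)
    {R : Type} [CommRing R] (μ : Set (Pt K ι) → R) (L : R) : Prop where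
  add : ∀ S T : Set (Pt K ι), Constr S → Constr T → Disjoint S T → μ (S ∪ T) = μ S + μ T
  iso : ∀ S T : Set (Pt K ι), Constr S → Constr T → ∀ f g : Pt K ι → Pt K ι,
    RegularOn S f → RegularOn T g → Set.MapsTo f S T → Set.MapsTo g T S →
    (∀ z ∈ S, g (f z) = z) → (∀ w ∈ T, f (g w) = w) →
    (∀ z ∈ S, ∀ o, o ∉ D → f z o = z o) → μ S = μ T
  sub : ∀ (S T : Set (Pt K ι)) (i : ι), i ∈ D → ∀ a b : Pt K ι → AlgebraicClosure K,
    Constr S → Constr T → IsPF a → IsPF b → (∀ z w, a (Function.update z i w) = a z) →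
    (∀ z w, b (Function.update z i w) = b z) → (∀ z ∈ S, a z ≠ 0) → (∀ z ∈ T, a z ≠ 0) →
    (∀ z, a z ≠ 0 → (z ∈ S ↔ Function.update z i (a z * z i + b z) ∈ T)) → μ S = μ T
  free : ∀ (S : Set (Pt K ι)) (i : ι), i ∈ D → Constr S →
    (∀ z w : Pt K ι, (∀ o, o ≠ i → w o = z o) → z ∈ S → w ∈ S) →
    μ S = μ (S ∩ {z | z i = 1}) * L

section
variable {K : Type} [Field K] {ι : Type} [Fintype ι] [DecidableEq ι] {D : Finset ι}
  {R : Type} [CommRing R] {μ : Set (Pt K ι) → R} {L : R}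

theorem AbM.half (h : AbM D μ L) {i k : ι} (hi : i ∈ D) (hk : k ∈ D) (hik : i ≠ k)
    (H : Set (Pt K ι)) (hH : Constr H)
    (hinv : ∀ z w : Pt K ι, (∀ o, o ≠ i → o ≠ k → w o = z o) → z ∈ H → w ∈ H)
    (a b : Pt K ι → AlgebraicClosure K) (ha : IsPF a) (hb : IsPF b)
    (hai : ∀ z w : Pt K ι, (∀ o, o ≠ i → o ≠ k → w o = z o) → a w = a z)
    (hbi : ∀ z w : Pt K ι, (∀ o, o ≠ i → w o = z o) → b w = b z) (ha0 : ∀ z ∈ H, a z ≠ 0) :
    μ {z | z ∈ H ∧ a z * z i + b z = 0} = μ {z | z ∈ H ∧ z i = 1 ∧ z k = 1} * L := by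
  have hup : ∀ (z : Pt K ι) (x : AlgebraicClosure K) (o : ι), o ≠ i →
      Function.update z i x o = z o := fun z x o ho => Function.update_of_ne ho _ _
  have hS : Constr {z : Pt K ι | z ∈ H ∧ a z * z i + b z = 0} :=
    Constr.and hH (Constr.eqz ((ha.mul (IsPF.coord i)).add hb))
  have hT : Constr {z : Pt K ι | z ∈ H ∧ z i = 0} := Constr.and hH (Constr.eqz (IsPF.coord i))
  have e1 : μ {z | z ∈ H ∧ a z * z i + b z = 0} = μ {z | z ∈ H ∧ z i = 0} := by
    refine h.sub _ _ i hi a b hS hT ha hb (fun z w => hai _ _ fun o ho _ => hup z w o ho)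
      (fun z w => hbi _ _ fun o ho => hup z w o ho) (fun z hz => ha0 z hz.1)
      (fun z hz => ha0 z hz.1) fun z _ => ?_
    constructor
    · rintro ⟨h1, h2⟩
      refine ⟨hinv _ _ (fun o ho _ => hup z _ o ho) h1, ?_⟩
      show Function.update z i (a z * z i + b z) i = 0
      rw [Function.update_self, h2]
    · rintro ⟨h1, h2⟩
      have h2' : Function.update z i (a z * z i + b z) i = 0 := h2
      rw [Function.update_self] at h2'
      exact ⟨hinv _ _ (fun o ho _ => (hup z _ o ho).symm) h1, h2'⟩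
  have e2 : μ {z : Pt K ι | z ∈ H ∧ z i = 0} =
      μ ({z : Pt K ι | z ∈ H ∧ z i = 0} ∩ {z | z k = 1}) * L := by
    refine h.free _ k hk hT fun z w hw hz => ⟨hinv _ _ (fun o _ ho => hw o ho) hz.1, ?_⟩
    show w i = 0
    rw [hw i hik]
    exact hz.2
  rw [e1, e2]
  congr 1
  refine h.iso _ _ (hT.inter (Constr.eq (IsPF.coord k) IsPF.one)) (Constr.and hH
    (Constr.and (Constr.eq (IsPF.coord i) IsPF.one) (Constr.eq (IsPF.coord k) IsPF.one)))
    (fun z => Function.update z i 1) (fun z => Function.update z i 0)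
    (regularOn_poly (fun k => IsPF_update _ _ IsPF.one) _)
    (regularOn_poly (fun k => IsPF_update _ _ IsPF.zero) _) ?_ ?_ ?_ ?_ ?_
  · rintro z ⟨⟨h1, h2⟩, h3⟩
    refine ⟨hinv _ _ (fun o ho _ => hup z _ o ho) h1, Function.update_self _ _ _, ?_⟩
    show Function.update z i 1 k = 1
    rw [hup z _ k hik.symm]
    exact h3
  · rintro z ⟨h1, h2, h3⟩
    refine ⟨⟨hinv _ _ (fun o ho _ => hup z _ o ho) h1, Function.update_self _ _ _⟩, ?_⟩
    show Function.update z i 0 k = 1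
    rw [hup z _ k hik.symm]
    exact h3
  · rintro z ⟨⟨h1, h2⟩, h3⟩
    have h2' : z i = 0 := h2
    simp only [Function.update_idem]
    rw [← h2', Function.update_eq_self]
  · rintro z ⟨h1, h2, h3⟩
    simp only [Function.update_idem]
    rw [← h2, Function.update_eq_self]
  · intro z _ o ho
    exact hup z _ o fun h' => ho (h' ▸ hi)

/-- a coordinate equal to zero -/
theorem AbM.zero (h : AbM D μ L) {i : ι} (hi : i ∈ D) (H : Set (Pt K ι)) (hH : Constr H)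
    (hinv : ∀ z w : Pt K ι, (∀ o, o ≠ i → w o = z o) → z ∈ H → w ∈ H) :
    μ {z | z ∈ H ∧ z i = 0} = μ {z | z ∈ H ∧ z i = 1} := by
  have hup : ∀ (z : Pt K ι) (x : AlgebraicClosure K) (o : ι), o ≠ i →
      Function.update z i x o = z o := fun z x o ho => Function.update_of_ne ho _ _
  refine h.iso _ _ (Constr.and hH (Constr.eqz (IsPF.coord i))) (Constr.and hH
    (Constr.eq (IsPF.coord i) IsPF.one))
    (fun z => Function.update z i 1) (fun z => Function.update z i 0)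
    (regularOn_poly (fun k => IsPF_update _ _ IsPF.one) _)
    (regularOn_poly (fun k => IsPF_update _ _ IsPF.zero) _) ?_ ?_ ?_ ?_ ?_
  · rintro z ⟨h1, h2⟩
    exact ⟨hinv _ _ (fun o ho => hup z _ o ho) h1, Function.update_self _ _ _⟩
  · rintro z ⟨h1, h2⟩
    exact ⟨hinv _ _ (fun o ho => hup z _ o ho) h1, Function.update_self _ _ _⟩
  · rintro z ⟨h1, h2⟩
    simp only [Function.update_idem]
    rw [← h2, Function.update_eq_self]
  · rintro z ⟨h1, h2⟩
    simp only [Function.update_idem]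
    rw [← h2, Function.update_eq_self]
  · intro z _ o ho
    exact hup z _ o fun h' => ho (h' ▸ hi)

/-- a union of two disjoint sets -/
theorem AbM.split (h : AbM D μ L) (S : Set (Pt K ι)) (hS : Constr S) (p : Pt K ι → Prop)
    (hp : Constr {z | p z}) :
    μ S = μ {z | z ∈ S ∧ p z} + μ {z | z ∈ S ∧ ¬ p z} := by
  classical
  rw [← h.add {z | z ∈ S ∧ p z} {z | z ∈ S ∧ ¬ p z} (Constr.and hS hp) (Constr.and hS hp.not)]
  · congr 1
    ext z
    simp only [Set.mem_union, Set.mem_ofPred_eq]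
    tauto
  · rw [Set.disjoint_left]
    rintro z ⟨-, h1⟩ ⟨-, h2⟩
    exact h2 h1

/-- **The relation.** -/
theorem AbM.rel (h : AbM D μ L) {i k : ι} (hi : i ∈ D) (hk : k ∈ D) (hik : i ≠ k)
    (B : Set (Pt K ι)) (hB : Constr B)
    (hinv : ∀ z w : Pt K ι, (∀ o, o ≠ i → o ≠ k → w o = z o) → z ∈ B → w ∈ B)
    (g g' d : Pt K ι → AlgebraicClosure K) (hg : IsPF g) (hg' : IsPF g') (hd : IsPF d)
    (gi : ∀ z w : Pt K ι, (∀ o, o ≠ i → o ≠ k → w o = z o) → g w = g z)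
    (gi' : ∀ z w : Pt K ι, (∀ o, o ≠ i → o ≠ k → w o = z o) → g' w = g' z)
    (di : ∀ z w : Pt K ι, (∀ o, o ≠ i → o ≠ k → w o = z o) → d w = d z)
    (hn : ∀ z ∈ B, g z ≠ 0 ∨ g' z ≠ 0) :
    μ {z | z ∈ B ∧ z i ≠ 0 ∧ z k ≠ 0 ∧ z i * g z + z k * g' z = d z} +
      (μ {z | z ∈ B ∧ z i ≠ 0 ∧ z k = 1 ∧ z i * g z = d z} +
        μ {z | z ∈ B ∧ z i = 1 ∧ z k ≠ 0 ∧ z k * g' z = d z}) +
      μ {z | z ∈ B ∧ z i = 1 ∧ z k = 1 ∧ d z = 0} =
      μ {z | z ∈ B ∧ z i = 1 ∧ z k = 1} * L := by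
  have hzi : IsPF (fun z : Pt K ι => z i) := IsPF.coord i
  have hzk : IsPF (fun z : Pt K ι => z k) := IsPF.coord k
  set P : Set (Pt K ι) := {z | z ∈ B ∧ z i * g z + z k * g' z = d z} with hP
  have hPc : Constr P := Constr.and hB (Constr.eq ((hzi.mul hg).add (hzk.mul hg')) hd)
  -- first computation
  have hA : μ P = μ {z | z ∈ B ∧ z i = 1 ∧ z k = 1} * L := by
    have hH1 : Constr {z : Pt K ι | z ∈ B ∧ g z ≠ 0} := Constr.and hB (Constr.ne hg IsPF.zero)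
    have hH2 : Constr {z : Pt K ι | z ∈ B ∧ ¬ g z ≠ 0} :=
      Constr.and hB (Constr.ne hg IsPF.zero).not
    have h1 := h.half hi hk hik {z | z ∈ B ∧ g z ≠ 0} hH1
      (fun z w hw hz => ⟨hinv z w hw hz.1, by
        show g w ≠ 0
        rw [gi z w hw]
        exact hz.2⟩) g (fun z => z k * g' z - d z) hg
      ((hzk.mul hg').sub hd) gi (fun z w hw => by
        beta_reduce
        rw [hw k hik.symm, gi' z w (fun o ho _ => hw o ho), di z w (fun o ho _ => hw o ho)])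
      (fun z hz => hz.2)
    have h2 := h.half hk hi hik.symm {z | z ∈ B ∧ ¬ g z ≠ 0} hH2
      (fun z w hw hz => ⟨hinv z w (fun o h1 h2 => hw o h2 h1) hz.1, by
        show ¬ g w ≠ 0
        rw [gi z w fun o h1 h2 => hw o h2 h1]
        exact hz.2⟩) g' (fun z => z i * g z - d z) hg'
      ((hzi.mul hg).sub hd) (fun z w hw => gi' z w fun o h1 h2 => hw o h2 h1)
      (fun z w hw => by
        beta_reduce
        rw [hw i hik, gi z w (fun o _ ho => hw o ho), di z w (fun o _ ho => hw o ho)])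
      (fun z hz => (hn z hz.1).resolve_left hz.2)
    have h3 := h.split P hPc (fun z => g z ≠ 0) (Constr.ne hg IsPF.zero)
    have h4 := h.split {z | z ∈ B ∧ z i = 1 ∧ z k = 1} (Constr.and hB
      (Constr.and (Constr.eq hzi IsPF.one) (Constr.eq hzk IsPF.one))) (fun z => g z ≠ 0)
      (Constr.ne hg IsPF.zero)
    have e1 : {z : Pt K ι | z ∈ P ∧ g z ≠ 0} = {z | z ∈ {z | z ∈ B ∧ g z ≠ 0} ∧
        g z * z i + (z k * g' z - d z) = 0} := by
      ext z
      simp only [hP, Set.mem_ofPred_eq]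
      constructor
      · rintro ⟨⟨a1, a2⟩, a3⟩
        exact ⟨⟨a1, a3⟩, by linear_combination a2⟩
      · rintro ⟨⟨a1, a2⟩, a3⟩
        exact ⟨⟨a1, by linear_combination a3⟩, a2⟩
    have e2 : {z : Pt K ι | z ∈ P ∧ ¬ g z ≠ 0} = {z | z ∈ {z | z ∈ B ∧ ¬ g z ≠ 0} ∧
        g' z * z k + (z i * g z - d z) = 0} := by
      ext z
      simp only [hP, Set.mem_ofPred_eq]
      constructor
      · rintro ⟨⟨a1, a2⟩, a3⟩
        exact ⟨⟨a1, a3⟩, by linear_combination a2⟩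
      · rintro ⟨⟨a1, a2⟩, a3⟩
        exact ⟨⟨a1, by linear_combination a3⟩, a2⟩
    have e3 : {z : Pt K ι | z ∈ {z | z ∈ B ∧ z i = 1 ∧ z k = 1} ∧ g z ≠ 0} =
        {z | z ∈ {z | z ∈ B ∧ g z ≠ 0} ∧ z i = 1 ∧ z k = 1} := by
      ext z
      simp only [Set.mem_ofPred_eq]
      tauto
    have e4 : {z : Pt K ι | z ∈ {z | z ∈ B ∧ z i = 1 ∧ z k = 1} ∧ ¬ g z ≠ 0} =
        {z | z ∈ {z | z ∈ B ∧ ¬ g z ≠ 0} ∧ z k = 1 ∧ z i = 1} := by
      ext z
      simp only [Set.mem_ofPred_eq]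
      tauto
    rw [h3, h4, e1, e2, e3, e4, h1, h2]
    ring
  -- second computation
  have hP1 : Constr {z : Pt K ι | z ∈ P ∧ z i ≠ 0} := Constr.and hPc (Constr.ne hzi IsPF.zero)
  have hP2 : Constr {z : Pt K ι | z ∈ P ∧ ¬ z i ≠ 0} :=
    Constr.and hPc (Constr.ne hzi IsPF.zero).not
  have h1 := h.split P hPc (fun z => z i ≠ 0) (Constr.ne hzi IsPF.zero)
  have h2 := h.split _ hP1 (fun z => z k ≠ 0) (Constr.ne hzk IsPF.zero)
  have h3 := h.split _ hP2 (fun z => z k ≠ 0) (Constr.ne hzk IsPF.zero)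
  have e11 : {z : Pt K ι | z ∈ {z | z ∈ P ∧ z i ≠ 0} ∧ z k ≠ 0} =
      {z | z ∈ B ∧ z i ≠ 0 ∧ z k ≠ 0 ∧ z i * g z + z k * g' z = d z} := by
    ext z
    simp only [hP, Set.mem_ofPred_eq]
    tauto
  have e10 : μ {z : Pt K ι | z ∈ {z | z ∈ P ∧ z i ≠ 0} ∧ ¬ z k ≠ 0} =
      μ {z | z ∈ B ∧ z i ≠ 0 ∧ z k = 1 ∧ z i * g z = d z} := by
    have h4 := h.zero hk {z : Pt K ι | z ∈ B ∧ z i ≠ 0 ∧ z i * g z = d z}
      (Constr.and hB (Constr.and (Constr.ne hzi IsPF.zero) (Constr.eq (hzi.mul hg) hd)))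
      (fun z w hw hz => ⟨hinv z w (fun o _ ho => hw o ho) hz.1, by
        show w i ≠ 0
        rw [hw i hik]
        exact hz.2.1, by
        show w i * g w = d w
        rw [hw i hik, gi z w (fun o _ ho => hw o ho), di z w (fun o _ ho => hw o ho)]
        exact hz.2.2⟩)
    have e5 : {z : Pt K ι | z ∈ {z | z ∈ P ∧ z i ≠ 0} ∧ ¬ z k ≠ 0} =
        {z | z ∈ {z : Pt K ι | z ∈ B ∧ z i ≠ 0 ∧ z i * g z = d z} ∧ z k = 0} := by
      ext z
      simp only [hP, Set.mem_ofPred_eq, not_not]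
      constructor
      · rintro ⟨⟨⟨a1, a2⟩, a3⟩, a4⟩
        rw [a4, zero_mul, add_zero] at a2
        exact ⟨⟨a1, a3, a2⟩, a4⟩
      · rintro ⟨⟨a1, a3, a2⟩, a4⟩
        refine ⟨⟨⟨a1, ?_⟩, a3⟩, a4⟩
        rw [a4, zero_mul, add_zero]
        exact a2
    rw [e5, h4]
    congr 1
    ext z
    simp only [Set.mem_ofPred_eq]
    tauto
  have e01 : μ {z : Pt K ι | z ∈ {z | z ∈ P ∧ ¬ z i ≠ 0} ∧ z k ≠ 0} =
      μ {z | z ∈ B ∧ z i = 1 ∧ z k ≠ 0 ∧ z k * g' z = d z} := by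
    have h4 := h.zero hi {z : Pt K ι | z ∈ B ∧ z k ≠ 0 ∧ z k * g' z = d z}
      (Constr.and hB (Constr.and (Constr.ne hzk IsPF.zero) (Constr.eq (hzk.mul hg') hd)))
      (fun z w hw hz => ⟨hinv z w (fun o ho _ => hw o ho) hz.1, by
        show w k ≠ 0
        rw [hw k hik.symm]
        exact hz.2.1, by
        show w k * g' w = d w
        rw [hw k hik.symm, gi' z w (fun o ho _ => hw o ho), di z w (fun o ho _ => hw o ho)]
        exact hz.2.2⟩)
    have e5 : {z : Pt K ι | z ∈ {z | z ∈ P ∧ ¬ z i ≠ 0} ∧ z k ≠ 0} =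
        {z | z ∈ {z : Pt K ι | z ∈ B ∧ z k ≠ 0 ∧ z k * g' z = d z} ∧ z i = 0} := by
      ext z
      simp only [hP, Set.mem_ofPred_eq, not_not]
      constructor
      · rintro ⟨⟨⟨a1, a2⟩, a3⟩, a4⟩
        rw [a3, zero_mul, zero_add] at a2
        exact ⟨⟨a1, a4, a2⟩, a3⟩
      · rintro ⟨⟨a1, a4, a2⟩, a3⟩
        refine ⟨⟨⟨a1, ?_⟩, a3⟩, a4⟩
        rw [a3, zero_mul, zero_add]
        exact a2
    rw [e5, h4]
    congr 1
    ext z
    simp only [Set.mem_ofPred_eq]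
    tauto
  have e00 : μ {z : Pt K ι | z ∈ {z | z ∈ P ∧ ¬ z i ≠ 0} ∧ ¬ z k ≠ 0} =
      μ {z | z ∈ B ∧ z i = 1 ∧ z k = 1 ∧ d z = 0} := by
    have h4 := h.zero hi {z : Pt K ι | z ∈ B ∧ z k = 0 ∧ d z = 0}
      (Constr.and hB (Constr.and (Constr.eqz hzk) (Constr.eqz hd)))
      (fun z w hw hz => ⟨hinv z w (fun o ho _ => hw o ho) hz.1, by
        show w k = 0
        rw [hw k hik.symm]
        exact hz.2.1, by
        show d w = 0
        rw [di z w (fun o ho _ => hw o ho)]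
        exact hz.2.2⟩)
    have h5 := h.zero hk {z : Pt K ι | z ∈ B ∧ z i = 1 ∧ d z = 0}
      (Constr.and hB (Constr.and (Constr.eq hzi IsPF.one) (Constr.eqz hd)))
      (fun z w hw hz => ⟨hinv z w (fun o _ ho => hw o ho) hz.1, by
        show w i = 1
        rw [hw i hik]
        exact hz.2.1, by
        show d w = 0
        rw [di z w (fun o _ ho => hw o ho)]
        exact hz.2.2⟩)
    have e5 : {z : Pt K ι | z ∈ {z | z ∈ P ∧ ¬ z i ≠ 0} ∧ ¬ z k ≠ 0} =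
        {z | z ∈ {z : Pt K ι | z ∈ B ∧ z k = 0 ∧ d z = 0} ∧ z i = 0} := by
      ext z
      simp only [hP, Set.mem_ofPred_eq, not_not]
      constructor
      · rintro ⟨⟨⟨a1, a2⟩, a3⟩, a4⟩
        rw [a3, a4, zero_mul, zero_mul, add_zero] at a2
        exact ⟨⟨a1, a4, a2.symm⟩, a3⟩
      · rintro ⟨⟨a1, a4, a2⟩, a3⟩
        refine ⟨⟨⟨a1, ?_⟩, a3⟩, a4⟩
        rw [a3, a4, zero_mul, zero_mul, add_zero, a2]
    have e6 : {z : Pt K ι | z ∈ {z : Pt K ι | z ∈ B ∧ z k = 0 ∧ d z = 0} ∧ z i = 1} =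
        {z | z ∈ {z : Pt K ι | z ∈ B ∧ z i = 1 ∧ d z = 0} ∧ z k = 0} := by
      ext z
      simp only [Set.mem_ofPred_eq]
      tauto
    rw [e5, h4, e6, h5]
    congr 1
    ext z
    simp only [Set.mem_ofPred_eq]
    tauto
  rw [← hA, h1, h2, h3, e11, e10, e01, e00]
  ring

end

end Pool.Agent.TH216.G3
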