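import Pool.Agent.TH216.G3.Q3

set_option autoImplicit false

/-! The relation between the classes of a special pair. -/

namespace Pool.Agent.TH216.G3

open MvPolynomial
open Pool.Agent.W428.MOT Pool.Agent.W749.MT
open Pool.Agent.W426.SM (gord)
open Pool.Agent.W425.MM.Mot (NonG)
open Pool.Agent.TH216.MC (ZE)

section
variable {F : Type} [Field F] {r n : ℕ}

/-- the coefficient of `x_i` -/
noncomputable def gg (m : Fin r → Fin n → ℕ) (c : Fin r → F) (i k : Fin n) (z : Fin n → F) : F :=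
  ∑ x ∈ Sa m i k, c x * ∏ l ∈ Finset.univ.erase i, z l ^ m x l

/-- the derivatives of the coefficient of `x_i` -/
noncomputable def Dg (m : Fin r → Fin n → ℕ) (c : Fin r → F) (i k l : Fin n) (z : Fin n → F) : F :=
  ∑ x ∈ Sa m i k, c x * ((m x l : F) * ∏ l' ∈ Finset.univ.erase i,
    z l' ^ (m x l' - if l' = l then 1 else 0))

lemma gbar_Sa (m : Fin r → Fin n → ℕ) (c : Fin r → F) (i k : Fin n) (z : Fin n → F) :
    gbar m c (Sa m i k) z = z i * gg m c i k z := by
  classical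
  unfold gbar gg
  rw [Finset.mul_sum]
  refine Finset.sum_congr rfl fun x hx => ?_
  rw [← Finset.mul_prod_erase Finset.univ _ (Finset.mem_univ i), ((mem_Sa m i k x).1 hx).1,
    pow_one]
  ring

lemma Sa_disj (m : Fin r → Fin n → ℕ) (i k : Fin n) : Disjoint (Sa m i k) (Sa m k i) := by
  rw [Finset.disjoint_left]
  intro x h1 h2
  rw [mem_Sa] at h1 h2
  omega

lemma gbar_Sb (m : Fin r → Fin n → ℕ) (c : Fin r → F) (i k : Fin n) (z : Fin n → F) :
    gbar m c (Sb m i k) z = z i * gg m c i k z + z k * gg m c k i z := by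
  classical
  rw [← gbar_Sa, ← gbar_Sa]
  unfold gbar Sb
  exact Finset.sum_union (Sa_disj m i k)

lemma gg_inv (m : Fin r → Fin n → ℕ) (c : Fin r → F) (i k : Fin n) (z w : Fin n → F)
    (h : ∀ l, l ≠ i → l ≠ k → w l = z l) : gg m c i k w = gg m c i k z := by
  unfold gg
  refine Finset.sum_congr rfl fun x hx => ?_
  congr 1
  refine Finset.prod_congr rfl fun l hl => ?_
  by_cases hk : l = k
  · rw [hk, ((mem_Sa m i k x).1 hx).2, pow_zero, pow_zero]
  · rw [h l (Finset.ne_of_mem_erase hl) hk]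

lemma Dg_inv (m : Fin r → Fin n → ℕ) (c : Fin r → F) (i k l : Fin n) (z w : Fin n → F)
    (h : ∀ l, l ≠ i → l ≠ k → w l = z l) : Dg m c i k l w = Dg m c i k l z := by
  unfold Dg
  refine Finset.sum_congr rfl fun x hx => ?_
  congr 2
  refine Finset.prod_congr rfl fun l' hl => ?_
  by_cases hk : l' = k
  · rw [hk, ((mem_Sa m i k x).1 hx).2, Nat.zero_sub, pow_zero, pow_zero]
  · rw [h l' (Finset.ne_of_mem_erase hl) hk]

lemma dgbar_Sa_l (m : Fin r → Fin n → ℕ) (c : Fin r → F) (i k l : Fin n) (hl : i ≠ l)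
    (z : Fin n → F) : dgbar m c (Sa m i k) l z = z i * Dg m c i k l z := by
  classical
  unfold dgbar Dg
  rw [Finset.mul_sum]
  refine Finset.sum_congr rfl fun x hx => ?_
  rw [← Finset.mul_prod_erase Finset.univ _ (Finset.mem_univ i), ((mem_Sa m i k x).1 hx).1,
    if_neg hl, Nat.sub_zero, pow_one]
  ring

lemma dgbar_Sa_i (m : Fin r → Fin n → ℕ) (c : Fin r → F) (i k : Fin n) (z : Fin n → F) :
    dgbar m c (Sa m i k) i z = gg m c i k z := by
  classical
  unfold dgbar gg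
  refine Finset.sum_congr rfl fun x hx => ?_
  rw [← Finset.mul_prod_erase Finset.univ _ (Finset.mem_univ i), ((mem_Sa m i k x).1 hx).1,
    if_pos rfl, Nat.sub_self, pow_zero, Nat.cast_one, one_mul, one_mul]
  congr 1
  refine Finset.prod_congr rfl fun l hl => ?_
  rw [if_neg (Finset.ne_of_mem_erase hl), Nat.sub_zero]

lemma dgbar_Sa_k (m : Fin r → Fin n → ℕ) (c : Fin r → F) (i k : Fin n) (z : Fin n → F) :
    dgbar m c (Sa m i k) k z = 0 := by
  unfold dgbar
  refine Finset.sum_eq_zero fun x hx => ?_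
  rw [((mem_Sa m i k x).1 hx).2, Nat.cast_zero, zero_mul, mul_zero]

lemma dgbar_Sb (m : Fin r → Fin n → ℕ) (c : Fin r → F) (i k l : Fin n) (z : Fin n → F) :
    dgbar m c (Sb m i k) l z = dgbar m c (Sa m i k) l z + dgbar m c (Sa m k i) l z := by
  classical
  unfold dgbar Sb
  exact Finset.sum_union (Sa_disj m i k)

/-- the coefficients of `x_i` and `x_k` have no common zeros, at most three variables -/
theorem no_common (hn : n ≤ 3) {m : Fin r → Fin n → ℕ} {c : Fin r → F} {i k : Fin n}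
    (h : SpJ m i k)
    (hN : ∀ (u : Fin n → ℕ) (z : Fin n → F),
      (∀ i, z i ≠ 0) → gbar m c (amin m u) z = 0 → ∃ i, dgbar m c (amin m u) i z ≠ 0)
    (z : Fin n → F) (hz : ∀ l, l ≠ i → l ≠ k → z l ≠ 0) :
    gg m c i k z ≠ 0 ∨ gg m c k i z ≠ 0 := by
  classical
  by_contra hcon
  push Not at hcon
  obtain ⟨ha, hb⟩ := hcon
  have hik := h.1
  -- the points
  set Z : F → F → Fin n → F := fun s t l => if l = i then s else if l = k then t else z l with hZ
  have hZi : ∀ s t, Z s t i = s := fun s t => if_pos rfl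
  have hZk : ∀ s t, Z s t k = t := fun s t => by
    show (if k = i then s else if k = k then t else z k) = t
    rw [if_neg hik.symm, if_pos rfl]
  have hZo : ∀ s t l, l ≠ i → l ≠ k → Z s t l = z l := fun s t l h1 h2 => by
    simp only [hZ]
    rw [if_neg h1, if_neg h2]
  have hZo' : ∀ s t l, l ≠ k → l ≠ i → Z s t l = z l := fun s t l h1 h2 => hZo s t l h2 h1
  have hZ0 : ∀ s t, s ≠ 0 → t ≠ 0 → ∀ l, Z s t l ≠ 0 := by
    intro s t hs ht l
    by_cases h1 : l = i
    · rw [h1, hZi]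
      exact hs
    · by_cases h2 : l = k
      · rw [h2, hZk]
        exact ht
      · rw [hZo s t l h1 h2]
        exact hz l h1 h2
  have ga : ∀ s t, gg m c i k (Z s t) = 0 := fun s t => by
    rw [gg_inv m c i k z _ (hZo s t), ha]
  have gb : ∀ s t, gg m c k i (Z s t) = 0 := fun s t => by
    rw [gg_inv m c k i z _ (hZo' s t), hb]
  -- the face with `x_i` only
  have hA1 := adm_uab i k hik 1 2 one_ne_zero two_ne_zero
  have hA1' : amin m (uab i k 1 2) = Sa m i k := amin_lt h hA1 (by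
    rw [uab_i, uab_k i k hik]
    omega)
  have hA2 := adm_uab k i hik.symm 1 2 one_ne_zero two_ne_zero
  have hA2' : amin m (uab k i 1 2) = Sa m k i := amin_lt h.symm hA2 (by
    rw [uab_i, uab_k k i hik.symm]
    omega)
  have hA3 := adm_uab i k hik 1 1 one_ne_zero one_ne_zero
  have hA3' : amin m (uab i k 1 1) = Sb m i k := amin_eq h hA3 (by
    rw [uab_i, uab_k i k hik])
  obtain ⟨l, hl⟩ : ∃ l, dgbar m c (Sa m i k) l (Z 1 1) ≠ 0 := by
    have := hN (uab i k 1 2) (Z 1 1) (hZ0 1 1 one_ne_zero one_ne_zero)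
    rw [hA1'] at this
    exact this (by rw [gbar_Sa, ga, mul_zero])
  obtain ⟨l', hl'⟩ : ∃ l, dgbar m c (Sa m k i) l (Z 1 1) ≠ 0 := by
    have := hN (uab k i 1 2) (Z 1 1) (hZ0 1 1 one_ne_zero one_ne_zero)
    rw [hA2'] at this
    exact this (by rw [gbar_Sa, gb, mul_zero])
  have hli : l ≠ i := by
    rintro rfl
    rw [dgbar_Sa_i, ga] at hl
    exact hl rfl
  have hlk : l ≠ k := by
    rintro rfl
    rw [dgbar_Sa_k] at hl
    exact hl rfl
  have hli' : l' ≠ i := by
    rintro rfl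
    rw [dgbar_Sa_k] at hl'
    exact hl' rfl
  have hlk' : l' ≠ k := by
    rintro rfl
    rw [dgbar_Sa_i, gb] at hl'
    exact hl' rfl
  have huniq : ∀ l₁ l₂ : Fin n, l₁ ≠ i → l₁ ≠ k → l₂ ≠ i → l₂ ≠ k → l₁ = l₂ := by
    intro l₁ l₂ h1 h2 h3 h4
    apply Fin.ext
    have a1 := i.isLt
    have a2 := k.isLt
    have a3 := l₁.isLt
    have a4 := l₂.isLt
    have b1 : (l₁ : ℕ) ≠ i := fun h => h1 (Fin.ext h)
    have b2 : (l₁ : ℕ) ≠ k := fun h => h2 (Fin.ext h)
    have b3 : (l₂ : ℕ) ≠ i := fun h => h3 (Fin.ext h)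
    have b4 : (l₂ : ℕ) ≠ k := fun h => h4 (Fin.ext h)
    have b5 : (i : ℕ) ≠ k := fun h => hik (Fin.ext h)
    omega
  have hll : l' = l := huniq l' l hli' hlk' hli hlk
  subst hll
  rw [dgbar_Sa_l m c i k l' hli'.symm, hZi, one_mul] at hl
  rw [dgbar_Sa_l m c k i l' hlk'.symm, hZk, one_mul] at hl'
  set A := Dg m c i k l' (Z 1 1) with hA
  set B := Dg m c k i l' (Z 1 1) with hB
  have hDA : ∀ s t, Dg m c i k l' (Z s t) = A := fun s t =>
    Dg_inv m c i k l' _ _ fun l h1 h2 => by rw [hZo s t l h1 h2, hZo 1 1 l h1 h2]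
  have hDB : ∀ s t, Dg m c k i l' (Z s t) = B := fun s t =>
    Dg_inv m c k i l' _ _ fun l h1 h2 => by rw [hZo s t l h2 h1, hZo 1 1 l h2 h1]
  have hfin := hN (uab i k 1 1) (Z B (-A)) (hZ0 _ _ hl' (neg_ne_zero.2 hl))
  rw [hA3'] at hfin
  obtain ⟨l₂, hl₂⟩ := hfin (by rw [gbar_Sb, ga, gb, mul_zero, mul_zero, add_zero])
  rw [dgbar_Sb] at hl₂
  by_cases h1 : l₂ = i
  · rw [h1, dgbar_Sa_i, ga, dgbar_Sa_k, add_zero] at hl₂
    exact hl₂ rfl
  by_cases h2 : l₂ = k
  · rw [h2, dgbar_Sa_i, gb, dgbar_Sa_k, add_zero] at hl₂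
    exact hl₂ rfl
  have h3 : l₂ = l' := huniq l₂ l' h1 h2 hli' hlk'
  rw [h3, dgbar_Sa_l m c i k l' hli'.symm, dgbar_Sa_l m c k i l' hlk'.symm, hZi, hZk, hDA, hDB]
    at hl₂
  apply hl₂
  ring

end

section
variable {K : Type} [Field K] {r n : ℕ} {R : Type} [CommRing R]

/-- the relation, for the sets `ZE` -/
theorem rel_ZE {i k : Fin n} {μ : Set (Pt K (Option (Fin n))) → R} {L : R}
    (hab : AbM ({some i, some k} : Finset (Option (Fin n))) μ L)
    {m : Fin r → Fin n → ℕ} {c : Fin r → K} (h : SpJ m i k)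
    (hnc : ∀ z : Fin n → AlgebraicClosure K, (∀ l, l ≠ i → l ≠ k → z l ≠ 0) →
      gg m (cb c) i k z ≠ 0 ∨ gg m (cb c) k i z ≠ 0)
    (B : Set (Pt K (Option (Fin n)))) (hB : Constr B)
    (hinv : ∀ z w : Pt K (Option (Fin n)), w none = z none →
      (∀ l, l ≠ i → l ≠ k → w (some l) = z (some l)) → z ∈ B → w ∈ B)
    (d : Pt K (Option (Fin n)) → AlgebraicClosure K) (hd : IsPF d)
    (di : ∀ z w : Pt K (Option (Fin n)), w none = z none → d w = d z) :
    μ (ZE K (free 0 m {i, k} (Sb m i k))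
        {z | z ∈ B ∧ gbar m (cb c) (Sb m i k) (fun l => z (some l)) = d z}) +
      (μ (ZE K (free 0 m {i, k} (Sa m i k))
        {z | z ∈ B ∧ gbar m (cb c) (Sa m i k) (fun l => z (some l)) = d z}) +
      μ (ZE K (free 0 m {i, k} (Sa m k i))
        {z | z ∈ B ∧ gbar m (cb c) (Sa m k i) (fun l => z (some l)) = d z})) +
      μ (ZE K {i, k} {z | z ∈ B ∧ d z = 0}) = μ (ZE K {i, k} B) * L := by
  classical
  have hik := h.1
  have hsk : ∀ l : Fin n, l ≠ i → l ≠ k → ∀ o : Option (Fin n), o = some l →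
      o ≠ some i ∧ o ≠ some k := by
    rintro l h1 h2 o rfl
    exact ⟨fun h => h1 (Option.some_injective _ h), fun h => h2 (Option.some_injective _ h)⟩
  set B' : Set (Pt K (Option (Fin n))) :=
    {z | z ∈ B ∧ ∀ l, l ≠ i → l ≠ k → z (some l) ≠ 0} with hB'
  have hB'c : Constr B' := Constr.and hB (Constr.all fun l => Constr.imp' fun _ =>
    Constr.imp' fun _ => Constr.ne (IsPF.coord _) IsPF.zero)
  have hoff : ∀ z w : Pt K (Option (Fin n)), (∀ o, o ≠ some i → o ≠ some k → w o = z o) →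
      w none = z none ∧ ∀ l, l ≠ i → l ≠ k → w (some l) = z (some l) := by
    intro z w hw
    refine ⟨hw none (fun h => Option.some_ne_none _ h.symm) (fun h => Option.some_ne_none _ h.symm),
      fun l h1 h2 => ?_⟩
    exact hw _ (hsk l h1 h2 _ rfl).1 (hsk l h1 h2 _ rfl).2
  have hggPF : ∀ i k : Fin n, IsPF (fun z : Pt K (Option (Fin n)) =>
      gg m (cb c) i k (fun l => z (some l))) := by
    intro i k
    unfold gg
    exact IsPF.sum _ _ fun x _ => (IsPF_cb c x).mul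
      (IsPF.prod _ _ fun l _ => (IsPF.coord _).pow _)
  have key := hab.rel (i := some i) (k := some k) (by simp) (by simp)
    (fun h' => hik (Option.some_injective _ h')) B' hB'c
    (fun z w hw hz => by
      obtain ⟨h1, h2⟩ := hoff z w hw
      refine ⟨hinv z w h1 h2 hz.1, fun l h3 h4 => ?_⟩
      rw [h2 l h3 h4]
      exact hz.2 l h3 h4)
    (fun z => gg m (cb c) i k (fun l => z (some l)))
    (fun z => gg m (cb c) k i (fun l => z (some l))) d (hggPF i k) (hggPF k i) hd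
    (fun z w hw => gg_inv m (cb c) i k _ _ (hoff z w hw).2)
    (fun z w hw => gg_inv m (cb c) k i _ _ fun l h1 h2 => (hoff z w hw).2 l h2 h1)
    (fun z w hw => di z w (hoff z w hw).1)
    (fun z hz => hnc (fun l => z (some l)) hz.2)
  have e1 : ZE K (free 0 m {i, k} (Sb m i k))
      {z | z ∈ B ∧ gbar m (cb c) (Sb m i k) (fun l => z (some l)) = d z} =
      {z | z ∈ B' ∧ z (some i) ≠ 0 ∧ z (some k) ≠ 0 ∧
        z (some i) * gg m (cb c) i k (fun l => z (some l)) +
          z (some k) * gg m (cb c) k i (fun l => z (some l)) = d z} := by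
    rw [free_Sb h]
    ext z
    simp only [ZE, hB', Set.mem_ofPred_eq, gbar_Sb]
    constructor
    · rintro ⟨h1, -, h2, h3⟩
      exact ⟨⟨h2, fun l _ _ => h1 l⟩, h1 i, h1 k, h3⟩
    · rintro ⟨⟨h1, h2⟩, h3, h4, h5⟩
      refine ⟨fun l => ?_, fun l hl => absurd hl (Finset.notMem_empty _), h1, h5⟩
      by_cases hi : l = i
      · rw [hi]; exact h3
      · by_cases hk : l = k
        · rw [hk]; exact h4
        · exact h2 l hi hk
  have e2 : ZE K (free 0 m {i, k} (Sa m i k))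
      {z | z ∈ B ∧ gbar m (cb c) (Sa m i k) (fun l => z (some l)) = d z} =
      {z | z ∈ B' ∧ z (some i) ≠ 0 ∧ z (some k) = 1 ∧
        z (some i) * gg m (cb c) i k (fun l => z (some l)) = d z} := by
    rw [free_Sa h]
    ext z
    simp only [ZE, hB', Set.mem_ofPred_eq, gbar_Sa, Finset.mem_singleton, forall_eq]
    constructor
    · rintro ⟨h1, h4, h2, h3⟩
      exact ⟨⟨h2, fun l _ _ => h1 l⟩, h1 i, h4, h3⟩
    · rintro ⟨⟨h1, h2⟩, h3, h4, h5⟩
      refine ⟨fun l => ?_, h4, h1, h5⟩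
      by_cases hi : l = i
      · rw [hi]; exact h3
      · by_cases hk : l = k
        · rw [hk, h4]; exact one_ne_zero
        · exact h2 l hi hk
  have e3 : ZE K (free 0 m {i, k} (Sa m k i))
      {z | z ∈ B ∧ gbar m (cb c) (Sa m k i) (fun l => z (some l)) = d z} =
      {z | z ∈ B' ∧ z (some i) = 1 ∧ z (some k) ≠ 0 ∧
        z (some k) * gg m (cb c) k i (fun l => z (some l)) = d z} := by
    rw [Finset.pair_comm, free_Sa h.symm]
    ext z
    simp only [ZE, hB', Set.mem_ofPred_eq, gbar_Sa, Finset.mem_singleton, forall_eq]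
    constructor
    · rintro ⟨h1, h4, h2, h3⟩
      exact ⟨⟨h2, fun l _ _ => h1 l⟩, h4, h1 k, h3⟩
    · rintro ⟨⟨h1, h2⟩, h3, h4, h5⟩
      refine ⟨fun l => ?_, h3, h1, h5⟩
      by_cases hi : l = i
      · rw [hi, h3]; exact one_ne_zero
      · by_cases hk : l = k
        · rw [hk]; exact h4
        · exact h2 l hi hk
  have e4 : ZE K {i, k} {z | z ∈ B ∧ d z = 0} =
      {z | z ∈ B' ∧ z (some i) = 1 ∧ z (some k) = 1 ∧ d z = 0} := by
    ext z
    simp only [ZE, hB', Set.mem_ofPred_eq, Finset.mem_insert, Finset.mem_singleton,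
      forall_eq_or_imp, forall_eq]
    constructor
    · rintro ⟨h1, ⟨h4, h5⟩, h2, h3⟩
      exact ⟨⟨h2, fun l _ _ => h1 l⟩, h4, h5, h3⟩
    · rintro ⟨⟨h1, h2⟩, h3, h4, h5⟩
      refine ⟨fun l => ?_, ⟨h3, h4⟩, h1, h5⟩
      by_cases hi : l = i
      · rw [hi, h3]; exact one_ne_zero
      · by_cases hk : l = k
        · rw [hk, h4]; exact one_ne_zero
        · exact h2 l hi hk
  have e5 : ZE K {i, k} B = {z | z ∈ B' ∧ z (some i) = 1 ∧ z (some k) = 1} := by
    ext z
    simp only [ZE, hB', Set.mem_ofPred_eq, Finset.mem_insert, Finset.mem_singleton,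
      forall_eq_or_imp, forall_eq]
    constructor
    · rintro ⟨h1, ⟨h4, h5⟩, h2⟩
      exact ⟨⟨h2, fun l _ _ => h1 l⟩, h4, h5⟩
    · rintro ⟨⟨h1, h2⟩, h3, h4⟩
      refine ⟨fun l => ?_, ⟨h3, h4⟩, h1⟩
      by_cases hi : l = i
      · rw [hi, h3]; exact one_ne_zero
      · by_cases hk : l = k
        · rw [hk, h4]; exact one_ne_zero
        · exact h2 l hi hk
  rw [e1, e2, e3, e4, e5]
  exact key

lemma AbM.empty {ι : Type} [Fintype ι] [DecidableEq ι] {D : Finset ι}
    {μ : Set (Pt K ι) → R} {L : R} (h : AbM D μ L) : μ ∅ = 0 := by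
  have h1 := h.add ∅ ∅ Constr.empty Constr.empty (Set.disjoint_empty _)
  rw [Set.union_empty] at h1
  linear_combination -h1

end

end Pool.Agent.TH216.G3
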