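import Pool.Agent.TH216.G3.Q4

set_option autoImplicit false

/-! The motivic zeta functions with special pairs. -/

namespace Pool.Agent.TH216.G3

open MvPolynomial
open Pool.Agent.W428.MOT Pool.Agent.W749.MT Pool.Agent.W425.MM.Mot
open Pool.Agent.W375.MG (Good GB0 GB1 constr_W constr_GB1 zetaG)
open Pool.Agent.W426.SM (gord ford IsRay face)
open Pool.Agent.TH216.MF (frc frc_le free_step cser cf Psi Omg Gd fac IsPol KRelJ RecJ formal ratR
  inRat_J FR evR geoR_mul)
open Pool.Agent.W63.MTFin (mapMeas geo_sum L_mul ev)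
open Pool.Agent.TH216.MC

variable {K : Type} [Field K] {n r : ℕ} {R : Type} [CommRing R]

theorem abM_meas (h1 : S_Free) (h2 : S_Sub) (M : Meas K R) {ι : Type} [Fintype ι] [DecidableEq ι]
    (D : Finset ι) : AbM D (fun S : Set (Pt K ι) => M.χ _ S) M.L where
  add := fun S T hS hT hd => M.add S T hS hT hd
  iso := fun S T hS hT f g hf hg m1 m2 h3 h4 _ => M.iso S T hS hT f g hf hg m1 m2 h3 h4
  sub := fun S T i _ a b hS hT ha hb h3 h4 h5 h6 h7 => h2 M S T i a b hS hT ha hb h3 h4 h5 h6 h7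
  free := fun S i _ hS hinv => by
    have key := h1 M S ∅ {i} (fun _ => 1) (Finset.disjoint_empty_left _) hS
      (fun z w hw hz => hinv z w (fun o ho => hw o (Finset.notMem_empty _)
        (by rw [Finset.mem_singleton]; exact ho)) hz)
    rw [Finset.card_empty, pow_zero, mul_one, Finset.card_singleton, pow_one] at key
    have e1 : S ∩ {z | ∀ j ∈ (∅ : Finset ι), z j ≠ 0} = S := by
      ext z
      simp
    have e2 : S ∩ {z | ∀ j ∈ ∅ ∪ ({i} : Finset ι), z j = algebraMap K _ (1 : K)} =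
        S ∩ {z | z i = 1} := by
      ext z
      simp
    rw [e1, e2] at key
    exact key

/-- **The relations between the classes of a special pair.** -/
theorem b_spec (h1 : S_Free) (h2 : S_Sub) (M : Meas K R) {m : Fin r → Fin n → ℕ} {c : Fin r → K}
    (hn : n ≤ 3) (hNon : NonG m c) {W : Set (Pt K (Fin n))} (hW : Constr W)
    {E : Set (AlgebraicClosure K)} (hE : Good E) {i k : Fin n} (h : SpJ m i k) :
    (M.χ _ (GB0 0 m c 1 W E {i, k} (Sb m i k)) + (M.χ _ (GB0 0 m c 1 W E {i, k} (Sa m i k)) +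
      M.χ _ (GB0 0 m c 1 W E {i, k} (Sa m k i))) =
      M.L * M.χ _ (GB1 0 m c 1 W E {i, k} ∅)) ∧
    (M.χ _ (GB1 0 m c 1 W E {i, k} (Sb m i k)) + (M.χ _ (GB1 0 m c 1 W E {i, k} (Sa m i k)) +
      M.χ _ (GB1 0 m c 1 W E {i, k} (Sa m k i))) =
      M.L * M.χ _ (GB1 0 m c 1 W E {i, k} ∅) - M.χ _ (GB1 0 m c 1 W E {i, k} ∅)) := by
  classical
  set J : Finset (Fin n) := {i, k} with hJ
  have hiJ : i ∈ J := by simp [hJ]
  have hkJ : k ∈ J := by simp [hJ]
  set B : Set (Pt K (Option (Fin n))) :=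
    {z | (fun l => if l ∈ J then 0 else z (some l)) ∈ W ∧ z none ∈ E} with hB
  have hBc : Constr B := Constr.and (constr_base hW J) (hE.constr _ (IsPF.coord none))
  have hinv : ∀ z w : Pt K (Option (Fin n)), w none = z none →
      (∀ l, l ≠ i → l ≠ k → w (some l) = z (some l)) → z ∈ B → w ∈ B := by
    rintro z w h3 h4 ⟨h5, h6⟩
    refine ⟨?_, ?_⟩
    · have : (fun l => if l ∈ J then 0 else w (some l)) =
          fun l => if l ∈ J then 0 else z (some l) := by
        funext l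
        by_cases hl : l ∈ J
        · rw [if_pos hl, if_pos hl]
        · rw [if_neg hl, if_neg hl, h4 l (fun h => hl (h ▸ hiJ)) (fun h => hl (h ▸ hkJ))]
      rw [this]
      exact h5
    · rw [h3]
      exact h6
  have hnc := fun z hz => no_common (c := cb c) hn h
    (fun u z hz h0 => hNon u z (fun i _ => hz i) h0) z hz
  have hab := abM_meas h1 h2 M ({some i, some k} : Finset (Option (Fin n)))
  have hset : ∀ (d : Pt K (Option (Fin n)) → AlgebraicClosure K) (τ : Finset (Fin r))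
      (T : Finset (Fin n)), ZS W J T (XS m c W E J d τ) =
      ZE K T {z | z ∈ B ∧ gbar m (cb c) τ (fun l => z (some l)) = d z} := by
    intro d τ T
    ext z
    simp only [ZS, XS, ZE, hB, Set.mem_ofPred_eq]
    tauto
  have hw : GB1 0 m c 1 W E J ∅ = ZE K J B := by
    ext z
    simp only [GB1, ZE, hB, Set.mem_ofPred_eq, Pi.zero_apply, pow_zero, Finset.prod_const_one,
      pow_one, one_mul, free_empty, gbar, Finset.sum_empty]
    tauto
  have k0 := rel_ZE hab h hnc B hBc hinv (fun z => z none) (IsPF.coord none) (fun _ _ h => h)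
  have k1 := rel_ZE hab h hnc B hBc hinv (fun _ => 0) IsPF.zero (fun _ _ _ => rfl)
  beta_reduce at k0 k1
  have e0 : ZE K J {z : Pt K (Option (Fin n)) | z ∈ B ∧ z none = 0} = ∅ := by
    rw [Set.eq_empty_iff_forall_notMem]
    rintro z ⟨-, -, ⟨-, h3⟩, h4⟩
    rw [h4] at h3
    exact hE.zero h3
  have e1 : ZE K J {z : Pt K (Option (Fin n)) | z ∈ B ∧ (0 : AlgebraicClosure K) = 0} =
      ZE K J B := by
    ext z
    simp only [ZE, Set.mem_ofPred_eq, and_true]
  have hemp : M.χ _ (∅ : Set (Pt K (Option (Fin n)))) = 0 := hab.empty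
  rw [e0, hemp, add_zero] at k0
  rw [e1] at k1
  refine ⟨?_, ?_⟩
  · rw [chi_GB0 M m c hW hE, chi_GB0 M m c hW hE, chi_GB0 M m c hW hE, hset, hset, hset, hw,
      mul_comm M.L]
    exact k0
  · rw [chi_GB1, chi_GB1, chi_GB1, hset, hset, hset, hw]
    linear_combination k1

/-- the bad levels, with the special pairs -/
def HBS {n r : ℕ} (m : Fin r → Fin n → ℕ) (Bad : ℚ → Prop) : Prop :=
  ∀ J : Finset (Fin n), (∃ i k, J = {i, k} ∧ SpJ m i k) ∨
    ∀ q : ℕ, 2 ≤ q → ∀ e : Finset (Fin r) → ℂ, KRelJ q m J e →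
      ∀ T0 : ℂ, T0 ≠ 0 → ∀ σ : ℚ, Bad σ → Real.log ‖T0‖ / Real.log q = (σ : ℝ) →
      RecJ q m e J T0

theorem formal_sp {n r : ℕ} (m : Fin r → Fin n → ℕ) (hr0 : 0 < r) (Bad : ℚ → Prop)
    (hB : HBS m Bad) (J : Finset (Fin n)) : ∃ l : List (Fin n → ℕ),
      (∀ a ∈ l, IsRay m a ∧ 0 < gord m a ∧ ¬ Bad (((∑ i, a i : ℕ) : ℚ) / gord m a)) ∧
      ((∃ i k, J = {i, k} ∧ SpJ m i k) ∨
        ∀ κ, IsPol (Gd m J κ * (l.map (fac m)).prod)) := by
  rcases hB J with h | h
  · exact ⟨[], fun a ha => absurd ha List.not_mem_nil, Or.inl h⟩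
  · obtain ⟨l, h1, h2⟩ := formal hr0 m J Bad h
    exact ⟨l, h1, Or.inr h2⟩

/-- **Motivic zeta functions of a nondegenerate polynomial: only the rays which are not bad.** -/
theorem fin_sp {n r : ℕ} (hn : n ≤ 3) (m : Fin r → Fin n → ℕ) (hr0 : 0 < r) (Bad : ℚ → Prop)
    (hB : HBS m Bad) :
    ∃ S : Finset (ℤ × ℤ),
      (∀ p ∈ S, p = (-1, 1) ∨ ∃ a : Fin n → ℕ, IsRay m a ∧ 0 < gord m a ∧
        ¬ Bad (((∑ i, a i : ℕ) : ℚ) / gord m a) ∧
        p = (-((∑ i, a i : ℕ) : ℤ), (gord m a : ℤ))) ∧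
      ∀ (K : Type) [Field K] [CharZero K] (c : Fin r → K), NonG m c → (∀ j, c j ≠ 0) →
      ∀ (W : Set (Pt K (Fin n))) (E : Set (AlgebraicClosure K)), Constr W → Good E →
        zetaG (sp 0 m c 1) W E ∈ ratRing K S := by
  classical
  have h1 : S_K0 := Pool.Agent.W417.MT.K0.main
  have h5 : S_CP1 := Pool.Agent.W346.MTCp1.main
  have hFree : S_Free := Pool.Agent.W417.MT.Free.main
  have hSub : S_Sub := Pool.Agent.W21.MTSub.main
  have hTay : S_Tay := Pool.Agent.W417.MT.Tay.main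
  choose l hl hG using formal_sp m hr0 Bad hB
  set S : Finset (ℤ × ℤ) := insert (-1, 1) (Finset.univ.biUnion fun J : Finset (Fin n) =>
    (l J).toFinset.image fun a => (-((∑ i, a i : ℕ) : ℤ), (gord m a : ℤ))) with hS
  have hS1 : ((-1 : ℤ), (1 : ℤ)) ∈ S := Finset.mem_insert_self _ _
  have hS2 : ∀ J, ∀ a ∈ l J, (-((∑ i, a i : ℕ) : ℤ), (gord m a : ℤ)) ∈ S :=
    fun J a ha => Finset.mem_insert_of_mem (Finset.mem_biUnion.2 ⟨J, Finset.mem_univ _,
      Finset.mem_image.2 ⟨a, List.mem_toFinset.2 ha, rfl⟩⟩)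
  refine ⟨S, fun p hp => ?_, ?_⟩
  · rcases Finset.mem_insert.1 hp with rfl | hp
    · exact Or.inl rfl
    · right
      obtain ⟨J, -, hp⟩ := Finset.mem_biUnion.1 hp
      obtain ⟨a, ha, rfl⟩ := Finset.mem_image.1 hp
      obtain ⟨ha1, ha2, ha3⟩ := hl J a (List.mem_toFinset.1 ha)
      exact ⟨a, ha1, ha2, ha3, rfl⟩
  · intro K _ _ c hNon hc W E hW hE
    obtain ⟨M₀, hM₀⟩ := h1 K
    set M := mapMeas M₀ (algebraMap (K0 K) (MK K)) with hM
    set Y : MK K := (((Lu K)⁻¹ : (MK K)ˣ) : MK K) with hY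
    have hL : M.L * Y = 1 := L_mul hM₀
    have hML : M.L = ((Lu K : (MK K)ˣ) : MK K) := by
      have h2 : ((Lu K : (MK K)ˣ) : MK K) * Y = 1 := Units.mul_inv _
      calc M.L = M.L * (((Lu K : (MK K)ˣ) : MK K) * Y) := by rw [h2, mul_one]
        _ = (M.L * Y) * ((Lu K : (MK K)ˣ) : MK K) := by ring
        _ = _ := by rw [hL, one_mul]
    have hsum := sum hFree hSub hTay M 0 m c 1 hW hE hNon one_pos Y hL
    -- the series
    set C : Finset (Fin n) → Finset (Fin r) → PowerSeries (MK K) := fun J τ =>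
      PowerSeries.map (evR (Lu K)) (cser m J τ) with hCdef
    have hCc : ∀ J τ N, PowerSeries.coeff N (C J τ) =
        Polynomial.eval₂ (Int.castRingHom (MK K)) Y (cp 0 m 1 J τ N N) := fun J τ N => by
      simp only [hCdef, cser]
      rw [PowerSeries.coeff_map, PowerSeries.coeff_mk]
      rfl
    set D : Finset (Fin n) → Finset (Fin r) → PowerSeries (MK K) := fun J τ =>
      PowerSeries.mk fun N => ∑ l ∈ Finset.Icc 1 N,
        if 1 * l ≤ N then Y ^ l * PowerSeries.coeff (N - 1 * l) (C J τ) else 0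
      with hDdef
    have hD : ∀ J τ, D J τ = PowerSeries.C Y * PowerSeries.X * C J τ * geoR (Lu K) (-1) 1 := by
      intro J τ
      have h6 := geo_sum Y (fun N => PowerSeries.coeff N (C J τ)) 1 one_pos
      have h7 := geoR_mul (Lu K) (-1) 1 one_pos
      rw [show (1 : ℤ).toNat = 1 from rfl, zpow_neg_one] at h7
      have h9 : PowerSeries.mk (fun N => PowerSeries.coeff N (C J τ)) = C J τ := by
        ext N
        rw [PowerSeries.coeff_mk]
      rw [h9] at h6
      have h10 : D J τ * ((1 - PowerSeries.C Y * PowerSeries.X ^ 1) * geoR (Lu K) (-1) 1) =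
          PowerSeries.C Y * PowerSeries.X ^ 1 * C J τ * geoR (Lu K) (-1) 1 := by
        rw [← h6, mul_assoc]
      rw [h7, mul_one, pow_one] at h10
      exact h10
    set b0 : Finset (Fin n) → Finset (Fin r) → MK K := fun J τ => M.χ _ (GB0 0 m c 1 W E J τ)
      with hb0
    set b1 : Finset (Fin n) → Finset (Fin r) → MK K := fun J τ => M.χ _ (GB1 0 m c 1 W E J τ)
      with hb1
    set F : PowerSeries (MK K) := ∑ J : Finset (Fin n), FR (Lu K) m J (b0 J) (b1 J) with hF
    have hFmem : F ∈ ratRing K S := by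
      refine (ratRing K S).sum_mem fun J _ => ?_
      rcases hG J with ⟨i, k, rfl, hsp⟩ | hGJ
      · obtain ⟨h3, h4⟩ := b_spec hFree hSub M hn hNon hW hE hsp
        rw [hML] at h3 h4
        exact FR_spec (Lu K) hS1 hsp _ (b0 {i, k}) (b1 {i, k}) h3 h4
      refine inRat_J (Lu K) hS1 m J (l J) (fun a ha => ⟨(hl J a ha).2.1, hS2 J a ha⟩) hGJ
        (M.χ _ (GB1 0 m c 1 W E J ∅)) (fun _ => True) (fun _ _ _ _ => trivial)
        (fun _ h => absurd trivial h) (b0 J) (b1 J) (b0_empty M m c hE J) rfl ?_ ?_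
      · intro i hi j0 hj0 τ hτ _
        rw [← hML]
        exact b0_rel hFree hSub M m c hc hW hE J i hi j0 hj0 τ hτ
      · intro i hi j0 hj0 τ hτ _
        rw [← hML]
        exact b1_rel hFree hSub M m c hc hW hE J i hi j0 hj0 τ hτ
    have hz : zetaG (sp 0 m c 1) W E =
        F - PowerSeries.C (PowerSeries.coeff 0 F) + PowerSeries.C (PowerSeries.coeff 0
          (zetaG (sp 0 m c 1) W E)) := by
      ext N
      by_cases hN : N = 0
      · subst hN
        rw [map_add, map_sub, PowerSeries.coeff_C, if_pos rfl, PowerSeries.coeff_C, if_pos rfl,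
          sub_self, zero_add]
      · rw [map_add, map_sub, PowerSeries.coeff_C, if_neg hN, PowerSeries.coeff_C, if_neg hN,
          sub_zero, add_zero, zetaG, PowerSeries.coeff_mk]
        have h6 := hsum N (by omega)
        have h7 : algebraMap (K0 K) (MK K) (cls (Fin n × Fin (N + 1))
            (Pool.Agent.W375.MG.JetG (sp 0 m c 1) W E N)) *
            (((Lu K) ^ (-((n * N : ℕ) : ℤ)) : (MK K)ˣ) : MK K) =
            M.χ _ (Pool.Agent.W375.MG.JetG (sp 0 m c 1) W E N) * Y ^ (n * N) := by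
          rw [zpow_neg, zpow_natCast, ← inv_pow, Units.val_pow_eq_pow_val, ← hM₀]
          rfl
        rw [h7, h6, hF, map_sum]
        refine Finset.sum_congr rfl fun J _ => ?_
        unfold FR
        rw [map_sum]
        refine Finset.sum_congr rfl fun τ _ => ?_
        change _ = PowerSeries.coeff N (PowerSeries.C (((Lu K : (MK K)ˣ) : MK K) ^ frc m J τ) *
          (PowerSeries.C (b0 J τ) * C J τ + PowerSeries.C (b1 J τ) *
            (PowerSeries.C Y * PowerSeries.X * C J τ * geoR (Lu K) (-1) 1)))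
        rw [← hD, ← hML, PowerSeries.coeff_C_mul, map_add, PowerSeries.coeff_C_mul,
          PowerSeries.coeff_C_mul, hCc, hDdef, PowerSeries.coeff_mk, Finset.mul_sum]
        congr 2
        refine Finset.sum_congr rfl fun i _ => ?_
        split_ifs with hi
        · rw [hCc, h5 0 m 1 J τ hr0 one_pos N (N - 1 * i) (Nat.sub_le _ _), mul_assoc]
        · rw [mul_zero]
    rw [hz]
    exact (ratRing K S).add_mem ((ratRing K S).sub_mem hFmem
      (Pool.Agent.W63.MTFin.C_mem _ _)) (Pool.Agent.W63.MTFin.C_mem _ _)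


end Pool.Agent.TH216.G3
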