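import Pool.Agent.TH216.G3.Q5

set_option autoImplicit false

/-! The equivariant motivic zeta functions with special pairs. -/

namespace Pool.Agent.TH216.G3

open MvPolynomial
open Pool.Agent.W428.MOT Pool.Agent.W749.MT Pool.Agent.W749.ME
open Pool.Agent.W605.MEInd (dact_gbar dact_prod ne_zero_of_pow bw_m valid0)
open Pool.Agent.TH216.MF (frc frc_le free_step cser cf Psi Omg Gd fac IsPol KRelJ RecJ formal ratR
  inRat_J FR evR geoR_mul)
open Pool.Agent.W426.SM (gord ford IsRay face)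
open Pool.Agent.W425.MM
open Pool.Agent.W63.MEFin (mapEMeas)
open Pool.Agent.W375.MT (echi_empty)
open Pool.Agent.TH216.MC

section
variable {k : Type} [Field k] {n r : ℕ} {R : Type} [CommRing R]

lemma dact_zero {ι : Type} (l : AlgebraicClosure k) (z : Pt k ι) :
    dact (0 : ι → ℤ) l z = z := by
  funext o
  show l ^ (0 : ℤ) * z o = z o
  rw [zpow_zero, one_mul]

lemma dact_one {ι : Type} (ρ : ι → ℤ) (z : Pt k ι) :
    dact ρ (1 : AlgebraicClosure k) z = z := by
  funext o
  show (1 : AlgebraicClosure k) ^ (ρ o) * z o = z o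
  rw [one_zpow, one_mul]

theorem valid_zero {m : Fin r → Fin n → ℕ} {c : Fin r → k} {J : Finset (Fin n)}
    {u : Fin n → ℕ} (h : Dat m c J u 1) {S : Set (Pt k (Option (Fin n)))} (hS : Constr S) :
    Valid (sp 0 m c 1) S (0 : Option (Fin n) → ℤ) 1 (bb1 J) where
  constr := hS
  pos := one_pos
  stable := fun l _ z hz => by
    rw [dact_zero]
    exact hz
  base := fun z _ => h.base z
  inv := fun _ _ _ => rfl

theorem abM_emeas (h1 : S_EFree) (h2 : S_ESub) {m : Fin r → Fin n → ℕ} {c : Fin r → k}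
    (M : EMeas (sp 0 m c 1) R) {a b : Fin n} {u : Fin n → ℕ} (h : Dat m c {a, b} u 1) :
    AbM ({some a, some b} : Finset (Option (Fin n)))
      (fun S : Set (Pt k (Option (Fin n))) => M.χ _ S 0 1 (bb1 {a, b})) M.L where
  add := fun S T hS hT hd => M.add S T 0 1 _ (valid_zero h hS) (valid_zero h hT) hd
  iso := fun S T hS hT f g hf hg m1 m2 h3 h4 h5 => by
    refine M.iso S T 0 0 1 1 _ _ (valid_zero h hS) (valid_zero h hT) f g hf hg m1 m2 h3 h4 ?_ ?_
    · intro z hz
      funext l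
      unfold cbase bb1
      by_cases hl : l ∈ ({a, b} : Finset (Fin n))
      · rw [if_pos hl]
        rfl
      · rw [if_neg hl]
        refine h5 z hz (some l) fun h' => hl ?_
        rw [Finset.mem_insert, Finset.mem_singleton] at h' ⊢
        rcases h' with h' | h'
        · exact Or.inl (Option.some_injective _ h')
        · exact Or.inr (Option.some_injective _ h')
    · intro l _ z _
      rw [dact_zero, dact_zero]
  sub := fun S T i hi a' b' hS hT ha hb h3 h4 h5 h6 h7 => by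
    refine h2 M S T 0 0 1 _ i a' b' (valid_zero h hS) (valid_zero h hT) (fun _ _ => rfl) ?_ ha hb
      h3 h4 ?_ ?_ h5 h6 h7
    · intro j hj
      unfold bb1 at hj
      split_ifs at hj with h0
      have hji : some j = i := Option.some.inj hj
      apply h0
      rw [← hji, Finset.mem_insert, Finset.mem_singleton] at hi
      rw [Finset.mem_insert, Finset.mem_singleton]
      rcases hi with h' | h'
      · exact Or.inl (Option.some_injective _ h')
      · exact Or.inr (Option.some_injective _ h')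
    · intro l _ z
      rw [dact_zero]
      show a' z = l ^ ((0 : ℤ) - 0) * a' z
      rw [sub_zero, zpow_zero, one_mul]
    · intro l _ z
      rw [dact_zero]
      show b' z = l ^ (0 : ℤ) * b' z
      rw [zpow_zero, one_mul]
  free := fun S i hi hS hinv => by
    have key := h1 M S 0 1 (bb1 {a, b}) ∅ {i} (fun _ => 1) (Finset.disjoint_empty_left _)
      (valid_zero h hS) (fun j o hj => by
        refine ⟨Finset.notMem_empty _, fun ho => ?_⟩
        rw [Finset.mem_singleton] at ho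
        unfold bb1 at hj
        split_ifs at hj with h0
        have hji : some j = i := (Option.some.inj hj).trans ho
        apply h0
        rw [← hji, Finset.mem_insert, Finset.mem_singleton] at hi
        rw [Finset.mem_insert, Finset.mem_singleton]
        rcases hi with h' | h'
        · exact Or.inl (Option.some_injective _ h')
        · exact Or.inr (Option.some_injective _ h'))
      (fun z w hw hz => hinv z w (fun o ho => hw o (Finset.notMem_empty _)
        (by rw [Finset.mem_singleton]; exact ho)) hz)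
    rw [Finset.card_empty, pow_zero, mul_one, Finset.card_singleton, pow_one] at key
    have e1 : S ∩ {z | ∀ j ∈ (∅ : Finset (Option (Fin n))), z j ≠ 0} = S := by
      ext z
      simp
    have e2 : S ∩ {z | ∀ j ∈ ∅ ∪ ({i} : Finset (Option (Fin n))), z j =
        algebraMap k _ (1 : k)} = S ∩ {z | z i = 1} := by
      ext z
      simp
    have e3 : (fun o => if o ∈ ∅ ∪ ({i} : Finset (Option (Fin n))) then (0 : ℤ)
        else (0 : Option (Fin n) → ℤ) o) = 0 := by
      funext o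
      split_ifs <;> rfl
    rw [e1, e2, e3] at key
    exact key

/-- at level `1` the weights do not matter -/
theorem chi_one {m : Fin r → Fin n → ℕ} {c : Fin r → k}
    (M : EMeas (sp 0 m c 1) R) {J : Finset (Fin n)} {u : Fin n → ℕ} (h : Dat m c J u 1)
    (T : Finset (Fin n)) {H : Set (Pt k (Option (Fin n)))} (hH : Constr H) :
    M.χ _ (ZE k T H) (rw' T u 1) 1 (bb1 J) = M.χ _ (ZE k T H) 0 1 (bb1 J) := by
  have hst : Stb H (rw' T u 1) 1 := by
    intro l hl z hz
    rw [pow_one] at hl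
    rw [hl, dact_one]
    exact hz
  have hv := valid_ZE h T hH hst
  refine M.iso _ _ _ _ 1 1 _ _ hv (valid_zero h hv.constr) (fun z => z) (fun z => z)
    (regularOn_poly (fun o => IsPF.coord o) _) (regularOn_poly (fun o => IsPF.coord o) _)
    (fun z hz => hz) (fun z hz => hz) (fun _ _ => rfl) (fun _ _ => rfl) (fun _ _ => rfl) ?_
  intro l hl z _
  rw [mul_one, pow_one] at hl
  rw [hl, one_pow, dact_one, dact_one]

/-- **The classes of the bases of a special pair and their relations.** -/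
theorem ex_classesS (hTw : S_ETw) (hFree : S_EFree) (hSub : S_ESub) [CharZero k]
    {m : Fin r → Fin n → ℕ} {c : Fin r → k} (hn : n ≤ 3) (hNon : Mot.NonG m c)
    (M : EMeas (sp 0 m c 1) R) {i j : Fin n} (h : SpJ m i j) :
    ∃ (b0 b1 : Finset (Fin r) → R),
      (∀ (τ : Finset (Fin r)) (u : Fin n → ℕ), Adm {i, j} u → amin m u = τ →
      (0 < ford 0 m 1 u →
        M.χ _ (EB0 0 m c 1 {i, j} τ) (bw 0 m {i, j} τ u) (ford 0 m 1 u) (bb {i, j}) = b0 τ) ∧
      ∀ l, 1 ≤ l →
        M.χ _ (EB1 0 m c 1 {i, j} τ) (bw1 0 m {i, j} τ u l) (ford 0 m 1 u + 1 * l)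
          (bb1 {i, j}) = b1 τ) ∧
      ∃ w : R, b0 (Sb m i j) + (b0 (Sa m i j) + b0 (Sa m j i)) = M.L * w ∧
        b1 (Sb m i j) + (b1 (Sa m i j) + b1 (Sa m j i)) = M.L * w - w := by
  classical
  have hij := h.1
  have hA0 := adm_uab i j hij 1 1 one_ne_zero one_ne_zero
  have hg0 : gord m (uab i j 1 1) = 1 := by
    rw [gord_pair h hA0, uab_i, uab_k i j hij, min_self]
  set u0 := uab i j 1 1 with hu0
  have ham0 : amin m u0 = Sb m i j := amin_eq h hA0 (by rw [hu0, uab_i, uab_k i j hij])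
  have hpos : ∀ u : Fin n → ℕ, Adm {i, j} u → 0 < gord m u := by
    intro u hu
    rw [gord_pair h hu]
    obtain ⟨h1, h2, -⟩ := adm_pair hu
    omega
  have hsub0 : ∀ (τ : Finset (Fin r)) (u : Fin n → ℕ), Adm {i, j} u → amin m u = τ →
      τ ⊆ amin m u0 := by
    intro τ u hu hτ
    rw [ham0]
    rcases lt_trichotomy (u i) (u j) with h5 | h5 | h5
    · rw [← hτ, amin_lt h hu h5]
      exact Finset.subset_union_left
    · rw [← hτ, amin_eq h hu h5]
    · rw [← hτ, amin_gt h hu h5]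
      exact Finset.subset_union_right
  have hmin : ∀ {τ : Finset (Fin r)} {u : Fin n → ℕ}, τ ⊆ amin m u →
      ∀ j ∈ τ, ∑ i, u i * m j i = gord m u := fun h j hj => (mem_amin m _ j).1 (h hj)
  have hdat0 : Dat m c {i, j} u0 1 := ⟨hA0, hpos u0 hA0, one_pos⟩
  have ind1 : ∀ (τ : Finset (Fin r)) (u : Fin n → ℕ) (N : ℕ), Adm {i, j} u →
      τ ⊆ amin m u → τ ⊆ amin m u0 → 0 < N →
      cX M {i, j} (fun _ => 0) τ u N = cX M {i, j} (fun _ => 0) τ u0 1 := by
    intro τ u N hu hτ hτ' hN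
    refine cX_ind hTw M ⟨hu, hpos u hu, hN⟩ hdat0 IsPF.zero τ (hmin hτ)
      (hmin hτ') ?_ ?_ ?_
    · intro l _ z
      rw [mul_zero]
    · intro l _ z
      rw [mul_zero]
    · intro l _ z
      rw [mul_zero]
  have ind0 : ∀ (τ : Finset (Fin r)) (u : Fin n → ℕ), Adm {i, j} u →
      τ ⊆ amin m u → τ ⊆ amin m u0 →
      cX M {i, j} (fun z => z none) τ u (gord m u) =
        cX M {i, j} (fun z => z none) τ u0 (gord m u0) := by
    intro τ u hu hτ hτ'
    refine cX_ind hTw M ⟨hu, hpos u hu, hpos u hu⟩ ⟨hA0, hpos u0 hA0, hpos u0 hA0⟩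
      (IsPF.coord none) τ (hmin hτ) (hmin hτ') ?_ ?_ ?_
    · intro l _ z
      rfl
    · intro l _ z
      rfl
    · intro l _ z
      rfl
  refine ⟨fun τ => cX M {i, j} (fun z => z none) τ u0 (gord m u0),
    fun τ => cX M {i, j} (fun _ => 0) τ u0 1, ?_, ?_⟩
  · intro τ u hu hτ
    have hs : τ ⊆ amin m u := by rw [hτ]
    refine ⟨fun _ => ?_, fun l hl => ?_⟩
    · beta_reduce
      rw [ford_eq, EB0_eq M hu (hpos u hu) τ hτ]
      exact ind0 τ u hu hs (hsub0 τ u hu hτ)
    · beta_reduce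
      rw [ford_eq, EB1_eq, bw1_eq, one_mul]
      exact ind1 τ u _ hu hs (hsub0 τ u hu hτ) (by omega)
  · beta_reduce
    rw [hg0]
    have hnc := fun z hz => no_common (c := cb c) hn h
      (fun u z hz h0 => hNon u z (fun i _ => hz i) h0) z hz
    have hab := abM_emeas hFree hSub M hdat0
    set B : Set (Pt k (Option (Fin n))) := {z | z none = 1} with hB
    have hBc : Constr B := Constr.eq (IsPF.coord none) IsPF.one
    have hinv : ∀ z w : Pt k (Option (Fin n)), w none = z none →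
        (∀ l, l ≠ i → l ≠ j → w (some l) = z (some l)) → z ∈ B → w ∈ B := by
      intro z w h3 _ h5
      show w none = 1
      rw [h3]
      exact h5
    have k0 := rel_ZE hab h hnc B hBc hinv (fun z => z none) (IsPF.coord none) (fun _ _ h => h)
    have k1 := rel_ZE hab h hnc B hBc hinv (fun _ => 0) IsPF.zero (fun _ _ _ => rfl)
    beta_reduce at k0 k1
    have e0 : ZE k {i, j} {z : Pt k (Option (Fin n)) | z ∈ B ∧ z none = 0} = ∅ := by
      rw [Set.eq_empty_iff_forall_notMem]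
      rintro z ⟨-, -, h3, h4⟩
      rw [hB, Set.mem_ofPred_eq, h4] at h3
      exact zero_ne_one h3
    have e1 : ZE k {i, j} {z : Pt k (Option (Fin n)) | z ∈ B ∧ (0 : AlgebraicClosure k) = 0} =
        ZE k {i, j} B := by
      ext z
      simp only [ZE, Set.mem_ofPred_eq, and_true]
    have hemp : M.χ _ (∅ : Set (Pt k (Option (Fin n)))) 0 1 (bb1 {i, j}) = 0 := hab.empty
    rw [e0, hemp, add_zero] at k0
    rw [e1] at k1
    have hset : ∀ (d : Pt k (Option (Fin n)) → AlgebraicClosure k), IsPF d →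
        ∀ (τ : Finset (Fin r)), cX M {i, j} d τ u0 1 =
        M.χ _ (ZE k (free 0 m {i, j} τ) {z | z ∈ B ∧ gbar m (cb c) τ (fun l => z (some l)) =
          d z}) 0 1 (bb1 {i, j}) := by
      intro d hd τ
      unfold cX
      rw [chi_one M hdat0 _ (constr_XE m c hd τ)]
      congr 1
      ext z
      simp only [ZE, XE, hB, Set.mem_ofPred_eq]
      tauto
    refine ⟨M.χ _ (ZE k {i, j} B) 0 1 (bb1 {i, j}), ?_, ?_⟩
    · rw [hset _ (IsPF.coord none), hset _ (IsPF.coord none), hset _ (IsPF.coord none),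
        mul_comm M.L]
      exact k0
    · rw [hset _ IsPF.zero, hset _ IsPF.zero, hset _ IsPF.zero]
      linear_combination k1

theorem ex_classesP (hTw : S_ETw) (hFree : S_EFree) (hSub : S_ESub) [CharZero k]
    {m : Fin r → Fin n → ℕ} {c : Fin r → k} (hn : n ≤ 3) (hNon : Mot.NonG m c)
    (hc : ∀ j, c j ≠ 0) (hr : 0 < r)
    (M : EMeas (sp 0 m c 1) R) (J : Finset (Fin n)) {P : Prop}
    (hG : (∃ i j, J = {i, j} ∧ SpJ m i j) ∨ P) :
    ∃ (b0 b1 : Finset (Fin r) → R),
      (∀ (τ : Finset (Fin r)) (u : Fin n → ℕ), Adm J u → amin m u = τ →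
      (0 < ford 0 m 1 u →
        M.χ _ (EB0 0 m c 1 J τ) (bw 0 m J τ u) (ford 0 m 1 u) (bb J) = b0 τ) ∧
      ∀ l, 1 ≤ l →
        M.χ _ (EB1 0 m c 1 J τ) (bw1 0 m J τ u l) (ford 0 m 1 u + 1 * l) (bb1 J) = b1 τ) ∧
      ((∃ i j, J = {i, j} ∧ SpJ m i j ∧ ∃ w : R,
        b0 (Sb m i j) + (b0 (Sa m i j) + b0 (Sa m j i)) = M.L * w ∧
        b1 (Sb m i j) + (b1 (Sa m i j) + b1 (Sa m j i)) = M.L * w - w) ∨
      (b0 ∅ = 0 ∧
      (∀ i ∈ J, ∀ j0, m j0 i = 1 → ∀ τ : Finset (Fin r), (∀ j ∈ τ, m j i = 0) →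
        (∃ u : Fin n → ℕ, Adm J u ∧ insert j0 τ ⊆ amin m u) →
        b0 (insert j0 τ) = b1 ∅ * (M.L - 1) ^ (J.card - frc m J (insert j0 τ) - 1) -
          (M.L - 1) ^ (frc m J τ - frc m J (insert j0 τ) - 1) * b0 τ ∧
        b1 (insert j0 τ) = b1 ∅ * (M.L - 1) ^ (J.card - frc m J (insert j0 τ) - 1) -
          (M.L - 1) ^ (frc m J τ - frc m J (insert j0 τ) - 1) * b1 τ) ∧ P)) := by
  rcases hG with ⟨i, j, rfl, hsp⟩ | hP
  · obtain ⟨b0, b1, h1, h2⟩ := ex_classesS hTw hFree hSub hn hNon M hsp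
    exact ⟨b0, b1, h1, Or.inl ⟨i, j, rfl, hsp, h2⟩⟩
  · obtain ⟨b0, b1, h1, h2, h3⟩ := ex_classes hTw hFree hSub hc hr M J
    exact ⟨b0, b1, h2, Or.inr ⟨h1, h3, hP⟩⟩

end

/-- **Equivariant motivic zeta functions of a nondegenerate polynomial: only the rays which are not
bad.** -/
theorem efin_sp {n r : ℕ} (hn : n ≤ 3) (m : Fin r → Fin n → ℕ) (hr0 : 0 < r) (Bad : ℚ → Prop)
    (hB : HBS m Bad) :
    ∃ S : Finset (ℤ × ℤ),
      (∀ p ∈ S, p = (-1, 1) ∨ ∃ a : Fin n → ℕ, IsRay m a ∧ 0 < gord m a ∧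
        ¬ Bad (((∑ i, a i : ℕ) : ℚ) / gord m a) ∧
        p = (-((∑ i, a i : ℕ) : ℤ), (gord m a : ℤ))) ∧
      ∀ (k : Type) [Field k] [CharZero k] (c : Fin r → k), Mot.NonG m c → (∀ j, c j ≠ 0) →
        InRat (LuMu (sp 0 m c 1)) S (zetaE (sp 0 m c 1)) := by
  classical
  have h1 : S_EK0 := Pool.Agent.W358.ME.EK0.main
  have h5 : S_CP1 := Pool.Agent.W346.MTCp1.main
  have hFree : S_EFree := Pool.Agent.W230.ME.Free.main
  have hSub : S_ESub := Pool.Agent.W366.MESub.main
  have hTay : S_Tay := Pool.Agent.W417.MT.Tay.main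
  have hTw : S_ETw := Pool.Agent.W578.ME.etw
  choose l hl hG using formal_sp m hr0 Bad hB
  set S : Finset (ℤ × ℤ) := insert (-1, 1) (Finset.univ.biUnion fun J : Finset (Fin n) =>
    (l J).toFinset.image fun a => (-((∑ i, a i : ℕ) : ℤ), (gord m a : ℤ))) with hS
  have hS1 : ((-1 : ℤ), (1 : ℤ)) ∈ S := Finset.mem_insert_self _ _
  have hS2 : ∀ J, ∀ a ∈ l J, (-((∑ i, a i : ℕ) : ℤ), (gord m a : ℤ)) ∈ S :=
    fun J a ha => Finset.mem_insert_of_mem (Finset.mem_biUnion.2 ⟨J, Finset.mem_univ _,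
      Finset.mem_image.2 ⟨a, List.mem_toFinset.2 ha, rfl⟩⟩)
  refine ⟨S, fun p hp => ?_, ?_⟩
  · rcases Finset.mem_insert.1 hp with rfl | hp
    · exact Or.inl rfl
    · right
      obtain ⟨J, -, hp⟩ := Finset.mem_biUnion.1 hp
      obtain ⟨a, ha, rfl⟩ := Finset.mem_image.1 hp
      obtain ⟨ha1, ha2, ha3⟩ := hl J a (List.mem_toFinset.1 ha)
      exact ⟨a, ha1, ha2, ha3, rfl⟩
  · intro k _ _ c hNon hc
    set f : MvPolynomial (Fin n) k := sp 0 m c 1 with hfdef
    obtain ⟨M₀, hL₀, hM₀⟩ := h1 k f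
    set M : EMeas (sp 0 m c 1) (MKMu f) := mapEMeas M₀ (algebraMap (K0Mu f) (MKMu f)) with hM
    set Y : MKMu f := (((LuMu f)⁻¹ : (MKMu f)ˣ) : MKMu f) with hY
    have hML : M.L = ((LuMu f : (MKMu f)ˣ) : MKMu f) := by
      change algebraMap (K0Mu f) (MKMu f) M₀.L = _
      rw [hL₀]
      rfl
    have hL : M.L * Y = 1 := by rw [hML, Units.mul_inv]
    choose b0 b1 hb hrel using fun J : Finset (Fin n) =>
      ex_classesP hTw hFree hSub hn hNon hc hr0 M J (hG J)
    have hsum := eSumP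
      (Pool.Agent.W375.MT.EJet.main hFree) Pool.Agent.W375.MT.EShift.main
      (Pool.Agent.W375.MT.ECond.main Pool.Agent.W440.MT.ord)
      (EMot.eStB hFree hTay) (EMot.eStC hFree hSub hTay) 0 m c 1 M hNon hr0 one_pos Y hL b0 b1
      hb
    -- the series
    set C : Finset (Fin n) → Finset (Fin r) → PowerSeries (MKMu f) := fun J τ =>
      PowerSeries.map (evR (LuMu f)) (cser m J τ) with hCdef
    have hCc : ∀ J τ N, PowerSeries.coeff N (C J τ) =
        Polynomial.eval₂ (Int.castRingHom (MKMu f)) Y (cp 0 m 1 J τ N N) := fun J τ N => by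
      simp only [hCdef, cser]
      rw [PowerSeries.coeff_map, PowerSeries.coeff_mk]
      rfl
    set D : Finset (Fin n) → Finset (Fin r) → PowerSeries (MKMu f) := fun J τ =>
      PowerSeries.mk fun N => ∑ l ∈ Finset.Icc 1 N,
        if 1 * l ≤ N then Y ^ l * PowerSeries.coeff (N - 1 * l) (C J τ) else 0
      with hDdef
    have hD : ∀ J τ, D J τ = PowerSeries.C Y * PowerSeries.X * C J τ * geoR (LuMu f) (-1) 1 := by
      intro J τ
      have h6 := Pool.Agent.W63.MTFin.geo_sum Y (fun N => PowerSeries.coeff N (C J τ)) 1 one_pos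
      have h7 := geoR_mul (LuMu f) (-1) 1 one_pos
      rw [show (1 : ℤ).toNat = 1 from rfl, zpow_neg_one] at h7
      have h9 : PowerSeries.mk (fun N => PowerSeries.coeff N (C J τ)) = C J τ := by
        ext N
        rw [PowerSeries.coeff_mk]
      rw [h9] at h6
      have h10 : D J τ * ((1 - PowerSeries.C Y * PowerSeries.X ^ 1) * geoR (LuMu f) (-1) 1) =
          PowerSeries.C Y * PowerSeries.X ^ 1 * C J τ * geoR (LuMu f) (-1) 1 := by
        rw [← h6, mul_assoc]
      rw [h7, mul_one, pow_one] at h10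
      exact h10
    set F : PowerSeries (MKMu f) := ∑ J : Finset (Fin n), FR (LuMu f) m J (b0 J) (b1 J) with hF
    have hFmem : F ∈ ratRingMu f S := by
      refine (ratRingMu f S).sum_mem fun J _ => ?_
      rcases hrel J with ⟨i, k', rfl, hsp, w, h3, h4⟩ | ⟨hb00, hrelJ, hGJ⟩
      · rw [hML] at h3 h4
        exact FR_spec (LuMu f) hS1 hsp w (b0 {i, k'}) (b1 {i, k'}) h3 h4
      refine inRat_J (LuMu f) hS1 m J (l J) (fun a ha => ⟨(hl J a ha).2.1, hS2 J a ha⟩) hGJ
        (b1 J ∅) (fun τ => ∃ u : Fin n → ℕ, Adm J u ∧ τ ⊆ amin m u)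
        (fun τ τ' hs h => ?_) (fun τ h => cser_zero m J τ h) (b0 J) (b1 J) hb00 rfl ?_ ?_
      · obtain ⟨u, hu1, hu2⟩ := h
        exact ⟨u, hu1, hs.trans hu2⟩
      · intro i hi j0 hj0 τ hτ hA
        rw [← hML]
        exact (hrelJ i hi j0 hj0 τ hτ hA).1
      · intro i hi j0 hj0 τ hτ hA
        rw [← hML]
        exact (hrelJ i hi j0 hj0 τ hτ hA).2
    have hz : zetaMu f = F - PowerSeries.C (PowerSeries.coeff 0 F) := by
      ext N
      by_cases hN : N = 0
      · subst hN
        rw [zetaMu, PowerSeries.coeff_mk, dif_neg (lt_irrefl 0), map_sub, PowerSeries.coeff_C,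
          if_pos rfl, sub_self]
      · have hN' : 0 < N := Nat.pos_of_ne_zero hN
        rw [zetaMu, PowerSeries.coeff_mk, dif_pos hN', map_sub, PowerSeries.coeff_C, if_neg hN,
          sub_zero]
        have h6 := hsum N hN'
        have h7 : algebraMap (K0Mu f) (MKMu f) (K0Mu.mk (diagVar (jetValid f N hN'))) *
            (((LuMu f) ^ (-((n * N : ℕ) : ℤ)) : (MKMu f)ˣ) : MKMu f) =
            M.χ _ (JetE f N) (jw n N) N (jb n N) * Y ^ (n * N) := by
          rw [zpow_neg, zpow_natCast, ← inv_pow, Units.val_pow_eq_pow_val, ← hM₀]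
          rfl
        rw [h7, h6, hF, map_sum]
        refine Finset.sum_congr rfl fun J _ => ?_
        unfold FR
        rw [map_sum]
        refine Finset.sum_congr rfl fun τ _ => ?_
        change _ = PowerSeries.coeff N (PowerSeries.C (((LuMu f : (MKMu f)ˣ) : MKMu f) ^ frc m J τ) *
          (PowerSeries.C (b0 J τ) * C J τ + PowerSeries.C (b1 J τ) *
            (PowerSeries.C Y * PowerSeries.X * C J τ * geoR (LuMu f) (-1) 1)))
        rw [← hD, ← hML, PowerSeries.coeff_C_mul, map_add, PowerSeries.coeff_C_mul,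
          PowerSeries.coeff_C_mul, hCc, hDdef, PowerSeries.coeff_mk, Finset.mul_sum]
        congr 2
        refine Finset.sum_congr rfl fun i _ => ?_
        split_ifs with hi
        · rw [hCc, h5 0 m 1 J τ hr0 one_pos N (N - 1 * i) (Nat.sub_le _ _), mul_assoc]
        · rw [mul_zero]
    show zetaMu f ∈ ratRingMu f S
    rw [hz]
    exact (ratRingMu f S).sub_mem hFmem (Pool.Agent.W63.MEFin.C_mem _ _)


end Pool.Agent.TH216.G3
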