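import Pool.Agent.TH216.LX.Cc1

set_option autoImplicit false

/-! Roots of the global Bernstein-Sato polynomial from affinely independent exponents on a face. -/

namespace Pool.Agent.TH216.G3

open MvPolynomial Pool.Agent.W425.SG Pool.Agent.W425.SV Pool.Agent.W425.MM Pool.Agent.W571.MM
open Pool.Agent.H628R4.TZ
open Pool.Agent.W425.SM (dm)
open Pool.Agent.W426.SM (gord face)
open Pool.Agent.TH216.LX (off_face NegI)

variable {r N : ℕ}

/-- the `v j`, `j ∈ D`, are affinely independent -/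
def Aff (v : Fin r → Fin N → ℕ) (D : Finset (Fin r)) : Prop :=
  ∀ w : Fin r → ℚ, (∀ j, j ∉ D → w j = 0) → ∑ j, w j = 0 → (∀ i, ∑ j, w j * (v j i : ℚ) = 0) →
    ∀ j, w j = 0

/-- Heights for an affinely independent set. -/
theorem heights_aff (v : Fin r → Fin N → ℕ) (D : Finset (Fin r)) (hD : Aff v D) :
    ∃ θ : Fin r → ℝ, LinearIndependent ℚ θ ∧ ∀ c : Fin r → ℤ, ∑ j, c j = 0 →
      (∀ i, ∑ j, c j * (v j i : ℤ) = 0) → 0 < ∑ j, (c j : ℝ) * θ j → ∃ j, j ∉ D ∧ c j < 0 := by
  classical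
  -- the linear map
  let f : (D → ℚ) →ₗ[ℚ] ℚ × (Fin N → ℚ) :=
    { toFun := fun w => (∑ j, w j, fun i => ∑ j, w j * (v j i : ℚ))
      map_add' := fun w w' => by
        ext
        · simp [Finset.sum_add_distrib]
        · simp [Finset.sum_add_distrib, add_mul]
      map_smul' := fun a w => by
        ext
        · simp [Finset.mul_sum]
        · simp [Finset.mul_sum, mul_assoc] }
  have hker : LinearMap.ker f = ⊥ := by
    rw [LinearMap.ker_eq_bot']
    intro w hw
    have h1 : ∑ j : D, w j = 0 := congrArg Prod.fst hw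
    have h2 : ∀ i, ∑ j : D, w j * (v j i : ℚ) = 0 := fun i => congrFun (congrArg Prod.snd hw) i
    set W : Fin r → ℚ := fun j => if hj : j ∈ D then w ⟨j, hj⟩ else 0 with hW
    have hWD : ∀ j : D, W j = w j := fun j => dif_pos j.2
    have hW0 : ∀ j, j ∉ D → W j = 0 := fun j hj => dif_neg hj
    have e1 : ∑ j, W j = 0 := by
      have h5 : ∑ j ∈ D, W j = ∑ j, W j :=
        Finset.sum_subset (Finset.subset_univ D) fun j _ hj => hW0 j hj
      rw [← h5, ← Finset.sum_coe_sort D W]
      simp only [hWD]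
      exact h1
    have e2 : ∀ i, ∑ j, W j * (v j i : ℚ) = 0 := by
      intro i
      have h5 : ∑ j ∈ D, W j * (v j i : ℚ) = ∑ j, W j * (v j i : ℚ) :=
        Finset.sum_subset (Finset.subset_univ D) fun j _ hj => by rw [hW0 j hj, zero_mul]
      rw [← h5, ← Finset.sum_coe_sort D (fun j => W j * (v j i : ℚ))]
      simp only [hWD]
      exact h2 i
    have h3 := hD W hW0 e1 e2
    funext j
    have := h3 j
    rw [hWD] at this
    exact this
  obtain ⟨g, hg⟩ := LinearMap.exists_leftInverse_of_injective f hker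
  have hgf : ∀ w, g (f w) = w := fun w => by
    have := congrArg (fun φ => φ w) hg
    simpa using this
  set α : Fin r → Fin r → ℚ := fun l j => if hj : j ∈ D then
    g (1, fun i => (v l i : ℚ)) ⟨j, hj⟩ else 0 with hα
  obtain ⟨θ0, hθ0⟩ := exists_theta r
  have hn : ∀ l, ∃ n : ℕ, θ0 l - ∑ j ∈ D, (α l j : ℝ) * θ0 j < n := fun l => exists_nat_gt _
  choose n0 hn0 using hn
  set n : Fin r → ℕ := fun l => if l ∈ D then 0 else n0 l with hndef
  refine ⟨_, li_of hθ0 fun j => (n j : ℚ), fun c hc0 hc hpos => ?_⟩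
  by_contra hcon
  push Not at hcon
  -- the values on `D`
  have hcD : ∀ j ∈ D, (c j : ℚ) = -∑ l ∈ Dᶜ, (c l : ℚ) * α l j := by
    intro j hj
    have h1 : f (fun j : D => (c j : ℚ)) =
        -∑ l ∈ Dᶜ, (c l : ℚ) • ((1, fun i => (v l i : ℚ)) : ℚ × (Fin N → ℚ)) := by
      have e1 : ∑ j : D, (c j : ℚ) = -∑ l ∈ Dᶜ, (c l : ℚ) := by
        rw [Finset.sum_coe_sort D (fun j => (c j : ℚ)), eq_neg_iff_add_eq_zero,
          Finset.sum_add_sum_compl]
        exact_mod_cast hc0
      have e2 : ∀ i, ∑ j : D, (c j : ℚ) * (v j i : ℚ) = -∑ l ∈ Dᶜ, (c l : ℚ) * (v l i : ℚ) := by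
        intro i
        rw [Finset.sum_coe_sort D (fun j => (c j : ℚ) * (v j i : ℚ)), eq_neg_iff_add_eq_zero,
          Finset.sum_add_sum_compl]
        exact_mod_cast hc i
      ext i
      · rw [Prod.fst_neg, Prod.fst_sum]
        simp only [Prod.smul_fst, smul_eq_mul, mul_one]
        exact e1
      · rw [Prod.snd_neg, Prod.snd_sum]
        simp only [Prod.smul_snd, Pi.neg_apply, Finset.sum_apply, Pi.smul_apply, smul_eq_mul]
        exact e2 i
    have h2 := congrFun (hgf (fun j : D => (c j : ℚ))) ⟨j, hj⟩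
    rw [h1, map_neg, map_sum] at h2
    simp only [map_smul, Pi.neg_apply, Finset.sum_apply, Pi.smul_apply, smul_eq_mul] at h2
    rw [← h2]
    congr 1
    refine Finset.sum_congr rfl fun l _ => ?_
    rw [hα]
    simp only
    rw [dif_pos hj]
  have hval : ∑ j, (c j : ℝ) * (θ0 j - (((n j : ℚ)) : ℝ)) =
      ∑ l ∈ Dᶜ, (c l : ℝ) * (θ0 l - ∑ j ∈ D, (α l j : ℝ) * θ0 j - n0 l) := by
    rw [← Finset.sum_add_sum_compl D]
    have e1 : ∑ j ∈ D, (c j : ℝ) * (θ0 j - (((n j : ℚ)) : ℝ)) =
        -∑ l ∈ Dᶜ, (c l : ℝ) * ∑ j ∈ D, (α l j : ℝ) * θ0 j := by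
      have e2 : ∀ j ∈ D, (c j : ℝ) * (θ0 j - (((n j : ℚ)) : ℝ)) =
          -∑ l ∈ Dᶜ, (c l : ℝ) * ((α l j : ℝ) * θ0 j) := by
        intro j hj
        have h3 := congrArg (fun q : ℚ => (q : ℝ)) (hcD j hj)
        push_cast at h3
        rw [hndef]
        simp only [if_pos hj]
        rw [h3]
        simp only [Nat.cast_zero, Rat.cast_zero, sub_zero]
        rw [neg_mul, Finset.sum_mul]
        congr 1
        exact Finset.sum_congr rfl fun l _ => by ring
      rw [Finset.sum_congr rfl e2, Finset.sum_neg_distrib, Finset.sum_comm]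
      congr 1
      refine Finset.sum_congr rfl fun l _ => ?_
      rw [← Finset.mul_sum]
    rw [e1, neg_add_eq_sub, ← Finset.sum_sub_distrib]
    refine Finset.sum_congr rfl fun l hl => ?_
    rw [hndef]
    simp only [if_neg (Finset.mem_compl.1 hl)]
    push_cast
    ring
  rw [hval] at hpos
  have hle : ∑ l ∈ Dᶜ, (c l : ℝ) * (θ0 l - ∑ j ∈ D, (α l j : ℝ) * θ0 j - n0 l) ≤ 0 := by
    refine Finset.sum_nonpos fun l hl => ?_
    refine mul_nonpos_of_nonneg_of_nonpos ?_ ?_
    · exact_mod_cast hcon l (Finset.mem_compl.1 hl)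
    · have := hn0 l
      linarith
  linarith

/-- **The root.** -/
theorem aff_root (v : Fin r → Fin N → ℕ) (a : Fin N → ℕ) (hg : 0 < gord v a)
    (D : Finset (Fin r)) (hDf : ∀ j ∈ D, face v a j) (hD : Aff v D) (y : Fin r → ℚ)
    (hy0 : ∀ j, j ∉ D → y j = 0) (hy : ∀ i, a i ≠ 0 → ∑ j, y j * (v j i : ℚ) = -1)
    (hyn : ∀ j, ¬ NegI (y j)) :
    ∃ θ : Fin r → ℝ, LinearIndependent ℚ θ ∧
      ∀ p : Polynomial ℂ, RelV v θ False p →
        p.eval (-(((∑ i, a i : ℕ) : ℂ) / gord v a)) = 0 := by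
  classical
  obtain ⟨θ, hθ, hθc⟩ := heights_aff v D hD
  refine ⟨θ, hθ, ?_⟩
  rintro p ⟨M, n, n0, ck, B, q, c0, q0, hK1, hK0, hrel⟩
  have hg' : (gord v a : ℚ) ≠ 0 := by exact_mod_cast hg.ne'
  have hyf : ∀ j, y j ≠ 0 → face v a j := fun j hj => by
    by_contra h
    exact hj (hy0 j fun h' => h (hDf j h'))
  -- the sum
  have hsum : ∑ j, y j = -(((∑ i, a i : ℕ) : ℚ) / gord v a) := by
    have h1 : ∑ i, (a i : ℚ) * ∑ j, y j * (v j i : ℚ) = -((∑ i, a i : ℕ) : ℚ) := by
      have h2 : ∀ i, (a i : ℚ) * ∑ j, y j * (v j i : ℚ) = -(a i : ℚ) := by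
        intro i
        by_cases hi : a i = 0
        · rw [hi]
          simp
        · rw [hy i hi]
          ring
      simp only [h2]
      rw [Finset.sum_neg_distrib]
      push_cast
      rfl
    have h2 : ∑ i, (a i : ℚ) * ∑ j, y j * (v j i : ℚ) = (∑ j, y j) * (gord v a : ℚ) := by
      simp only [Finset.mul_sum]
      rw [Finset.sum_comm, Finset.sum_mul]
      refine Finset.sum_congr rfl fun j _ => ?_
      by_cases hj : y j = 0
      · rw [hj]
        simp
      · have h3 : ((∑ i, a i * v j i : ℕ) : ℚ) = gord v a := by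
          have := hyf j hj
          unfold face at this
          exact_mod_cast this
        rw [← h3]
        push_cast
        rw [Finset.mul_sum]
        exact Finset.sum_congr rfl fun i _ => by ring
    rw [h2] at h1
    rw [← neg_div, eq_div_iff hg', h1]
  set t : Fin r → ℂ := fun j => (y j : ℂ) with ht
  have hel : ∀ i, a i ≠ 0 → aeval t (el v i) = 0 := by
    intro i hi
    have e : el v i = 1 + ∑ j, C ((v j i : ℕ) : ℂ) * X j := rfl
    rw [e, map_add, map_one, map_sum]
    have h1 : ∀ j, aeval t (C ((v j i : ℕ) : ℂ) * X j : MvPolynomial (Fin r) ℂ) =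
        (y j : ℂ) * (v j i : ℂ) := by
      intro j
      rw [map_mul, aeval_X, algHom_C]
      simp only [Algebra.algebraMap_self, RingHom.id_apply]
      ring
    simp only [h1]
    have h2 := congrArg (fun q : ℚ => (q : ℂ)) (hy i hi)
    push_cast at h2
    rw [h2]
    ring
  have hdm : ∀ j, aeval t (dm M j) ≠ 0 := by
    intro j
    unfold dm
    rw [map_prod]
    refine Finset.prod_ne_zero_iff.2 fun m _ => ?_
    rw [map_add, aeval_X, algHom_C]
    simp only [Algebra.algebraMap_self, RingHom.id_apply]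
    intro h
    refine hyn j ⟨m + 1, Nat.succ_pos m, ?_⟩
    have h1 : (y j : ℂ) = ((-((m + 1 : ℕ) : ℚ) : ℚ) : ℂ) := by
      push_cast
      push_cast at h
      linear_combination h
    exact_mod_cast h1
  have hfac : ∀ (c' : Fin r → ℤ) (j : Fin r), c' j < 0 → y j = 0 →
      aeval t (∏ j, if c' j < 0 then X j * dm M j else 1 : MvPolynomial (Fin r) ℂ) = 0 := by
    intro c' j hj h0
    rw [map_prod]
    refine Finset.prod_eq_zero (Finset.mem_univ j) ?_
    rw [if_pos hj, map_mul, aeval_X]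
    simp [ht, h0]
  have hterm1 : ∀ k', aeval t ((∏ i ∈ B k', el v i) *
      ((∏ j, if ck k' j < 0 then X j * dm M j else 1) * q k')) = 0 := by
    intro k'
    rw [map_mul, map_mul]
    by_cases hB : ∃ i ∈ B k', a i ≠ 0
    · obtain ⟨i, hi, hai⟩ := hB
      rw [map_prod, Finset.prod_eq_zero hi (hel i hai), zero_mul]
    · push Not at hB
      obtain ⟨l, hl, hl1, hlB⟩ := hK1 k'
      obtain ⟨j, hj, hjf⟩ := off_face v a (ck k') l hl 1 hl1 (by
        rw [one_mul]
        refine lt_of_le_of_lt (Finset.sum_nonpos fun i _ => ?_)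
          (by exact_mod_cast hg : (0 : ℝ) < gord v a)
        by_cases hi : i ∈ B k'
        · rw [hB i hi]
          simp
        · exact mul_nonpos_of_nonneg_of_nonpos (by positivity) (hlB i hi))
      rw [hfac (ck k') j hj (by
        by_contra h
        exact hjf (hyf j h))]
      ring
  have hterm0 : ∀ k', aeval t ((∏ j, if c0 k' j < 0 then X j * dm M j else 1) * q0 k') = 0 := by
    intro k'
    rw [map_mul]
    rcases hK0 k' with ⟨h1, h2, h3⟩ | ⟨h1, -⟩
    swap
    · exact absurd h1 id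
    obtain ⟨j, hjD, hj⟩ := hθc (c0 k') h1 h2 h3
    rw [hfac (c0 k') j hj (hy0 j hjD), zero_mul]
  have h1 := congrArg (aeval t) hrel
  rw [map_mul, map_add, map_sum, map_sum, Finset.sum_eq_zero fun k' _ => hterm1 k',
    Finset.sum_eq_zero fun k' _ => hterm0 k', add_zero, map_prod,
    ← Polynomial.aeval_algHom_apply] at h1
  have h2 : aeval t (∑ j, X j : MvPolynomial (Fin r) ℂ) =
      -(((∑ i, a i : ℕ) : ℂ) / gord v a) := by
    rw [map_sum]
    simp only [aeval_X]
    have := congrArg (fun q : ℚ => (q : ℂ)) hsum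
    push_cast at this ⊢
    exact this
  rw [h2] at h1
  have h3 := (mul_eq_zero.1 h1).resolve_right (Finset.prod_ne_zero_iff.2 fun j _ => hdm j)
  rw [Polynomial.coe_aeval_eq_eval] at h3
  exact h3

end Pool.Agent.TH216.G3
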