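import Pool.Agent.TH216.G3.R1
import Pool.Agent.W425.BF.Fin

set_option autoImplicit false

/-! Roots of the global Bernstein-Sato polynomial from a noncompact facet. -/

namespace Pool.Agent.TH216.G3

open MvPolynomial Pool.Agent.H628R4.TP Pool.Agent.W425.MM Pool.Agent.W425.GN
open Pool.Agent.W425.ND (spa)
open Pool.Agent.W426.SM (gord IsRay face)
open Pool.Agent.TH216.LX (NegI)

variable {r N : ℕ}

/-- the root, for very general coefficients -/
theorem hp_aff [NeZero r] {F : Type} [Field F] (v : Fin r → Fin N → ℕ)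
    (hv : Function.Injective v) (hv0 : ∀ j, v j ≠ 0) (h : MvPolynomial (Fin N) F)
    (hh : ∀ w ∈ h.support, Pool.Agent.W425.SV.NP v w) (a : Fin N → ℕ) (hg : 0 < gord v a)
    (D : Finset (Fin r)) (hDf : ∀ j ∈ D, face v a j) (hD : Aff v D) (y : Fin r → ℚ)
    (hy0 : ∀ j, j ∉ D → y j = 0) (hy : ∀ i, a i ≠ 0 → ∑ j, y j * (v j i : ℚ) = -1)
    (hyn : ∀ j, ¬ NegI (y j)) :
    HP v h (-(((∑ i, a i : ℕ) : ℚ) / gord v a)) 0 := by
  intro F' _ _ a' h' ha hs b hb
  have hb' := (Pool.Agent.W591.GC.J_bot _ b).2 ((bfun_iff _ _).2 hb)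
  have hbot : ∀ g ∈ (⊥ : Submonoid (MvPolynomial (Fin N) ℂ)),
      MvPolynomial.constantCoeff g = 1 ∧ (¬ False → g = 1) := fun g hg => by
    rw [Submonoid.mem_bot] at hg
    exact ⟨by rw [hg, map_one], fun _ => hg⟩
  have hh' : ∀ w ∈ h'.support, Pool.Agent.W425.SV.NP v w := fun w hw => hh w (hs w hw)
  by_cases hb0 : b = 0
  · rw [hb0]
    exact dvd_zero _
  obtain ⟨θ, hθ, hR⟩ := aff_root v a hg D hDf hD y hy0 hy hyn
  obtain ⟨p, q, hbp, hp⟩ := Pool.Agent.W422.GC.rel_of_unit False ⊥ hbot v a' hv hv0 ha h' hh'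
    θ hθ b hb0 hb'
  have h1 := hR p hp
  rw [zero_add, pow_one, hbp]
  refine Dvd.dvd.mul_right (Dvd.dvd.mul_left ?_ _) _
  rw [Polynomial.dvd_iff_isRoot]
  show p.eval _ = 0
  rw [← h1]
  congr 1
  push_cast
  ring

/-- two exponents with `x_i` to the first power, over the same point -/
theorem hp_pair [NeZero r] {F : Type} [Field F] (v : Fin r → Fin N → ℕ)
    (hv : Function.Injective v) (hv0 : ∀ j, v j ≠ 0) (h : MvPolynomial (Fin N) F)
    (hh : ∀ w ∈ h.support, Pool.Agent.W425.SV.NP v w) (a : Fin N → ℕ) (hg : 0 < gord v a)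
    (i k : Fin N) (hik : i ≠ k) (hsupp : ∀ x, x ≠ i → x ≠ k → a x = 0) (hai : a i ≠ 0)
    (hak : a k ≠ 0) (α β γ : Fin r) (hαβ : α ≠ β) (hα : face v a α) (hβ : face v a β)
    (hγ : face v a γ) (hα1 : v α i = 1) (hβ1 : v β i = 1) (hγ0 : v γ i = 0)
    (hbc : v α k ≠ 0 ∨ v γ k ≠ 1) :
    HP v h (-(((∑ i, a i : ℕ) : ℚ) / gord v a)) 0 := by
  classical
  have hval : ∀ j, ∑ x, a x * v j x = a i * v j i + a k * v j k := by
    intro j
    rw [← Finset.sum_pair (f := fun x => a x * v j x) hik]
    refine (Finset.sum_subset (Finset.subset_univ _) fun x _ hx => ?_).symm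
    rw [Finset.mem_insert, Finset.mem_singleton] at hx
    push Not at hx
    rw [hsupp x hx.1 hx.2, zero_mul]
  have eα : a i + a k * v α k = gord v a := by
    have := hα
    unfold face at this
    rw [hval, hα1, mul_one] at this
    exact this
  have eβ : a i + a k * v β k = gord v a := by
    have := hβ
    unfold face at this
    rw [hval, hβ1, mul_one] at this
    exact this
  have eγ : a k * v γ k = gord v a := by
    have := hγ
    unfold face at this
    rw [hval, hγ0, mul_zero, zero_add] at this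
    exact this
  have hb : v β k = v α k := Nat.eq_of_mul_eq_mul_left (Nat.pos_of_ne_zero hak) (by omega)
  have hγk : v γ k ≠ 0 := by
    intro h0
    rw [h0, mul_zero] at eγ
    omega
  have hc0 : (v γ k : ℚ) ≠ 0 := by exact_mod_cast hγk
  have hγα : γ ≠ α := by
    rintro rfl
    omega
  have hγβ : γ ≠ β := by
    rintro rfl
    omega
  set y : Fin r → ℚ := fun j => if j = α then -(1 / 2) else if j = β then -(1 / 2) else
    if j = γ then ((v α k : ℚ) - 1) / v γ k else 0 with hy
  have yα : y α = -(1 / 2) := by simp [hy]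
  have yβ : y β = -(1 / 2) := by simp [hy, hαβ.symm]
  have yγ : y γ = ((v α k : ℚ) - 1) / v γ k := by simp [hy, hγα, hγβ]
  have hsum3 : ∀ f : Fin r → ℚ, (∀ j, j ∉ ({α, β, γ} : Finset (Fin r)) → f j = 0) →
      ∑ j, f j = f α + f β + f γ := by
    intro f hf
    rw [← Finset.sum_subset (Finset.subset_univ ({α, β, γ} : Finset (Fin r)))
      fun j _ hj => hf j hj]
    rw [Finset.sum_insert (by
      rw [Finset.mem_insert, Finset.mem_singleton]
      push Not
      exact ⟨hαβ, hγα.symm⟩), Finset.sum_pair hγβ.symm]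
    ring
  refine hp_aff v hv hv0 h hh a hg {α, β, γ} ?_ ?_ y ?_ ?_ ?_
  · intro j hj
    rw [Finset.mem_insert, Finset.mem_insert, Finset.mem_singleton] at hj
    rcases hj with rfl | rfl | rfl
    · exact hα
    · exact hβ
    · exact hγ
  · intro w hw h1 h2
    have e1 := hsum3 w hw
    rw [h1] at e1
    have e2 : ∀ x, w α * v α x + w β * v β x + w γ * v γ x = 0 := fun x => by
      rw [← hsum3 (fun j => w j * (v j x : ℚ)) fun j hj => by rw [hw j hj, zero_mul]]
      exact h2 x
    have e3 := e2 i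
    rw [hα1, hβ1, hγ0] at e3
    push_cast at e3
    have e4 : w γ = 0 := by linarith
    have e5 : w β = -w α := by linarith
    have e6 : w α = 0 := by
      by_contra hne
      apply hαβ
      apply hv
      funext x
      have e7 := e2 x
      rw [e4, e5] at e7
      have e8 : w α * ((v α x : ℚ) - v β x) = 0 := by linarith
      have e9 := (mul_eq_zero.1 e8).resolve_left hne
      have : (v α x : ℚ) = v β x := by linarith
      exact_mod_cast this
    intro j
    by_cases hj : j ∈ ({α, β, γ} : Finset (Fin r))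
    · rw [Finset.mem_insert, Finset.mem_insert, Finset.mem_singleton] at hj
      rcases hj with rfl | rfl | rfl
      · exact e6
      · rw [e5, e6, neg_zero]
      · exact e4
    · exact hw j hj
  · intro j hj
    rw [Finset.mem_insert, Finset.mem_insert, Finset.mem_singleton] at hj
    push Not at hj
    simp [hy, hj.1, hj.2.1, hj.2.2]
  · intro x hx
    rw [hsum3 (fun j => y j * (v j x : ℚ)) fun j hj => by
      rw [Finset.mem_insert, Finset.mem_insert, Finset.mem_singleton] at hj
      push Not at hj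
      simp [hy, hj.1, hj.2.1, hj.2.2]]
    simp only [yα, yβ, yγ]
    by_cases hxi : x = i
    · rw [hxi, hα1, hβ1, hγ0]
      push_cast
      ring
    · have hxk : x = k := by
        by_contra h'
        exact hx (hsupp x hxi h')
      rw [hxk, hb, div_mul_cancel₀ _ hc0]
      ring
  · rintro j ⟨m, hm, hjm⟩
    have hhalf : ∀ m : ℕ, (-(1 / 2) : ℚ) ≠ -(m : ℚ) := by
      intro m h1
      have h2 : (1 : ℚ) = 2 * m := by linarith
      have h3 : (1 : ℕ) = 2 * m := by exact_mod_cast h2
      omega
    by_cases hjα : j = α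
    · rw [hjα, yα] at hjm
      exact hhalf m hjm
    by_cases hjβ : j = β
    · rw [hjβ, yβ] at hjm
      exact hhalf m hjm
    by_cases hjγ : j = γ
    · rw [hjγ, yγ, div_eq_iff hc0] at hjm
      have h1 : (1 : ℚ) = v α k + m * v γ k := by linarith
      have h2 : (1 : ℕ) = v α k + m * v γ k := by exact_mod_cast h1
      have h3 : 1 ≤ m * v γ k := Nat.mul_pos hm (Nat.pos_of_ne_zero hγk)
      have h4 : v α k = 0 := by omega
      have h5 : m * v γ k = 1 := by omega
      have h6 : v γ k = 1 := Nat.eq_one_of_mul_eq_one_left h5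
      rcases hbc with h7 | h7
      · exact h7 h4
      · exact h7 h6
    · have : y j = 0 := by simp [hy, hjα, hjβ, hjγ]
      rw [this] at hjm
      have h1 : (m : ℚ) = 0 := by linarith
      have h2 : m = 0 := by exact_mod_cast h1
      omega

end Pool.Agent.TH216.G3
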