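import Pool.Agent.TH216.G3.C1

set_option autoImplicit false

/-! Zeroed coordinates, and the series of the cones. -/

namespace Pool.Agent.TH216.G3

open MvPolynomial Pool.Agent.W425.SG Pool.Agent.W425.SV Pool.Agent.W425.MM
open Pool.Agent.H628R4.TZ
open Pool.Agent.W425.SM (dm)
open Pool.Agent.W426.SM (gord ford IsRay face)
open Pool.Agent.W803.SM (filt)
open Pool.Agent.W428.MOT (Adm cp)
open Pool.Agent.TH216.MF

variable {r N : ℕ}

/-- the coordinates outside `J` are replaced by `0` -/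
def zf (J : Finset (Fin N)) (v : Fin r → Fin N → ℕ) : Fin r → Fin N → ℕ :=
  fun j i => if i ∈ J then v j i else 0

lemma zf_in {J : Finset (Fin N)} {i : Fin N} (h : i ∈ J) (v : Fin r → Fin N → ℕ) (j : Fin r) :
    zf J v j i = v j i := by
  unfold zf
  rw [if_pos h]

lemma zf_out {J : Finset (Fin N)} {i : Fin N} (h : i ∉ J) (v : Fin r → Fin N → ℕ) (j : Fin r) :
    zf J v j i = 0 := by
  unfold zf
  rw [if_neg h]

lemma zf_sum (J : Finset (Fin N)) (v : Fin r → Fin N → ℕ) (j : Fin r) (x : Fin N → ℕ)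
    (hx : ∀ i, i ∉ J → x i = 0) :
    ∑ i, x i * zf J v j i = ∑ i, x i * v j i := by
  refine Finset.sum_congr rfl fun i _ => ?_
  by_cases hi : i ∈ J
  · rw [zf_in hi]
  · rw [hx i hi, zero_mul, zero_mul]

lemma aJ_zf (q : ℕ) (v : Fin r → Fin N → ℕ) (e : Finset (Fin r) → ℂ) (J : Finset (Fin N))
    (t : ℤ) : aJ q (zf J v) e J t = aJ q v e J t := by
  classical
  unfold aJ
  refine tsum_congr fun x => ?_
  by_cases hx : ∀ i, x i ≠ 0 ↔ i ∈ J
  · rw [if_pos hx, if_pos hx]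
    congr 1
    unfold Wt
    have h1 : ∀ j, ∑ i, x i * zf J v j i = ∑ i, x i * v j i := fun j =>
      zf_sum J v j x fun i hi => by
        by_contra h
        exact hi ((hx i).1 h)
    simp only [h1]
  · rw [if_neg hx, if_neg hx]

lemma krelJ_zf {q : ℕ} {v : Fin r → Fin N → ℕ} {J : Finset (Fin N)}
    {e : Finset (Fin r) → ℂ} (h : KRelJ q v J e) : KRelJ q (zf J v) J e := by
  intro i hi j0 τ hj0 hτ
  rw [zf_in hi] at hj0
  refine h i hi j0 τ hj0 fun j hj => ?_
  have := hτ j hj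
  rwa [zf_in hi] at this

lemma el_zf_in {J : Finset (Fin N)} {i : Fin N} (hi : i ∈ J) (v : Fin r → Fin N → ℕ) :
    el (zf J v) i = el v i := by
  have e1 : el v i = 1 + ∑ j, C ((v j i : ℕ) : ℂ) * X j := rfl
  have e2 : el (zf J v) i = 1 + ∑ j, C ((zf J v j i : ℕ) : ℂ) * X j := rfl
  rw [e1, e2]
  simp only [zf_in hi]

lemma el_zf_out {J : Finset (Fin N)} {i : Fin N} (hi : i ∉ J) (v : Fin r → Fin N → ℕ) :
    el (zf J v) i = 1 := by
  have e2 : el (zf J v) i = 1 + ∑ j, C ((zf J v j i : ℕ) : ℂ) * X j := rfl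
  rw [e2]
  simp only [zf_out hi]
  simp

lemma el_zf_prod (J B : Finset (Fin N)) (v : Fin r → Fin N → ℕ) :
    ∏ i ∈ B, el v i = (∏ i ∈ B, el (zf J v) i) * ∏ i ∈ B.filter (fun i => i ∉ J), el v i := by
  classical
  induction B using Finset.induction_on with
  | empty => simp
  | insert a B ha ih =>
    rw [Finset.prod_insert ha, Finset.prod_insert ha, ih, Finset.filter_insert]
    by_cases haJ : a ∈ J
    · rw [if_neg (not_not.2 haJ), el_zf_in haJ]
      ring
    · rw [if_pos haJ, Finset.prod_insert (fun h => ha (Finset.mem_filter.1 h).1),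
        el_zf_out haJ]
      ring

/-- the relation for the zeroed family -/
lemma relV_zf (J : Finset (Fin N)) (v : Fin r → Fin N → ℕ) (θ : Fin r → ℝ) (p : Polynomial ℂ)
    (h : RelV v θ False p) : RelV (zf J v) θ False p := by
  obtain ⟨M, n, n0, c, B, q, c0, q0, hc, hc0, hrel⟩ := h
  have hK1 : ∀ k, Kil1 (zf J v) (c k) (B k) := by
    intro k
    obtain ⟨l, h1, h2, h3⟩ := hc k
    refine ⟨l, h1, h2, fun i hi => ?_⟩
    by_cases hiJ : i ∈ J
    · simp only [zf_in hiJ]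
      exact h3 i hi
    · simp only [zf_out hiJ]
      simp
  have hK0 : ∀ k, Kil0 (zf J v) θ False (c0 k) := by
    intro k
    rcases hc0 k with ⟨h1, h2, h3⟩ | ⟨h1, -⟩
    · refine Or.inl ⟨h1, fun i => ?_, h3⟩
      by_cases hiJ : i ∈ J
      · simp only [zf_in hiJ]
        exact h2 i
      · simp only [zf_out hiJ]
        simp
    · exact absurd h1 id
  have hR : ∀ k, (∏ i ∈ B k, el v i) *
      ((∏ j, if c k j < 0 then X j * dm M j else 1) * q k) =
      (∏ i ∈ B k, el (zf J v) i) * ((∏ j, if c k j < 0 then X j * dm M j else 1) *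
        ((∏ i ∈ (B k).filter (fun i => i ∉ J), el v i) * q k)) := by
    intro k
    rw [el_zf_prod J (B k) v]
    ring
  rw [Finset.sum_congr rfl fun k _ => hR k] at hrel
  exact ⟨M, n, n0, c, B, fun k => (∏ i ∈ (B k).filter (fun i => i ∉ J), el v i) * q k, c0, q0,
    hK1, hK0, hrel⟩

/-! ### Rational series -/

/-- rational series without pole at `T0` -/
def RS (T0 : ℂ) (φ : PowerSeries ℂ) : Prop :=
  ∃ Q A : Polynomial ℂ, Q.eval T0 ≠ 0 ∧ (Q : PowerSeries ℂ) * φ = (A : PowerSeries ℂ)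

lemma RS.zero (T0 : ℂ) : RS T0 0 := ⟨1, 0, by simp, by simp⟩

lemma RS.add {T0 : ℂ} {φ ψ : PowerSeries ℂ} (h : RS T0 φ) (h' : RS T0 ψ) : RS T0 (φ + ψ) := by
  obtain ⟨Q, A, h1, h2⟩ := h
  obtain ⟨Q', A', h1', h2'⟩ := h'
  refine ⟨Q * Q', Q' * A + Q * A', by
    rw [Polynomial.eval_mul]
    exact mul_ne_zero h1 h1', ?_⟩
  push_cast
  rw [← h2, ← h2']
  ring

lemma RS.cmul {T0 : ℂ} {φ : PowerSeries ℂ} (c : ℂ) (h : RS T0 φ) :
    RS T0 (PowerSeries.C c * φ) := by
  obtain ⟨Q, A, h1, h2⟩ := h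
  refine ⟨Q, Polynomial.C c * A, h1, ?_⟩
  push_cast
  rw [← h2]
  ring

lemma RS.sum {T0 : ℂ} {ι : Type} (s : Finset ι) (φ : ι → PowerSeries ℂ)
    (h : ∀ i ∈ s, RS T0 (φ i)) : RS T0 (∑ i ∈ s, φ i) := by
  classical
  induction s using Finset.induction_on with
  | empty =>
    rw [Finset.sum_empty]
    exact RS.zero T0
  | insert a s ha ih =>
    rw [Finset.sum_insert ha]
    exact (h a (Finset.mem_insert_self _ _)).add
      (ih fun i hi => h i (Finset.mem_insert_of_mem hi))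

/-- from the series to the recurrence -/
lemma rec_of_poly (a : ℤ → ℂ) (Q A : Polynomial ℂ)
    (h : (Q : PowerSeries ℂ) * PowerSeries.mk (fun t : ℕ => a t) = (A : PowerSeries ℂ)) :
    ∀ᶠ t : ℤ in Filter.atTop,
      ∑ m ∈ Finset.range (Q.natDegree + 1), Q.coeff m * a (t - m) = 0 := by
  filter_upwards [Filter.eventually_ge_atTop ((A.natDegree + Q.natDegree + 1 : ℕ) : ℤ)] with t ht
  obtain ⟨t', rfl⟩ := Int.eq_ofNat_of_zero_le (by omega : 0 ≤ t)
  have ht' : A.natDegree + Q.natDegree + 1 ≤ t' := by exact_mod_cast ht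
  have h1 := congrArg (PowerSeries.coeff t') h
  rw [PowerSeries.coeff_mul, Finset.Nat.sum_antidiagonal_eq_sum_range_succ_mk] at h1
  simp only [Polynomial.coeff_coe, PowerSeries.coeff_mk] at h1
  rw [Polynomial.coeff_eq_zero_of_natDegree_lt (p := A) (by omega)] at h1
  rw [← h1]
  apply Finset.sum_subset_zero_on_sdiff
  · intro m hm
    rw [Finset.mem_range] at hm ⊢
    omega
  · intro m hm
    rw [Finset.mem_sdiff, Finset.mem_range, Finset.mem_range] at hm
    rw [Polynomial.coeff_eq_zero_of_natDegree_lt (by omega), zero_mul]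
  · intro m hm
    rw [Finset.mem_range] at hm
    congr 2
    omega

lemma recJ_iff (q : ℕ) (v : Fin r → Fin N → ℕ) (e : Finset (Fin r) → ℂ) (J : Finset (Fin N))
    (T0 : ℂ) : RecJ q v e J T0 ↔ RS T0 (PowerSeries.mk fun t : ℕ => aJ q v e J t) := by
  constructor
  · rintro ⟨Q, hQ, h⟩
    obtain ⟨A, hA⟩ := rec_poly _ Q h
    exact ⟨Q, A, hQ, hA⟩
  · rintro ⟨Q, A, hQ, h⟩
    exact ⟨Q, hQ, rec_of_poly _ Q A h⟩

/-- the level of a root -/
lemma fq_level {q : ℕ} (hq : 2 ≤ q) (v : Fin r → Fin N → ℕ) (a : Fin N → ℕ) (hg : 0 < gord v a)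
    (T0 : ℂ) (h0 : (fq q v a).eval T0 = 0) :
    Real.log ‖T0‖ / Real.log q = (((((∑ i, a i : ℕ) : ℚ) / gord v a : ℚ)) : ℝ) := by
  have h1 : (q : ℂ)⁻¹ ^ (∑ i, a i) * T0 ^ gord v a = 1 := by
    unfold fq at h0
    rw [Polynomial.eval_sub, Polynomial.eval_one, Polynomial.eval_mul, Polynomial.eval_C,
      Polynomial.eval_pow, Polynomial.eval_X] at h0
    linear_combination -h0
  have h2 := congrArg norm h1
  rw [norm_mul, norm_pow, norm_pow, norm_inv, Complex.norm_natCast, norm_one] at h2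
  have hq0 : (0 : ℝ) < q := by
    have : 0 < q := by omega
    exact_mod_cast this
  have hT : ‖T0‖ ^ gord v a = (q : ℝ) ^ (∑ i, a i) := by
    rw [inv_pow] at h2
    field_simp at h2
    linarith
  have hlog := congrArg Real.log hT
  rw [Real.log_pow, Real.log_pow] at hlog
  have hg : ((gord v a : ℕ) : ℝ) ≠ 0 := by exact_mod_cast hg.ne'
  have hlq : Real.log q ≠ 0 := (Real.log_pos (by exact_mod_cast (by omega : 1 < q))).ne'
  push_cast at hlog ⊢
  field_simp
  linarith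

/-- **Weights on cones all of whose rays are at other levels.** -/
theorem recJ_cone (hr : 0 < r) (q : ℕ) (hq : 2 ≤ q) (w : Fin r → Fin N → ℕ)
    (J : Finset (Fin N)) (d : Finset (Fin r) → ℂ) (hd0 : d ∅ = 0) (T0 : ℂ) (σ : ℚ)
    (hσ : Real.log ‖T0‖ / Real.log q = (σ : ℝ))
    (hray : ∀ τ, d τ ≠ 0 → ∀ a : Fin N → ℕ, IsRay w a → 0 < gord w a →
      (∀ j ∈ τ, face w a j) → (∀ i, i ∉ J → a i = 0) →
      ((∑ i, a i : ℕ) : ℚ) / gord w a ≠ σ) : RecJ q w d J T0 := by
  classical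
  rw [recJ_iff]
  have hford : ∀ a : Fin N → ℕ, ford 0 w 1 a = gord w a := fun a => by
    unfold ford
    simp
  have hq1 : (1 - (q : ℂ)⁻¹) ≠ 0 := by
    intro h
    have h1 : (q : ℂ)⁻¹ = 1 := by linear_combination -h
    have h2 : (q : ℂ) = 1 := by rw [← inv_inv (q : ℂ), h1, inv_one]
    have h3 : q = 1 := by exact_mod_cast h2
    omega
  set c : Finset (Fin r) → ℂ := fun τ => d τ * ((1 - (q : ℂ)⁻¹) ^ frc w J τ)⁻¹ with hc
  have hcd : ∀ τ, c τ * (1 - (q : ℂ)⁻¹) ^ frc w J τ = d τ := by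
    intro τ
    rw [hc]
    simp only
    rw [mul_assoc, inv_mul_cancel₀ (pow_ne_zero _ hq1), mul_one]
  have h1 : (PowerSeries.mk fun t : ℕ => aJ q w d J t) =
      ∑ τ, PowerSeries.C (c τ) * PowerSeries.map (evq q) (cser w J τ) := by
    ext M
    rw [PowerSeries.coeff_mk, map_sum, aJ_eq hr q w J d hd0]
    have h2 : ∀ τ, PowerSeries.coeff M (PowerSeries.C (c τ) *
        PowerSeries.map (evq q) (cser w J τ)) = c τ * evq q (cp 0 w 1 J τ M M) := by
      intro τ
      rw [PowerSeries.coeff_C_mul, PowerSeries.coeff_map]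
      unfold cser
      rw [PowerSeries.coeff_mk]
    simp only [h2]
    rw [sum_cp_eval hr q hq w J c M]
    unfold Sm
    refine tsum_congr fun x => ?_
    rw [hcd]
  rw [h1]
  refine RS.sum _ _ fun τ _ => ?_
  by_cases hτ : d τ = 0
  · have : c τ = 0 := by
      rw [hc]
      simp only
      rw [hτ, zero_mul]
    rw [this, map_zero, zero_mul]
    exact RS.zero T0
  refine RS.cmul _ ?_
  obtain ⟨l, P, hl, hP⟩ := rat_cone (0 : Fin N → ℕ) w 1 J τ hr one_pos
  simp only [hford] at hl hP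
  have hP' : cser w J τ * (l.map (fac w)).prod =
      ((P : Polynomial (Polynomial ℤ)) : PowerSeries (Polynomial ℤ)) := hP
  refine ⟨(l.map (fq q w)).prod, P.map (evq q), fun h0 => ?_, ?_⟩
  · obtain ⟨a, ha, ha0⟩ := fqs_root q w l T0 h0
    obtain ⟨h3, h4, h5, h6⟩ := hl a ha
    have h7 := fq_level hq w a h4 T0 ha0
    rw [hσ] at h7
    exact hray τ hτ a h3 h4 h5 h6 (by exact_mod_cast h7.symm)
  · have h2 := congrArg (PowerSeries.map (evq q)) hP'
    rw [map_mul, map_facs, ← Polynomial.polynomial_map_coe] at h2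
    rw [← h2]
    ring

end Pool.Agent.TH216.G3
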