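import Pool.Agent.TH216.G3.S1
import Pool.Agent.TH216.G3.R2
import Pool.Agent.TH216.ND.Nd3
import Pool.Agent.TH216.LX.N1
import Pool.Agent.TH216.LX.Lx1

set_option autoImplicit false

/-! The vertices of the zeroed family, and the relation. -/

namespace Pool.Agent.TH216.G3

open MvPolynomial Pool.Agent.H628R4.TP Pool.Agent.W425.SV Pool.Agent.W425.MM
open Pool.Agent.W425.GN
open Pool.Agent.H628R4.TZ
open Pool.Agent.W425.SM (dm)
open Pool.Agent.W425.ND (spa)
open Pool.Agent.W426.SM (gord ford IsRay face)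
open Pool.Agent.TH216.MF
open Pool.Agent.TH216.LX (Vert)

variable {r N : ℕ}

/-- the `u j` are above the convex hull of the `u k`, `k ∈ S` -/
def Cov (u : Fin r → Fin N → ℕ) (S : Finset (Fin r)) : Prop :=
  ∀ j, ∃ l : Fin r → ℝ, (∀ k, 0 ≤ l k) ∧ (∀ k, k ∉ S → l k = 0) ∧ ∑ k, l k = 1 ∧
    ∀ i, ∑ k, l k * (u k i : ℝ) ≤ (u j i : ℝ)

lemma cov_univ (u : Fin r → Fin N → ℕ) : Cov u Finset.univ := by
  classical
  intro j
  refine ⟨fun k => if k = j then 1 else 0, fun k => ?_, fun k hk => absurd (Finset.mem_univ k) hk,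
    ?_, fun i => ?_⟩
  · dsimp only
    split_ifs <;> norm_num
  · simp
  · simp

lemma cov_erase (u : Fin r → Fin N → ℕ) (S : Finset (Fin r)) (h : Cov u S) (x : Fin r)
    (hx : ∃ l : Fin r → ℝ, (∀ k, 0 ≤ l k) ∧ (∀ k, k ∉ S → l k = 0) ∧ l x = 0 ∧ ∑ k, l k = 1 ∧
      ∀ i, ∑ k, l k * (u k i : ℝ) ≤ (u x i : ℝ)) : Cov u (S.erase x) := by
  classical
  obtain ⟨l0, a1, a2, a3, a4, a5⟩ := hx
  intro j
  obtain ⟨l, b1, b2, b3, b4⟩ := h j
  have hsum : ∀ f : Fin r → ℝ, ∑ k, ((if k = x then 0 else l k) + l x * l0 k) * f k =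
      ∑ k, l k * f k + l x * (∑ k, l0 k * f k - f x) := by
    intro f
    have e1 : ∀ k, ((if k = x then 0 else l k) + l x * l0 k) * f k =
        l k * f k - (if k = x then l x * f x else 0) + l x * (l0 k * f k) := by
      intro k
      split_ifs with hk
      · rw [hk]
        ring
      · ring
    simp only [e1]
    rw [Finset.sum_add_distrib, Finset.sum_sub_distrib, Finset.sum_ite_eq', if_pos
      (Finset.mem_univ x), ← Finset.mul_sum]
    ring
  refine ⟨fun k => (if k = x then 0 else l k) + l x * l0 k, fun k => ?_, fun k hk => ?_, ?_,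
    fun i => ?_⟩
  · have := mul_nonneg (b1 x) (a1 k)
    dsimp only
    split_ifs
    · linarith
    · have := b1 k
      linarith
  · dsimp only
    by_cases hkx : k = x
    · rw [if_pos hkx, hkx, a3]
      ring
    · have hkS : k ∉ S := fun h' => hk (Finset.mem_erase.2 ⟨hkx, h'⟩)
      rw [if_neg hkx, b2 k hkS, a2 k hkS]
      ring
  · have := hsum fun _ => 1
    simp only [mul_one] at this
    rw [this, b3, a4, sub_self, mul_zero, add_zero]
  · rw [hsum fun k => (u k i : ℝ)]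
    have h1 := b4 i
    have h2 := mul_nonneg (b1 x) (sub_nonneg.2 (a5 i))
    linarith

/-- a subfamily of vertices -/
theorem exists_sub (hr : 0 < r) (u : Fin r → Fin N → ℕ) :
    ∃ (R : ℕ) (ι : Fin R → Fin r), 0 < R ∧ Function.Injective ι ∧ Vert (fun k => u (ι k)) ∧
      ∀ j, ∃ l : Fin R → ℝ, (∀ k, 0 ≤ l k) ∧ ∑ k, l k = 1 ∧
        ∀ i, ∑ k, l k * (u (ι k) i : ℝ) ≤ (u j i : ℝ) := by
  classical
  obtain ⟨S, hS, hmin⟩ := Finset.exists_min_image
    ((Finset.univ : Finset (Finset (Fin r))).filter fun S => Cov u S) Finset.card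
    ⟨Finset.univ, by rw [Finset.mem_filter]; exact ⟨Finset.mem_univ _, cov_univ u⟩⟩
  rw [Finset.mem_filter] at hS
  have hcov := hS.2
  set ι : Fin S.card → Fin r := fun k => (S.equivFin.symm k).1 with hι
  have hιS : ∀ k, ι k ∈ S := fun k => (S.equivFin.symm k).2
  have hιinj : Function.Injective ι := fun k k' h => S.equivFin.symm.injective (Subtype.ext h)
  have hιsurj : ∀ j ∈ S, ∃ k, ι k = j := fun j hj => ⟨S.equivFin ⟨j, hj⟩, by
    rw [hι]
    simp only [Equiv.symm_apply_apply]⟩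
  have hsum : ∀ f : Fin r → ℝ, (∀ j, j ∉ S → f j = 0) → ∑ k, f (ι k) = ∑ j, f j := by
    intro f hf
    rw [← Finset.sum_subset (Finset.subset_univ S) fun j _ hj => hf j hj, ← Finset.sum_coe_sort S]
    exact Equiv.sum_comp S.equivFin.symm (fun x : S => f x)
  refine ⟨S.card, ι, ?_, hιinj, ?_, fun j => ?_⟩
  · obtain ⟨l, -, h2, h3, -⟩ := hcov ⟨0, hr⟩
    rw [Finset.card_pos]
    by_contra hcon
    rw [Finset.not_nonempty_iff_eq_empty] at hcon
    rw [Finset.sum_eq_zero fun k _ => h2 k (by rw [hcon]; exact Finset.notMem_empty k)] at h3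
    exact zero_ne_one h3
  · rintro k ⟨l, h1, h2, h3, h4⟩
    have hl' : ∃ l' : Fin r → ℝ, (∀ j, 0 ≤ l' j) ∧ (∀ j, j ∉ S → l' j = 0) ∧
        ∀ k', l' (ι k') = l k' := by
      refine ⟨fun j => if hj : j ∈ S then l (S.equivFin ⟨j, hj⟩) else 0, fun j => ?_,
        fun j hj => ?_, fun k' => ?_⟩
      · dsimp only
        split_ifs
        · exact h1 _
        · exact le_rfl
      · dsimp only
        rw [dif_neg hj]
      · dsimp only
        rw [dif_pos (hιS k')]
        congr 1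
        have : (⟨ι k', hιS k'⟩ : S) = S.equivFin.symm k' := rfl
        rw [this, Equiv.apply_symm_apply]
    obtain ⟨l', a1, a2, a3⟩ := hl'
    have hc := cov_erase u S hcov (ι k) ⟨l', a1, a2, by rw [a3, h2], by
      rw [← hsum l' a2]
      simp only [a3]
      exact h3, fun i => by
      rw [← hsum (fun j => l' j * (u j i : ℝ)) fun j hj => by rw [a2 j hj, zero_mul]]
      simp only [a3]
      exact h4 i⟩
    have h5 := hmin (S.erase (ι k)) (by
      rw [Finset.mem_filter]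
      exact ⟨Finset.mem_univ _, hc⟩)
    have h6 := Finset.card_erase_lt_of_mem (hιS k)
    omega
  · obtain ⟨l, h1, h2, h3, h4⟩ := hcov j
    refine ⟨fun k => l (ι k), fun k => h1 _, ?_, fun i => ?_⟩
    · rw [hsum l h2]
      exact h3
    · rw [hsum (fun j => l j * (u j i : ℝ)) fun j hj => by rw [h2 j hj, zero_mul]]
      exact h4 i

/-- multiples -/
lemma relV_mul (v : Fin r → Fin N → ℕ) (θ : Fin r → ℝ) (loc : Prop) (p s : Polynomial ℂ)
    (h : RelV v θ loc p) : RelV v θ loc (p * s) := by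
  obtain ⟨M, n, n0, c, B, q, c0, q0, hc, hc0, hrel⟩ := h
  refine ⟨M, n, n0, c, B, fun k => q k * Polynomial.aeval (∑ j, X j : MvPolynomial (Fin r) ℂ) s,
    c0, fun k => q0 k * Polynomial.aeval (∑ j, X j : MvPolynomial (Fin r) ℂ) s, hc, hc0, ?_⟩
  have e1 : Polynomial.aeval (∑ j, X j : MvPolynomial (Fin r) ℂ) (p * s) * ∏ j, dm M j =
      (Polynomial.aeval (∑ j, X j : MvPolynomial (Fin r) ℂ) p * ∏ j, dm M j) *
        Polynomial.aeval (∑ j, X j : MvPolynomial (Fin r) ℂ) s := by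
    rw [map_mul]
    ring
  rw [e1, hrel, add_mul, Finset.sum_mul, Finset.sum_mul]
  congr 1
  · refine Finset.sum_congr rfl fun k _ => ?_
    ring
  · refine Finset.sum_congr rfl fun k _ => ?_
    ring

/-- the relation for all heights -/
theorem rel_all [NeZero r] {F : Type} [Field F] (v : Fin r → Fin N → ℕ)
    (hv : Function.Injective v) (hv0 : ∀ j, v j ≠ 0) (h : MvPolynomial (Fin N) F)
    (hh : ∀ w ∈ h.support, NP v w) (α : ℚ) (hn : ¬ HP v h α 0) :
    ∃ B : Polynomial ℂ, B.eval (α : ℂ) ≠ 0 ∧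
      ∀ θ : Fin r → ℝ, LinearIndependent ℚ θ → RelV v θ False B := by
  unfold HP at hn
  push Not at hn
  obtain ⟨F', _, _, a, h', ha, hs, b, hb, hnd⟩ := hn
  have hb0 : b ≠ 0 := fun h => hnd (h ▸ dvd_zero _)
  have hbα : b.eval (α : ℂ) ≠ 0 := by
    intro h0
    apply hnd
    rw [zero_add, pow_one, Polynomial.dvd_iff_isRoot]
    exact h0
  have hb' := (Pool.Agent.W591.GC.J_bot _ b).2 ((bfun_iff _ _).2 hb)
  have hbot : ∀ g ∈ (⊥ : Submonoid (MvPolynomial (Fin N) ℂ)),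
      MvPolynomial.constantCoeff g = 1 ∧ (¬ False → g = 1) := fun g hg => by
    rw [Submonoid.mem_bot] at hg
    exact ⟨by rw [hg, map_one], fun _ => hg⟩
  have hh' : ∀ w ∈ h'.support, Pool.Agent.W425.SV.NP v w := fun w hw => hh w (hs w hw)
  have hrel : ∀ θ : Fin r → ℝ, LinearIndependent ℚ θ → ∃ p q : Polynomial ℂ,
      b = (Polynomial.X + 1) * p * q ∧ RelV v θ False p := fun θ hθ =>
    Pool.Agent.W422.GC.rel_of_unit False ⊥ hbot v a hv hv0 ha h' hh' θ hθ b hb0 hb'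
  obtain ⟨θ0, hθ0⟩ := Pool.Agent.W422.GC.exists_heights r
  obtain ⟨p0, q0, hbp0, -⟩ := hrel θ0 hθ0
  have hX : (Polynomial.X + 1 : Polynomial ℂ) ≠ 0 := by
    intro h2
    have h3 := congrArg (Polynomial.eval 0) h2
    simp at h3
  refine ⟨p0 * q0, fun h0 => hbα ?_, fun θ hθ => ?_⟩
  · rw [hbp0, mul_assoc, Polynomial.eval_mul, h0, mul_zero]
  · obtain ⟨p, q, hbp, hp⟩ := hrel θ hθ
    have h1 : p0 * q0 = p * q := by
      apply mul_left_cancel₀ hX
      rw [← mul_assoc, ← mul_assoc, ← hbp0, ← hbp]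
    rw [h1]
    exact relV_mul v θ False p q hp

/-- the relation for the vertices of the zeroed family -/
theorem rel_sub [NeZero r] {F : Type} [Field F] (v : Fin r → Fin N → ℕ)
    (hv : Function.Injective v) (hv0 : ∀ j, v j ≠ 0) (h : MvPolynomial (Fin N) F)
    (hh : ∀ w ∈ h.support, NP v w) (α : ℚ) (hn : ¬ HP v h α 0) (J : Finset (Fin N))
    {R : ℕ} (w : Fin R → Fin N → ℕ) (ι : Fin R → Fin r) (hι : Function.Injective ι)
    (hw : ∀ k, zf J v (ι k) = w k)
    (hcov : ∀ j, ∃ l : Fin R → ℝ, (∀ k, 0 ≤ l k) ∧ ∑ k, l k = 1 ∧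
        ∀ i, ∑ k, l k * (w k i : ℝ) ≤ (zf J v j i : ℝ)) :
    ∃ (θ : Fin R → ℤ) (p : Polynomial ℂ),
      RelG w (Kil1 w) (KilU w θ) p ∧ p.eval (α : ℂ) ≠ 0 := by
  obtain ⟨B, hB, hrel⟩ := rel_all v hv hv0 h hh α hn
  obtain ⟨θ', hθ'⟩ := Pool.Agent.TH216.ND.relG_restrNP (zf J v) w ι hι hw
    (fun j _ => hcov j) False B fun θ hθ => relV_zf J v θ B (hrel θ hθ)
  exact ⟨θ', B, hθ', hB⟩

end Pool.Agent.TH216.G3
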