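import Pool.Agent.TH216.G3.S2
import Pool.Agent.TH216.LX.F1

set_option autoImplicit false

/-! Planar families: all facets are simplices. -/

namespace Pool.Agent.TH216.G3

open Pool.Agent.W426.SM (gord IsRay face)
open Pool.Agent.TH216.MF
open Pool.Agent.TH216.LX (Vert vert2 vert3 rel3 hypSY_of_locL)

variable {r N : ℕ}

lemma two_aux (v : Fin r → Fin N → ℕ) (hV : Vert v) (B : Finset (Fin N)) (hBc : B.card ≤ 2)
    (hout0 : ∀ x, x ∉ B → ∀ j, v j x = 0) (a : Fin N → ℕ) (hg : 0 < gord v a)
    (w : Fin r → ℚ) (hw : ∃ j, w j ≠ 0) (hwf : ∀ j, w j ≠ 0 → face v a j)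
    (hwA : ∀ i, a i ≠ 0 → ∑ j, w j * (v j i : ℚ) = 0) : False := by
  classical
  have hgq : (gord v a : ℚ) ≠ 0 := by exact_mod_cast hg.ne'
  -- the sum of the coefficients
  have hsum : ∑ j, w j = 0 := by
    have h1 : ∑ x, (a x : ℚ) * ∑ j, w j * (v j x : ℚ) = 0 := by
      refine Finset.sum_eq_zero fun x _ => ?_
      by_cases hx : a x = 0
      · rw [hx]
        simp
      · rw [hwA x hx, mul_zero]
    have h2 : ∑ x, (a x : ℚ) * ∑ j, w j * (v j x : ℚ) = (gord v a : ℚ) * ∑ j, w j := by
      simp only [Finset.mul_sum]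
      rw [Finset.sum_comm]
      refine Finset.sum_congr rfl fun j _ => ?_
      by_cases hj : w j = 0
      · rw [hj]
        simp
      · have h3 : ((∑ x, a x * v j x : ℕ) : ℚ) = gord v a := by
          have := hwf j hj
          unfold face at this
          exact_mod_cast this
        rw [← h3]
        push_cast
        rw [Finset.sum_mul]
        exact Finset.sum_congr rfl fun x _ => by ring
    rw [h1] at h2
    exact (mul_eq_zero.1 h2.symm).resolve_left hgq
  obtain ⟨j1, hj1⟩ := hw
  obtain ⟨j2, hj21, hj2⟩ : ∃ j2, j2 ≠ j1 ∧ w j2 ≠ 0 := by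
    by_contra hcon
    push Not at hcon
    rw [Finset.sum_eq_single j1 (fun j _ hj => hcon j hj) (by simp)] at hsum
    exact hj1 hsum
  have hB : ∀ j, w j ≠ 0 → ∑ x ∈ B, a x * v j x = gord v a := by
    intro j hj
    have h1 := hwf j hj
    unfold face at h1
    rw [← h1]
    refine Finset.sum_subset (Finset.subset_univ _) fun x _ hx => ?_
    rw [hout0 x hx j, mul_zero]
  have hout : ∀ x, x ∉ B → ∀ j, w j ≠ 0 → v j x = 0 := fun x hx j _ => hout0 x hx j
  have hc3 : B.card = 0 ∨ B.card = 1 ∨ B.card = 2 := by omega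
  rcases hc3 with hc | hc | hc
  · rw [Finset.card_eq_zero] at hc
    have h1 := hB j1 hj1
    rw [hc, Finset.sum_empty] at h1
    omega
  · obtain ⟨p, hp⟩ := Finset.card_eq_one.1 hc
    have h1 := hB j1 hj1
    have h2 := hB j2 hj2
    rw [hp, Finset.sum_singleton] at h1 h2
    have hap : a p ≠ 0 := by
      intro h
      rw [h, zero_mul] at h1
      omega
    have h3 : v j2 p = v j1 p := Nat.eq_of_mul_eq_mul_left (Nat.pos_of_ne_zero hap)
      (h2.trans h1.symm)
    refine vert2 hV hj21.symm fun x => ?_
    by_cases hx : x ∈ B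
    · rw [hp, Finset.mem_singleton] at hx
      rw [hx, h3]
    · rw [hout x hx j2 hj2]
      exact Nat.zero_le _
  · obtain ⟨p, q, hpq, hp⟩ := Finset.card_eq_two.1 hc
    have hBp : ∀ j, w j ≠ 0 → a p * v j p + a q * v j q = gord v a := by
      intro j hj
      rw [← hB j hj, hp, Finset.sum_pair hpq]
    have hle : ∀ j j', w j ≠ 0 → w j' ≠ 0 → j ≠ j' → v j p ≤ v j' p → v j q ≤ v j' q →
        False := by
      intro j j' hj hj' hne h1 h2
      refine vert2 hV hne.symm fun x => ?_
      by_cases hx : x ∈ B
      · rw [hp, Finset.mem_insert, Finset.mem_singleton] at hx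
        rcases hx with rfl | rfl
        · exact h1
        · exact h2
      · rw [hout x hx j hj]
        exact Nat.zero_le _
    by_cases haq : a q = 0
    · have hpp : ∀ j, w j ≠ 0 → a p * v j p = gord v a := by
        intro j hj
        have := hBp j hj
        rw [haq, zero_mul, add_zero] at this
        exact this
      have hap : a p ≠ 0 := by
        intro h
        have := hpp j1 hj1
        rw [h, zero_mul] at this
        omega
      have h3 : v j2 p = v j1 p := Nat.eq_of_mul_eq_mul_left (Nat.pos_of_ne_zero hap)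
        ((hpp j2 hj2).trans (hpp j1 hj1).symm)
      rcases le_total (v j1 q) (v j2 q) with h4 | h4
      · exact hle j1 j2 hj1 hj2 hj21.symm h3.ge h4
      · exact hle j2 j1 hj2 hj1 hj21 h3.le h4
    by_cases hap : a p = 0
    · have hpp : ∀ j, w j ≠ 0 → a q * v j q = gord v a := by
        intro j hj
        have := hBp j hj
        rw [hap, zero_mul, zero_add] at this
        exact this
      have h3 : v j2 q = v j1 q := Nat.eq_of_mul_eq_mul_left (Nat.pos_of_ne_zero haq)
        ((hpp j2 hj2).trans (hpp j1 hj1).symm)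
      rcases le_total (v j1 p) (v j2 p) with h4 | h4
      · exact hle j1 j2 hj1 hj2 hj21.symm h4 h3.ge
      · exact hle j2 j1 hj2 hj1 hj21 h4 h3.le
    -- both coordinates are in `A`
    have haq' : (a q : ℚ) ≠ 0 := by exact_mod_cast haq
    have hBq : ∀ j, w j ≠ 0 → (a p : ℚ) * v j p + (a q : ℚ) * v j q = gord v a := by
      intro j hj
      exact_mod_cast hBp j hj
    have hinj : ∀ j j', w j ≠ 0 → w j' ≠ 0 → (v j p : ℚ) = v j' p → j = j' := by
      intro j j' hj hj' h1
      by_contra hne
      have h2 : (v j q : ℚ) = v j' q := by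
        have h3 := hBq j hj
        have h4 := hBq j' hj'
        rw [h1] at h3
        have h5 : (a q : ℚ) * v j q = (a q : ℚ) * v j' q := by linarith
        exact mul_left_cancel₀ haq' h5
      have h3 : v j p = v j' p := by exact_mod_cast h1
      have h4 : v j q = v j' q := by exact_mod_cast h2
      exact hle j j' hj hj' hne h3.le h4.le
    by_cases h3 : ∃ j3, j3 ≠ j1 ∧ j3 ≠ j2 ∧ w j3 ≠ 0
    · obtain ⟨j3, h31, h32, hj3⟩ := h3
      have hrel := rel3 hV hj21.symm h31.symm h32.symm ((v j2 p : ℚ) - v j3 p)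
        ((v j3 p : ℚ) - v j1 p) ((v j1 p : ℚ) - v j2 p) (by ring) (fun x => by
          by_cases hx : x ∈ B
          · rw [hp, Finset.mem_insert, Finset.mem_singleton] at hx
            rcases hx with rfl | rfl
            · ring
            · have e1 := hBq j1 hj1
              have e2 := hBq j2 hj2
              have e3 := hBq j3 hj3
              have h5 : (a x : ℚ) * (((v j2 p : ℚ) - v j3 p) * v j1 x +
                  ((v j3 p : ℚ) - v j1 p) * v j2 x + ((v j1 p : ℚ) - v j2 p) * v j3 x) = 0 := by
                linear_combination ((v j2 p : ℚ) - v j3 p) * e1 + ((v j3 p : ℚ) - v j1 p) * e2 +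
                  ((v j1 p : ℚ) - v j2 p) * e3
              exact (mul_eq_zero.1 h5).resolve_left haq'
          · rw [hout x hx j1 hj1, hout x hx j2 hj2, hout x hx j3 hj3]
            simp)
      have h6 : (v j1 p : ℚ) = v j2 p := by linarith [hrel.2.2]
      exact hj21 (hinj j1 j2 hj1 hj2 h6).symm
    · push Not at h3
      have e1 : w j1 + w j2 = 0 := by
        rw [← hsum, ← Finset.sum_subset (Finset.subset_univ {j1, j2}) fun j _ hj => ?_,
          Finset.sum_pair hj21.symm]
        rw [Finset.mem_insert, Finset.mem_singleton] at hj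
        push Not at hj
        exact h3 j hj.1 hj.2
      have e2 : w j1 * v j1 p + w j2 * v j2 p = 0 := by
        rw [← hwA p hap, ← Finset.sum_subset (Finset.subset_univ {j1, j2}) fun j _ hj => ?_,
          Finset.sum_pair hj21.symm]
        rw [Finset.mem_insert, Finset.mem_singleton] at hj
        push Not at hj
        rw [h3 j hj.1 hj.2, zero_mul]
      have h5 : w j1 * ((v j1 p : ℚ) - v j2 p) = 0 := by
        have : w j2 = -w j1 := by linarith
        rw [this] at e2
        linear_combination e2
      have h6 := (mul_eq_zero.1 h5).resolve_left hj1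
      exact hj21 (hinj j1 j2 hj1 hj2 (by linarith)).symm

/-- all the facets are simplices -/
theorem hypSY_two (hr : 0 < r) (v : Fin r → Fin N → ℕ) (hV : Vert v) (J : Finset (Fin N))
    (hJ : J.card ≤ 2) (hout : ∀ x, x ∉ J → ∀ j, v j x = 0) (σ : ℚ) :
    Pool.Agent.TH216.ID.HypSY v ∅ (σ : ℝ) := by
  refine hypSY_of_locL hr v ∅ σ fun j1 => Or.inr fun a _ hg _ _ => Or.inl ?_
  intro w hwf hwA
  by_contra hcon
  push Not at hcon
  exact two_aux v hV J hJ hout a hg w hcon (fun j hj => by
    by_contra h
    exact hj (hwf j h)) hwA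

end Pool.Agent.TH216.G3
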