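import Pool.Agent.TH216.G3.S3

set_option autoImplicit false

/-! Roots from the rays with at most two coordinates. -/

namespace Pool.Agent.TH216.G3

open MvPolynomial Pool.Agent.H628R4.TP Pool.Agent.W425.SV Pool.Agent.W425.MM
open Pool.Agent.W425.GN
open Pool.Agent.W426.SM (gord ford IsRay face)
open Pool.Agent.TH216.MF
open Pool.Agent.TH216.LX (Vert)
open Pool.Agent.W425.BF (hp_nonB)

variable {r N : ℕ}

lemma nonB_F {v : Fin r → Fin N → ℕ} {a : Fin N → ℕ} (h : NonB v True a) : NonB v False a := by
  obtain ⟨J, h1, h2, h3, h4, -⟩ := h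
  exact ⟨J, h1, h2, h3, h4, fun h => absurd h id⟩

lemma nonB_ofF (v : Fin r → Fin N → ℕ) (a : Fin N → ℕ) (J : Finset (Fin r))
    (hJ : J.card = (Finset.univ.filter fun i => a i ≠ 0).card) (hf : ∀ j ∈ J, face v a j)
    (hlin : ∀ w : Fin r → ℚ, (∀ j, j ∉ J → w j = 0) →
      (∀ i, a i ≠ 0 → ∑ j, w j * (v j i : ℚ) = 0) → ∀ j, w j = 0)
    (hNB : ∀ i, a i ≠ 0 → NB v J i) : NonB v False a := by
  classical
  refine ⟨J, hJ, hf, ?_, hNB, fun h => absurd h id⟩
  rw [Fintype.linearIndependent_iff]
  intro g hg j
  have h1 := hlin (fun j => if hj : j ∈ J then g ⟨j, hj⟩ else 0) (fun j hj => by simp [hj])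
    (fun i hi => by
      have h2 := congrFun hg ⟨i, hi⟩
      rw [Finset.sum_apply] at h2
      simp only [Pi.smul_apply, smul_eq_mul, Pi.zero_apply] at h2
      refine Eq.trans ?_ h2
      have e1 := Finset.sum_coe_sort J
        (fun j => (if hj : j ∈ J then g ⟨j, hj⟩ else 0) * (v j i : ℚ))
      have e2 : ∑ j ∈ J, (if hj : j ∈ J then g ⟨j, hj⟩ else 0) * (v j i : ℚ) =
          ∑ j, (if hj : j ∈ J then g ⟨j, hj⟩ else 0) * (v j i : ℚ) := by
        refine Finset.sum_subset (Finset.subset_univ J) fun j _ hj => ?_
        rw [dif_neg hj, zero_mul]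
      rw [← e2, ← e1]
      refine Finset.sum_congr rfl fun j _ => ?_
      simp) j
  simpa using h1

/-- one coordinate -/
theorem ray_root1 [NeZero r] {F : Type} [Field F] (v : Fin r → Fin N → ℕ)
    (hv : Function.Injective v) (hv0 : ∀ j, v j ≠ 0) (h : MvPolynomial (Fin N) F)
    (hh : ∀ w ∈ h.support, NP v w) (a : Fin N → ℕ) (hg : 0 < gord v a) (i0 : Fin N)
    (hi0 : ∀ i, a i ≠ 0 ↔ i = i0) :
    ∑ i, a i = gord v a ∨ HP v h (-(((∑ i, a i : ℕ) : ℚ) / gord v a)) 0 := by
  rcases Pool.Agent.TH216.LX.case1 v a (Nat.pos_of_ne_zero (NeZero.ne r)) hg i0 hi0 with h1 | h1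
  · exact Or.inl h1
  · exact Or.inr (hp_nonB v hv hv0 h hh a hg (nonB_F h1))

/-- two coordinates -/
theorem ray_root2 [NeZero r] {F : Type} [Field F] (v : Fin r → Fin N → ℕ)
    (hv : Function.Injective v) (hv0 : ∀ j, v j ≠ 0) (h : MvPolynomial (Fin N) F)
    (hh : ∀ w ∈ h.support, NP v w) (a : Fin N → ℕ) (hg : 0 < gord v a)
    (i k : Fin N) (hik : i ≠ k) (hsupp : ∀ x, x ≠ i → x ≠ k → a x = 0) (hai : a i ≠ 0)
    (hak : a k ≠ 0) (α β γ : Fin r) (hαβ : α ≠ β) (hα : face v a α) (hβ : face v a β)
    (hγ : face v a γ) (hα1 : v α i = 1) (hβ1 : v β i = 1) (hγα : v γ i ≠ v α i ∨ v γ k ≠ v α k)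
    (hns : ¬ (v α k = 0 ∧ v γ i = 0 ∧ v γ k = 1)) :
    HP v h (-(((∑ i, a i : ℕ) : ℚ) / gord v a)) 0 := by
  classical
  have hval : ∀ j, ∑ x, a x * v j x = a i * v j i + a k * v j k := by
    intro j
    rw [← Finset.sum_pair (f := fun x => a x * v j x) hik]
    refine (Finset.sum_subset (Finset.subset_univ _) fun x _ hx => ?_).symm
    rw [Finset.mem_insert, Finset.mem_singleton] at hx
    push Not at hx
    rw [hsupp x hx.1 hx.2, zero_mul]
  have eα : a i + a k * v α k = gord v a := by
    have := hα
    unfold face at this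
    rw [hval, hα1, mul_one] at this
    exact this
  have eβ : a i + a k * v β k = gord v a := by
    have := hβ
    unfold face at this
    rw [hval, hβ1, mul_one] at this
    exact this
  have eγ : a i * v γ i + a k * v γ k = gord v a := by
    have := hγ
    unfold face at this
    rw [hval] at this
    exact this
  have hkp := Nat.pos_of_ne_zero hak
  have hip := Nat.pos_of_ne_zero hai
  have hb : v β k = v α k := Nat.eq_of_mul_eq_mul_left hkp (by omega)
  have hc3 : v γ i = 0 ∨ v γ i = 1 ∨ 2 ≤ v γ i := by omega
  rcases hc3 with hx | hx | hx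
  · refine hp_pair v hv hv0 h hh a hg i k hik hsupp hai hak α β γ hαβ hα hβ hγ hα1 hβ1 hx ?_
    by_contra hcon
    push Not at hcon
    exact hns ⟨hcon.1, hx, hcon.2⟩
  · exfalso
    rw [hx, mul_one] at eγ
    have : v γ k = v α k := Nat.eq_of_mul_eq_mul_left hkp (by omega)
    rcases hγα with h1 | h1
    · exact h1 (by rw [hx, hα1])
    · exact h1 this
  · have hlt : v γ k < v α k := by
      have h1 : a i * 2 ≤ a i * v γ i := Nat.mul_le_mul_left _ hx
      have h2 : a k * v γ k < a k * v α k := by omega
      exact Nat.lt_of_mul_lt_mul_left h2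
    by_cases hb1 : v α k = 1
    · have hγ0 : v γ k = 0 := by omega
      refine hp_pair v hv hv0 h hh a hg k i hik.symm (fun x h1 h2 => hsupp x h2 h1) hak hai α β γ
        hαβ hα hβ hγ hb1 (by rw [hb, hb1]) hγ0 (Or.inl (by omega))
    · have hb2 : 2 ≤ v α k := by omega
      have hαγ : α ≠ γ := by
        rintro rfl
        omega
      have hsum2 : ∀ f : Fin r → ℚ, (∀ j, j ∉ ({α, γ} : Finset (Fin r)) → f j = 0) →
          ∑ j, f j = f α + f γ := by
        intro f hf
        rw [← Finset.sum_subset (Finset.subset_univ ({α, γ} : Finset (Fin r)))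
          fun j _ hj => hf j hj, Finset.sum_pair hαγ]
      refine hp_nonB v hv hv0 h hh a hg (nonB_ofF v a {α, γ} ?_ ?_ ?_ ?_)
      · rw [Finset.card_pair hαγ]
        have : (Finset.univ.filter fun x => a x ≠ 0) = {i, k} := by
          ext x
          simp only [Finset.mem_filter, Finset.mem_univ, true_and, Finset.mem_insert,
            Finset.mem_singleton]
          constructor
          · intro hx
            by_contra hcon
            push Not at hcon
            exact hx (hsupp x hcon.1 hcon.2)
          · rintro (rfl | rfl)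
            · exact hai
            · exact hak
        rw [this, Finset.card_pair hik]
      · intro j hj
        rw [Finset.mem_insert, Finset.mem_singleton] at hj
        rcases hj with rfl | rfl
        · exact hα
        · exact hγ
      · intro w hw h1
        have e1 : ∀ x, a x ≠ 0 → w α * (v α x : ℚ) + w γ * (v γ x : ℚ) = 0 := fun x hx => by
          rw [← hsum2 (fun j => w j * (v j x : ℚ)) fun j hj => by rw [hw j hj, zero_mul]]
          exact h1 x hx
        have e2 := e1 i hai
        have e3 := e1 k hak
        rw [hα1] at e2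
        push_cast at e2
        have e4 : w γ * ((v γ k : ℚ) - v γ i * v α k) = 0 := by
          have : w α = -(w γ * v γ i) := by linarith
          rw [this] at e3
          linear_combination e3
        have e5 : ((v γ k : ℚ) - v γ i * v α k) ≠ 0 := by
          have h2 : v γ k < v γ i * v α k := by
            have : 1 * v α k ≤ v γ i * v α k := Nat.mul_le_mul_right _ (by omega)
            omega
          have h3 : (v γ k : ℚ) < v γ i * v α k := by exact_mod_cast h2
          linarith
        have e6 := (mul_eq_zero.1 e4).resolve_right e5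
        have e7 : w α = 0 := by
          rw [e6] at e2
          linarith
        intro j
        by_cases hj : j ∈ ({α, γ} : Finset (Fin r))
        · rw [Finset.mem_insert, Finset.mem_singleton] at hj
          rcases hj with rfl | rfl
          · exact e7
          · exact e6
        · exact hw j hj
      · intro x hx
        have hxx : x = i ∨ x = k := by
          by_contra hcon
          push Not at hcon
          exact hx (hsupp x hcon.1 hcon.2)
        rintro ⟨j0, hj0, h1, h2⟩
        rw [Finset.mem_insert, Finset.mem_singleton] at hj0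
        rcases hxx with rfl | rfl
        · rcases hj0 with rfl | rfl
          · have := h2 γ (by simp) hαγ.symm
            omega
          · omega
        · rcases hj0 with rfl | rfl
          · omega
          · have := h2 α (by simp) hαγ
            omega

end Pool.Agent.TH216.G3
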