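import Pool.Agent.TH216.G3.S4

set_option autoImplicit false

/-! The weights of the zeroed family: a solution of the relations and a rest on cones with a bad
apex. -/

namespace Pool.Agent.TH216.G3

open Pool.Agent.W426.SM (gord ford IsRay face)
open Pool.Agent.TH216.MF
open Pool.Agent.TH216.LX (Vert InN)

variable {N : ℕ}

/-- the relation at an apex which comes from only one exponent -/
lemma good_rel {R0 R : ℕ} (m : Fin R0 → Fin N → ℕ) (w : Fin R → Fin N → ℕ) (q : ℕ)
    (J : Finset (Fin N)) (e : Finset (Fin R0) → ℂ) (h : KRelJ q m J e) (i : Fin N) (hi : i ∈ J)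
    (j0 : Fin R) (τ : Finset (Fin R)) (hj0 : w j0 i = 1) (hτ : ∀ j ∈ τ, w j i = 0)
    (k0 : Fin R0) (hk0 : m k0 = w j0) (huniq : ∀ x, m x = w j0 → x = k0) :
    ((q : ℂ) - 1) * e (PhiC m w (insert j0 τ)) + e (PhiC m w τ) = 0 := by
  classical
  have h1 : PhiC m w (insert j0 τ) = insert k0 (PhiC m w τ) := by
    ext j
    rw [mem_PhiC, Finset.mem_insert, mem_PhiC]
    constructor
    · rintro ⟨l, h1, h2, h3, h4⟩
      have h5 : l j0 = (m j i : ℝ) := by
        rw [← h4 i, Finset.sum_eq_single j0]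
        · rw [hj0, Nat.cast_one, mul_one]
        · intro j' _ hj'
          by_cases hJ' : j' ∈ τ
          · rw [hτ j' hJ', Nat.cast_zero, mul_zero]
          · rw [h2 j' (by
              rw [Finset.mem_insert, not_or]
              exact ⟨hj', hJ'⟩), zero_mul]
        · simp
      have h6 : l j0 ≤ 1 := by
        rw [← h3]
        exact Finset.single_le_sum (fun j _ => h1 j) (Finset.mem_univ j0)
      rw [h5] at h6
      have h7 : m j i ≤ 1 := by exact_mod_cast h6
      rcases Nat.le_one_iff_eq_zero_or_eq_one.1 h7 with h8 | h8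
      · right
        refine ⟨l, h1, fun j' hj' => ?_, h3, h4⟩
        by_cases h9 : j' = j0
        · rw [h9, h5, h8, Nat.cast_zero]
        · exact h2 j' (by
            rw [Finset.mem_insert, not_or]
            exact ⟨h9, hj'⟩)
      · left
        rw [h8, Nat.cast_one] at h5
        have h9 : ∀ j', j' ≠ j0 → l j' = 0 := by
          intro j' hj'
          have h10 := h3
          rw [← Finset.add_sum_erase _ _ (Finset.mem_univ j0), h5] at h10
          have h11 : ∑ x ∈ Finset.univ.erase j0, l x = 0 := by linarith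
          exact (Finset.sum_eq_zero_iff_of_nonneg fun x _ => h1 x).1 h11 j'
            (Finset.mem_erase.2 ⟨hj', Finset.mem_univ _⟩)
        apply huniq
        funext i'
        have h10 := h4 i'
        rw [Finset.sum_eq_single j0 (fun j' _ hj' => by rw [h9 j' hj', zero_mul]) (by simp), h5,
          one_mul] at h10
        exact_mod_cast h10.symm
    · rintro (h2 | h2)
      · rw [h2, hk0]
        exact inC_self w _ j0 (Finset.mem_insert_self _ _)
      · exact inC_mono (Finset.subset_insert _ _) h2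
  rw [h1]
  refine h i hi k0 (PhiC m w τ) (by rw [hk0, hj0]) fun j hj => ?_
  rw [mem_PhiC] at hj
  obtain ⟨l, h2, h3, h4, h5⟩ := hj
  have h6 : (m j i : ℝ) = 0 := by
    rw [← h5 i]
    refine Finset.sum_eq_zero fun j' _ => ?_
    by_cases hj' : j' ∈ τ
    · rw [hτ j' hj', Nat.cast_zero, mul_zero]
    · rw [h3 j' hj', zero_mul]
  exact_mod_cast h6

variable {R : ℕ}

/-- the solution of the relations with the values of `e` on the sets without apex -/
noncomputable def eKK (q : ℕ) (w : Fin R → Fin N → ℕ) (J : Finset (Fin N))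
    (e : Finset (Fin R) → ℂ) (τ : Finset (Fin R)) : ℂ :=
  e (bas w J τ) * (-((q : ℂ) - 1)⁻¹) ^ (τ.card - (bas w J τ).card)

lemma q1_ne {q : ℕ} (hq : 2 ≤ q) : (q : ℂ) - 1 ≠ 0 := by
  intro h
  have h1 : (q : ℂ) = 1 := by linear_combination h
  have h2 : q = 1 := by exact_mod_cast h1
  omega

lemma eKK_step {q : ℕ} (w : Fin R → Fin N → ℕ) (J : Finset (Fin N))
    (e : Finset (Fin R) → ℂ) (i : Fin N) (hi : i ∈ J) (j0 : Fin R) (hj0 : w j0 i = 1)
    (τ : Finset (Fin R)) (hτ : ∀ j ∈ τ, w j i = 0) :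
    eKK q w J e (insert j0 τ) = -((q : ℂ) - 1)⁻¹ * eKK q w J e τ := by
  unfold eKK
  rw [bas_step w J i hi j0 hj0 τ hτ,
    Finset.card_insert_of_notMem (notMem_step w i j0 hj0 τ hτ)]
  have h1 := Finset.card_le_card (bas_sub w J τ)
  rw [show τ.card + 1 - (bas w J τ).card = (τ.card - (bas w J τ).card) + 1 by omega, pow_succ]
  ring

lemma krelJ_eKK {q : ℕ} (hq : 2 ≤ q) (w : Fin R → Fin N → ℕ) (J : Finset (Fin N))
    (e : Finset (Fin R) → ℂ) : KRelJ q w J (eKK q w J e) := by
  intro i hi j0 τ hj0 hτ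
  rw [eKK_step w J e i hi j0 hj0 τ hτ]
  have := q1_ne hq
  field_simp
  ring

lemma eKK_empty (q : ℕ) (w : Fin R → Fin N → ℕ) (J : Finset (Fin N))
    (e : Finset (Fin R) → ℂ) : eKK q w J e ∅ = e ∅ := by
  unfold eKK
  rw [bas_empty]
  simp

/-- the rest -/
lemma eKK_diff {q : ℕ} (hq : 2 ≤ q) (w : Fin R → Fin N → ℕ) (J : Finset (Fin N))
    (e : Finset (Fin R) → ℂ) (Bd : Fin R → Prop)
    (h : ∀ i ∈ J, ∀ j0, w j0 i = 1 → ∀ τ : Finset (Fin R), (∀ j ∈ τ, w j i = 0) → ¬ Bd j0 →
      ((q : ℂ) - 1) * e (insert j0 τ) + e τ = 0) :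
    ∀ τ : Finset (Fin R), (∀ k ∈ τ, ¬ Bd k) → e τ = eKK q w J e τ := by
  classical
  refine step_ind w J _ (fun τ hτ _ => ?_) fun i hi j0 hj0 τ hτ ih hbad => ?_
  · unfold eKK
    rw [bas_apf w J τ hτ, Nat.sub_self, pow_zero, mul_one]
  · rw [eKK_step w J e i hi j0 hj0 τ hτ, ← ih fun k hk => hbad k (Finset.mem_insert_of_mem hk)]
    have h1 := h i hi j0 hj0 τ hτ (hbad j0 (Finset.mem_insert_self _ _))
    have h2 := q1_ne hq
    have h3 : ((q : ℂ) - 1) * (e (insert j0 τ) + ((q : ℂ) - 1)⁻¹ * e τ) = 0 := by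
      rw [mul_add, ← mul_assoc, mul_inv_cancel₀ h2, one_mul]
      exact h1
    have h4 := (mul_eq_zero.1 h3).resolve_left h2
    linear_combination h4

lemma aJ_add (q : ℕ) (hq : 2 ≤ q) (w : Fin R → Fin N → ℕ) (e e' : Finset (Fin R) → ℂ)
    (J : Finset (Fin N)) (t : ℤ) :
    aJ q w (fun τ => e τ + e' τ) J t = aJ q w e J t + aJ q w e' J t := by
  classical
  unfold aJ
  rw [← (summable_aJ q hq w e J t).tsum_add (summable_aJ q hq w e' J t)]
  refine tsum_congr fun x => ?_
  by_cases hx : ∀ i, x i ≠ 0 ↔ i ∈ J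
  · rw [if_pos hx, if_pos hx, if_pos hx, ← mul_add]
    congr 1
    unfold Wt
    split_ifs
    · rfl
    · rw [add_zero]
  · rw [if_neg hx, if_neg hx, if_neg hx, add_zero]

/-- **The recurrence, from the solution and the rays through a bad apex.** -/
theorem recJ_split (hR : 0 < R) (q : ℕ) (hq : 2 ≤ q) (w : Fin R → Fin N → ℕ)
    (J : Finset (Fin N)) (e : Finset (Fin R) → ℂ) (Bd : Fin R → Prop)
    (h : ∀ i ∈ J, ∀ j0, w j0 i = 1 → ∀ τ : Finset (Fin R), (∀ j ∈ τ, w j i = 0) → ¬ Bd j0 →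
      ((q : ℂ) - 1) * e (insert j0 τ) + e τ = 0)
    (T0 : ℂ) (σ : ℚ) (hσ : Real.log ‖T0‖ / Real.log q = (σ : ℝ))
    (hrec : ∀ e' : Finset (Fin R) → ℂ, KRelJ q w J e' → RecJ q w e' J T0)
    (hray : ∀ k, Bd k → ∀ a : Fin N → ℕ, IsRay w a → 0 < gord w a → face w a k →
      (∀ i, i ∉ J → a i = 0) → ((∑ i, a i : ℕ) : ℚ) / gord w a ≠ σ) :
    RecJ q w e J T0 := by
  classical
  have h1 := hrec _ (krelJ_eKK hq w J e)
  have h2 : RecJ q w (fun τ => e τ - eKK q w J e τ) J T0 := by
    refine recJ_cone hR q hq w J _ (by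
      show e ∅ - eKK q w J e ∅ = 0
      rw [eKK_empty, sub_self]) T0 σ hσ ?_
    intro τ hτ a ha hg hf hJ
    have h3 : ∃ k ∈ τ, Bd k := by
      by_contra hcon
      push Not at hcon
      exact hτ (sub_eq_zero.2 (eKK_diff hq w J e Bd h τ hcon))
    obtain ⟨k, hk, hbk⟩ := h3
    exact hray k hbk a ha hg (hf k hk) hJ
  rw [recJ_iff] at h1 h2 ⊢
  have h3 : (PowerSeries.mk fun t : ℕ => aJ q w e J t) =
      (PowerSeries.mk fun t : ℕ => aJ q w (eKK q w J e) J t) +
        PowerSeries.mk fun t : ℕ => aJ q w (fun τ => e τ - eKK q w J e τ) J t := by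
    ext t
    rw [map_add, PowerSeries.coeff_mk, PowerSeries.coeff_mk, PowerSeries.coeff_mk,
      ← aJ_add q hq w]
    congr 1
    funext τ
    ring
  rw [h3]
  exact h1.add h2

/-- extreme points -/
lemma vert_ext {w : Fin R → Fin N → ℕ} (hV : Vert w) (k : Fin R) (c : Fin R → ℝ)
    (hc : ∀ j, 0 ≤ c j) (hc1 : ∑ j, c j = 1) (h : ∀ i, ∑ j, c j * (w j i : ℝ) ≤ (w k i : ℝ)) :
    ∀ j, j ≠ k → c j = 0 := by
  classical
  have hck : c k ≤ 1 := by
    rw [← hc1]
    exact Finset.single_le_sum (fun j _ => hc j) (Finset.mem_univ k)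
  have hone : c k = 1 := by
    by_contra hne
    have hlt : 0 < 1 - c k := by
      have := lt_of_le_of_ne hck hne
      linarith
    apply hV k
    refine ⟨fun j => if j = k then 0 else c j / (1 - c k), fun j => ?_, if_pos rfl, ?_,
      fun i => ?_⟩
    · dsimp only
      split_ifs
      · exact le_rfl
      · exact div_nonneg (hc j) hlt.le
    · have e1 : ∀ j, (if j = k then (0 : ℝ) else c j / (1 - c k)) =
          (c j - if j = k then c k else 0) / (1 - c k) := by
        intro j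
        split_ifs with hj
        · rw [hj, sub_self, zero_div]
        · rw [sub_zero]
      simp only [e1]
      rw [← Finset.sum_div, Finset.sum_sub_distrib, hc1, Finset.sum_ite_eq', if_pos
        (Finset.mem_univ k), div_self hlt.ne']
    · have e1 : ∀ j, (if j = k then (0 : ℝ) else c j / (1 - c k)) * (w j i : ℝ) =
          (c j * (w j i : ℝ) - if j = k then c k * (w k i : ℝ) else 0) / (1 - c k) := by
        intro j
        split_ifs with hj
        · rw [hj]
          ring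
        · ring
      simp only [e1]
      rw [← Finset.sum_div, Finset.sum_sub_distrib, Finset.sum_ite_eq', if_pos
        (Finset.mem_univ k), div_le_iff₀ hlt]
      have := h i
      linarith
  intro j hj
  have h1 := hc1
  rw [← Finset.add_sum_erase _ _ (Finset.mem_univ k), hone] at h1
  have h2 : ∑ x ∈ Finset.univ.erase k, c x = 0 := by linarith
  exact (Finset.sum_eq_zero_iff_of_nonneg fun x _ => hc x).1 h2 j
    (Finset.mem_erase.2 ⟨hj, Finset.mem_univ _⟩)

/-- a point of the convex hull over a vertex -/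
lemma over_vertex {r : ℕ} (u : Fin r → Fin N → ℕ) (w : Fin R → Fin N → ℕ) (hV : Vert w)
    (hcov : ∀ j, ∃ l : Fin R → ℝ, (∀ k, 0 ≤ l k) ∧ ∑ k, l k = 1 ∧
        ∀ i, ∑ k, l k * (w k i : ℝ) ≤ (u j i : ℝ)) (k : Fin R) (c : Fin r → ℝ)
    (hc : ∀ j, 0 ≤ c j) (hc1 : ∑ j, c j = 1) (h : ∀ i, ∑ j, c j * (u j i : ℝ) = (w k i : ℝ)) :
    ∀ j, c j ≠ 0 → u j = w k := by
  classical
  choose l hl0 hl1 hl2 using hcov
  set d : Fin R → ℝ := fun k' => ∑ j, c j * l j k' with hd
  have hd0 : ∀ k', 0 ≤ d k' := fun k' => Finset.sum_nonneg fun j _ => mul_nonneg (hc j) (hl0 j k')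
  have hd1 : ∑ k', d k' = 1 := by
    rw [hd]
    simp only
    rw [Finset.sum_comm]
    simp only [← Finset.mul_sum, hl1, mul_one]
    exact hc1
  have hd2 : ∀ i, ∑ k', d k' * (w k' i : ℝ) ≤ (w k i : ℝ) := by
    intro i
    rw [← h i, hd]
    simp only [Finset.sum_mul]
    rw [Finset.sum_comm]
    refine Finset.sum_le_sum fun j _ => ?_
    have e1 : ∑ k', c j * l j k' * (w k' i : ℝ) = c j * ∑ k', l j k' * (w k' i : ℝ) := by
      rw [Finset.mul_sum]
      exact Finset.sum_congr rfl fun k' _ => by ring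
    rw [e1]
    exact mul_le_mul_of_nonneg_left (hl2 j i) (hc j)
  have h0 := vert_ext hV k d hd0 hd1 hd2
  -- the exponents with positive coefficient are above `w k`
  have hge : ∀ j, c j ≠ 0 → ∀ i, (w k i : ℝ) ≤ (u j i : ℝ) := by
    intro j hj i
    have hcj : 0 < c j := lt_of_le_of_ne (hc j) (Ne.symm hj)
    have h1 : ∀ k', k' ≠ k → l j k' = 0 := by
      intro k' hk'
      have h2 := h0 k' hk'
      have h3 := (Finset.sum_eq_zero_iff_of_nonneg fun j _ => mul_nonneg (hc j) (hl0 j k')).1 h2 j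
        (Finset.mem_univ j)
      exact (mul_eq_zero.1 h3).resolve_left hj
    have h2 : l j k = 1 := by
      rw [← hl1 j, Finset.sum_eq_single k (fun k' _ hk' => h1 k' hk') (by simp)]
    have h3 := hl2 j i
    rw [Finset.sum_eq_single k (fun k' _ hk' => by rw [h1 k' hk', zero_mul]) (by simp), h2,
      one_mul] at h3
    exact h3
  intro j hj
  funext i
  have hcj : 0 < c j := lt_of_le_of_ne (hc j) (Ne.symm hj)
  have h1 : ∑ j', c j' * ((u j' i : ℝ) - (w k i : ℝ)) = 0 := by
    simp only [mul_sub]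
    rw [Finset.sum_sub_distrib, h i, ← Finset.sum_mul, hc1, one_mul, sub_self]
  have h2 := (Finset.sum_eq_zero_iff_of_nonneg (s := Finset.univ) fun j' _ => by
    by_cases hj' : c j' = 0
    · rw [hj', zero_mul]
    · exact mul_nonneg (hc j') (sub_nonneg.2 (hge j' hj' i))).1 h1 j (Finset.mem_univ j)
  have h3 := (mul_eq_zero.1 h2).resolve_left hj
  have h4 : (u j i : ℝ) = (w k i : ℝ) := by linarith
  exact_mod_cast h4

end Pool.Agent.TH216.G3
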