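import Pool.Agent.TH216.G3.S5

set_option autoImplicit false

/-! The recurrences for the points with at most two coordinates. -/

namespace Pool.Agent.TH216.G3

open MvPolynomial Pool.Agent.H628R4.TP Pool.Agent.W425.SV Pool.Agent.W425.MM
open Pool.Agent.W425.GN
open Pool.Agent.W426.SM (gord ford IsRay face)
open Pool.Agent.W803.SM (gord_le exists_gord)
open Pool.Agent.TH216.MF
open Pool.Agent.TH216.LX (Vert InN gord_np aJ_phiN vert2)
open Pool.Agent.TH216.ID (YOK recJ_genY)

variable {r N R : ℕ}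

lemma yok_empty (v : Fin r → Fin N → ℕ) : YOK v ∅ :=
  ⟨fun i hi => absurd hi (Finset.notMem_empty i), fun i hi => absurd hi (Finset.notMem_empty i)⟩

/-- no pair of bad apices of the first order -/
def NoSp (v : Fin r → Fin N → ℕ) : Prop :=
  ∀ i k : Fin N, i ≠ k → (∀ j, v j i ≠ 0 ∨ v j k ≠ 0) →
    (∃ α β, α ≠ β ∧ v α i = 1 ∧ v α k = 0 ∧ v β i = 1 ∧ v β k = 0) →
    (∃ γ δ, γ ≠ δ ∧ v γ i = 0 ∧ v γ k = 1 ∧ v δ i = 0 ∧ v δ k = 1) → False

lemma cov_inN {J : Finset (Fin N)} {R0 : ℕ} {m : Fin R0 → Fin N → ℕ} {w : Fin R → Fin N → ℕ}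
    (hw0 : ∀ i, i ∉ J → ∀ k, w k i = 0) (x : Fin R0)
    (h : ∃ l : Fin R → ℝ, (∀ k, 0 ≤ l k) ∧ ∑ k, l k = 1 ∧
        ∀ i, ∑ k, l k * (w k i : ℝ) ≤ (zf J m x i : ℝ)) : InN w J (zf J m x) := by
  obtain ⟨l, h1, h2, h3⟩ := h
  refine ⟨l, h1, h2, h3, fun i hi => ?_⟩
  rw [zf_out hi]
  simp only [hw0 i hi]
  simp

lemma gord_zf (J : Finset (Fin N)) (v : Fin r → Fin N → ℕ) (a : Fin N → ℕ)
    (ha : ∀ i, i ∉ J → a i = 0) : gord (zf J v) a = gord v a := by
  unfold gord
  congr 1
  funext j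
  exact zf_sum J v j a ha

/-- the root from a ray through a bad apex -/
theorem bad_ray [NeZero r] {F : Type} [Field F] (v : Fin r → Fin N → ℕ)
    (hv : Function.Injective v) (hv0 : ∀ j, v j ≠ 0) (h : MvPolynomial (Fin N) F)
    (hh : ∀ w ∈ h.support, NP v w) (J : Finset (Fin N)) (hJ : J.card ≤ 2) (ι : Fin R → Fin r)
    (w : Fin R → Fin N → ℕ) (hw : ∀ k, zf J v (ι k) = w k) (hR : 0 < R)
    (hcov : ∀ j, ∃ l : Fin R → ℝ, (∀ k, 0 ≤ l k) ∧ ∑ k, l k = 1 ∧
        ∀ i, ∑ k, l k * (w k i : ℝ) ≤ (zf J v j i : ℝ))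
    (hns : ¬ ∃ (k0 k1 : Fin R) (i k : Fin N), i ∈ J ∧ k ∈ J ∧ i ≠ k ∧ w k0 i = 1 ∧ w k0 k = 0 ∧
      w k1 i = 0 ∧ w k1 k = 1)
    (k : Fin R) (β : Fin r) (hβ : zf J v β = w k) (hne : β ≠ ι k) (i : Fin N) (hi : i ∈ J)
    (hki : w k i = 1) (a : Fin N → ℕ) (ha : IsRay w a) (hg : 0 < gord w a) (hf : face w a k)
    (haJ : ∀ i, i ∉ J → a i = 0) :
    ∑ i, a i = gord w a ∨ HP v h (-(((∑ i, a i : ℕ) : ℚ) / gord w a)) 0 := by
  classical
  have hr : 0 < r := Nat.pos_of_ne_zero (NeZero.ne r)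
  have hw0 : ∀ i, i ∉ J → ∀ k, w k i = 0 := fun i hi k => by rw [← hw k, zf_out hi]
  have hgv : gord v a = gord w a := by
    rw [← gord_zf J v a haJ]
    exact gord_np (zf J v) w J hr hR (fun k => ⟨ι k, hw k⟩)
      (fun j => cov_inN hw0 j (hcov j)) a
  have hfv : ∀ k', face w a k' → face v a (ι k') := by
    intro k' hk'
    have h1 := zf_sum J v (ι k') a haJ
    rw [hw k'] at h1
    show ∑ i, a i * v (ι k') i = gord v a
    rw [← h1, hgv]
    exact hk'
  have hfβ : face v a β := by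
    have h1 := zf_sum J v β a haJ
    rw [hβ] at h1
    show ∑ i, a i * v β i = gord v a
    rw [← h1, hgv]
    exact hf
  have hiv : ∀ i' ∈ J, ∀ k', v (ι k') i' = w k' i' := fun i' hi' k' => by
    rw [← hw k', zf_in hi']
  have hiβ : ∀ i' ∈ J, v β i' = w k i' := fun i' hi' => by
    rw [← hβ, zf_in hi']
  rw [← hgv] at hg ⊢
  by_cases h2 : ∃ i' k', i' ≠ k' ∧ a i' ≠ 0 ∧ a k' ≠ 0
  · -- two coordinates
    obtain ⟨x, y, hxy, hax, hay⟩ := h2
    have hxJ : x ∈ J := by
      by_contra hcon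
      exact hax (haJ x hcon)
    have hyJ : y ∈ J := by
      by_contra hcon
      exact hay (haJ y hcon)
    have hJe : J = {x, y} := by
      symm
      apply Finset.eq_of_subset_of_card_le
      · intro z hz
        rw [Finset.mem_insert, Finset.mem_singleton] at hz
        rcases hz with rfl | rfl
        · exact hxJ
        · exact hyJ
      · rw [Finset.card_pair hxy]
        exact hJ
    obtain ⟨z, hzi, hzJ, hJ2, hai, haz⟩ : ∃ z, i ≠ z ∧ z ∈ J ∧ (∀ t ∈ J, t = i ∨ t = z) ∧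
        a i ≠ 0 ∧ a z ≠ 0 := by
      have h3 := hi
      rw [hJe, Finset.mem_insert, Finset.mem_singleton] at h3
      rcases h3 with rfl | rfl
      · refine ⟨y, hxy, hyJ, fun t ht => ?_, hax, hay⟩
        rw [hJe, Finset.mem_insert, Finset.mem_singleton] at ht
        exact ht
      · refine ⟨x, hxy.symm, hxJ, fun t ht => ?_, hay, hax⟩
        rw [hJe, Finset.mem_insert, Finset.mem_singleton] at ht
        exact ht.symm
    have hsupp : ∀ t, t ≠ i → t ≠ z → a t = 0 := by
      intro t h3 h4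
      refine haJ t fun h5 => ?_
      rcases hJ2 t h5 with h6 | h6
      · exact h3 h6
      · exact h4 h6
    -- another vertex on the facet
    obtain ⟨k1, hk1f, hk1⟩ : ∃ k1, face w a k1 ∧ w k1 ≠ w k := by
      by_contra hcon
      push Not at hcon
      obtain ⟨t, ht⟩ := ha.2 (fun t => if t = i then 1 else 0) (fun t h3 => by
        rw [if_neg]
        rintro rfl
        exact hai h3) (fun j j' hj hj' => by
        rw [hcon j hj, hcon j' hj'])
      have h3 := ht z
      rw [if_neg hzi.symm] at h3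
      have h4 : (a z : ℚ) ≠ 0 := by exact_mod_cast haz
      have h5 : t = 0 := (mul_eq_zero.1 h3.symm).resolve_right h4
      have h6 := ht i
      rw [if_pos rfl, h5, zero_mul] at h6
      exact one_ne_zero h6
    right
    refine ray_root2 v hv hv0 h hh a hg i z hzi hsupp hai haz (ι k) β (ι k1) hne.symm
      (hfv k hf) hfβ (hfv k1 hk1f) (by rw [hiv i hi, hki]) (by rw [hiβ i hi, hki]) ?_ ?_
    · by_contra hcon
      push Not at hcon
      apply hk1
      funext t
      by_cases ht : t ∈ J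
      · rcases hJ2 t ht with rfl | rfl
        · rw [← hiv t ht, ← hiv t ht]
          exact hcon.1
        · rw [← hiv t ht, ← hiv t ht]
          exact hcon.2
      · rw [hw0 t ht, hw0 t ht]
    · rintro ⟨h3, h4, h5⟩
      apply hns
      refine ⟨k, k1, i, z, hi, hzJ, hzi, hki, ?_, ?_, ?_⟩
      · rw [← hiv z hzJ]
        exact h3
      · rw [← hiv i hi]
        exact h4
      · rw [← hiv z hzJ]
        exact h5
  · -- one coordinate
    push Not at h2
    obtain ⟨i0, hi0⟩ : ∃ i0, a i0 ≠ 0 := by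
      by_contra hcon
      push Not at hcon
      exact ha.1 (funext hcon)
    refine ray_root1 v hv hv0 h hh a hg i0 fun t => ⟨fun ht => ?_, fun ht => ht ▸ hi0⟩
    by_contra hne
    exact ht (h2 i0 t (Ne.symm hne) hi0)

/-- the fibres over the vertices -/
lemma fibre {R0 : ℕ} (v : Fin r → Fin N → ℕ) (m : Fin R0 → Fin N → ℕ)
    (hm : Function.Injective m) (hmv : ∀ j, ∃ x, m x = v j)
    (hull : ∀ x, InC v Finset.univ (m x)) (J : Finset (Fin N)) (ι : Fin R → Fin r)
    (w : Fin R → Fin N → ℕ) (hV : Vert w)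
    (hcov : ∀ j, ∃ l : Fin R → ℝ, (∀ k, 0 ≤ l k) ∧ ∑ k, l k = 1 ∧
        ∀ i, ∑ k, l k * (w k i : ℝ) ≤ (zf J v j i : ℝ))
    (k : Fin R) (x y : Fin R0) (hxy : x ≠ y) (hx : zf J m x = w k) (hy : zf J m y = w k) :
    ∃ β, β ≠ ι k ∧ zf J v β = w k := by
  classical
  obtain ⟨x0, hx0⟩ := hmv (ι k)
  obtain ⟨z, hz, hzk⟩ : ∃ z, z ≠ x0 ∧ zf J m z = w k := by
    by_cases h1 : x = x0
    · exact ⟨y, fun h2 => hxy (h1.trans h2.symm), hy⟩
    · exact ⟨x, h1, hx⟩
  obtain ⟨c, h1, -, h3, h4⟩ := hull z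
  have h5 := over_vertex (zf J v) w hV hcov k c h1 h3 (fun i => by
    rw [← hzk]
    by_cases hi : i ∈ J
    · simp only [zf_in hi]
      exact h4 i
    · simp only [zf_out hi]
      simp)
  by_contra hcon
  push Not at hcon
  have h6 : ∀ j, j ≠ ι k → c j = 0 := by
    intro j hj
    by_contra h7
    exact hcon j hj (h5 j h7)
  apply hz
  apply hm
  rw [hx0]
  funext i
  have h7 := h4 i
  rw [Finset.sum_eq_single (ι k) (fun j _ hj => by rw [h6 j hj, zero_mul]) (by simp)] at h7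
  have h8 : c (ι k) = 1 := by
    rw [← h3, Finset.sum_eq_single (ι k) (fun j _ hj => h6 j hj) (by simp)]
  rw [h8, one_mul] at h7
  exact_mod_cast h7.symm

/-- two vertices of the first order: the coefficients vanish -/
theorem recJ_special (q : ℕ) (hq : 2 ≤ q) (w : Fin R → Fin N → ℕ) (J : Finset (Fin N))
    (e : Finset (Fin R) → ℂ) (T0 : ℂ) (k0 k1 : Fin R) (i k : Fin N) (hik : i ≠ k)
    (hJ2 : ∀ t ∈ J, t = i ∨ t = k) (hw0 : ∀ i, i ∉ J → ∀ k, w k i = 0) (h0i : w k0 i = 1)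
    (h0k : w k0 k = 0) (h1i : w k1 i = 0) (h1k : w k1 k = 1) (hall : ∀ j, j = k0 ∨ j = k1)
    (he : ((q : ℂ) - 1) ^ 2 * e {k0, k1} + ((q : ℂ) - 1) * (e {k0} + e {k1}) + e ∅ = 0) :
    RecJ q w e J T0 := by
  classical
  have h01 : k0 ≠ k1 := by
    rintro rfl
    omega
  have huniv : (Finset.univ : Finset (Fin R)) = {k0, k1} := by
    ext j
    simp [hall j]
  have hqc : (q : ℂ) ≠ 0 := q_ne hq
  have hK : ∀ (x : Fin R) (B : Fin N) (hx : ∀ t, t ≠ B → w x t = 0),
      Kil1 w (fun _ => 0) {B} := by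
    intro x B hx
    refine ⟨fun j => if j = x then 1 else 0, fun j => ?_, ?_, fun t ht => ?_⟩
    · dsimp only
      split_ifs <;> norm_num
    · simp
    · have ht' : t ≠ B := fun h => ht (Finset.mem_singleton.2 h)
      simp only [Int.cast_zero, zero_add, ite_mul, one_mul, zero_mul, Finset.sum_ite_eq',
        Finset.mem_univ, if_true]
      rw [hx t ht']
      simp
  have hI : ∀ (x : Fin R) (B : Fin N), (∀ t, t ≠ B → w x t = 0) → elm q w B ∈ I1 q w := by
    intro x B hx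
    refine Ideal.subset_span ⟨fun _ => 0, {B}, hK x B hx, ?_⟩
    simp
  have ht0 : ∀ t, t ≠ i → w k0 t = 0 := by
    intro t ht
    by_cases htJ : t ∈ J
    · rcases hJ2 t htJ with h1 | h1
      · exact absurd h1 ht
      · rw [h1]
        exact h0k
    · exact hw0 t htJ k0
  have ht1 : ∀ t, t ≠ k → w k1 t = 0 := by
    intro t ht
    by_cases htJ : t ∈ J
    · rcases hJ2 t htJ with h1 | h1
      · rw [h1]
        exact h1i
      · exact absurd h1 ht
    · exact hw0 t htJ k1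
  have hei : elm q w i = 1 - C ((q : ℂ)⁻¹) * X k0 := by
    unfold elm
    rw [huniv, Finset.prod_pair h01, h0i, h1i]
    simp
  have hek : elm q w k = 1 - C ((q : ℂ)⁻¹) * X k1 := by
    unfold elm
    rw [huniv, Finset.prod_pair h01, h0k, h1k]
    simp
  have hX0 : (X k0 - C (q : ℂ) : MvPolynomial (Fin R) ℂ) ∈ I1 q w := by
    have h1 := Ideal.mul_mem_left _ (-C (q : ℂ)) (hI k0 i ht0)
    rw [hei] at h1
    have h2 : -C (q : ℂ) * (1 - C ((q : ℂ)⁻¹) * X k0) =
        (X k0 - C (q : ℂ) : MvPolynomial (Fin R) ℂ) := by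
      have h3 : (C (q : ℂ) * C ((q : ℂ)⁻¹) : MvPolynomial (Fin R) ℂ) = 1 := by
        rw [← C_mul, mul_inv_cancel₀ hqc, C_1]
      linear_combination (X k0) * h3
    rwa [h2] at h1
  have hX1 : (X k1 - C (q : ℂ) : MvPolynomial (Fin R) ℂ) ∈ I1 q w := by
    have h1 := Ideal.mul_mem_left _ (-C (q : ℂ)) (hI k1 k ht1)
    rw [hek] at h1
    have h2 : -C (q : ℂ) * (1 - C ((q : ℂ)⁻¹) * X k1) =
        (X k1 - C (q : ℂ) : MvPolynomial (Fin R) ℂ) := by
      have h3 : (C (q : ℂ) * C ((q : ℂ)⁻¹) : MvPolynomial (Fin R) ℂ) = 1 := by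
        rw [← C_mul, mul_inv_cancel₀ hqc, C_1]
      linear_combination (X k1) * h3
    rwa [h2] at h1
  have hkE : kE e = C (e ∅) + C (e {k0}) * (X k0 - 1) + C (e {k1}) * (X k1 - 1) +
      C (e {k0, k1}) * ((X k0 - 1) * (X k1 - 1)) := by
    unfold kE
    have h1 : (Finset.univ : Finset (Finset (Fin R))) = ({k0, k1} : Finset (Fin R)).powerset := by
      rw [← huniv, Finset.powerset_univ]
    have h2 : k0 ∉ ({k1} : Finset (Fin R)) := by
      rw [Finset.mem_singleton]
      exact h01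
    rw [h1, Finset.sum_powerset_insert h2]
    have h3 : (({k1} : Finset (Fin R)).powerset) = {∅, {k1}} := by
      ext s
      simp [Finset.subset_singleton_iff]
    rw [h3, Finset.sum_pair (Finset.singleton_ne_empty k1).symm,
      Finset.sum_pair (Finset.singleton_ne_empty k1).symm, Finset.prod_empty,
      Finset.prod_singleton, Finset.prod_insert h2, Finset.prod_singleton]
    have h4 : insert k0 (∅ : Finset (Fin R)) = {k0} := rfl
    rw [h4, Finset.prod_singleton]
    ring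
  have hmem : kE e ∈ I1 q w := by
    have e1 : kE e = (X k0 - C (q : ℂ)) * (C (e {k0}) + C (e {k0, k1}) * (X k1 - 1)) +
        (X k1 - C (q : ℂ)) * (C (e {k1}) + C (e {k0, k1}) * (C (q : ℂ) - 1)) := by
      rw [hkE]
      have h3 := congrArg (C : ℂ → MvPolynomial (Fin R) ℂ) he
      simp only [map_add, map_mul, map_pow, map_sub, map_one, map_zero] at h3
      linear_combination h3
    rw [e1]
    exact (I1 q w).add_mem (Ideal.mul_mem_right _ _ hX0) (Ideal.mul_mem_right _ _ hX1)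
  refine ⟨1, by simp, rec_aJ q hq w e J 1 ?_⟩
  have h1 := Z.of_I1 hq hmem (wJ q w J)
  rw [map_one, one_mul, mul_comm]
  exact h1

/-- **The recurrences for the points with at most two coordinates.** -/
theorem recJ_plane [NeZero r] {F : Type} [Field F] (v : Fin r → Fin N → ℕ)
    (hv : Function.Injective v) (hv0 : ∀ j, v j ≠ 0) (h : MvPolynomial (Fin N) F)
    (hh : ∀ w ∈ h.support, NP v w) {R0 : ℕ} (m : Fin R0 → Fin N → ℕ)
    (hm : Function.Injective m) (hmv : ∀ j, ∃ x, m x = v j)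
    (hull : ∀ x, InC v Finset.univ (m x)) (hns : NoSp v) (J : Finset (Fin N)) (hJ : J.card ≤ 2)
    (q : ℕ) (hq : 2 ≤ q) (e : Finset (Fin R0) → ℂ) (he : KRelJ q m J e) (T0 : ℂ) (hT0 : T0 ≠ 0)
    (σ : ℚ) (hσ1 : σ ≠ 1) (hσ : ¬ HP v h (-σ) 0)
    (hlog : Real.log ‖T0‖ / Real.log q = (σ : ℝ)) : RecJ q m e J T0 := by
  classical
  have hr : 0 < r := Nat.pos_of_ne_zero (NeZero.ne r)
  obtain ⟨R, ι, hR, hι, hV, hcov⟩ := exists_sub hr (zf J v)
  set w : Fin R → Fin N → ℕ := fun k => zf J v (ι k) with hw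
  have hwι : ∀ k, zf J v (ι k) = w k := fun k => rfl
  have hw0 : ∀ i, i ∉ J → ∀ k, w k i = 0 := fun i hi k => by rw [← hwι k, zf_out hi]
  have hR0 : 0 < R0 := by
    obtain ⟨x, -⟩ := hmv ⟨0, hr⟩
    exact Fin.pos x
  have hcovm : ∀ x, ∃ l : Fin R → ℝ, (∀ k, 0 ≤ l k) ∧ ∑ k, l k = 1 ∧
        ∀ i, ∑ k, l k * (w k i : ℝ) ≤ (zf J m x i : ℝ) := by
    intro x
    obtain ⟨c, h1, -, h3, h4⟩ := hull x
    choose l hl0 hl1 hl2 using hcov
    refine ⟨fun k => ∑ j, c j * l j k, fun k => Finset.sum_nonneg fun j _ =>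
      mul_nonneg (h1 j) (hl0 j k), ?_, fun i => ?_⟩
    · rw [Finset.sum_comm]
      simp only [← Finset.mul_sum, hl1, mul_one]
      exact h3
    · simp only [Finset.sum_mul]
      rw [Finset.sum_comm]
      have e0 : (zf J m x i : ℝ) = ∑ j, c j * (zf J v j i : ℝ) := by
        by_cases hi : i ∈ J
        · simp only [zf_in hi]
          exact (h4 i).symm
        · simp only [zf_out hi]
          simp
      rw [e0]
      refine Finset.sum_le_sum fun j _ => ?_
      have e1 : ∑ k', c j * l j k' * (w k' i : ℝ) = c j * ∑ k', l j k' * (w k' i : ℝ) := by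
        rw [Finset.mul_sum]
        exact Finset.sum_congr rfl fun k' _ => by ring
      rw [e1]
      exact mul_le_mul_of_nonneg_left (hl2 j i) (h1 j)
  have hN : ∀ x, InN w J (zf J m x) := fun x => cov_inN hw0 x (hcovm x)
  have hma : ∀ k, ∃ x, zf J m x = w k := by
    intro k
    obtain ⟨x, hx⟩ := hmv (ι k)
    refine ⟨x, ?_⟩
    rw [← hwι k]
    funext i
    by_cases hi : i ∈ J
    · rw [zf_in hi, zf_in hi, hx]
    · rw [zf_out hi, zf_out hi]
  have he0 := krelJ_zf he
  set e' : Finset (Fin R) → ℂ := fun τ => e (PhiC (zf J m) w τ) with he'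
  have haJ : ∀ t : ℤ, aJ q w e' J t = aJ q m e J t := by
    intro t
    rw [← aJ_zf q m e J t]
    exact aJ_phiN (zf J m) w J hR0 hR hma hN q e t
  suffices hmain : RecJ q w e' J T0 by
    obtain ⟨Q, hQ, hrec⟩ := hmain
    refine ⟨Q, hQ, ?_⟩
    filter_upwards [hrec] with t ht
    rw [← ht]
    exact Finset.sum_congr rfl fun m _ => by rw [haJ]
  -- the good apices
  have hgood : ∀ i ∈ J, ∀ j0, w j0 i = 1 → ∀ τ : Finset (Fin R), (∀ j ∈ τ, w j i = 0) →
      ¬ (∃ x y, x ≠ y ∧ zf J m x = w j0 ∧ zf J m y = w j0) →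
      ((q : ℂ) - 1) * e' (insert j0 τ) + e' τ = 0 := by
    intro i hi j0 hj0 τ hτ hbad
    obtain ⟨k0, hk0⟩ := hma j0
    refine good_rel (zf J m) w q J e he0 i hi j0 τ hj0 hτ k0 hk0 fun x hx => ?_
    by_contra hne
    exact hbad ⟨x, k0, hne, hx, hk0⟩
  by_cases hsp : ∃ (k0 k1 : Fin R) (i k : Fin N), i ∈ J ∧ k ∈ J ∧ i ≠ k ∧ w k0 i = 1 ∧
      w k0 k = 0 ∧ w k1 i = 0 ∧ w k1 k = 1
  · -- the special pair
    obtain ⟨k0, k1, i, k, hi, hk, hik, h0i, h0k, h1i, h1k⟩ := hsp
    have hJe : J = {i, k} := by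
      symm
      apply Finset.eq_of_subset_of_card_le
      · intro z hz
        rw [Finset.mem_insert, Finset.mem_singleton] at hz
        rcases hz with rfl | rfl
        · exact hi
        · exact hk
      · rw [Finset.card_pair hik]
        exact hJ
    have hJ2 : ∀ t ∈ J, t = i ∨ t = k := by
      intro t ht
      rw [hJe, Finset.mem_insert, Finset.mem_singleton] at ht
      exact ht
    have hle : ∀ x y : Fin R, w x i ≤ w y i → w x k ≤ w y k → y = x := by
      intro x y h1 h2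
      by_contra hne
      refine vert2 hV hne fun t => ?_
      show w x t ≤ w y t
      by_cases ht : t ∈ J
      · rcases hJ2 t ht with rfl | rfl
        · exact h1
        · exact h2
      · rw [hw0 t ht]
        exact Nat.zero_le _
    have hall : ∀ j, j = k0 ∨ j = k1 := by
      intro j
      by_cases h1 : w j i = 0
      · by_cases h2 : w j k = 0
        · left
          exact (hle j k0 (by omega) (by omega)).symm
        · right
          exact hle k1 j (by omega) (by omega)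
      · left
        exact hle k0 j (by omega) (by omega)
    refine recJ_special q hq w J e' T0 k0 k1 i k hik hJ2 hw0 h0i h0k h1i h1k hall ?_
    have h01 : k0 ≠ k1 := by
      rintro rfl
      omega
    by_cases hb1 : ∃ x y, x ≠ y ∧ zf J m x = w k1 ∧ zf J m y = w k1
    · by_cases hb0 : ∃ x y, x ≠ y ∧ zf J m x = w k0 ∧ zf J m y = w k0
      · exfalso
        obtain ⟨x, y, hxy, hx, hy⟩ := hb0
        obtain ⟨x', y', hxy', hx', hy'⟩ := hb1
        obtain ⟨β, hβ, hβk⟩ := fibre v m hm hmv hull J ι w hV hcov k0 x y hxy hx hy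
        obtain ⟨δ, hδ, hδk⟩ := fibre v m hm hmv hull J ι w hV hcov k1 x' y' hxy' hx' hy'
        have e1 : ∀ t ∈ J, ∀ k', v (ι k') t = w k' t := fun t ht k' => by
          rw [← hwι k', zf_in ht]
        have e2 : ∀ t ∈ J, v β t = w k0 t := fun t ht => by rw [← hβk, zf_in ht]
        have e3 : ∀ t ∈ J, v δ t = w k1 t := fun t ht => by rw [← hδk, zf_in ht]
        refine hns i k hik (fun j => ?_) ⟨ι k0, β, hβ.symm, ?_, ?_, ?_, ?_⟩
          ⟨ι k1, δ, hδ.symm, ?_, ?_, ?_, ?_⟩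
        · by_contra hcon
          push Not at hcon
          obtain ⟨l, hl0, hl1, hl2⟩ := hcov j
          have h3 := hl2 i
          have h4 := hl2 k
          rw [zf_in hi, hcon.1] at h3
          rw [zf_in hk, hcon.2] at h4
          have h5 : ∑ x, l x * (w x i : ℝ) + ∑ x, l x * (w x k : ℝ) = 1 := by
            rw [← Finset.sum_add_distrib, ← hl1]
            refine Finset.sum_congr rfl fun x _ => ?_
            rcases hall x with rfl | rfl
            · rw [h0i, h0k]
              simp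
            · rw [h1i, h1k]
              simp
          push_cast at h3 h4
          have h3' : ∑ x, l x * (w x i : ℝ) ≤ 0 := h3
          have h4' : ∑ x, l x * (w x k : ℝ) ≤ 0 := h4
          linarith
        · rw [e1 i hi, h0i]
        · rw [e1 k hk, h0k]
        · rw [e2 i hi, h0i]
        · rw [e2 k hk, h0k]
        · rw [e1 i hi, h1i]
        · rw [e1 k hk, h1k]
        · rw [e3 i hi, h1i]
        · rw [e3 k hk, h1k]
      · have h1 := hgood i hi k0 h0i ∅ (fun j hj => absurd hj (Finset.notMem_empty j)) hb0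
        have h2 := hgood i hi k0 h0i {k1} (fun j hj => by
          rw [Finset.mem_singleton.1 hj]
          exact h1i) hb0
        have h3 : insert k0 (∅ : Finset (Fin R)) = {k0} := rfl
        rw [h3] at h1
        linear_combination ((q : ℂ) - 1) * h2 + h1
    · have h1 := hgood k hk k1 h1k ∅ (fun j hj => absurd hj (Finset.notMem_empty j)) hb1
      have h2 := hgood k hk k1 h1k {k0} (fun j hj => by
        rw [Finset.mem_singleton.1 hj]
        exact h0k) hb1
      have h3 : insert k1 (∅ : Finset (Fin R)) = {k1} := rfl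
      rw [h3] at h1
      rw [Finset.pair_comm k1 k0] at h2
      linear_combination ((q : ℂ) - 1) * h2 + h1
  · -- no special pair
    obtain ⟨θ, p, hrel, hp⟩ := rel_sub v hv hv0 h hh (-σ) hσ J w ι hι hwι hcov
    have h1 : ((-Real.log ‖T0‖ / Real.log q : ℝ) : ℂ) = ((-σ : ℚ) : ℂ) := by
      rw [neg_div, hlog]
      push_cast
      rfl
    refine recJ_split hR q hq w J e'
      (fun k => (∃ i ∈ J, w k i = 1) ∧ ∃ x y, x ≠ y ∧ zf J m x = w k ∧ zf J m y = w k)
      (fun i hi j0 hj0 τ hτ hbad => hgood i hi j0 hj0 τ hτ fun h2 => hbad ⟨⟨i, hi, hj0⟩, h2⟩)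
      T0 σ hlog (fun e'' he'' => recJ_genY q hq w ∅ (yok_empty w) p θ hrel J e'' he'' T0 hT0
        (by rw [h1]; exact hp) (by rw [hlog]; exact hypSY_two hR w hV J hJ hw0 σ)) ?_
    rintro k ⟨⟨i, hi, hki⟩, x, y, hxy, hx, hy⟩ a ha hg hf haJ' hlev
    obtain ⟨β, hβ, hβk⟩ := fibre v m hm hmv hull J ι w hV hcov k x y hxy hx hy
    rcases bad_ray v hv hv0 h hh J hJ ι w hwι hR hcov hsp k β hβk hβ i hi hki a ha hg hf haJ'
      with h2 | h2
    · apply hσ1
      rw [← hlev, h2]
      exact div_self (by exact_mod_cast hg.ne')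
    · rw [hlev] at h2
      exact hσ h2

end Pool.Agent.TH216.G3
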