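import Pool.Agent.TH216.G3.S6
import Pool.Agent.TH216.LX.Lx3

set_option autoImplicit false

/-! The recurrences for the points with all coordinates, at most three variables. -/

namespace Pool.Agent.TH216.G3

open MvPolynomial Pool.Agent.H628R4.TP Pool.Agent.W425.SV Pool.Agent.W425.MM
open Pool.Agent.W425.GN
open Pool.Agent.W426.SM (gord ford IsRay face)
open Pool.Agent.W803.SM (gord_le exists_gord)
open Pool.Agent.TH216.MF
open Pool.Agent.TH216.LX (Vert InN gord_np aJ_phiN vert2 Circ circ_root atMost3 NegI LocL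
  hypSY_of_locL)
open Pool.Agent.TH216.ID (YOK recJ_genY)
open Pool.Agent.W425.BF (hp_nonB)

variable {r N R : ℕ}

lemma relV_true {v : Fin r → Fin N → ℕ} {θ : Fin r → ℝ} {p : Polynomial ℂ}
    (h : RelV v θ False p) : RelV v θ True p := by
  obtain ⟨M, n, n0, c, B, q, c0, q0, hc, hc0, hrel⟩ := h
  refine ⟨M, n, n0, c, B, q, c0, q0, hc, fun k => ?_, hrel⟩
  rcases hc0 k with h1 | ⟨h1, -⟩
  · exact Or.inl h1
  · exact absurd h1 id

/-- the roots from circuits -/
theorem hp_circ [NeZero r] {F : Type} [Field F] (v : Fin r → Fin N → ℕ)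
    (hv : Function.Injective v) (hv0 : ∀ j, v j ≠ 0) (h : MvPolynomial (Fin N) F)
    (hh : ∀ w ∈ h.support, NP v w) (u : Fin N → ℕ) (hgu : 0 < gord v u) (hu : Circ v u) :
    HP v h (-(((∑ i, u i : ℕ) : ℚ) / gord v u)) 0 := by
  by_contra hcon
  obtain ⟨B, hB, hrel⟩ := rel_all v hv hv0 h hh _ hcon
  obtain ⟨θ, hθ, hR⟩ := circ_root v u hgu hu
  apply hB
  rw [← hR B (relV_true (hrel θ hθ))]
  congr 1
  push_cast
  ring

/-- transfer of the condition -/
lemma nonB_sub (v : Fin r → Fin N → ℕ) (w : Fin R → Fin N → ℕ) (ι : Fin R → Fin r)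
    (hι : Function.Injective ι) (hw : ∀ k, v (ι k) = w k) (a : Fin N → ℕ)
    (hg : gord v a = gord w a) (h : NonB w True a) : NonB v False a := by
  classical
  obtain ⟨J, h1, h2, h3, h4, -⟩ := h
  have hmem : ∀ k, ι k ∈ J.map ⟨ι, hι⟩ ↔ k ∈ J := fun k => by
    rw [Finset.mem_map]
    constructor
    · rintro ⟨k', hk', h5⟩
      have : k' = k := hι h5
      rwa [← this]
    · intro hk
      exact ⟨k, hk, rfl⟩
  refine nonB_ofF v a (J.map ⟨ι, hι⟩) (by rw [Finset.card_map, h1]) ?_ ?_ ?_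
  · intro j hj
    obtain ⟨k, hk, rfl⟩ := Finset.mem_map.1 hj
    show ∑ i, a i * v (ι k) i = gord v a
    rw [hg, hw]
    exact h2 k hk
  · intro c hc hc2
    rw [Fintype.linearIndependent_iff] at h3
    have h5 := h3 (fun k => c (ι k.1)) (by
      funext ⟨i, hi⟩
      rw [Finset.sum_apply]
      simp only [Pi.smul_apply, smul_eq_mul, Pi.zero_apply]
      rw [Finset.sum_coe_sort J (fun k => c (ι k) * (w k i : ℚ))]
      have h6 := hc2 i hi
      rw [← Finset.sum_subset (Finset.subset_univ (J.map ⟨ι, hι⟩)) fun j _ hj => by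
        rw [hc j hj, zero_mul], Finset.sum_map] at h6
      rw [← h6]
      refine Finset.sum_congr rfl fun k _ => ?_
      show _ = c (ι k) * (v (ι k) i : ℚ)
      rw [hw])
    intro j
    by_cases hj : j ∈ J.map ⟨ι, hι⟩
    · obtain ⟨k, hk, rfl⟩ := Finset.mem_map.1 hj
      exact h5 ⟨k, hk⟩
    · exact hc j hj
  · rintro i hi ⟨j0, hj0, h5, h6⟩
    obtain ⟨k0, hk0, rfl⟩ := Finset.mem_map.1 hj0
    refine h4 i hi ⟨k0, hk0, ?_, fun k hk hne => ?_⟩
    · rw [← hw]
      exact h5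
    · rw [← hw]
      exact h6 (ι k) ((hmem k).2 hk) fun h7 => hne (hι h7)

open Classical in
/-- extension by zero -/
noncomputable def ext0 (ι : Fin R → Fin r) (f : Fin R → ℚ) (j : Fin r) : ℚ :=
  if h : ∃ k, ι k = j then f h.choose else 0

lemma ext0_ι (ι : Fin R → Fin r) (hι : Function.Injective ι) (f : Fin R → ℚ) (k : Fin R) :
    ext0 ι f (ι k) = f k := by
  have h : ∃ k', ι k' = ι k := ⟨k, rfl⟩
  unfold ext0
  rw [dif_pos h, hι h.choose_spec]

lemma ext0_out (ι : Fin R → Fin r) (f : Fin R → ℚ) (j : Fin r) (h : ¬ ∃ k, ι k = j) :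
    ext0 ι f j = 0 := by
  unfold ext0
  rw [dif_neg h]

lemma sum_ext (ι : Fin R → Fin r) (hι : Function.Injective ι) (g : Fin r → ℚ)
    (hg : ∀ j, (¬ ∃ k, ι k = j) → g j = 0) : ∑ j, g j = ∑ k, g (ι k) := by
  classical
  have h1 : ∑ k, g (ι k) = ∑ j ∈ Finset.univ.image ι, g j := by
    rw [Finset.sum_image fun k _ k' _ h => hι h]
  rw [h1]
  symm
  refine Finset.sum_subset (Finset.subset_univ _) fun j _ hj => hg j ?_
  rintro ⟨k, rfl⟩
  exact hj (Finset.mem_image.2 ⟨k, Finset.mem_univ _, rfl⟩)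

open Classical in
lemma card_ext (ι : Fin R → Fin r) (hι : Function.Injective ι) (P : Fin r → Prop)
    (Q : Fin R → Prop) (h1 : ∀ k, P (ι k) ↔ Q k) (h2 : ∀ j, (¬ ∃ k, ι k = j) → ¬ P j) :
    (Finset.univ.filter P).card = (Finset.univ.filter Q).card := by
  rw [← Finset.card_map ⟨ι, hι⟩ (s := Finset.univ.filter Q)]
  congr 1
  ext j
  simp only [Finset.mem_filter, Finset.mem_univ, true_and, Finset.mem_map,
    Function.Embedding.coeFn_mk]
  constructor
  · intro hj
    by_cases h3 : ∃ k, ι k = j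
    · obtain ⟨k, rfl⟩ := h3
      exact ⟨k, (h1 k).1 hj, rfl⟩
    · exact absurd hj (h2 j h3)
  · rintro ⟨k, hk, rfl⟩
    exact (h1 k).2 hk

lemma circ_sub (v : Fin r → Fin N → ℕ) (w : Fin R → Fin N → ℕ) (ι : Fin R → Fin r)
    (hι : Function.Injective ι) (hw : ∀ k, v (ι k) = w k) (a : Fin N → ℕ)
    (hg : gord v a = gord w a) (h : Circ w a) : Circ v a := by
  classical
  obtain ⟨ha, D, k, s, c, h1, h2, h3, h4, h5, h6, h7, h8, h9, h10, h11, h12⟩ := h
  have hface : ∀ k', face w a k' → face v a (ι k') := fun k' hk' => by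
    show ∑ i, a i * v (ι k') i = gord v a
    rw [hg, hw]
    exact hk'
  have hmem : ∀ k, ι k ∈ D.map ⟨ι, hι⟩ ↔ k ∈ D := fun k => by
    rw [Finset.mem_map]
    constructor
    · rintro ⟨k', hk', h5⟩
      have : k' = k := hι h5
      rwa [← this]
    · intro hk
      exact ⟨k, hk, rfl⟩
  have hsum : ∀ (f : Fin R → ℚ) (i : Fin N), ∑ j, ext0 ι f j * (v j i : ℚ) =
      ∑ k, f k * (w k i : ℚ) := by
    intro f i
    rw [sum_ext ι hι _ fun j hj => by rw [ext0_out ι f j hj, zero_mul]]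
    refine Finset.sum_congr rfl fun k' _ => ?_
    rw [ext0_ι ι hι, hw]
  have hneg0 : ¬ NegI (0 : ℚ) := by
    rintro ⟨m, hm, hm'⟩
    have : (m : ℚ) = 0 := by linarith
    have : m = 0 := by exact_mod_cast this
    omega
  refine ⟨ha, D.map ⟨ι, hι⟩, ι k, ext0 ι s, ext0 ι c, fun h' => h1 ((hmem k).1 h'),
    by rw [Finset.card_map, h2], ?_, hface k h4, ?_, ?_, ?_, ?_, ?_, ?_, ?_, ?_⟩
  · intro j hj
    obtain ⟨k', hk', rfl⟩ := Finset.mem_map.1 hj
    exact hface k' (h3 k' hk')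
  · have hf0 : ∀ j : (D.map ⟨ι, hι⟩ : Finset (Fin r)), ∃ k' : Fin R, k' ∈ D ∧ ι k' = j.1 :=
      fun j => by
        obtain ⟨k', hk', h13⟩ := Finset.mem_map.1 j.2
        exact ⟨k', hk', h13⟩
    choose f hf using hf0
    have h13 := h5.comp (fun j => (⟨f j, (hf j).1⟩ : D)) (fun j j' hjj => by
      have h14 : f j = f j' := congrArg Subtype.val hjj
      apply Subtype.ext
      rw [← (hf j).2, ← (hf j').2, h14])
    have h15 : (fun j : (D.map ⟨ι, hι⟩ : Finset (Fin r)) => (fun i => (v j i : ℚ) : Fin N → ℚ)) =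
        (fun j : D => (fun i => (w j i : ℚ) : Fin N → ℚ)) ∘
          fun j => (⟨f j, (hf j).1⟩ : D) := by
      funext j i
      simp only [Function.comp_apply]
      rw [← hw, (hf j).2]
    rw [h15]
    exact h13
  · intro j hj
    by_cases hex : ∃ k', ι k' = j
    · obtain ⟨k', rfl⟩ := hex
      rw [ext0_ι ι hι]
      exact h6 k' fun h' => hj ((hmem k').2 h')
    · exact ext0_out ι s j hex
  · intro i
    rw [hsum]
    exact h7 i
  · intro j hj hjk
    by_cases hex : ∃ k', ι k' = j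
    · obtain ⟨k', rfl⟩ := hex
      rw [ext0_ι ι hι]
      exact h8 k' (fun h' => hj ((hmem k').2 h')) fun h' => hjk (by rw [h'])
    · exact ext0_out ι c j hex
  · rw [ext0_ι ι hι]
    exact h9
  · intro i
    rw [hsum]
    exact h10 i
  · intro j hj
    by_cases hex : ∃ k', ι k' = j
    · obtain ⟨k', rfl⟩ := hex
      rw [ext0_ι ι hι] at hj ⊢
      exact h11 k' hj
    · rw [ext0_out ι s j hex] at hj
      exact absurd hj hneg0
  · have e1 := card_ext ι hι (fun j => NegI (ext0 ι s j) ∧ 0 < ext0 ι c j)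
      (fun k => NegI (s k) ∧ 0 < c k) (fun k' => by rw [ext0_ι ι hι, ext0_ι ι hι])
      (fun j hj h' => by
        rw [ext0_out ι s j hj] at h'
        exact hneg0 h'.1)
    have e2 := card_ext ι hι (fun j => ext0 ι s j = 0 ∧ ext0 ι c j < 0)
      (fun k => s k = 0 ∧ c k < 0) (fun k' => by rw [ext0_ι ι hι, ext0_ι ι hι])
      (fun j hj h' => by
        rw [ext0_out ι c j hj] at h'
        exact lt_irrefl _ h'.2)
    refine lt_of_eq_of_lt ?_ (lt_of_lt_of_eq h12 ?_)
    · convert e1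
    · convert e2.symm

/-- **The recurrences for the points with all coordinates.** -/
theorem recJ_full [NeZero r] (hN3 : N ≤ 3) {F : Type} [Field F] (v : Fin r → Fin N → ℕ)
    (hv : Function.Injective v) (hv0 : ∀ j, v j ≠ 0) (h : MvPolynomial (Fin N) F)
    (hh : ∀ w ∈ h.support, NP v w) {R0 : ℕ} (m : Fin R0 → Fin N → ℕ)
    (hm : Function.Injective m) (hmv : ∀ j, ∃ x, m x = v j)
    (hull : ∀ x, InN v Finset.univ (m x))
    (q : ℕ) (hq : 2 ≤ q) (e : Finset (Fin R0) → ℂ) (he : KRelJ q m Finset.univ e) (T0 : ℂ)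
    (hT0 : T0 ≠ 0)
    (σ : ℚ) (hσ1 : σ ≠ 1) (hσ : ¬ HP v h (-σ) 0)
    (hlog : Real.log ‖T0‖ / Real.log q = (σ : ℝ)) : RecJ q m e Finset.univ T0 := by
  classical
  have hr : 0 < r := Nat.pos_of_ne_zero (NeZero.ne r)
  have hz : zf Finset.univ v = v := by
    funext j i
    exact zf_in (Finset.mem_univ i) v j
  obtain ⟨R, ι, hR, hι, hV, hcov⟩ := exists_sub hr v
  set w : Fin R → Fin N → ℕ := fun k => v (ι k) with hw
  have hwι : ∀ k, v (ι k) = w k := fun k => rfl
  have hR0 : 0 < R0 := by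
    obtain ⟨x, -⟩ := hmv ⟨0, hr⟩
    exact Fin.pos x
  have hNv : ∀ j, InN w Finset.univ (v j) := by
    intro j
    obtain ⟨l, h1, h2, h3⟩ := hcov j
    exact ⟨l, h1, h2, h3, fun i hi => absurd (Finset.mem_univ i) hi⟩
  have hNm : ∀ x, InN w Finset.univ (m x) := by
    intro x
    obtain ⟨c, h1, h3, h4, -⟩ := hull x
    choose l hl0 hl1 hl2 using hcov
    refine ⟨fun k => ∑ j, c j * l j k, fun k => Finset.sum_nonneg fun j _ =>
      mul_nonneg (h1 j) (hl0 j k), ?_, fun i => ?_, fun i hi => absurd (Finset.mem_univ i) hi⟩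
    · rw [Finset.sum_comm]
      simp only [← Finset.mul_sum, hl1, mul_one]
      exact h3
    · refine le_trans ?_ (h4 i)
      simp only [Finset.sum_mul]
      rw [Finset.sum_comm]
      refine Finset.sum_le_sum fun j _ => ?_
      have e1 : ∑ k', c j * l j k' * (w k' i : ℝ) = c j * ∑ k', l j k' * (w k' i : ℝ) := by
        rw [Finset.mul_sum]
        exact Finset.sum_congr rfl fun k' _ => by ring
      rw [e1]
      exact mul_le_mul_of_nonneg_left (hl2 j i) (h1 j)
  have hma : ∀ k, ∃ x, m x = w k := fun k => hmv (ι k)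
  have hgv : ∀ a, gord v a = gord w a := fun a =>
    gord_np v w Finset.univ hr hR (fun k => ⟨ι k, rfl⟩) hNv a
  obtain ⟨θ, p, hrel, hp⟩ := rel_sub v hv hv0 h hh (-σ) hσ Finset.univ w ι hι
    (fun k => by rw [hz]) (fun j => by rw [hz]; exact hcov j)
  have he' := krelJ_phi m w hm hma q Finset.univ e he
  have h1 : ((-Real.log ‖T0‖ / Real.log q : ℝ) : ℂ) = ((-σ : ℚ) : ℂ) := by
    rw [neg_div, hlog]
    push_cast
    rfl
  have hL : LocL w ∅ σ := by
    refine fun j1 => Or.inr fun a' _ hg' _ hl => Or.inl ?_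
    have hgv' : 0 < gord v a' := by rw [hgv]; exact hg'
    rcases atMost3 hN3 hR w hV a' hg' with h3 | h3 | h3 | h3
    · exfalso
      apply hσ1
      rw [← hl, h3]
      exact div_self (by exact_mod_cast hg'.ne')
    · exfalso
      apply hσ
      have h4 := hp_nonB v hv hv0 h hh a' hgv' (nonB_sub v w ι hι hwι a' (hgv a') h3)
      rw [hgv, hl] at h4
      exact h4
    · exfalso
      apply hσ
      have h4 := hp_circ v hv hv0 h hh a' hgv' (circ_sub v w ι hι hwι a' (hgv a') h3)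
      rw [hgv, hl] at h4
      exact h4
    · exact h3
  obtain ⟨Q, hQ, hrec⟩ := recJ_genY q hq w ∅ (yok_empty w) p θ hrel Finset.univ _ he' T0 hT0
    (by rw [h1]; exact hp) (by rw [hlog]; exact hypSY_of_locL hR w ∅ σ hL)
  refine ⟨Q, hQ, ?_⟩
  filter_upwards [hrec] with t ht
  rw [← ht]
  refine Finset.sum_congr rfl fun x _ => ?_
  rw [aJ_phiN m w Finset.univ hR0 hR hma hNm]

/-- **All the points, at most three variables.** -/
theorem hb_three [NeZero r] (hN3 : N ≤ 3) {F : Type} [Field F] (v : Fin r → Fin N → ℕ)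
    (hv : Function.Injective v) (hv0 : ∀ j, v j ≠ 0) (h : MvPolynomial (Fin N) F)
    (hh : ∀ w ∈ h.support, NP v w) {R0 : ℕ} (m : Fin R0 → Fin N → ℕ)
    (hm : Function.Injective m) (hmv : ∀ j, ∃ x, m x = v j)
    (hull : ∀ x, InC v Finset.univ (m x)) (hns : NoSp v) (J : Finset (Fin N))
    (q : ℕ) (hq : 2 ≤ q) (e : Finset (Fin R0) → ℂ) (he : KRelJ q m J e) (T0 : ℂ) (hT0 : T0 ≠ 0)
    (σ : ℚ) (hσ1 : σ ≠ 1) (hσ : ¬ HP v h (-σ) 0)
    (hlog : Real.log ‖T0‖ / Real.log q = (σ : ℝ)) : RecJ q m e J T0 := by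
  classical
  by_cases hJ : J.card ≤ 2
  · exact recJ_plane v hv hv0 h hh m hm hmv hull hns J hJ q hq e he T0 hT0 σ hσ1 hσ hlog
  · have hJu : J = Finset.univ := by
      apply Finset.eq_univ_of_card
      have h1 := Finset.card_le_univ J
      rw [Fintype.card_fin] at h1 ⊢
      omega
    subst hJu
    exact recJ_full hN3 v hv hv0 h hh m hm hmv (fun x => by
      obtain ⟨c, h1, -, h3, h4⟩ := hull x
      exact ⟨c, h1, h3, fun i => (h4 i).le, fun i _ => h4 i⟩) q hq e he T0 hT0 σ hσ1 hσ hlog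

end Pool.Agent.TH216.G3
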