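import Pool.Agent.TH216.G3.S8
import Pool.Agent.TH216.G3.Q6

set_option autoImplicit false

/-! The recurrences, without the special pairs, and the motivic zeta functions. -/

namespace Pool.Agent.TH216.G3

open MvPolynomial Pool.Agent.H628R4.TP Pool.Agent.W425.SV Pool.Agent.W425.MM
open Pool.Agent.W425.GN
open Pool.Agent.W426.SM (gord ford IsRay face)
open Pool.Agent.W803.SM (gord_le exists_gord)
open Pool.Agent.TH216.MF
open Pool.Agent.TH216.LX (Vert InN gord_np aJ_phiN vert2)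
open Pool.Agent.TH216.ID (YOK recJ_genY)
open Pool.Agent.W425.BF (shf shf_eval shf_ne hz hz_support hz_eq cof)
open Pool.Agent.TH216.MC (ConM)

variable {r N R : ℕ}

/-- **The recurrences for the points with at most two coordinates.** -/
theorem recJ_plane2 [NeZero r] {F : Type} [Field F] (v : Fin r → Fin N → ℕ)
    (hv : Function.Injective v) (hv0 : ∀ j, v j ≠ 0) (h : MvPolynomial (Fin N) F)
    (hh : ∀ w ∈ h.support, NP v w) {R0 : ℕ} (m : Fin R0 → Fin N → ℕ)
    (hm : Function.Injective m) (hmv : ∀ j, ∃ x, m x = v j)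
    (hull : ∀ x, InC v Finset.univ (m x)) (J : Finset (Fin N)) (hJ : J.card ≤ 2)
    (hns : ¬ ∃ i k, J = {i, k} ∧ SpJ m i k)
    (q : ℕ) (hq : 2 ≤ q) (e : Finset (Fin R0) → ℂ) (he : KRelJ q m J e) (T0 : ℂ) (hT0 : T0 ≠ 0)
    (σ : ℚ) (hσ1 : σ ≠ 1) (hσ : ¬ HP v h (-σ) 0)
    (hlog : Real.log ‖T0‖ / Real.log q = (σ : ℝ)) : RecJ q m e J T0 := by
  classical
  have hr : 0 < r := Nat.pos_of_ne_zero (NeZero.ne r)
  obtain ⟨R, ι, hR, hι, hV, hcov⟩ := exists_sub hr (zf J v)
  set w : Fin R → Fin N → ℕ := fun k => zf J v (ι k) with hw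
  have hwι : ∀ k, zf J v (ι k) = w k := fun k => rfl
  have hw0 : ∀ i, i ∉ J → ∀ k, w k i = 0 := fun i hi k => by rw [← hwι k, zf_out hi]
  have hR0 : 0 < R0 := by
    obtain ⟨x, -⟩ := hmv ⟨0, hr⟩
    exact Fin.pos x
  have hcovm : ∀ x, ∃ l : Fin R → ℝ, (∀ k, 0 ≤ l k) ∧ ∑ k, l k = 1 ∧
        ∀ i, ∑ k, l k * (w k i : ℝ) ≤ (zf J m x i : ℝ) := by
    intro x
    obtain ⟨c, h1, -, h3, h4⟩ := hull x
    choose l hl0 hl1 hl2 using hcov
    refine ⟨fun k => ∑ j, c j * l j k, fun k => Finset.sum_nonneg fun j _ =>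
      mul_nonneg (h1 j) (hl0 j k), ?_, fun i => ?_⟩
    · rw [Finset.sum_comm]
      simp only [← Finset.mul_sum, hl1, mul_one]
      exact h3
    · simp only [Finset.sum_mul]
      rw [Finset.sum_comm]
      have e0 : (zf J m x i : ℝ) = ∑ j, c j * (zf J v j i : ℝ) := by
        by_cases hi : i ∈ J
        · simp only [zf_in hi]
          exact (h4 i).symm
        · simp only [zf_out hi]
          simp
      rw [e0]
      refine Finset.sum_le_sum fun j _ => ?_
      have e1 : ∑ k', c j * l j k' * (w k' i : ℝ) = c j * ∑ k', l j k' * (w k' i : ℝ) := by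
        rw [Finset.mul_sum]
        exact Finset.sum_congr rfl fun k' _ => by ring
      rw [e1]
      exact mul_le_mul_of_nonneg_left (hl2 j i) (h1 j)
  have hN : ∀ x, InN w J (zf J m x) := fun x => cov_inN hw0 x (hcovm x)
  have hma : ∀ k, ∃ x, zf J m x = w k := by
    intro k
    obtain ⟨x, hx⟩ := hmv (ι k)
    refine ⟨x, ?_⟩
    rw [← hwι k]
    funext i
    by_cases hi : i ∈ J
    · rw [zf_in hi, zf_in hi, hx]
    · rw [zf_out hi, zf_out hi]
  have he0 := krelJ_zf he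
  set e' : Finset (Fin R) → ℂ := fun τ => e (PhiC (zf J m) w τ) with he'
  have haJ : ∀ t : ℤ, aJ q w e' J t = aJ q m e J t := by
    intro t
    rw [← aJ_zf q m e J t]
    exact aJ_phiN (zf J m) w J hR0 hR hma hN q e t
  suffices hmain : RecJ q w e' J T0 by
    obtain ⟨Q, hQ, hrec⟩ := hmain
    refine ⟨Q, hQ, ?_⟩
    filter_upwards [hrec] with t ht
    rw [← ht]
    exact Finset.sum_congr rfl fun m _ => by rw [haJ]
  -- the good apices
  have hgood : ∀ i ∈ J, ∀ j0, w j0 i = 1 → ∀ τ : Finset (Fin R), (∀ j ∈ τ, w j i = 0) →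
      ¬ (∃ x y, x ≠ y ∧ zf J m x = w j0 ∧ zf J m y = w j0) →
      ((q : ℂ) - 1) * e' (insert j0 τ) + e' τ = 0 := by
    intro i hi j0 hj0 τ hτ hbad
    obtain ⟨k0, hk0⟩ := hma j0
    refine good_rel (zf J m) w q J e he0 i hi j0 τ hj0 hτ k0 hk0 fun x hx => ?_
    by_contra hne
    exact hbad ⟨x, k0, hne, hx, hk0⟩
  by_cases hsp : ∃ (k0 k1 : Fin R) (i k : Fin N), i ∈ J ∧ k ∈ J ∧ i ≠ k ∧ w k0 i = 1 ∧
      w k0 k = 0 ∧ w k1 i = 0 ∧ w k1 k = 1
  · -- the special pair
    obtain ⟨k0, k1, i, k, hi, hk, hik, h0i, h0k, h1i, h1k⟩ := hsp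
    have hJe : J = {i, k} := by
      symm
      apply Finset.eq_of_subset_of_card_le
      · intro z hz
        rw [Finset.mem_insert, Finset.mem_singleton] at hz
        rcases hz with rfl | rfl
        · exact hi
        · exact hk
      · rw [Finset.card_pair hik]
        exact hJ
    have hJ2 : ∀ t ∈ J, t = i ∨ t = k := by
      intro t ht
      rw [hJe, Finset.mem_insert, Finset.mem_singleton] at ht
      exact ht
    have hle : ∀ x y : Fin R, w x i ≤ w y i → w x k ≤ w y k → y = x := by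
      intro x y h1 h2
      by_contra hne
      refine vert2 hV hne fun t => ?_
      show w x t ≤ w y t
      by_cases ht : t ∈ J
      · rcases hJ2 t ht with rfl | rfl
        · exact h1
        · exact h2
      · rw [hw0 t ht]
        exact Nat.zero_le _
    have hall : ∀ j, j = k0 ∨ j = k1 := by
      intro j
      by_cases h1 : w j i = 0
      · by_cases h2 : w j k = 0
        · left
          exact (hle j k0 (by omega) (by omega)).symm
        · right
          exact hle k1 j (by omega) (by omega)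
      · left
        exact hle k0 j (by omega) (by omega)
    exfalso
    have e1 : ∀ t ∈ J, ∀ x y, zf J m x = w y → m x t = w y t := fun t ht x y hxy => by
      rw [← hxy, zf_in ht]
    refine hns ⟨i, k, hJe, hik, fun x => ?_, ?_, ?_⟩
    · by_contra hcon
      push Not at hcon
      obtain ⟨l, hl0, hl1, hl2⟩ := hcovm x
      have h3 := hl2 i
      have h4 := hl2 k
      rw [zf_in hi, hcon.1] at h3
      rw [zf_in hk, hcon.2] at h4
      have h5 : ∑ x, l x * (w x i : ℝ) + ∑ x, l x * (w x k : ℝ) = 1 := by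
        rw [← Finset.sum_add_distrib, ← hl1]
        refine Finset.sum_congr rfl fun x _ => ?_
        rcases hall x with rfl | rfl
        · rw [h0i, h0k]
          simp
        · rw [h1i, h1k]
          simp
      push_cast at h3 h4
      linarith
    · obtain ⟨x, hx⟩ := hma k0
      exact ⟨x, by rw [e1 i hi x k0 hx, h0i], by rw [e1 k hk x k0 hx, h0k]⟩
    · obtain ⟨x, hx⟩ := hma k1
      exact ⟨x, by rw [e1 i hi x k1 hx, h1i], by rw [e1 k hk x k1 hx, h1k]⟩
  · -- no special pair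
    obtain ⟨θ, p, hrel, hp⟩ := rel_sub v hv hv0 h hh (-σ) hσ J w ι hι hwι hcov
    have h1 : ((-Real.log ‖T0‖ / Real.log q : ℝ) : ℂ) = ((-σ : ℚ) : ℂ) := by
      rw [neg_div, hlog]
      push_cast
      rfl
    refine recJ_split hR q hq w J e'
      (fun k => (∃ i ∈ J, w k i = 1) ∧ ∃ x y, x ≠ y ∧ zf J m x = w k ∧ zf J m y = w k)
      (fun i hi j0 hj0 τ hτ hbad => hgood i hi j0 hj0 τ hτ fun h2 => hbad ⟨⟨i, hi, hj0⟩, h2⟩)
      T0 σ hlog (fun e'' he'' => recJ_genY q hq w ∅ (yok_empty w) p θ hrel J e'' he'' T0 hT0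
        (by rw [h1]; exact hp) (by rw [hlog]; exact hypSY_two hR w hV J hJ hw0 σ)) ?_
    rintro k ⟨⟨i, hi, hki⟩, x, y, hxy, hx, hy⟩ a ha hg hf haJ' hlev
    obtain ⟨β, hβ, hβk⟩ := fibre v m hm hmv hull J ι w hV hcov k x y hxy hx hy
    rcases bad_ray v hv hv0 h hh J hJ ι w hwι hR hcov hsp k β hβk hβ i hi hki a ha hg hf haJ'
      with h2 | h2
    · apply hσ1
      rw [← hlev, h2]
      exact div_self (by exact_mod_cast hg.ne')
    · rw [hlev] at h2
      exact hσ h2


/-- **All the points without special pairs, at most three variables.** -/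
theorem hb_three2 [NeZero r] (hN3 : N ≤ 3) {F : Type} [Field F] (v : Fin r → Fin N → ℕ)
    (hv : Function.Injective v) (hv0 : ∀ j, v j ≠ 0) (h : MvPolynomial (Fin N) F)
    (hh : ∀ w ∈ h.support, NP v w) {R0 : ℕ} (m : Fin R0 → Fin N → ℕ)
    (hm : Function.Injective m) (hmv : ∀ j, ∃ x, m x = v j)
    (hull : ∀ x, InC v Finset.univ (m x)) (J : Finset (Fin N))
    (hns : ¬ ∃ i k, J = {i, k} ∧ SpJ m i k)
    (q : ℕ) (hq : 2 ≤ q) (e : Finset (Fin R0) → ℂ) (he : KRelJ q m J e) (T0 : ℂ) (hT0 : T0 ≠ 0)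
    (σ : ℚ) (hσ1 : σ ≠ 1) (hσ : ¬ HP v h (-σ) 0)
    (hlog : Real.log ‖T0‖ / Real.log q = (σ : ℝ)) : RecJ q m e J T0 := by
  classical
  by_cases hJ : J.card ≤ 2
  · exact recJ_plane2 v hv hv0 h hh m hm hmv hull J hJ hns q hq e he T0 hT0 σ hσ1 hσ hlog
  · have hJu : J = Finset.univ := by
      apply Finset.eq_univ_of_card
      have h1 := Finset.card_le_univ J
      rw [Fintype.card_fin] at h1 ⊢
      omega
    subst hJu
    exact recJ_full hN3 v hv hv0 h hh m hm hmv (fun x => by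
      obtain ⟨c, h1, -, h3, h4⟩ := hull x
      exact ⟨c, h1, h3, fun i => (h4 i).le, fun i _ => h4 i⟩) q hq e he T0 hT0 σ hσ1 hσ hlog

theorem hbs_three [NeZero r] (hN3 : N ≤ 3) {F : Type} [Field F] (v : Fin r → Fin N → ℕ)
    (hv : Function.Injective v) (hv0 : ∀ j, v j ≠ 0) (h : MvPolynomial (Fin N) F)
    (hull : ∀ w ∈ h.support, InC v Finset.univ (fun i => w i))
    (hvh : ∀ w ∈ h.support, ∀ j, ¬ ∀ x, w x = v j x) :
    HBS (Fin.append v (we h)) fun σ => σ ≠ 1 ∧ ¬ HP v h (-σ) 0 := by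
  intro J
  by_cases hns : ∃ i k, J = {i, k} ∧ SpJ (Fin.append v (we h)) i k
  · exact Or.inl hns
  · refine Or.inr ?_
    rintro q hq e he T0 hT0 σ ⟨h1, h2⟩ hlog
    exact hb_three2 hN3 v hv hv0 h (inC_np v h hull) _ (app_inj v hv h hvh) (app_mem v h)
      (app_hull v h hull) J hns q hq e he T0 hT0 σ h1 h2 hlog

theorem both_sp (hN3 : N ≤ 3) (m : Fin r → Fin N → ℕ) (hr0 : 0 < r) (Bad : ℚ → Prop)
    (hB : HBS m Bad) : Both m Bad := by
  obtain ⟨S1, h1, h1'⟩ := fin_sp hN3 m hr0 Bad hB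
  obtain ⟨S2, h2, h2'⟩ := efin_sp hN3 m hr0 Bad hB
  refine ⟨S1 ∪ S2, fun p hp => (Finset.mem_union.1 hp).elim (h1 p) (h2 p), ?_, ?_⟩
  · intro K _ _ c hN hc W E hW hE
    refine Algebra.adjoin_mono (Set.union_subset_union_right _ ?_) (h1' K c hN hc W E hW hE)
    rintro g ⟨p, hp, rfl⟩
    exact ⟨p, Finset.mem_coe.2 (Finset.mem_union_left _ (Finset.mem_coe.1 hp)), rfl⟩
  · intro k _ _ c hN hc
    have h3 := h2' k c hN hc
    unfold Pool.Agent.W428.MOT.InRat at h3 ⊢
    refine Algebra.adjoin_mono (Set.union_subset_union_right _ ?_) h3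
    rintro g ⟨p, hp, rfl⟩
    exact ⟨p, Finset.mem_coe.2 (Finset.mem_union_right _ (Finset.mem_coe.1 hp)), rfl⟩

/-- **Generic coefficients, global `b`-functions, at most three variables, all the Newton
polytopes.** -/
theorem gen_mot3 {F : Type} [Field F] [Algebra F ℂ] (hr : 0 < r) (hN3 : N ≤ 3)
    (v : Fin r → Fin N → ℕ) (hv : Function.Injective v) (hv0 : ∀ j, v j ≠ 0)
    (h : MvPolynomial (Fin N) F) (hull : ∀ w ∈ h.support, InC v Finset.univ (fun i => w i)) :
    ∃ g : MvPolynomial (Fin r) F, g ≠ 0 ∧ ConM IsBFunction v h g := by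
  have hne : NeZero r := ⟨by omega⟩
  exact gen3z hr v hv hv0 h (inC_np v h hull) (both_sp hN3 _ (by omega) _
    (hbs_three hN3 v hv hv0 (hz v h)
    (fun w hw => hull w ((hz_support v hv h).1 w hw)) (hz_support v hv h).2))

end Pool.Agent.TH216.G3
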